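import Pool.Agent.Lib.Sieve.Selberg
import Pool.Agent.Lib.Tup.MAP

-- part Pool.Agent.P.MP_dddec0_nt.OddA
section

/-! Counting lemmas for products of local functions. -/

namespace Pool.Agent.P.MP_dddec0_nt.Odd
open Finset Pool.Agent.Lib.Sieve

/-- Indicator of the residue classes `R p` modulo `p`. -/
noncomputable def ind (R : ℕ → Finset ℕ) (p t : ℕ) : ℝ := if t % p ∈ R p then 1 else 0

theorem ind_nonneg (R : ℕ → Finset ℕ) (p t : ℕ) : 0 ≤ ind R p t := by
  unfold ind; split_ifs <;> norm_num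

theorem per_abs {q : ℕ} (hq : 0 < q) (F : ℕ → ℝ) (hF : ∀ n, F n = F (n % q))
    (h0 : ∀ n, 0 ≤ F n) (N : ℕ) :
    |∑ n ∈ range N, F n - N * ((∑ i ∈ range q, F i) / q)| ≤ ∑ i ∈ range q, F i := by
  set c := ∑ i ∈ range q, F i with hc
  have hc0 : 0 ≤ c := sum_nonneg fun i _ => h0 i
  have hN : N = q * (N / q) + N % q := (Nat.div_add_mod N q).symm
  set k := N / q
  set r := N % q
  have hr : r < q := Nat.mod_lt _ hq
  have hq' : (0 : ℝ) < q := by exact_mod_cast hq
  have h1 : ∑ n ∈ range N, F n = k * c + ∑ x ∈ range r, F x := by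
    rw [hN, sum_range_add, sum_range_mul_periodic F hF k]
    congr 1
    refine sum_congr rfl fun x _ => ?_
    rw [hF (q * k + x), Nat.mul_add_mod, ← hF]
  have h2 : ∑ x ∈ range r, F x ≤ c :=
    sum_le_sum_of_subset_of_nonneg (range_subset_range.2 hr.le) fun i _ _ => h0 i
  have h3 : 0 ≤ ∑ x ∈ range r, F x := sum_nonneg fun i _ => h0 i
  have h4 : (N : ℝ) * (c / q) = k * c + (r : ℝ) / q * c := by
    rw [hN]; push_cast; field_simp
  have h5 : (r : ℝ) / q ≤ 1 := by
    rw [div_le_one hq']; exact_mod_cast hr.le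
  have h6 : 0 ≤ (r : ℝ) / q := by positivity
  have h7 : (r : ℝ) / q * c ≤ c := by nlinarith
  have h8 : 0 ≤ (r : ℝ) / q * c := by positivity
  rw [h1, h4, abs_le]
  constructor <;> linarith

theorem cnt_ind (U : Finset ℕ) (hU : ∀ p ∈ U, p.Prime) (R : ℕ → Finset ℕ)
    (hR : ∀ p ∈ U, R p ⊆ range p) (N : ℕ) :
    |∑ t ∈ range N, ∏ p ∈ U, ind R p t - N * ∏ p ∈ U, (((R p).card : ℝ) / p)|
      ≤ ∏ p ∈ U, ((R p).card : ℝ) := by
  have hq : 0 < ∏ p ∈ U, p := prod_pos fun q hq => (hU q hq).pos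
  have h := per_abs hq (fun t => ∏ p ∈ U, ind R p t) (fun n => prod_congr rfl fun p hp => by
    unfold ind; rw [Nat.mod_mod_of_dvd _ (dvd_prod_of_mem _ hp)])
    (fun n => prod_nonneg fun p _ => ind_nonneg R p n) N
  rw [sum_range_prod U hU (ind R) (fun p _ n => by unfold ind; rw [Nat.mod_mod])] at h
  have h1 : ∏ p ∈ U, ∑ i ∈ range p, ind R p i = ∏ p ∈ U, ((R p).card : ℝ) :=
    prod_congr rfl fun p hp => by
      unfold ind; rw [sum_ite_range R (hR p hp)]; ring
  rwa [h1, Nat.cast_prod, ← prod_div_distrib] at h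

theorem cnt_lin (U : Finset ℕ) (hU : ∀ p ∈ U, p.Prime) (R : ℕ → Finset ℕ)
    (hR : ∀ p ∈ U, R p ⊆ range p) (α β : ℕ → ℝ) (N : ℕ) :
    |∑ t ∈ range N, ∏ p ∈ U, (β p * ind R p t + α p)
        - N * ∏ p ∈ U, (β p * (((R p).card : ℝ) / p) + α p)|
      ≤ ∏ p ∈ U, (|β p| * (R p).card + |α p|) := by
  classical
  simp only [prod_add]
  rw [sum_comm, mul_sum, ← sum_sub_distrib]
  refine (abs_sum_le_sum_abs _ _).trans (sum_le_sum fun V hV => ?_)
  have hV' := mem_powerset.1 hV
  have h := cnt_ind V (fun p hp => hU p (hV' hp)) R (fun p hp => hR p (hV' hp)) N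
  simp only [prod_mul_distrib]
  have h1 : ∑ t ∈ range N, ((∏ p ∈ V, β p) * ∏ p ∈ V, ind R p t) * ∏ p ∈ U \ V, α p
      - N * (((∏ p ∈ V, β p) * ∏ p ∈ V, (((R p).card : ℝ) / p)) * ∏ p ∈ U \ V, α p)
      = ((∏ p ∈ V, β p) * ∏ p ∈ U \ V, α p) *
        (∑ t ∈ range N, ∏ p ∈ V, ind R p t - N * ∏ p ∈ V, (((R p).card : ℝ) / p)) := by
    rw [mul_sub, mul_sum]
    congr 1
    · exact sum_congr rfl fun t _ => by ring
    · ring
  rw [h1, abs_mul, abs_mul, abs_prod, abs_prod]
  have h2 : 0 ≤ (∏ p ∈ V, |β p|) * ∏ p ∈ U \ V, |α p| := by positivity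
  calc _ ≤ ((∏ p ∈ V, |β p|) * ∏ p ∈ U \ V, |α p|) * ∏ p ∈ V, ((R p).card : ℝ) :=
        mul_le_mul_of_nonneg_left h h2
    _ = _ := by ring

theorem hw_ratio {p r : ℕ} (hp : 0 < p) (h : 2 * r ≤ p) :
    (1 + hw p r) * ((r : ℝ) / p) = hw p r := by
  have h1 : (2 * r : ℝ) ≤ p := by exact_mod_cast h
  have h2 : (0 : ℝ) ≤ r := by positivity
  have h3 : (0 : ℝ) < p := by exact_mod_cast hp
  have h4 : (p : ℝ) - r ≠ 0 := by linarith
  unfold hw
  field_simp
  ring

theorem pair (P U : Finset ℕ) (hd : Disjoint P U) (hP : ∀ p ∈ P, p.Prime)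
    (hU : ∀ p ∈ U, p.Prime) (R : ℕ → Finset ℕ) (hRP : ∀ p ∈ P, R p ⊆ range p)
    (hRU : ∀ p ∈ U, R p ⊆ range p) (h2 : ∀ p ∈ P, 2 * (R p).card ≤ p) {K : ℝ}
    (hK : ∀ p ∈ P, 1 + 2 * ((R p).card : ℝ) ≤ K) {A B : Finset ℕ} (hA : A ⊆ P) (hB : B ⊆ P)
    (N : ℕ) :
    |∑ t ∈ range N, (∏ p ∈ A, th R p t) * (∏ p ∈ B, th R p t) * ∏ p ∈ U, ind R p t
        - N * ((∏ p ∈ U, (((R p).card : ℝ) / p)) *
          (if A = B then ∏ p ∈ A, hw p (R p).card else 0))|
      ≤ (∏ p ∈ U, ((R p).card : ℝ)) * (K ^ A.card * K ^ B.card) := by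
  classical
  let h : ℕ → ℝ := fun p => hw p (R p).card
  let α : ℕ → ℝ := fun p => if p ∈ P then (if p ∈ A then h p else 1) * (if p ∈ B then h p else 1)
    else 0
  let β : ℕ → ℝ := fun p => if p ∈ P then (if p ∈ A then -1 else 1) * (if p ∈ B then -1 else 1)
    - α p else 1
  have hnU : ∀ p ∈ U, p ∉ P := fun p hp hp' => disjoint_left.1 hd hp' hp
  have hc := cnt_lin (P ∪ U) (fun p hp => (mem_union.1 hp).elim (hP p) (hU p)) R
    (fun p hp => (mem_union.1 hp).elim (hRP p) (hRU p)) α β N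
  simp only [prod_union hd] at hc
  have e1 : ∀ t, ∏ p ∈ P, (β p * ind R p t + α p) = (∏ p ∈ A, th R p t) * ∏ p ∈ B, th R p t := by
    intro t
    rw [← inter_eq_right.2 hA, ← prod_ite_mem, ← inter_eq_right.2 hB, ← prod_ite_mem,
      ← prod_mul_distrib]
    refine prod_congr rfl fun p hp => ?_
    simp only [α, β, h, hp, if_true, ind, th]
    split_ifs <;> ring
  have e2 : ∀ x : ℕ → ℝ, ∏ p ∈ U, (β p * x p + α p) = ∏ p ∈ U, x p := fun x =>
    prod_congr rfl fun p hp => by simp only [α, β, hnU p hp, if_false]; ring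
  have e3 : ∏ p ∈ P, (β p * (((R p).card : ℝ) / p) + α p)
      = if A = B then ∏ p ∈ A, hw p (R p).card else 0 := by
    split_ifs with hAB
    · subst hAB
      rw [← inter_eq_right.2 hA, ← prod_ite_mem]
      refine prod_congr rfl fun p hp => ?_
      have := hw_ratio (hP p hp).pos (h2 p hp)
      simp only [α, β, h, hp, if_true]
      split_ifs
      · linear_combination (1 - hw p (R p).card) * this
      · ring
    · obtain ⟨p, hp⟩ : ∃ p, ¬ (p ∈ A ↔ p ∈ B) := by
        by_contra hc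
        push Not at hc
        exact hAB (Finset.ext fun p => by simpa using hc p)
      have hpP : p ∈ P := by
        by_cases h1 : p ∈ A
        · exact hA h1
        · exact hB (by tauto)
      refine prod_eq_zero hpP ?_
      have := hw_ratio (hP p hpP).pos (h2 p hpP)
      simp only [α, β, h, hpP, if_true]
      split_ifs
      · tauto
      · linear_combination -this
      · linear_combination -this
      · tauto
  have e4 : ∏ p ∈ U, (|β p| * ((R p).card : ℝ) + |α p|) = ∏ p ∈ U, ((R p).card : ℝ) :=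
    prod_congr rfl fun p hp => by simp [α, β, hnU p hp]
  have e5 : ∏ p ∈ P, (|β p| * ((R p).card : ℝ) + |α p|) ≤ K ^ A.card * K ^ B.card := by
    rw [← prod_const, ← prod_const, ← inter_eq_right.2 hA, ← prod_ite_mem,
      ← inter_eq_right.2 hB, ← prod_ite_mem, ← prod_mul_distrib]
    refine prod_le_prod (fun p _ => by positivity) fun p hp => ?_
    have a0 : 0 ≤ h p := hw_nonneg (h2 p hp)
    have a1 : h p ≤ 1 := hw_le_one (hP p hp).pos (h2 p hp)
    have a2 := hK p hp
    have a3 : (0 : ℝ) ≤ (R p).card := by positivity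
    simp only [α, β, hp, if_true]
    split_ifs
    · rw [abs_of_nonneg (by nlinarith), abs_of_nonneg (by positivity)]
      have : h p * h p ≤ 1 := by nlinarith
      have : 0 ≤ h p * h p := by positivity
      nlinarith
    · rw [abs_of_nonpos (by linarith), abs_of_nonneg (by linarith)]; nlinarith
    · rw [abs_of_nonpos (by linarith), abs_of_nonneg (by linarith)]; nlinarith
    · simp
  simp only [e1, e2, e3, e4] at hc
  rw [mul_comm (∏ p ∈ U, (((R p).card : ℝ) / p))]
  refine hc.trans ?_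
  rw [mul_comm]
  exact mul_le_mul_of_nonneg_left e5 (prod_nonneg fun p _ => by positivity)

theorem quad (P U : Finset ℕ) (hd : Disjoint P U) (hP : ∀ p ∈ P, p.Prime)
    (hU : ∀ p ∈ U, p.Prime) (R : ℕ → Finset ℕ) (hRP : ∀ p ∈ P, R p ⊆ range p)
    (hRU : ∀ p ∈ U, R p ⊆ range p) (h2 : ∀ p ∈ P, 2 * (R p).card ≤ p) {K : ℝ}
    (hK : ∀ p ∈ P, 1 + 2 * ((R p).card : ℝ) ≤ K) (ψ : Finset ℕ → ℝ) (N : ℕ) :
    |∑ t ∈ range N, (∑ A ∈ P.powerset, ψ A * ∏ p ∈ A, th R p t) ^ 2 * ∏ p ∈ U, ind R p t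
        - N * ((∏ p ∈ U, (((R p).card : ℝ) / p)) *
          ∑ A ∈ P.powerset, ψ A ^ 2 * ∏ p ∈ A, hw p (R p).card)|
      ≤ (∏ p ∈ U, ((R p).card : ℝ)) * (∑ A ∈ P.powerset, |ψ A| * K ^ A.card) ^ 2 := by
  classical
  have e1 : ∑ t ∈ range N, (∑ A ∈ P.powerset, ψ A * ∏ p ∈ A, th R p t) ^ 2 * ∏ p ∈ U, ind R p t
      = ∑ A ∈ P.powerset, ∑ B ∈ P.powerset, ψ A * ψ B *
        ∑ t ∈ range N, (∏ p ∈ A, th R p t) * (∏ p ∈ B, th R p t) * ∏ p ∈ U, ind R p t := by
    simp only [sq, sum_mul, mul_sum]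
    rw [sum_comm]
    refine sum_congr rfl fun A _ => ?_
    rw [sum_comm]
    exact sum_congr rfl fun B _ => sum_congr rfl fun t _ => by ring
  have e2 : (N : ℝ) * ((∏ p ∈ U, (((R p).card : ℝ) / p)) *
        ∑ A ∈ P.powerset, ψ A ^ 2 * ∏ p ∈ A, hw p (R p).card)
      = ∑ A ∈ P.powerset, ∑ B ∈ P.powerset, ψ A * ψ B *
        (N * ((∏ p ∈ U, (((R p).card : ℝ) / p)) *
          (if A = B then ∏ p ∈ A, hw p (R p).card else 0))) := by
    rw [mul_sum, mul_sum]
    refine sum_congr rfl fun A hA => ?_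
    simp only [mul_ite, mul_zero, sum_ite_eq, hA, if_true]
    ring
  rw [e1, e2, ← sum_sub_distrib, sq, sum_mul_sum, mul_sum]
  refine (abs_sum_le_sum_abs _ _).trans (sum_le_sum fun A hA => ?_)
  rw [← sum_sub_distrib, mul_sum]
  refine (abs_sum_le_sum_abs _ _).trans (sum_le_sum fun B hB => ?_)
  rw [← mul_sub, abs_mul, abs_mul]
  have := pair P U hd hP hU R hRP hRU h2 hK (mem_powerset.1 hA) (mem_powerset.1 hB) N
  calc _ ≤ |ψ A| * |ψ B| * ((∏ p ∈ U, ((R p).card : ℝ)) * (K ^ A.card * K ^ B.card)) :=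
        mul_le_mul_of_nonneg_left this (by positivity)
    _ = _ := by ring

end Pool.Agent.P.MP_dddec0_nt.Odd
end

-- part Pool.Agent.P.MP_dddec0_nt.OddB
section

/-! Tails of the sieve sums. -/

namespace Pool.Agent.P.MP_dddec0_nt.Odd
open Finset Real Pool.Agent.Lib.Sieve Pool.Agent.Lib.Tup

/-- Standing hypotheses on the sieving primes `P`, the removed classes `R` and the scale `l`. -/
structure Hyp (P : Finset ℕ) (R : ℕ → Finset ℕ) (l : ℝ) : Prop where
  pos : 0 < l
  prime : ∀ p ∈ P, p.Prime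
  sub : ∀ p ∈ P, R p ⊆ range p
  card : ∀ p ∈ P, (R p).card ≤ 30
  big : ∀ p ∈ P, 60 ≤ p
  small : ∀ p ∈ P, log p ≤ l
  mert : ∑ p ∈ P, log p / p ≤ 101 / 100 * l
  inv : ∑ p ∈ P, 1 / (p : ℝ) ≤ l / 1000

/-- The product of the local weights. -/
noncomputable def hA (R : ℕ → Finset ℕ) (A : Finset ℕ) : ℝ := ∏ p ∈ A, hw p (R p).card

/-- The inverse density of the sifted set. -/
noncomputable def EE (P : Finset ℕ) (R : ℕ → Finset ℕ) : ℝ := ∑ A ∈ P.powerset, hA R A

variable {P : Finset ℕ} {R : ℕ → Finset ℕ} {l : ℝ}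

theorem Hyp.two (H : Hyp P R l) : ∀ p ∈ P, 2 * (R p).card ≤ p := fun p hp => by
  have := H.card p hp; have := H.big p hp; omega

theorem Hyp.cK (H : Hyp P R l) : ∀ p ∈ P, 1 + 2 * ((R p).card : ℝ) ≤ 61 := fun p hp => by
  have : ((R p).card : ℝ) ≤ 30 := by exact_mod_cast H.card p hp
  linarith

theorem Hyp.mono (H : Hyp P R l) {Q : Finset ℕ} (h : Q ⊆ P) : Hyp Q R l where
  pos := H.pos
  prime p hp := H.prime p (h hp)
  sub p hp := H.sub p (h hp)
  card p hp := H.card p (h hp)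
  big p hp := H.big p (h hp)
  small p hp := H.small p (h hp)
  mert := (sum_le_sum_of_subset_of_nonneg h fun p _ _ =>
    div_nonneg (log_natCast_nonneg p) (by positivity)).trans H.mert
  inv := (sum_le_sum_of_subset_of_nonneg h fun p _ _ => by positivity).trans H.inv

theorem Hyp.hA_nonneg (H : Hyp P R l) {A : Finset ℕ} (hA' : A ⊆ P) : 0 ≤ hA R A :=
  prod_nonneg fun p hp => hw_nonneg (H.two p (hA' hp))

theorem EE_eq : EE P R = ∏ p ∈ P, (1 + hw p (R p).card) := by
  unfold EE hA; rw [prod_one_add]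

theorem Hyp.one_le (H : Hyp P R l) : 1 ≤ EE P R := by
  rw [EE_eq]
  calc (1 : ℝ) = ∏ _p ∈ P, (1 : ℝ) := by simp
    _ ≤ _ := prod_le_prod (fun _ _ => zero_le_one) fun p hp => by
      linarith [hw_nonneg (H.two p hp)]

theorem Hyp.prod_le (H : Hyp P R l) {K : ℝ} (hK : 0 ≤ K) :
    ∏ p ∈ P, (1 + K * (1 / (p : ℝ))) ≤ exp (K * (l / 1000)) := by
  refine (prod_one_add_le_exp_sum _ fun p => by positivity).trans (exp_le_exp.2 ?_)
  rw [← mul_sum]
  exact mul_le_mul_of_nonneg_left H.inv hK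

theorem Hyp.EE_le (H : Hyp P R l) : EE P R ≤ exp (60 * (l / 1000)) := by
  rw [EE_eq]
  refine le_trans (prod_le_prod (fun p hp => by linarith [hw_nonneg (H.two p hp)])
    fun p hp => ?_) (H.prod_le (by norm_num))
  have h1 := hw_ratio (H.prime p hp).pos (H.two p hp)
  have h2 := hw_le_one (H.prime p hp).pos (H.two p hp)
  have h3 : ((R p).card : ℝ) / p ≤ 30 * (1 / (p : ℝ)) := by
    rw [mul_one_div]
    exact div_le_div_of_nonneg_right (by exact_mod_cast H.card p hp) (by positivity)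
  have h4 : 0 ≤ ((R p).card : ℝ) / p := by positivity
  nlinarith

theorem exp_conv {x : ℝ} (h0 : 0 ≤ x) (h1 : x ≤ 1) : exp (log (3 / 2) * x) ≤ 1 + x / 2 := by
  have := convexOn_exp.2 (Set.mem_univ 0) (Set.mem_univ (log (3 / 2))) (by linarith : 0 ≤ 1 - x)
    h0 (by ring)
  simp only [smul_eq_mul, mul_zero, zero_add, exp_zero, mul_one] at this
  rw [exp_log (by norm_num)] at this
  rw [mul_comm]
  linarith

theorem exp_c0 : exp (303 / 20) ≤ 3850000 := by
  have h1 : exp (303 / 20 : ℝ) = exp 1 ^ 15 * exp (3 / 20) := by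
    rw [← exp_nat_mul, ← exp_add]; norm_num
  have h2 : exp (3 / 20 : ℝ) ≤ 1 / (1 - 3 / 20) :=
    exp_bound_div_one_sub_of_interval (by norm_num) (by norm_num)
  have h3 : exp 1 ^ 15 ≤ (2.7182818286 : ℝ) ^ 15 :=
    pow_le_pow_left₀ (exp_pos 1).le exp_one_lt_d9.le 15
  rw [h1]
  refine (mul_le_mul h3 h2 (exp_pos _).le (by positivity)).trans (by norm_num)

theorem Hyp.tail (H : Hyp P R l) (v : ℕ) :
    ∑ A ∈ P.powerset, (if v * l < sz A then hA R A else 0) ≤ 3850000 * (2 / 3) ^ v * EE P R := by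
  have hl := H.pos
  set a := log (3 / 2) with ha
  have ha0 : 0 < a := log_pos (by norm_num)
  have e0 : (2 / 3 : ℝ) ^ v = exp (-(a * v)) := by
    rw [exp_neg, mul_comm, exp_nat_mul, ha, exp_log (by norm_num), ← inv_pow]; norm_num
  have h1 : ∑ A ∈ P.powerset, (if v * l < sz A then hA R A else 0)
      ≤ ∑ A ∈ P.powerset, (2 / 3) ^ v * ∏ p ∈ A, hw p (R p).card * exp (a * (log p / l)) := by
    refine sum_le_sum fun A hA' => ?_
    have h0 := H.hA_nonneg (mem_powerset.1 hA')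
    rw [prod_mul_distrib, ← exp_sum, ← mul_sum, ← sum_div, e0]
    change _ ≤ exp _ * (hA R A * exp (a * (sz A / l)))
    rw [mul_left_comm, ← exp_add]
    split_ifs with h
    · have : (v : ℝ) ≤ sz A / l := by rw [le_div_iff₀ hl]; exact h.le
      exact le_mul_of_one_le_right h0 (one_le_exp (by nlinarith))
    · positivity
  rw [← mul_sum, ← prod_one_add] at h1
  have h2 : ∏ p ∈ P, (1 + hw p (R p).card * exp (a * (log p / l)))
      ≤ ∏ p ∈ P, (1 + hw p (R p).card) * exp (15 / l * (log p / p)) := by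
    refine prod_le_prod (fun p hp => by have := hw_nonneg (H.two p hp); positivity) fun p hp => ?_
    have b0 := hw_nonneg (H.two p hp)
    have b1 := hw_ratio (H.prime p hp).pos (H.two p hp)
    have b2 : 0 ≤ log p / l := div_nonneg (log_natCast_nonneg p) hl.le
    have b3 := exp_conv b2 ((div_le_one hl).2 (H.small p hp))
    have b4 := add_one_le_exp (15 / l * (log p / p))
    have b5 : ((R p).card : ℝ) / p * (log p / l / 2) ≤ 15 / l * (log p / p) := by
      have : ((R p).card : ℝ) / p ≤ 30 / p :=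
        div_le_div_of_nonneg_right (by exact_mod_cast H.card p hp) (by positivity)
      calc _ ≤ 30 / (p : ℝ) * (log p / l / 2) := mul_le_mul_of_nonneg_right this (by positivity)
        _ = _ := by ring
    calc _ ≤ 1 + hw p (R p).card * (1 + log p / l / 2) := by gcongr
      _ = (1 + hw p (R p).card) * (1 + ((R p).card : ℝ) / p * (log p / l / 2)) := by
        linear_combination (-(log p / l / 2)) * b1
      _ ≤ _ := mul_le_mul_of_nonneg_left (by linarith) (by linarith)
  rw [prod_mul_distrib, ← EE_eq, ← exp_sum, ← mul_sum] at h2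
  have h3 : exp (15 / l * ∑ p ∈ P, log p / p) ≤ 3850000 := by
    refine le_trans (exp_le_exp.2 ?_) exp_c0
    calc _ ≤ 15 / l * (101 / 100 * l) := mul_le_mul_of_nonneg_left H.mert (by positivity)
      _ = _ := by field_simp; norm_num
  have h4 := H.one_le
  calc _ ≤ (2 / 3) ^ v * (EE P R * 3850000) :=
        h1.trans (mul_le_mul_of_nonneg_left (h2.trans (by gcongr)) (by positivity))
    _ = _ := by ring

theorem Hyp.err (H : Hyp P R l) (ψ : Finset ℕ → ℝ) (v : ℝ) (h1 : ∀ A, |ψ A| ≤ 1)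
    (h2 : ∀ A, ψ A ≠ 0 → sz A ≤ v * l) :
    (∑ A ∈ P.powerset, |ψ A| * 61 ^ A.card) ^ 2 ≤ exp ((2 * v + 122 / 1000) * l) := by
  have h3 : ∑ A ∈ P.powerset, |ψ A| * 61 ^ A.card
      ≤ ∑ A ∈ P.powerset, exp (v * l) * ∏ p ∈ A, 61 * (1 / (p : ℝ)) := by
    refine sum_le_sum fun A hA' => ?_
    have e : ∏ p ∈ A, (1 / (p : ℝ)) = exp (-sz A) := by
      rw [exp_neg, sz, exp_sum, ← prod_inv_distrib]
      refine prod_congr rfl fun p hp => ?_
      rw [exp_log (by exact_mod_cast (H.prime p (mem_powerset.1 hA' hp)).pos), one_div]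
    rw [prod_mul_distrib, prod_const, e, mul_left_comm, ← exp_add, mul_comm]
    refine mul_le_mul_of_nonneg_left ?_ (by positivity)
    by_cases h : ψ A = 0
    · rw [h, abs_zero]; positivity
    · exact (h1 A).trans (one_le_exp (by linarith [h2 A h]))
  rw [← mul_sum, ← prod_one_add] at h3
  have h4 := h3.trans (mul_le_mul_of_nonneg_left (H.prod_le (K := 61) (by norm_num))
    (exp_pos _).le)
  refine (pow_le_pow_left₀ (sum_nonneg fun A _ => by positivity) h4 2).trans (le_of_eq ?_)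
  rw [← exp_add, ← exp_nat_mul]
  congr 1
  push_cast
  ring

end Pool.Agent.P.MP_dddec0_nt.Odd
end

-- part Pool.Agent.P.MP_dddec0_nt.OddC
section

/-! Lower and upper bounds for the sifted set. -/

namespace Pool.Agent.P.MP_dddec0_nt.Odd
open Finset Real Pool.Agent.Lib.Sieve Pool.Agent.Lib.Tup

/-- `t` survives the sieve. -/
def Sif (P : Finset ℕ) (R : ℕ → Finset ℕ) (t : ℕ) : Prop := ∀ p ∈ P, t % p ∉ R p

instance (P : Finset ℕ) (R : ℕ → Finset ℕ) : DecidablePred (Sif P R) := fun _ => by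
  unfold Sif; infer_instance

variable {P : Finset ℕ} {R : ℕ → Finset ℕ} {l : ℝ}

theorem th_sif {t : ℕ} (h : Sif P R t) {A : Finset ℕ} (hA' : A ⊆ P) :
    ∏ p ∈ A, th R p t = hA R A :=
  prod_congr rfl fun p hp => by unfold th; rw [if_neg (h p (hA' hp))]

/-- Lipschitz cutoff. -/
noncomputable def phi (l : ℝ) (A : Finset ℕ) : ℝ := max 0 (min 1 (71 - sz A / l))

theorem phi_nonneg (l : ℝ) (A : Finset ℕ) : 0 ≤ phi l A := le_max_left _ _

theorem phi_le (l : ℝ) (A : Finset ℕ) : phi l A ≤ 1 := max_le zero_le_one (min_le_left _ _)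

theorem phi_one (hl : 0 < l) {A : Finset ℕ} (h : sz A ≤ 70 * l) : phi l A = 1 := by
  have : sz A / l ≤ 70 := (div_le_iff₀ hl).2 h
  unfold phi
  rw [min_eq_left (by linarith), max_eq_right zero_le_one]

theorem phi_zero (hl : 0 < l) {A : Finset ℕ} (h : 71 * l < sz A) : phi l A = 0 := by
  have : 71 < sz A / l := (lt_div_iff₀ hl).2 h
  exact max_eq_left ((min_le_right _ _).trans (by linarith))

theorem phi_lip (hl : 0 < l) {A : Finset ℕ} {p : ℕ} (hp : p ∉ A) :
    |phi l A - phi l (insert p A)| ≤ log p / l := by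
  have h0 : 0 ≤ log p / l := div_nonneg (log_natCast_nonneg p) hl.le
  have e : sz (insert p A) / l = log p / l + sz A / l := by rw [sz, sum_insert hp, add_div]; rfl
  unfold phi
  rw [e, max_comm 0, max_comm 0]
  refine (abs_max_sub_max_le_abs _ _ _).trans ((abs_min_sub_min_le_max _ _ _ _).trans ?_)
  rw [sub_self, abs_zero, show 71 - sz A / l - (71 - (log p / l + sz A / l)) = log p / l by ring,
    abs_of_nonneg h0]
  exact max_le h0 le_rfl

theorem Hyp.one_prime (H : Hyp P R l) {p : ℕ} (hp : p ∈ P) (N : ℕ) :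
    ∑ t ∈ range N, (∑ A ∈ P.powerset, phi l A * ∏ q ∈ A, th R q t) ^ 2 * ind R p t
      ≤ N * (30 / l * (log p / p) * (3850000 * (2 / 3) ^ 69 * EE P R))
        + 30 * exp ((2 * 71 + 122 / 1000) * l) := by
  have hl := H.pos
  have H' := H.mono (erase_subset p P)
  set ψ : Finset ℕ → ℝ := fun A => phi l A - phi l (insert p A) with hψ
  have hq := quad (P.erase p) {p} (by simp) H'.prime (by simpa using H.prime p hp) R H'.sub
    (by simpa using H.sub p hp) H'.two H'.cK ψ N
  simp only [prod_singleton] at hq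
  have hlp : 0 ≤ log p / l := div_nonneg (log_natCast_nonneg p) hl.le
  have hlp1 : log p / l ≤ 1 := (div_le_one hl).2 (H.small p hp)
  have e1 : ∀ t, (∑ A ∈ P.powerset, phi l A * ∏ q ∈ A, th R q t) ^ 2 * ind R p t
      = (∑ A ∈ (P.erase p).powerset, ψ A * ∏ q ∈ A, th R q t) ^ 2 * ind R p t := by
    intro t
    unfold ind
    split_ifs with h
    · congr 2
      conv_lhs => rw [← insert_erase hp, sum_powerset_insert (notMem_erase p P),
        ← sum_add_distrib]
      refine sum_congr rfl fun A hA' => ?_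
      have : p ∉ A := fun h' => notMem_erase p P (mem_powerset.1 hA' h')
      rw [prod_insert this, show th R p t = -1 from if_pos h]
      ring
    · simp
  have e2 := H'.err ψ 71 (fun A => by
    rw [abs_le]
    constructor <;> linarith [phi_nonneg l A, phi_le l A, phi_nonneg l (insert p A),
      phi_le l (insert p A)]) (fun A h => by
    by_contra hc
    push Not at hc
    exact h (by rw [hψ]; simp only; rw [phi_zero hl hc,
      phi_zero hl (hc.trans_le (bas_sz_mono (subset_insert p A))), sub_self]))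
  have e3 : ∑ A ∈ (P.erase p).powerset, ψ A ^ 2 * ∏ q ∈ A, hw q (R q).card
      ≤ log p / l * (3850000 * (2 / 3) ^ 69 * EE P R) := by
    refine le_trans ?_ (mul_le_mul_of_nonneg_left (H.tail 69) hlp)
    rw [mul_sum]
    refine le_trans (sum_le_sum fun A hA' => ?_) (sum_le_sum_of_subset_of_nonneg
      (powerset_mono.2 (erase_subset p P)) fun A hA' _ => ?_)
    · have hp' : p ∉ A := fun h' => notMem_erase p P (mem_powerset.1 hA' h')
      have h0 := H'.hA_nonneg (mem_powerset.1 hA')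
      split_ifs with h
      · refine mul_le_mul_of_nonneg_right ?_ h0
        have := phi_lip hl hp'
        rw [← sq_abs]
        nlinarith [abs_nonneg (ψ A)]
      · push Not at h
        have h1 : sz (insert p A) ≤ 70 * l := by
          rw [sz, sum_insert hp']
          have := H.small p hp
          change _ + sz A ≤ _
          push_cast at h
          linarith
        have : ψ A = 0 := by
          rw [hψ]; simp only
          rw [phi_one hl h1, phi_one hl ((bas_sz_mono (subset_insert p A)).trans h1), sub_self]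
        rw [this]; simp
    · have h0 := H.hA_nonneg (mem_powerset.1 hA')
      split_ifs <;> positivity
  have hc : ((R p).card : ℝ) ≤ 30 := by exact_mod_cast H.card p hp
  have hE := H.one_le
  simp only [e1]
  have a1 : ((R p).card : ℝ) / p * ∑ A ∈ (P.erase p).powerset, ψ A ^ 2 * ∏ q ∈ A, hw q (R q).card
      ≤ 30 / l * (log p / p) * (3850000 * (2 / 3) ^ 69 * EE P R) := by
    calc _ ≤ 30 / (p : ℝ) * (log p / l * (3850000 * (2 / 3) ^ 69 * EE P R)) :=
          mul_le_mul (by gcongr) e3 (sum_nonneg fun A hA' => mul_nonneg (sq_nonneg _)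
            (H'.hA_nonneg (mem_powerset.1 hA'))) (by positivity)
      _ = _ := by ring
  have a2 := mul_le_mul hc e2 (sq_nonneg _) (by norm_num)
  have a3 := mul_le_mul_of_nonneg_left a1 (Nat.cast_nonneg N)
  linarith [(abs_le.1 hq).2]

theorem Hyp.lower (H : Hyp P R l) (hcard : (P.card : ℝ) ≤ exp l) (N : ℕ) :
    N * (999 / 1000 * EE P R) - (1 + 30 * exp l) * exp ((2 * 71 + 122 / 1000) * l)
      ≤ EE P R ^ 2 * ((range N).filter (Sif P R)).card := by
  have hl := H.pos
  have hE := H.one_le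
  set F : ℕ → ℝ := fun t => ∑ A ∈ P.powerset, phi l A * ∏ q ∈ A, th R q t with hF
  have hq := quad P ∅ (by simp) H.prime (by simp) R H.sub (by simp) H.two H.cK (phi l) N
  simp only [prod_empty, mul_one, one_mul] at hq
  have e2 := H.err (phi l) 71 (fun A => by
    rw [abs_of_nonneg (phi_nonneg l A)]; exact phi_le l A) (fun A h => by
    by_contra hc
    exact h (phi_zero hl (not_le.1 hc)))
  have e3 : EE P R - 3850000 * (2 / 3) ^ 70 * EE P R
      ≤ ∑ A ∈ P.powerset, phi l A ^ 2 * ∏ q ∈ A, hw q (R q).card := by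
    refine le_trans (sub_le_sub_left (H.tail 70) _) ?_
    rw [EE, ← sum_sub_distrib]
    refine sum_le_sum fun A hA' => ?_
    split_ifs with h
    · rw [sub_self]; exact mul_nonneg (sq_nonneg _) (H.hA_nonneg (mem_powerset.1 hA'))
    · rw [phi_one hl (by exact_mod_cast not_lt.1 h)]; simp [hA]
  have e4 : ∀ t, F t ^ 2 - ∑ p ∈ P, F t ^ 2 * ind R p t ≤ if Sif P R t then EE P R ^ 2 else 0 := by
    intro t
    split_ifs with h
    · have h1 : F t = ∑ A ∈ P.powerset, phi l A * hA R A :=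
        sum_congr rfl fun A hA' => by rw [th_sif h (mem_powerset.1 hA')]
      have h2 : 0 ≤ F t := h1 ▸ sum_nonneg fun A hA' =>
        mul_nonneg (phi_nonneg l A) (H.hA_nonneg (mem_powerset.1 hA'))
      have h3 : F t ≤ EE P R := h1 ▸ sum_le_sum fun A hA' =>
        mul_le_of_le_one_left (H.hA_nonneg (mem_powerset.1 hA')) (phi_le l A)
      have h4 : 0 ≤ ∑ p ∈ P, F t ^ 2 * ind R p t :=
        sum_nonneg fun p _ => mul_nonneg (sq_nonneg _) (ind_nonneg R p t)
      linarith [pow_le_pow_left₀ h2 h3 2]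
    · unfold Sif at h
      push Not at h
      obtain ⟨p, hp, h⟩ := h
      have := single_le_sum (f := fun p => F t ^ 2 * ind R p t)
        (fun p _ => mul_nonneg (sq_nonneg _) (ind_nonneg R p t)) hp
      simp only [ind, h, if_true, mul_one] at this
      simp only [ind]
      linarith
  have e5 := sum_le_sum fun t (_ : t ∈ range N) => e4 t
  rw [sum_sub_distrib, sum_comm, ← sum_filter, sum_const, nsmul_eq_mul] at e5
  have e6 := sum_le_sum fun p (hp : p ∈ P) => H.one_prime hp N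
  rw [sum_add_distrib, ← mul_sum, ← sum_mul, ← mul_sum, sum_const, nsmul_eq_mul] at e6
  have e7 : 30 / l * ∑ p ∈ P, log p / p ≤ 303 / 10 := by
    calc _ ≤ 30 / l * (101 / 100 * l) := mul_le_mul_of_nonneg_left H.mert (by positivity)
      _ = _ := by field_simp; norm_num
  have e8 : (30 / l * ∑ p ∈ P, log p / p) * (3850000 * (2 / 3) ^ 69 * EE P R)
      ≤ 1 / 2000 * EE P R := by
    refine (mul_le_mul_of_nonneg_right e7 (by positivity)).trans ?_
    rw [← mul_assoc]
    exact mul_le_mul_of_nonneg_right (by norm_num) (by linarith)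
  have e9 : 3850000 * (2 / 3) ^ 70 * EE P R ≤ 1 / 2000 * EE P R :=
    mul_le_mul_of_nonneg_right (by norm_num) (by linarith)
  have hN : (0 : ℝ) ≤ N := Nat.cast_nonneg N
  have b1 := mul_le_mul_of_nonneg_left e8 hN
  have b0 : 1999 / 2000 * EE P R
      ≤ ∑ A ∈ P.powerset, phi l A ^ 2 * ∏ q ∈ A, hw q (R q).card := by linarith only [e3, e9]
  have b2 := mul_le_mul_of_nonneg_left b0 hN
  have b3 := mul_le_mul_of_nonneg_right hcard
    (show 0 ≤ 30 * exp ((2 * 71 + 122 / 1000) * l) by positivity)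
  have b4 := (abs_le.1 hq).1
  simp only [hF] at e5
  linarith only [e5, e6, b1, b2, b3, b4, e2]

theorem Hyp.upper (H : Hyp P R l) (U : Finset ℕ) (hd : Disjoint P U) (hU : ∀ p ∈ U, p.Prime)
    (hRU : ∀ p ∈ U, R p ⊆ range p) (hc : ∀ p ∈ U, (R p).card ≤ 1) (N : ℕ) :
    (((range N).filter (fun t => Sif P R t ∧ ∀ p ∈ U, t % p ∈ R p)).card : ℝ)
      ≤ N / (93 / 100 * EE P R) * ∏ p ∈ U, (1 / (p : ℝ))
        + 2 * exp ((2 * 44 + 122 / 1000) * l) := by
  have hE := H.one_le
  set ψ : Finset ℕ → ℝ := fun A => if sz A ≤ 44 * l then 1 else 0 with hψ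
  have hq := (abs_le.1 (quad P U hd H.prime hU R H.sub hRU H.two H.cK ψ N)).2
  have e2 := H.err ψ 44 (fun A => by rw [hψ]; simp only; split_ifs <;> simp) (fun A h => by
    by_contra hc
    exact h (if_neg hc))
  set G := ∑ A ∈ P.powerset, ψ A * hA R A with hG
  have e3 : ∑ A ∈ P.powerset, ψ A ^ 2 * ∏ q ∈ A, hw q (R q).card = G :=
    sum_congr rfl fun A _ => by rw [hψ]; simp only; split_ifs <;> simp [hA]
  have e4 : 93 / 100 * EE P R ≤ G := by
    have h1 : EE P R - ∑ A ∈ P.powerset, (if (44 : ℕ) * l < sz A then hA R A else 0) = G := by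
      rw [EE, ← sum_sub_distrib]
      refine sum_congr rfl fun A _ => ?_
      rw [hψ]; push_cast
      by_cases h : sz A ≤ 44 * l
      · simp [h, not_lt.2 h]
      · simp [h, not_le.1 h]
    have h2 : 3850000 * (2 / 3) ^ 44 * EE P R ≤ 7 / 100 * EE P R :=
      mul_le_mul_of_nonneg_right (by norm_num) (by linarith)
    have h3 := (sub_le_sub_left ((H.tail 44).trans h2) (EE P R)).trans h1.le
    linarith only [h3]
  set S := (range N).filter (fun t => Sif P R t ∧ ∀ p ∈ U, t % p ∈ R p) with hS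
  have e5 : (S.card : ℝ) * G ^ 2 ≤ ∑ t ∈ range N,
      (∑ A ∈ P.powerset, ψ A * ∏ p ∈ A, th R p t) ^ 2 * ∏ p ∈ U, ind R p t := by
    rw [← nsmul_eq_mul, ← sum_const]
    refine le_trans (le_of_eq (sum_congr rfl fun t ht => ?_)) (sum_le_sum_of_subset_of_nonneg
      (filter_subset _ _) fun t _ _ => mul_nonneg (sq_nonneg _)
        (prod_nonneg fun p _ => ind_nonneg R p t))
    obtain ⟨-, h1, h2⟩ := mem_filter.1 ht
    rw [show ∏ p ∈ U, ind R p t = 1 from prod_eq_one fun p hp => if_pos (h2 p hp), mul_one, hG]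
    congr 1
    exact sum_congr rfl fun A hA' => by rw [th_sif h1 (mem_powerset.1 hA')]
  have e6 : ∏ p ∈ U, (((R p).card : ℝ) / p) ≤ ∏ p ∈ U, (1 / (p : ℝ)) :=
    prod_le_prod (fun p _ => by positivity) fun p hp =>
      div_le_div_of_nonneg_right (by exact_mod_cast hc p hp) (by positivity)
  have e7 : ∏ p ∈ U, ((R p).card : ℝ) ≤ 1 :=
    prod_le_one (fun p _ => by positivity) fun p hp => by exact_mod_cast hc p hp
  set w := ∏ p ∈ U, (1 / (p : ℝ))
  have hw0 : 0 ≤ w := prod_nonneg fun p _ => by positivity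
  set X := exp ((2 * 44 + 122 / 1000) * l)
  have hX : 0 < X := exp_pos _
  have hG0 : 0 < G := by linarith
  rw [e3] at hq
  have b1 := mul_le_mul e7 e2 (sq_nonneg _) zero_le_one
  have b2 := mul_le_mul_of_nonneg_left (mul_le_mul_of_nonneg_right e6 hG0.le) (Nat.cast_nonneg N)
  have b3 : (S.card : ℝ) * G ^ 2 ≤ (N / G * w + 2 * X) * G ^ 2 := by
    have : (N / G * w + 2 * X) * G ^ 2 = N * (w * G) + 2 * X * G ^ 2 := by field_simp
    have h2 : 1 ≤ 2 * G ^ 2 := by nlinarith
    nlinarith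
  refine (le_of_mul_le_mul_right b3 (by positivity)).trans ?_
  gcongr

end Pool.Agent.P.MP_dddec0_nt.Odd
end

-- part Pool.Agent.P.MP_dddec0_nt.OddD
section

/-! Symmetric sums, complements, roots of linear forms and sums over primes. -/

namespace Pool.Agent.P.MP_dddec0_nt.Odd
open Finset Real Filter Pool.Agent.Lib.Sieve Pool.Agent.Lib.Tup

theorem esymm_le (f : ℕ → ℝ) (hf : ∀ p, 0 ≤ f p) (S : Finset ℕ) : ∀ j : ℕ,
    ∑ T ∈ powersetCard j S, ∏ p ∈ T, f p ≤ (∑ p ∈ S, f p) ^ j / j.factorial := by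
  induction S using Finset.induction_on with
  | empty =>
    intro j
    cases j with
    | zero => simp
    | succ j => rw [powersetCard_eq_empty.2 (by simp)]; simp
  | insert a S ha ih =>
    intro j
    cases j with
    | zero => simp
    | succ j =>
      have hs : 0 ≤ ∑ p ∈ S, f p := sum_nonneg fun p _ => hf p
      have h1 : ∑ T ∈ (powersetCard j S).image (insert a), ∏ p ∈ T, f p
          ≤ f a * ∑ T ∈ powersetCard j S, ∏ p ∈ T, f p := by
        refine (sum_image_le_of_nonneg fun T _ => prod_nonneg fun p _ => hf p).trans (le_of_eq ?_)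
        rw [mul_sum]
        exact sum_congr rfl fun T hT => prod_insert fun h => ha ((mem_powersetCard.1 hT).1 h)
      have h2 := sum_union_inter (s₁ := powersetCard (j + 1) S)
        (s₂ := (powersetCard j S).image (insert a)) (f := fun T => ∏ p ∈ T, f p)
      have h3 : 0 ≤ ∑ T ∈ powersetCard (j + 1) S ∩ (powersetCard j S).image (insert a),
          ∏ p ∈ T, f p := sum_nonneg fun T _ => prod_nonneg fun p _ => hf p
      have h4 := mul_le_mul_of_nonneg_left (ih j) (hf a)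
      have h5 := pow_add_mul_le_add_pow hs (show 0 ≤ 2 * ∑ p ∈ S, f p + f a by linarith [hf a])
        (j + 1)
      have h6 : (∑ p ∈ S, f p) ^ (j + 1) / (j + 1).factorial
          + f a * ((∑ p ∈ S, f p) ^ j / j.factorial)
          ≤ (f a + ∑ p ∈ S, f p) ^ (j + 1) / (j + 1).factorial := by
        rw [add_comm (f a)]
        refine le_trans (le_of_eq ?_) (div_le_div_of_nonneg_right h5 (by positivity))
        rw [Nat.factorial_succ, Nat.add_sub_cancel]
        push_cast
        field_simp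
      rw [powersetCard_succ_insert ha, sum_insert ha]
      linarith [ih (j + 1)]

theorem half {S : Finset ℕ} (hS : S.card = 12) {W : ℝ} (hW : 0 ≤ W)
    (h : ((∏ p ∈ S, p : ℕ) : ℝ) ≤ W ^ 2) :
    462 ≤ ((powersetCard 6 S).filter fun T => ((∏ p ∈ T, p : ℕ) : ℝ) ≤ W).card := by
  have h1 := card_filter_add_card_filter_not (s := powersetCard 6 S)
    (fun T => ((∏ p ∈ T, p : ℕ) : ℝ) ≤ W)
  rw [card_powersetCard, hS, show Nat.choose 12 6 = 924 by decide] at h1
  have h2 : ((powersetCard 6 S).filter fun T => ¬ ((∏ p ∈ T, p : ℕ) : ℝ) ≤ W).card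
      ≤ ((powersetCard 6 S).filter fun T => ((∏ p ∈ T, p : ℕ) : ℝ) ≤ W).card := by
    refine card_le_card_of_injOn (fun T => S \ T) (fun T hT => ?_) fun T hT T' hT' e => ?_
    · obtain ⟨h3, h4⟩ := mem_filter.1 (mem_coe.1 hT)
      obtain ⟨h5, h6⟩ := mem_powersetCard.1 h3
      refine mem_coe.2 (mem_filter.2 ⟨mem_powersetCard.2 ⟨sdiff_subset, ?_⟩, ?_⟩)
      · rw [card_sdiff_of_subset h5, hS, h6]
      · rw [← prod_sdiff h5, Nat.cast_mul] at h
        by_contra hc
        push Not at hc h4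
        nlinarith
    · have a := (mem_powersetCard.1 (mem_filter.1 (mem_coe.1 hT)).1).1
      have b := (mem_powersetCard.1 (mem_filter.1 (mem_coe.1 hT')).1).1
      have e' : S \ T = S \ T' := e
      rw [← Finset.sdiff_sdiff_eq_self a, e', Finset.sdiff_sdiff_eq_self b]
  omega

/-- Roots of a linear form modulo `q`. -/
def rt (A B q : ℕ) : Finset ℕ := (range q).filter fun r => q ∣ A * r + B

theorem mem_rt {A B q t : ℕ} (hq : 0 < q) : t % q ∈ rt A B q ↔ q ∣ A * t + B := by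
  rw [rt, mem_filter, mem_range, and_iff_right (Nat.mod_lt _ hq)]
  exact (((Nat.mod_modEq t q).mul_left A).add_right B).dvd_iff dvd_rfl

theorem card_rt {A B : ℕ} (h : A.Coprime B) (q : ℕ) : (rt A B q).card ≤ 1 := by
  refine card_le_one.2 fun r hr s hs => ?_
  obtain ⟨h1, h2⟩ := mem_filter.1 hr
  obtain ⟨h3, h4⟩ := mem_filter.1 hs
  have hc : Nat.gcd q A = 1 := by
    refine Nat.eq_one_of_dvd_coprimes h (Nat.gcd_dvd_right _ _) ?_
    exact (Nat.dvd_add_right ((Nat.gcd_dvd_right q A).mul_right r)).1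
      ((Nat.gcd_dvd_left _ _).trans h2)
  have h5 : A * r + B ≡ A * s + B [MOD q] :=
    (Nat.modEq_zero_iff_dvd.2 h2).trans (Nat.modEq_zero_iff_dvd.2 h4).symm
  exact Nat.ModEq.eq_of_lt_of_lt
    (Nat.ModEq.cancel_left_of_coprime hc (Nat.ModEq.add_right_cancel' B h5))
    (mem_range.1 h1) (mem_range.1 h3)

theorem cnt_dvd {A B : ℕ} (h : A.Coprime B) {q : ℕ} (hq : 0 < q) (N : ℕ) :
    (((range N).filter fun t => q ∣ A * t + B).card : ℝ) ≤ N * (1 / q) + 1 := by
  have h1 := (abs_le.1 (per_abs hq (ind (rt A B) q) (fun n => by unfold ind; rw [Nat.mod_mod])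
    (ind_nonneg _ q) N)).2
  have h2 : ∑ i ∈ range q, ind (rt A B) q i ≤ 1 := by
    unfold ind
    rw [sum_ite_range (rt A B) (filter_subset _ _), mul_one, mul_zero, add_zero]
    exact_mod_cast card_rt h q
  have h3 : ∑ t ∈ range N, ind (rt A B) q t = ((range N).filter fun t => q ∣ A * t + B).card := by
    simp only [ind, mem_rt hq, sum_boole]
  have h4 : (N : ℝ) * ((∑ i ∈ range q, ind (rt A B) q i) / q) ≤ N * (1 / q) := by gcongr
  linarith

theorem mert2 : ∃ C : ℝ, 0 ≤ C ∧ ∀ x y : ℝ, 0 ≤ x → x ≤ y → ∀ S : Finset ℕ,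
    (∀ p ∈ S, p.Prime ∧ x ≤ log p ∧ log p < y) → ∑ p ∈ S, log p / p ≤ y - x + C := by
  classical
  obtain ⟨C, hC0, hC⟩ := mertens_ap (W := 1) one_pos
  refine ⟨2 * C, by positivity, fun x y hx hxy S hS => ?_⟩
  set N := ⌈exp y⌉₊
  have h1 := (abs_le.1 (hC 1 N y (by simp) (hx.trans hxy) (Nat.le_ceil _))).2
  have h2 := (abs_le.1 (hC 1 N x (by simp) hx ((exp_le_exp.2 hxy).trans (Nat.le_ceil _)))).1
  simp only [Nat.modEq_one, and_true, Nat.totient_one, Nat.cast_one, div_one, one_mul] at h1 h2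
  have hd : Disjoint S ((range N).filter fun n : ℕ => log n < x) :=
    disjoint_left.2 fun p hp hp' => absurd (mem_filter.1 hp').2 (not_lt.2 (hS p hp).2.1)
  have h3 : ∑ n ∈ S ∪ (range N).filter (fun n : ℕ => log n < x),
      (if n.Prime then log n / n else 0)
      ≤ ∑ n ∈ (range N).filter (fun n : ℕ => log n < y), (if n.Prime then log n / n else 0) := by
    refine sum_le_sum_of_subset_of_nonneg (union_subset (fun p hp => ?_) fun p hp => ?_)
      fun n _ _ => ?_
    · obtain ⟨a, -, c⟩ := hS p hp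
      refine mem_filter.2 ⟨mem_range.2 (Nat.lt_ceil.2 ?_), c⟩
      rwa [← log_lt_iff_lt_exp (by exact_mod_cast a.pos)]
    · exact mem_filter.2 ⟨(mem_filter.1 hp).1, (mem_filter.1 hp).2.trans_le hxy⟩
    · split_ifs
      · exact div_nonneg (log_natCast_nonneg n) (by positivity)
      · exact le_rfl
  rw [sum_union hd, sum_congr rfl fun p hp => if_pos (hS p hp).1] at h3
  linarith

theorem inv_primes : ∀ᶠ l : ℝ in atTop, ∀ S : Finset ℕ,
    (∀ p ∈ S, p.Prime ∧ l ≤ log p ∧ log p < 89 * l) → ∑ p ∈ S, 1 / (p : ℝ) ≤ 455 / 100 := by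
  obtain ⟨C, hC0, hC⟩ := mert2
  filter_upwards [eventually_gt_atTop 0, eventually_ge_atTop (22700 * C)] with l hl hlC S hS
  have key : ∀ i : ℕ, ∑ p ∈ S.filter (fun p : ℕ => log p < (51 / 50) ^ i * l), 1 / (p : ℝ)
      ≤ i * (1 / 50 + 1 / 22700) := by
    intro i
    induction i with
    | zero =>
      rw [filter_false_of_mem fun p hp => by simpa using (hS p hp).2.1]; simp
    | succ i ih =>
      set x := (51 / 50 : ℝ) ^ i * l with hx
      have hx1 : l ≤ x := le_mul_of_one_le_left hl.le (one_le_pow₀ (by norm_num))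
      have hx0 : 0 < x := hl.trans_le hx1
      have e : (51 / 50 : ℝ) ^ (i + 1) * l = 51 / 50 * x := by rw [hx]; ring
      rw [e, ← sum_filter_add_sum_filter_not _ (fun p : ℕ => log p < x), filter_filter,
        filter_filter]
      have h1 : S.filter (fun p : ℕ => log p < 51 / 50 * x ∧ log p < x)
          = S.filter (fun p : ℕ => log p < x) :=
        filter_congr fun p _ => ⟨fun h => h.2, fun h => ⟨by linarith, h⟩⟩
      have h2 := hC x (51 / 50 * x) hx0.le (by linarith)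
        (S.filter (fun p : ℕ => log p < 51 / 50 * x ∧ ¬ log p < x)) fun p hp =>
          ⟨(hS p (mem_filter.1 hp).1).1, not_lt.1 (mem_filter.1 hp).2.2, (mem_filter.1 hp).2.1⟩
      have h3 : x * ∑ p ∈ S.filter (fun p : ℕ => log p < 51 / 50 * x ∧ ¬ log p < x), 1 / (p : ℝ)
          ≤ x * (1 / 50 + 1 / 22700) := by
        refine le_trans ?_ (h2.trans (by linarith))
        rw [mul_sum]
        refine sum_le_sum fun p hp => ?_
        rw [mul_one_div]
        exact div_le_div_of_nonneg_right (not_lt.1 (mem_filter.1 hp).2.2) (by positivity)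
      have h4 := le_of_mul_le_mul_left h3 hx0
      rw [h1]
      push_cast
      linarith
  have h := key 227
  rw [filter_true_of_mem fun p hp => (hS p hp).2.2.trans_le
    (mul_le_mul_of_nonneg_right (by norm_num) hl.le)] at h
  exact h.trans (by norm_num)

end Pool.Agent.P.MP_dddec0_nt.Odd
end

-- part Pool.Agent.P.MP_dddec0_nt.OddE
section

/-! Thirty linear forms are simultaneously products of at most eleven primes. -/

namespace Pool.Agent.P.MP_dddec0_nt.Odd
open Finset Real Filter Pool.Agent.Lib.Sieve Pool.Agent.Lib.Tup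

variable {P : Finset ℕ} {R : ℕ → Finset ℕ} {l : ℝ}

theorem Hyp.upper' (H : Hyp P R l) {A B : ℕ} (hc : A.Coprime B) (U : Finset ℕ)
    (hd : Disjoint P U) (hU : ∀ p ∈ U, p.Prime) (N : ℕ) :
    (((range N).filter (fun t => Sif P R t ∧ ∀ p ∈ U, p ∣ A * t + B)).card : ℝ)
      ≤ N / (93 / 100 * EE P R) * ∏ p ∈ U, (1 / (p : ℝ))
        + 2 * exp ((2 * 44 + 122 / 1000) * l) := by
  set R' : ℕ → Finset ℕ := fun p => if p ∈ P then R p else rt A B p with hR'
  have e1 : ∀ p ∈ P, R' p = R p := fun p hp => if_pos hp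
  have e2 : ∀ p ∈ U, R' p = rt A B p := fun p hp => if_neg (disjoint_right.1 hd hp)
  have H' : Hyp P R' l := ⟨H.pos, H.prime, fun p hp => e1 p hp ▸ H.sub p hp,
    fun p hp => e1 p hp ▸ H.card p hp, H.big, H.small, H.mert, H.inv⟩
  have h := H'.upper U hd hU (fun p hp => e2 p hp ▸ filter_subset _ _)
    (fun p hp => e2 p hp ▸ card_rt hc p) N
  have e3 : EE P R' = EE P R := by
    rw [EE_eq, EE_eq]; exact prod_congr rfl fun p hp => by rw [e1 p hp]
  rw [e3] at h
  refine le_trans (le_of_eq ?_) h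
  congr 2
  refine filter_congr fun t _ => and_congr ?_ ?_
  · exact forall₂_congr fun p hp => by rw [e1 p hp]
  · exact forall₂_congr fun p hp => by rw [e2 p hp, mem_rt (hU p hp).pos]

theorem Hyp.bad (H : Hyp P R l) (hP : ∀ p ∈ P, log p < l) {A B : ℕ} (hc : A.Coprime B)
    (hB : 1 ≤ B) (N : ℕ) (hN : ∀ t < N, ((A * t + B : ℕ) : ℝ) ≤ exp (443 / 5 * l) ^ 2)
    (hS : ∀ t, Sif P R t → ∀ p : ℕ, p.Prime → p ∣ A * t + B → l ≤ log p)
    (hM : ∀ S : Finset ℕ, (∀ p ∈ S, p.Prime ∧ l ≤ log p ∧ log p < 89 * l) →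
      ∑ p ∈ S, 1 / (p : ℝ) ≤ 455 / 100) :
    462 * (((range N).filter
        (fun t => Sif P R t ∧ 12 ≤ (A * t + B).primeFactors.card)).card : ℝ)
      ≤ N / (93 / 100 * EE P R) * ((455 / 100) ^ 6 / 720)
        + exp (443 / 5 * l) * (2 * exp ((2 * 44 + 122 / 1000) * l)) := by
  have hl := H.pos
  have hE := H.one_le
  set W := exp (443 / 5 * l) with hW
  have hW0 : 0 < W := exp_pos _
  set G := (range ⌈exp (89 * l)⌉₊).filter (fun p : ℕ => p.Prime ∧ l ≤ log p) with hG
  have hG1 : ∀ p ∈ G, p.Prime ∧ l ≤ log p ∧ log p < 89 * l := fun p hp => by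
    obtain ⟨h1, h2, h3⟩ := mem_filter.1 hp
    exact ⟨h2, h3, (log_lt_iff_lt_exp (by exact_mod_cast h2.pos)).2
      (Nat.lt_ceil.1 (mem_range.1 h1))⟩
  set T := (powersetCard 6 G).filter fun U => ((∏ p ∈ U, p : ℕ) : ℝ) ≤ W with hT
  have hT1 : ∀ U ∈ T, U ⊆ G := fun U hU => (mem_powersetCard.1 (mem_filter.1 hU).1).1
  have hTc : (T.card : ℝ) ≤ W := by
    have : T.card ≤ (Ioc 0 ⌊W⌋₊).card :=
      card_le_card_of_injOn (fun U => ∏ p ∈ U, p) (fun U hU => mem_coe.2 (mem_Ioc.2
        ⟨prod_pos fun p hp => (hG1 p (hT1 U hU hp)).1.pos, Nat.le_floor (mem_filter.1 hU).2⟩))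
        fun U hU V hV e => prod_injOn_primes (fun p hp => (hG1 p (hT1 U hU hp)).1)
          (fun p hp => (hG1 p (hT1 V hV hp)).1) e
    rw [Nat.card_Ioc, Nat.sub_zero] at this
    exact (Nat.cast_le.2 this).trans (Nat.floor_le hW0.le)
  have h1 : ∀ t ∈ (range N).filter (fun t => Sif P R t ∧ 12 ≤ (A * t + B).primeFactors.card),
      462 ≤ (T.filter fun U => Sif P R t ∧ ∀ p ∈ U, p ∣ A * t + B).card := by
    intro t ht
    obtain ⟨a1, a2, a3⟩ := mem_filter.1 ht
    obtain ⟨S, b1, b2⟩ := exists_subset_card_eq a3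
    have b3 : ((∏ p ∈ S, p : ℕ) : ℝ) ≤ W ^ 2 :=
      le_trans (Nat.cast_le.2 (Nat.le_of_dvd (by omega) ((prod_dvd_prod_of_subset _ _ _ b1).trans
        (Nat.prod_primeFactors_dvd _)))) (hN t (mem_range.1 a1))
    refine (half b2 hW0.le b3).trans (card_le_card fun U hU => ?_)
    obtain ⟨c1, c2⟩ := mem_filter.1 hU
    obtain ⟨c3, c4⟩ := mem_powersetCard.1 c1
    have c5 : ∀ p ∈ U, p.Prime := fun p hp => Nat.prime_of_mem_primeFactors (b1 (c3 hp))
    have c6 : ∀ p ∈ U, p ∣ A * t + B := fun p hp => Nat.dvd_of_mem_primeFactors (b1 (c3 hp))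
    refine mem_filter.2 ⟨mem_filter.2 ⟨mem_powersetCard.2 ⟨fun p hp => mem_filter.2
      ⟨mem_range.2 (Nat.lt_ceil.2 ?_), c5 p hp, hS t a2 p (c5 p hp) (c6 p hp)⟩, c4⟩, c2⟩, a2, c6⟩
    refine lt_of_le_of_lt (le_trans (Nat.cast_le.2 (Nat.le_of_dvd
      (prod_pos fun q hq => (c5 q hq).pos) (dvd_prod_of_mem _ hp))) c2) (exp_lt_exp.2 ?_)
    linarith
  have h2 : 462 * ((range N).filter
        (fun t => Sif P R t ∧ 12 ≤ (A * t + B).primeFactors.card)).card
      ≤ ∑ U ∈ T, ((range N).filter fun t => Sif P R t ∧ ∀ p ∈ U, p ∣ A * t + B).card := by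
    rw [mul_comm, ← smul_eq_mul, ← sum_const]
    refine (sum_le_sum h1).trans ((sum_le_sum_of_subset (filter_subset _ _)).trans (le_of_eq ?_))
    simp only [card_filter]
    exact sum_comm
  have h3 : ∑ U ∈ T, ∏ p ∈ U, (1 / (p : ℝ)) ≤ (455 / 100) ^ 6 / 720 := by
    refine (sum_le_sum_of_subset_of_nonneg (filter_subset _ _)
      fun U _ _ => prod_nonneg fun p _ => by positivity).trans
      ((esymm_le (fun p => 1 / (p : ℝ)) (fun p => by positivity) G 6).trans ?_)
    rw [show ((Nat.factorial 6 : ℕ) : ℝ) = 720 by norm_num [Nat.factorial]]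
    exact div_le_div_of_nonneg_right (pow_le_pow_left₀ (sum_nonneg fun p _ => by positivity)
      (hM G hG1) 6) (by norm_num)
  have h4 := sum_le_sum fun U (hU : U ∈ T) => H.upper' hc U (disjoint_left.2 fun p hp hp' =>
    absurd (hP p hp) (not_lt.2 (hG1 p (hT1 U hU hp')).2.1)) (fun p hp => (hG1 p (hT1 U hU hp)).1) N
  rw [sum_add_distrib, ← mul_sum, sum_const, nsmul_eq_mul] at h4
  have h5 : ((462 * ((range N).filter
        (fun t => Sif P R t ∧ 12 ≤ (A * t + B).primeFactors.card)).card : ℕ) : ℝ) ≤ _ :=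
    Nat.cast_le.2 h2
  push_cast at h5
  refine h5.trans (h4.trans (add_le_add ?_ ?_))
  · exact mul_le_mul_of_nonneg_left h3 (by positivity)
  · exact mul_le_mul_of_nonneg_right hTc (by positivity)

theorem sq_le (hl : 2 ≤ l) {A B : ℕ} (hc : A.Coprime B) (hB : 1 ≤ B) (N : ℕ) {W : ℝ}
    (hW : 0 ≤ W) (hN : ∀ t < N, ((A * t + B : ℕ) : ℝ) ≤ W ^ 2) :
    (((range N).filter (fun t => ∃ p ∈ (A * t + B).primeFactors,
      l ≤ log p ∧ p * p ∣ A * t + B)).card : ℝ) ≤ N * exp (-(l / 2)) + W := by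
  set G := (Ioc 0 ⌊W⌋₊).filter (fun p : ℕ => l ≤ log p) with hG
  have h1 : ((range N).filter (fun t => ∃ p ∈ (A * t + B).primeFactors,
      l ≤ log p ∧ p * p ∣ A * t + B)).card
      ≤ ∑ p ∈ G, ((range N).filter fun t => p * p ∣ A * t + B).card := by
    refine le_trans (card_le_card fun t ht => ?_) card_biUnion_le
    obtain ⟨a1, p, a2, a3, a4⟩ := mem_filter.1 ht
    refine mem_biUnion.2 ⟨p, mem_filter.2 ⟨mem_Ioc.2 ⟨(Nat.prime_of_mem_primeFactors a2).pos,
      Nat.le_floor ?_⟩, a3⟩, mem_filter.2 ⟨a1, a4⟩⟩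
    have := (Nat.cast_le.2 (Nat.le_of_dvd (by omega) a4)).trans (hN t (mem_range.1 a1))
    push_cast at this
    exact abs_le_of_sq_le_sq' (by linarith) hW |>.2
  have h2 : ∑ p ∈ G, (1 / (p : ℝ)) ^ 2 ≤ exp (-(l / 2)) := by
    have a0 := exp_pos (l / 2)
    refine (sum_inv_sq_le' G (Z := ⌈exp (l / 2)⌉₊) (Nat.ceil_pos.2 a0) fun r hr => ?_).trans ?_
    · obtain ⟨a1, a2⟩ := mem_filter.1 hr
      have a3 : exp l ≤ r := (le_log_iff_exp_le (by exact_mod_cast (mem_Ioc.1 a1).1)).1 a2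
      have a4 : exp l = exp (l / 2) * exp (l / 2) := by rw [← exp_add]; ring_nf
      have a5 := add_one_le_exp (l / 2)
      have a6 := Nat.ceil_lt_add_one a0.le
      have : ((⌈exp (l / 2)⌉₊ : ℕ) : ℝ) < r := by nlinarith
      exact_mod_cast this
    · rw [exp_neg, ← one_div]
      exact one_div_le_one_div_of_le a0 (Nat.le_ceil _)
  have h3 : (G.card : ℝ) ≤ W := by
    have := card_filter_le (Ioc 0 ⌊W⌋₊) (fun p : ℕ => l ≤ log p)
    rw [Nat.card_Ioc, Nat.sub_zero] at this
    exact (Nat.cast_le.2 this).trans (Nat.floor_le hW)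
  refine (Nat.cast_le.2 h1).trans ?_
  push_cast
  refine (sum_le_sum fun p hp => cnt_dvd hc (q := p * p)
    (mul_pos (mem_Ioc.1 (mem_filter.1 hp).1).1 (mem_Ioc.1 (mem_filter.1 hp).1).1) N).trans ?_
  rw [sum_add_distrib, ← mul_sum, sum_const, nsmul_eq_mul, mul_one]
  refine add_le_add (mul_le_mul_of_nonneg_left (le_trans (le_of_eq ?_) h2) (by positivity)) h3
  exact sum_congr rfl fun p _ => by push_cast; ring

theorem sieve (I : Finset ℕ) (hI : I.card ≤ 30) (A B : ℕ → ℕ) (D : ℕ) (hD : exp 2000 ≤ D)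
    (hA : ∀ i ∈ I, ∀ p : ℕ, p.Prime → p ≤ D → p ∣ A i) (hc : ∀ i ∈ I, (A i).Coprime (B i))
    (hB : ∀ i ∈ I, 1 ≤ B i) :
    {t : ℕ | ∀ i ∈ I, ArithmeticFunction.cardFactors (A i * t + B i) ≤ 11}.Infinite := by
  intro hfin
  obtain ⟨C, hC0, hC⟩ := mert2
  set C1 : ℝ := ∑ i ∈ I, ((A i : ℝ) + B i) with hC1
  have hex : ∀ c : ℝ, ∀ᶠ l : ℝ in atTop, c ≤ exp (l / 5) := fun c =>
    (tendsto_exp_atTop.comp (tendsto_id.atTop_div_const (by norm_num))).eventually_ge_atTop c
  obtain ⟨l, hM, hl2, hlC, h1, h2, h3⟩ := (inv_primes.and ((eventually_ge_atTop 2).and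
    ((eventually_ge_atTop (100 * C)).and ((hex (2 * C1)).and ((hex 10000).and
    (hex (hfin.toFinset.card + 1))))))).exists
  have hl : 0 < l := by linarith
  set N := ⌈exp (177 * l)⌉₊ with hN
  set W := exp (443 / 5 * l) with hW
  set P := (range ⌈exp l⌉₊).filter (fun p : ℕ => p.Prime ∧ D < p) with hP
  set R : ℕ → Finset ℕ := fun p => I.biUnion fun i => rt (A i) (B i) p with hR
  have hP1 : ∀ p ∈ P, p.Prime ∧ D < p ∧ log p < l := fun p hp => by
    obtain ⟨a1, a2, a3⟩ := mem_filter.1 hp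
    exact ⟨a2, a3, (log_lt_iff_lt_exp (by exact_mod_cast a2.pos)).2
      (Nat.lt_ceil.1 (mem_range.1 a1))⟩
  have hP2 : ∀ p ∈ P, exp 2000 ≤ p := fun p hp => hD.trans (by exact_mod_cast (hP1 p hp).2.1.le)
  have hm : ∑ p ∈ P, log p / p ≤ 101 / 100 * l := by
    linarith [hC 0 l le_rfl hl.le P fun p hp =>
      ⟨(hP1 p hp).1, log_natCast_nonneg p, (hP1 p hp).2.2⟩]
  have H : Hyp P R l := by
    refine ⟨hl, fun p hp => (hP1 p hp).1, fun p _ => biUnion_subset.2 fun i _ =>
      filter_subset _ _, fun p _ => ?_, fun p hp => ?_, fun p hp => (hP1 p hp).2.2.le, hm, ?_⟩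
    · refine card_biUnion_le.trans ((sum_le_sum fun i hi => card_rt (hc i hi) p).trans ?_)
      simpa using hI
    · have := (add_one_le_exp 2000).trans (hP2 p hp)
      exact_mod_cast (show ((60 : ℕ) : ℝ) ≤ p by push_cast; linarith)
    · have : 2000 * ∑ p ∈ P, 1 / (p : ℝ) ≤ ∑ p ∈ P, log p / p := by
        rw [mul_sum]
        refine sum_le_sum fun p hp => ?_
        rw [mul_one_div]
        exact div_le_div_of_nonneg_right ((le_log_iff_exp_le
          (by exact_mod_cast (hP1 p hp).1.pos)).2 (hP2 p hp)) (by positivity)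
      linarith
  have hPc : (P.card : ℝ) ≤ exp l := by
    have : P.card ≤ (Ioc 0 ⌊exp l⌋₊).card := card_le_card fun p hp => mem_Ioc.2
      ⟨(hP1 p hp).1.pos, Nat.le_floor (Nat.lt_ceil.1 (mem_range.1 (mem_filter.1 hp).1)).le⟩
    rw [Nat.card_Ioc, Nat.sub_zero] at this
    exact (Nat.cast_le.2 this).trans (Nat.floor_le (exp_pos _).le)
  have hN1 : exp (177 * l) ≤ N := Nat.le_ceil _
  have hN0 : 1 ≤ exp (177 * l) := one_le_exp (by linarith)
  have hN2 : (N : ℝ) ≤ 2 * exp (177 * l) := by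
    linarith [Nat.ceil_lt_add_one (exp_pos (177 * l)).le]
  have hL : ∀ i ∈ I, ∀ t < N, ((A i * t + B i : ℕ) : ℝ) ≤ W ^ 2 := by
    intro i hi t ht
    have a1 : (A i : ℝ) + B i ≤ C1 :=
      single_le_sum (f := fun i => (A i : ℝ) + B i) (fun i _ => by positivity) hi
    have a2 : (t : ℝ) ≤ N := by exact_mod_cast ht.le
    have a3 : W ^ 2 = exp (l / 5) * exp (177 * l) := by
      rw [hW, ← exp_nat_mul, ← exp_add]; congr 1; push_cast; ring
    have a4 : (0 : ℝ) ≤ A i := by positivity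
    have a5 : (0 : ℝ) ≤ B i := by positivity
    push_cast
    calc (A i : ℝ) * t + B i ≤ (A i + B i) * (2 * exp (177 * l)) := by nlinarith
      _ ≤ C1 * (2 * exp (177 * l)) := by gcongr
      _ ≤ _ := by rw [a3]; nlinarith
  have hS : ∀ i ∈ I, ∀ t, Sif P R t → ∀ p : ℕ, p.Prime → p ∣ A i * t + B i → l ≤ log p := by
    intro i hi t ht p hp hd
    by_contra hlt
    rcases le_or_gt p D with h | h
    · exact hp.one_lt.ne' (Nat.eq_one_of_dvd_coprimes (hc i hi) (hA i hi p hp h)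
        ((Nat.dvd_add_right ((hA i hi p hp h).mul_right t)).1 hd))
    · exact ht p (mem_filter.2 ⟨mem_range.2 (Nat.lt_ceil.2 ((log_lt_iff_lt_exp
        (by exact_mod_cast hp.pos)).1 (not_le.1 hlt))), hp, h⟩)
        (mem_biUnion.2 ⟨i, hi, (mem_rt hp.pos).2 hd⟩)
  have hsub : ((range N).filter (Sif P R)).card ≤ hfin.toFinset.card + ∑ i ∈ I,
      (((range N).filter (fun t => Sif P R t ∧ 12 ≤ (A i * t + B i).primeFactors.card)).card
        + ((range N).filter (fun t => ∃ p ∈ (A i * t + B i).primeFactors,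
          l ≤ log p ∧ p * p ∣ A i * t + B i)).card) := by
    refine le_trans (card_le_card fun t ht => ?_) ((card_union_le _ _).trans (Nat.add_le_add_left
      (card_biUnion_le.trans (sum_le_sum fun i _ => card_union_le _ _)) _))
    obtain ⟨a1, a2⟩ := mem_filter.1 ht
    by_contra hn
    simp only [mem_union, mem_biUnion, mem_filter, not_or, not_exists, not_and,
      Set.Finite.mem_toFinset, Set.mem_ofPred_eq] at hn
    refine hn.1 fun i hi => ?_
    obtain ⟨b1, b2⟩ := hn.2 i hi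
    have b0 : A i * t + B i ≠ 0 := by have := hB i hi; omega
    have b3 : Squarefree (A i * t + B i) := Nat.squarefree_iff_prime_squarefree.2 fun p hp hd =>
      b2 a1 p (Nat.mem_primeFactors.2 ⟨hp, (dvd_mul_right p p).trans hd, b0⟩)
        (hS i hi t a2 p hp ((dvd_mul_right p p).trans hd)) hd
    rw [← (ArithmeticFunction.cardDistinctFactors_eq_cardFactors_iff_squarefree b0).2 b3]
    have b4 := b1 a1 a2
    rw [ArithmeticFunction.cardDistinctFactors_apply, ← List.card_toFinset,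
      Nat.toFinset_factors]
    omega
  have hE := H.one_le
  have hE2 := H.EE_le
  set E := EE P R
  set n := (N : ℝ) / E with hn
  set Y := exp (8837 / 50 * l) with hY
  have hY0 : 0 < Y := exp_pos _
  have hYle : ∀ c : ℝ, c ≤ 8837 / 50 → exp (c * l) ≤ Y := fun c h =>
    exp_le_exp.2 (mul_le_mul_of_nonneg_right h hl.le)
  have hn1 : exp (l / 5) * Y ≤ n := by
    rw [hn, le_div_iff₀ (by linarith)]
    refine le_trans ?_ hN1
    refine (mul_le_mul_of_nonneg_left hE2 (by positivity)).trans (le_of_eq ?_)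
    rw [hY, ← exp_add, ← exp_add]; congr 1; ring
  have hn2 : 10000 * Y ≤ n := le_trans (by gcongr) hn1
  have hY1 : 10000 ≤ Y := h2.trans (le_trans (le_of_eq (by congr 1; ring)) (hYle (1 / 5)
    (by norm_num)))
  have hNn : (N : ℝ) = n * E := by rw [hn]; field_simp
  have g1 : 999 / 1000 * n - 31 * Y ≤ ((range N).filter (Sif P R)).card := by
    have a1 := H.lower hPc N
    have a2 : (1 + 30 * exp l) * exp ((2 * 71 + 122 / 1000) * l) ≤ 31 * Y := by
      have : exp l * exp ((2 * 71 + 122 / 1000) * l) = exp ((2 * 71 + 1122 / 1000) * l) := by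
        rw [← exp_add]; congr 1; ring
      linarith [hYle (2 * 71 + 122 / 1000) (by norm_num), hYle (2 * 71 + 1122 / 1000) (by norm_num)]
    have a3 : 1 ≤ E ^ 2 := one_le_pow₀ hE
    refine le_of_mul_le_mul_left (le_trans ?_ a1) (by linarith : 0 < E ^ 2)
    rw [hNn]
    nlinarith
  have g2 : ∀ i ∈ I,
      (((range N).filter (fun t => Sif P R t ∧ 12 ≤ (A i * t + B i).primeFactors.card)).card : ℝ)
        + ((range N).filter (fun t => ∃ p ∈ (A i * t + B i).primeFactors,
          l ≤ log p ∧ p * p ∣ A i * t + B i)).card ≤ 29 / 1000 * n + 2 * Y := by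
    intro i hi
    have a1 := H.bad (fun p hp => (hP1 p hp).2.2) (hc i hi) (hB i hi) N (hL i hi) (hS i hi) hM
    have a2 := sq_le hl2 (hc i hi) (hB i hi) N (exp_pos _).le (hL i hi)
    have a3 : (N : ℝ) / (93 / 100 * E) = 100 / 93 * n := by rw [hn]; field_simp
    have a4 : exp (443 / 5 * l) * exp ((2 * 44 + 122 / 1000) * l) ≤ Y := by
      rw [← exp_add, ← add_mul]; exact hYle _ (by norm_num)
    have a5 : W ≤ Y := hYle _ (by norm_num)
    have a6 : (N : ℝ) * exp (-(l / 2)) ≤ 1 / 10000 * n := by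
      have b1 : E * exp (-(l / 2)) * exp (l / 5) ≤ 1 := by
        refine (mul_le_mul_of_nonneg_right (mul_le_mul_of_nonneg_right hE2 (exp_pos _).le)
          (exp_pos _).le).trans ?_
        rw [← exp_add, ← exp_add]
        exact exp_le_one_iff.2 (by linarith)
      have b2 : 0 ≤ E * exp (-(l / 2)) := by positivity
      have b3 : E * exp (-(l / 2)) ≤ 1 / 10000 := by nlinarith
      rw [hNn, mul_assoc, mul_comm]
      exact mul_le_mul_of_nonneg_right b3 (by linarith)
    rw [a3] at a1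
    linarith
  have g3 := sum_le_sum g2
  rw [sum_const, nsmul_eq_mul] at g3
  have g4 : (I.card : ℝ) ≤ 30 := by exact_mod_cast hI
  have g5 := mul_le_mul_of_nonneg_right g4 (show 0 ≤ 29 / 1000 * n + 2 * Y by linarith)
  have g6 := (Nat.cast_le (α := ℝ)).2 hsub
  push_cast at g6
  have g7 : (hfin.toFinset.card + 1 : ℝ) * 10000 ≤ n :=
    le_trans (mul_le_mul h3 hY1 (by norm_num) (exp_pos _).le) hn1
  have g8 : (0 : ℝ) ≤ hfin.toFinset.card := Nat.cast_nonneg _
  linarith

end Pool.Agent.P.MP_dddec0_nt.Odd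
end

-- part Pool.Agent.P.MP_dddec0_nt.OddF
section

/-! The finite colouring lemma and the reduction to the sieve. -/

namespace Pool.Agent.P.MP_dddec0_nt.Odd
open ArithmeticFunction

/-- Effect of giving the point `v` the colour `x`. -/
def asg (v : ℕ) (x : Bool) (cs : List (List ℕ × Bool)) : List (List ℕ × Bool) :=
  (cs.filter fun c => c.2 == x || !(c.1.contains v)).map fun c => (c.1.filter (· != v), c.2)

/-- A point of a shortest remaining edge. -/
def pick (cs : List (List ℕ × Bool)) : ℕ :=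
  (((cs.find? fun c => c.1.length == 1).or ((cs.find? fun c => c.1.length == 2).or
    cs.head?)).map fun c => c.1.headD 0).getD 0

/-- Exhaustive search. -/
def ref : ℕ → List (List ℕ × Bool) → Bool
  | 0, _ => false
  | f + 1, cs => cs.any (fun c => c.1.isEmpty) ||
      (ref f (asg (pick cs) true cs) && ref f (asg (pick cs) false cs))

theorem ref_sound (c : ℕ → Bool) : ∀ f cs, ref f cs = true → ∃ e ∈ cs, ∀ v ∈ e.1, c v = e.2
  | 0, _, h => by simp [ref] at h
  | f + 1, cs, h => by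
    rw [ref, Bool.or_eq_true, Bool.and_eq_true] at h
    rcases h with h | h
    · obtain ⟨e, he, h⟩ := List.any_eq_true.1 h
      exact ⟨e, he, fun v hv => by simp [List.isEmpty_iff.1 h] at hv⟩
    · have h' : ref f (asg (pick cs) (c (pick cs)) cs) = true := by
        cases c (pick cs)
        · exact h.2
        · exact h.1
      obtain ⟨e', he', h1⟩ := ref_sound c f _ h'
      obtain ⟨e, he, rfl⟩ := List.mem_map.1 he'
      obtain ⟨h2, h3⟩ := List.mem_filter.1 he
      refine ⟨e, h2, fun v hv => ?_⟩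
      by_cases hvp : v = pick cs
      · subst hvp
        simp only [Bool.or_eq_true, beq_iff_eq, Bool.not_eq_true', List.contains_eq_mem,
          decide_eq_false_iff_not] at h3
        exact (h3.resolve_right fun h => h hv).symm
      · exact h1 v (List.mem_filter.2 ⟨hv, by simpa using hvp⟩)

/-- Triples `(m, d, b)`: the edge `{d m, d (m + 2), d (m + 6)}`, and `b` says that `Ω d` is even. -/
def edges : List (ℕ × ℕ × Bool) :=
  [
   (10, 36, true), (28, 12, false), (78, 6, true), (26, 15, true), (66, 7, false), (9, 36, true),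
   (130, 3, false), (28, 14, true), (38, 12, false), (33, 12, false), (22, 18, false),
   (50, 6, true), (15, 24, true), (42, 12, false), (7, 36, true), (16, 24, true), (54, 6, true),
   (24, 12, false), (18, 18, false), (66, 6, true), (10, 27, false), (20, 18, false),
   (42, 9, true), (10, 30, false), (32, 12, false), (76, 6, true), (54, 7, false),
   (117, 4, true), (5, 60, true), (24, 18, false), (34, 12, false), (82, 6, true),
   (6, 48, false), (14, 24, true), (390, 1, true), (4, 66, false), (11, 24, true),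
   (12, 28, false), (25, 12, false), (14, 33, true), (22, 12, false), (30, 12, false),
   (124, 3, false), (70, 6, true), (26, 12, false), (18, 24, true), (60, 6, true),
   (18, 15, true), (35, 12, false), (6, 42, false), (12, 24, true), (48, 6, true), (72, 6, true)]

/-- The thirty points. -/
def pts : Finset ℕ :=
  {
   252, 264, 270, 288, 300, 312, 324, 336, 360, 372, 378, 384, 390, 392, 396, 408, 420, 432, 444,
   456, 462, 468, 476, 480, 492, 504, 528, 540, 576, 660}

theorem ref_edges : ref 40 (edges.map fun e =>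
    ([e.2.1 * e.1, e.2.1 * (e.1 + 2), e.2.1 * (e.1 + 6)], e.2.2)) = true := by decide +kernel

theorem edges_ok : ∀ e ∈ edges, 0 < e.1 ∧ 0 < e.2.1 ∧ (Even (cardFactors e.2.1) ↔ e.2.2 = true) ∧
    ∀ s ∈ [0, 2, 6], e.2.1 * (e.1 + s) ∈ pts ∧ cardFactors (e.1 + s) ≤ 5 := by decide +kernel

theorem pts_ok : pts.card = 30 ∧ ∀ y ∈ pts, 0 < y ∧ y ≤ 660 := by decide +kernel

theorem exists_edge (L : ℕ → ℕ) (h0 : ∀ y ∈ pts, L y ≠ 0) (hL : ∀ y ∈ pts, cardFactors (L y) ≤ 11) :
    ∃ m d : ℕ, 0 < m ∧ 0 < d ∧ ∀ s ∈ [0, 2, 6], d * (m + s) ∈ pts ∧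
      Odd (cardFactors ((m + s) * L (d * (m + s)))) ∧
      cardFactors ((m + s) * L (d * (m + s))) ≤ 15 := by
  obtain ⟨e', he', h⟩ := ref_sound (fun y => decide (Odd (cardFactors (y * L y)))) _ _ ref_edges
  obtain ⟨⟨m, d, b⟩, he, rfl⟩ := List.mem_map.1 he'
  obtain ⟨hm, hd, hb, hs⟩ := edges_ok _ he
  refine ⟨m, d, hm, hd, fun s hs' => ?_⟩
  obtain ⟨h1, h2⟩ := hs s hs'
  simp only at hm hd hb h1 h2 h
  have h3 : decide (Odd (cardFactors (d * (m + s) * L (d * (m + s))))) = b := by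
    refine h _ ?_
    simp only [List.mem_cons, List.not_mem_nil, or_false] at hs' ⊢
    rcases hs' with rfl | rfl | rfl <;> simp
  have h4 : (m + s) * L (d * (m + s)) ≠ 0 := mul_ne_zero (by omega) (h0 _ h1)
  rw [mul_assoc, cardFactors_mul hd.ne' h4] at h3
  have h5 := cardFactors_mul (show m + s ≠ 0 by omega) (h0 _ h1)
  have h6 := hL _ h1
  have h7 : Odd (cardFactors ((m + s) * L (d * (m + s)))) := by
    rw [← h3, decide_eq_true_iff, Nat.even_iff, Nat.odd_iff] at hb
    rw [Nat.odd_iff]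
    omega
  refine ⟨h1, h7, ?_⟩
  rw [Nat.odd_iff] at h7
  omega

theorem exists_forms : ∃ (D Q : ℕ) (A : ℕ → ℕ), Real.exp 2000 ≤ D ∧ ∀ y ∈ pts,
    y * A y = Q ∧ 2 ≤ A y ∧ ∀ p : ℕ, p.Prime → p ≤ D → p ∣ A y := by
  set D := max 660 ⌈Real.exp 2000⌉₊ with hD
  refine ⟨D, D.factorial * D.factorial, fun y => D.factorial / y * D.factorial,
    (Nat.le_ceil _).trans (Nat.cast_le.2 (le_max_right _ _)), fun y hy => ?_⟩
  obtain ⟨h1, h2⟩ := pts_ok.2 y hy
  have h3 : y ∣ D.factorial := Nat.dvd_factorial h1 (h2.trans (le_max_left _ _))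
  have h4 : ∀ p : ℕ, p.Prime → p ≤ D → p ∣ D.factorial / y * D.factorial := fun p hp h =>
    (Nat.dvd_factorial hp.pos h).mul_left _
  refine ⟨by rw [← mul_assoc, Nat.mul_div_cancel' h3], Nat.le_of_dvd (mul_pos
    (Nat.div_pos (Nat.le_of_dvd D.factorial_pos h3) h1) D.factorial_pos)
    (h4 2 Nat.prime_two (le_trans (by norm_num) (le_max_left _ _))), h4⟩

/-- An odd number of prime factors, at most fifteen. -/
def Good (n : ℕ) : Prop := Odd (cardFactors n) ∧ cardFactors n ≤ 15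

theorem two : {n : ℕ | Good n ∧ Good (n + 2) ∧ Good (n + 6)}.Infinite := by
  obtain ⟨D, Q, A, hD, hA⟩ := exists_forms
  have h := sieve pts pts_ok.1.le A (fun _ => 1) D hD (fun y hy => (hA y hy).2.2)
    (fun _ _ => Nat.coprime_one_right _) fun _ _ => le_rfl
  refine Set.infinite_of_forall_exists_gt fun M => ?_
  obtain ⟨t, ht, hM⟩ := h.exists_gt M
  obtain ⟨m, d, hm, hd, hs⟩ := exists_edge (fun y => A y * t + 1) (fun _ _ => by omega) ht
  have key : ∀ s ∈ [0, 2, 6], d * ((m + s) * (A (d * (m + s)) * t + 1)) = Q * t + d * m + d * s :=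
    fun s h => by rw [← (hA _ (hs s h).1).1]; ring
  have k0 := key 0 (by simp)
  have e : ∀ s ∈ [0, 2, 6], (m + s) * (A (d * (m + s)) * t + 1)
      = (m + 0) * (A (d * (m + 0)) * t + 1) + s := fun s h =>
    Nat.eq_of_mul_eq_mul_left hd (by rw [key s h, mul_add d _ s, k0]; ring)
  refine ⟨(m + 0) * (A (d * (m + 0)) * t + 1), ⟨(hs 0 (by simp)).2, ?_, ?_⟩, ?_⟩
  · rw [← e 2 (by simp)]; exact (hs 2 (by simp)).2
  · rw [← e 6 (by simp)]; exact (hs 6 (by simp)).2
  · have := (hA _ (hs 0 (by simp)).1).2.1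
    have h1 : t ≤ A (d * (m + 0)) * t := Nat.le_mul_of_pos_left _ (by omega)
    exact lt_of_lt_of_le (by omega) (Nat.le_mul_of_pos_left _ (by omega))

theorem four : {n : ℕ | Good n ∧ Good (n + 4) ∧ Good (n + 6)}.Infinite := by
  obtain ⟨D, Q, A, hD, hA⟩ := exists_forms
  have h := sieve pts pts_ok.1.le A (fun y => A y - 1) D hD (fun y hy => (hA y hy).2.2)
    (fun y hy => by
      have := (hA y hy).2.1
      exact (Nat.coprime_self_sub_right (by omega)).2 (Nat.coprime_one_right _))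
    fun y hy => by have := (hA y hy).2.1; omega
  refine Set.infinite_of_forall_exists_gt fun M => ?_
  obtain ⟨t, ht, hM⟩ := h.exists_gt M
  obtain ⟨m, d, hm, hd, hs⟩ := exists_edge (fun y => A y * t + (A y - 1))
    (fun y hy => by have := (hA y hy).2.1; omega) ht
  have key : ∀ s ∈ [0, 2, 6], d * ((m + s) * (A (d * (m + s)) * t + (A (d * (m + s)) - 1)) + s)
      + d * m = Q * (t + 1) := fun s h => by
    obtain ⟨h1, h2, -⟩ := hA _ (hs s h).1
    obtain ⟨x, hx⟩ : ∃ x, A (d * (m + s)) = x + 1 := ⟨A (d * (m + s)) - 1, by omega⟩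
    rw [← h1, hx, Nat.add_sub_cancel]
    ring
  have e : ∀ s ∈ [0, 2, 6], (m + s) * (A (d * (m + s)) * t + (A (d * (m + s)) - 1)) + s
      = (m + 6) * (A (d * (m + 6)) * t + (A (d * (m + 6)) - 1)) + 6 := fun s h =>
    Nat.eq_of_mul_eq_mul_left hd (Nat.add_right_cancel ((key s h).trans (key 6 (by simp)).symm))
  refine ⟨(m + 6) * (A (d * (m + 6)) * t + (A (d * (m + 6)) - 1)), ⟨(hs 6 (by simp)).2, ?_, ?_⟩, ?_⟩
  · rw [← Nat.add_right_cancel (e 2 (by simp) : _ + 2 = _ + 4 + 2)]; exact (hs 2 (by simp)).2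
  · rw [← e 0 (by simp)]; exact (hs 0 (by simp)).2
  · have := (hA _ (hs 6 (by simp)).1).2.1
    have h1 : t ≤ A (d * (m + 6)) * t := Nat.le_mul_of_pos_left _ (by omega)
    exact lt_of_lt_of_le (by omega) (Nat.le_mul_of_pos_left _ (by omega))

end Pool.Agent.P.MP_dddec0_nt.Odd
end
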