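import Pool.Agent.Lib.Tup.Defs
import Pool.Agent.Lib.Tup.Xap
import Pool.Agent.Lib.Tup.Inner
import Pool.Agent.Lib.Tup.Maynard

-- part Pool.Agent.P.MP_dddec0_nt.L33Defs
section

/-! Definitions for the lifted sieve (one prime and two almost primes). -/

namespace Pool.Agent.P.MP_dddec0_nt.L33
open Finset Real Filter Pool.Agent.Lib.Tup

noncomputable section

/-- Recursion over a list of sizes. -/
def ev (α : ℝ) (β g : ℝ → ℝ) : List ℝ → ℝ → ℝ
  | [], u => g u
  | t :: ts, u => α * ev α β g ts u + β t * ev α β g ts (u + t)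

/-- Alternating sum of `g (u + ∑ S)` over the sublists `S`. -/
def evG (g : ℝ → ℝ) : List ℝ → ℝ → ℝ := ev 1 (fun _ => -1) g

/-- The product of the list times `v (u + sum)`. -/
def evV (v : ℝ → ℝ) : List ℝ → ℝ → ℝ := ev 0 (fun t => t) v

/-- Iterated integral over a box of cells of width `w`. -/
def BI (w : ℝ) : List ℕ → (List ℝ → ℝ) → ℝ
  | [], Φ => Φ []
  | a :: as, Φ => BI w as (fun ts => ∫ t in ((a : ℝ) * w)..(((a : ℝ) + 1) * w), Φ (t :: ts))

/-- Sum over tuples of distinct numbers, one from each set. -/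
def TS : List (Finset ℕ) → (List ℕ → ℝ) → ℝ
  | [], Φ => Φ []
  | C :: Cs, Φ => TS Cs (fun ps => ∑ p ∈ C.filter (fun p => p ∉ ps), Φ (p :: ps))

/-- The tuples summed over in `TS`. -/
def Val (Cs : List (Finset ℕ)) (ps : List ℕ) : Prop :=
  List.Forall₂ (fun p C => p ∈ C) ps Cs ∧ ps.Nodup

/-- Sum over all lists of length `k` with entries below `m`. -/
def SL (m : ℕ) : ℕ → (List ℕ → ℝ) → ℝ
  | 0, f => f []
  | k + 1, f => ∑ a ∈ range m, SL m k (fun as => f (a :: as))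

def dl : List ℝ → List ℝ → ℝ
  | s :: ss, t :: ts => |s - t| + dl ss ts
  | _, _ => 0

def In01 (k : ℕ) (ts : List ℝ) : Prop := ts.length = k ∧ ∀ t ∈ ts, 0 ≤ t ∧ t ≤ 1

/-- Bounded and Lipschitz on the unit cube. -/
def LipL (k : ℕ) (B : ℝ) (Φ : List ℝ → ℝ) : Prop :=
  ∀ ss, In01 k ss → |Φ ss| ≤ B ∧ ∀ ts, In01 k ts → |Φ ss - Φ ts| ≤ B * dl ss ts

/-- Primes of size in `[x, y)`. -/
def cellP (l x y : ℝ) : Finset ℕ :=
  (range (NN l)).filter (fun p => p.Prime ∧ x * l ≤ log p ∧ log p < y * l)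

def cellW (l η w : ℝ) (a : ℕ) : Finset ℕ := cellP l (max (a * w) η) ((a + 1) * w)

def lg (l : ℝ) (p : ℕ) : ℝ := log p / l

def aws (l : ℝ) (ps : List ℕ) : ℝ := (ps.map (fun p => lg l p / p)).prod

def avg (w : ℝ) (g : ℝ → ℝ) (v : ℝ) : ℝ := (∫ t in (0 : ℝ)..w, g (v + t)) / w

/-- Mean of `evG` over a box. -/
def Lf (w : ℝ) : List ℕ → (ℝ → ℝ) → ℝ → ℝ
  | [], g => g
  | a :: as, g => Lf w as (fun v => g v - avg w g (v + a * w))

def ellR (E : ℕ → ℕ → ℝ) : List ℕ → ℕ → ℕ → ℝ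
  | [], j, o => E j o
  | a :: as, j, o => ellR E as j o - ellR E as (j + 1) (o + a)

def Rf (h : ℝ) (n : ℕ) (f : ℕ → ℝ) (t : ℝ) : ℝ :=
  ∑ a ∈ range n, f a * rho (a * h) ((a + 1) * h) t

/-- Iterated differences of a truncated power. -/
def dZ (r e : ℕ) : ℕ → ℤ → ℤ
  | 0, c => (c.toNat : ℤ) ^ e
  | i + 1, c => dZ r e i c - dZ r e i (c - r)

def cz (r j : ℕ) (c : ℤ) : ℤ := dZ r (j + 1) j (c + 1) - dZ r (j + 1) j c

def mI (w : ℝ) (a j : ℕ) : ℝ := ((((a : ℝ) + 1) * w) ^ (j + 1) - (a * w) ^ (j + 1)) / (j + 1)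

/-- Moments `∫ ∏ t * (1, ∑ t, (∑ t) ^ 2)` over a box. -/
def mom (w : ℝ) : List ℕ → ℝ × ℝ × ℝ
  | [] => (1, 0, 0)
  | a :: as => ((mom w as).1 * mI w a 1, (mom w as).2.1 * mI w a 1 + (mom w as).1 * mI w a 2,
      (mom w as).2.2 * mI w a 1 + 2 * (mom w as).2.1 * mI w a 2 + (mom w as).1 * mI w a 3)

def E3 (s d : ℝ) : ℝ := (s - 3) * (1 + d + d ^ 2 / 4 + d ^ 3 / 60)

def w1 (s τ : ℝ) : ℝ := if τ ≤ 3 then 1 / (s - τ) else 0

def w2 (s τ : ℝ) : ℝ := if τ ≤ 2 then max 0 (log (3 - τ) - (s - 4) / 2) / (s - τ) else 0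

def w3 (s τ : ℝ) : ℝ := if τ ≤ 1 then (1 - τ) ^ 2 / (12 * E3 s (1 - τ)) else 0

/-- Lower bound for the density of products of at most `J` big primes. -/
def Wt (s : ℝ) (J : ℕ) (τ : ℝ) : ℝ :=
  w1 s τ + (if 2 ≤ J then w2 s τ else 0) + (if 3 ≤ J then w3 s τ else 0)

/-- Mass of the products of `j` big primes. -/
def BM (ψ : ℝ → ℝ) (l : ℝ) (W b κ j : ℕ) : ℝ :=
  ∑ B ∈ powersetCard j (cellP l 1 5), if κ * ∏ p ∈ B, p ≡ b [MOD W] then
    ψ (log (κ * ∏ p ∈ B, p : ℕ) / l) / (∏ p ∈ B, p : ℕ) else 0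

def CondN (s : ℝ) (J : ℕ) (w : ℝ) (k σ : ℕ) (N0 N1 : ℝ) : Prop :=
  0 < N0 ∧ 0 < N1 ∧ ∀ τ : ℝ, σ * w ≤ τ → τ ≤ (σ + k) * w →
    N0 * (τ - σ * w) + N1 * ((σ + k) * w - τ) ≤ k * w * ((s - τ) * Wt s J τ)

def Vbox (s w N0 N1 : ℝ) (as : List ℕ) : ℝ :=
  ((-(mom w as).2.2 + (s + as.sum * w) * (mom w as).2.1 - s * (as.sum * w) * (mom w as).1) / N0
    + ((mom w as).2.2 - (s + (as.sum + as.length) * w) * (mom w as).2.1
      + s * ((as.sum + as.length) * w) * (mom w as).1) / N1) / (as.length * w)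

def bx (s w N0 N1 : ℝ) (g : ℝ → ℝ) (as : List ℕ) : ℝ :=
  (w ^ as.length * Lf w as g 0) ^ 2 / Vbox s w N0 N1 as

/-- Contribution of the numbers with `k` small prime factors. -/
def Qk (s : ℝ) (m k : ℕ) (N0 N1 : ℕ → ℝ) (g : ℝ → ℝ) : ℝ :=
  SL m k (fun as => if as.sum + k ≤ 3 * m then
    max 0 (bx s (1 / m) (N0 as.sum) (N1 as.sum) g as) else 0) / k.factorial

def Qsh (s : ℝ) (R K : ℕ) (m : ℕ → ℕ) (N0 N1 : ℕ → ℕ → ℝ) (g : ℝ → ℝ) : ℝ :=
  g 0 ^ 2 * Wt s R 0 + ∑ k ∈ Icc 1 K, Qk s (m k) k (N0 k) (N1 k) g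

def gR (R r : ℕ) : ℝ := if r ≤ R then 1 else 0

/-- Alternating sum over the subsets of a set of primes. -/
def GA (l : ℝ) (g : ℝ → ℝ) (A : Finset ℕ) (u : ℝ) : ℝ :=
  ∑ S ∈ A.powerset, (-1) ^ S.card * g (u + sz S / l)

open Classical in
/-- Lower bound on one fibre. -/
def FibGe (ψ : ℝ → ℝ) (s0 s1 : ℝ) (n : ℕ) (h : ℝ) (R : ℕ) (f : ℕ → ℝ) (Q : ℝ) : Prop :=
  ∀ ε : ℝ, 0 < ε → ∃ η1 : ℝ, 0 < η1 ∧ ∀ η : ℝ, 0 < η → η ≤ η1 → ∃ D1 : ℕ, ∀ D ≥ D1,
    ∀ᶠ l : ℝ in atTop, ∀ b : ℕ, Nat.Coprime b (primorial D) →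
      scale D l 1 * ((∫ s in s0..s1, ψ s) * Q - ε)
        ≤ ∑ m ∈ (cls l (primorial D) b).filter (RS η l), wg ψ l m * gR R m.primeFactors.card *
          (∑ a : Fin n, f a * XC D l h a m) ^ 2

/-- Three variable sieve sum. -/
def S3 (D : ℕ) (l h : ℝ) (n : ℕ) (F : ℕ → ℕ → ℕ → ℝ) (u v z : ℤ) : ℝ :=
  ∑ a ∈ range n, ∑ b ∈ range n, ∑ c ∈ range n,
    F a b c * (XC D l h a u * XC D l h b v * XC D l h c z)

def Sup (h : ℝ) (F : ℕ → ℕ → ℕ → ℝ) : Prop :=
  ∀ a b c : ℕ, F a b c ≠ 0 → ((a : ℝ) + b + c + 3) * h ≤ 5 / 3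

def sq3 (n : ℕ) (F : ℕ → ℕ → ℕ → ℝ) : ℝ :=
  ∑ a ∈ range n, ∑ b ∈ range n, ∑ c ∈ range n, F a b c ^ 2

/-- One prime and two almost primes, in this order. -/
def Pat (x y z : ℕ) : Prop :=
  x.Prime ∧ ((ArithmeticFunction.cardFactors y ≤ 3 ∧ ArithmeticFunction.cardFactors z ≤ 3) ∨
    (y.Prime ∧ ArithmeticFunction.cardFactors z ≤ 5))

def Good (x y z : ℕ) : Prop :=
  Pat x y z ∨ Pat x z y ∨ Pat y x z ∨ Pat y z x ∨ Pat z x y ∨ Pat z y x

end

end Pool.Agent.P.MP_dddec0_nt.L33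
end

-- part Pool.Agent.P.MP_dddec0_nt.L33Ev
section

namespace Pool.Agent.P.MP_dddec0_nt.L33
open Finset Real Filter Pool.Agent.Lib.Tup

theorem ev_aux_L33Ev {α B : ℝ} {β g : ℝ → ℝ} (hα : |α| ≤ 1)
    (hβ : ∀ t, 0 ≤ t → t ≤ 1 → |β t| ≤ 1) (hβ' : ∀ s t, |β s - β t| ≤ |s - t|)
    (hg : ∀ u, 0 ≤ u → u ≤ 5 → |g u| ≤ B)
    (hg' : ∀ u v, 0 ≤ u → u ≤ 5 → 0 ≤ v → v ≤ 5 → |g u - g v| ≤ B * |u - v|) (k : ℕ) :
    ∀ ss, In01 k ss → ∀ u : ℝ, 0 ≤ u → u + k ≤ 5 → |ev α β g ss u| ≤ 3 ^ k * B ∧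
      ∀ ts, In01 k ts → ∀ u' : ℝ, 0 ≤ u' → u' + k ≤ 5 →
        |ev α β g ss u - ev α β g ts u'| ≤ 3 ^ k * B * (|u - u'| + dl ss ts) := by
  have hB : 0 ≤ B := (abs_nonneg _).trans (hg 0 le_rfl (by norm_num))
  induction k with
  | zero =>
    intro ss hs u h0 h1
    obtain rfl := List.length_eq_zero_iff.1 hs.1
    rw [Nat.cast_zero, add_zero] at h1
    refine ⟨by simpa [ev] using hg u h0 h1, fun ts ht u' h0' h1' => ?_⟩
    obtain rfl := List.length_eq_zero_iff.1 ht.1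
    rw [Nat.cast_zero, add_zero] at h1'
    simpa [ev, dl] using hg' u u' h0 h1 h0' h1'
  | succ k ih =>
    have hK : 0 ≤ 3 ^ k * B := by positivity
    have key : ∀ (s : ℝ) (ss : List ℝ), In01 (k + 1) (s :: ss) → In01 k ss ∧ 0 ≤ s ∧ s ≤ 1 :=
      fun s ss h => ⟨⟨by simpa using h.1, fun t ht => h.2 t (List.mem_cons_of_mem _ ht)⟩,
        h.2 s List.mem_cons_self⟩
    have mul : ∀ a x K : ℝ, |a| ≤ 1 → |x| ≤ K → |a * x| ≤ K := fun a x K ha hx => by
      rw [abs_mul]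
      exact (mul_le_of_le_one_left (abs_nonneg _) ha).trans hx
    intro ss hs u h0 h1
    rcases ss with _ | ⟨s, ss⟩
    · exact absurd hs.1 (by simp)
    obtain ⟨hs', s0, s1⟩ := key s ss hs
    push_cast at h1
    obtain ⟨a1, a2⟩ := ih ss hs' u h0 (by linarith)
    obtain ⟨b1, b2⟩ := ih ss hs' (u + s) (by linarith) (by linarith)
    constructor
    · have e := abs_add_le (α * ev α β g ss u) (β s * ev α β g ss (u + s))
      have c1 := mul _ _ _ hα a1
      have c2 := mul _ _ _ (hβ s s0 s1) b1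
      rw [ev, pow_succ]
      linarith
    · intro ts ht u' h0' h1'
      rcases ts with _ | ⟨t, ts⟩
      · exact absurd ht.1 (by simp)
      obtain ⟨ht', t0, t1⟩ := key t ts ht
      push_cast at h1'
      have c1 := mul _ _ _ hα (a2 ts ht' u' h0' (by linarith))
      have c2 := mul _ _ _ (hβ s s0 s1) (b2 ts ht' (u' + t) (by linarith) (by linarith))
      have c3 : |(β s - β t) * ev α β g ts (u' + t)| ≤ |s - t| * (3 ^ k * B) := by
        rw [abs_mul]
        exact mul_le_mul (hβ' s t) (ih ts ht' (u' + t) (by linarith) (by linarith)).1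
          (abs_nonneg _) (abs_nonneg _)
      have c4 : |u + s - (u' + t)| ≤ |u - u'| + |s - t| := by
        rw [show u + s - (u' + t) = u - u' + (s - t) by ring]
        exact abs_add_le _ _
      have c5 := mul_le_mul_of_nonneg_left c4 hK
      have c6 := mul_nonneg hK (abs_nonneg (s - t))
      have c7 := (abs_nonneg _).trans c1
      rw [ev, ev, dl, pow_succ, show α * ev α β g ss u + β s * ev α β g ss (u + s) -
        (α * ev α β g ts u' + β t * ev α β g ts (u' + t)) =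
        α * (ev α β g ss u - ev α β g ts u') + β s * (ev α β g ss (u + s) - ev α β g ts (u' + t)) +
          (β s - β t) * ev α β g ts (u' + t) by ring]
      refine (abs_add_three _ _ _).trans ?_
      linarith

/-- Hint: prove by induction on `ss`, generalizing `ts u u'`, for `0 ≤ u, u'` and
`u + length ≤ 5`, `u' + length ≤ 5`: `|ev ss u| ≤ 3 ^ len * B` and
`|ev ss u - ev ts u'| ≤ 3 ^ len * B * (|u - u'| + dl ss ts)`. -/
theorem ev_lip {α B : ℝ} {β g : ℝ → ℝ} (hα : |α| ≤ 1) (hβ : ∀ t, 0 ≤ t → t ≤ 1 → |β t| ≤ 1)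
    (hβ' : ∀ s t, |β s - β t| ≤ |s - t|) (hg : ∀ u, 0 ≤ u → u ≤ 5 → |g u| ≤ B)
    (hg' : ∀ u v, 0 ≤ u → u ≤ 5 → 0 ≤ v → v ≤ 5 → |g u - g v| ≤ B * |u - v|) {k : ℕ}
    (hk : k ≤ 5) : LipL k (3 ^ k * B) (fun ts => ev α β g ts 0) := by
  have hk' : (0 : ℝ) + k ≤ 5 := by
    rw [zero_add]
    exact_mod_cast hk
  intro ss hs
  obtain ⟨h1, h2⟩ := ev_aux_L33Ev hα hβ hβ' hg hg' k ss hs 0 le_rfl hk'
  refine ⟨h1, fun ts ht => ?_⟩
  simpa using h2 ts ht 0 le_rfl hk'

theorem evV_eq (v : ℝ → ℝ) (ts : List ℝ) (u : ℝ) : evV v ts u = ts.prod * v (u + ts.sum) := by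
  unfold evV
  induction ts generalizing u with
  | nil => simp [ev]
  | cons t ts ih => rw [ev, ih (u + t), zero_mul, zero_add, List.prod_cons, List.sum_cons,
      mul_assoc, add_assoc]

theorem avg_cont {w : ℝ} {g : ℝ → ℝ} (hg : Continuous g) : Continuous (avg w g) := by
  unfold avg
  refine Continuous.div_const ?_ w
  exact intervalIntegral.continuous_parametric_intervalIntegral_of_continuous'
    (f := fun v t => g (v + t)) (hg.comp (continuous_fst.add continuous_snd)) 0 w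

theorem evG_cons_L33Ev (g : ℝ → ℝ) (t : ℝ) (ts : List ℝ) (u : ℝ) :
    evG g (t :: ts) u = evG g ts u - evG g ts (u + t) := by
  unfold evG
  rw [ev]
  ring

theorem evG_cont_L33Ev {g : ℝ → ℝ} (hg : Continuous g) (ts : List ℝ) : Continuous (evG g ts) := by
  induction ts with
  | nil => exact hg
  | cons t ts ih =>
    rw [show evG g (t :: ts) = fun u => evG g ts u - evG g ts (u + t) from
      funext (evG_cons_L33Ev g t ts)]
    fun_prop

theorem evG_int_L33Ev {w : ℝ} (hw : 0 < w) (a : ℝ) {g : ℝ → ℝ} (hg : Continuous g) (ts : List ℝ)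
    (u : ℝ) : ∫ t in (a * w)..((a + 1) * w), (evG g ts u - evG g ts (u + t)) =
      w * evG (fun v => g v - avg w g (v + a * w)) ts u := by
  induction ts generalizing u with
  | nil =>
    have h1 : ∫ t in (0 : ℝ)..w, g (u + a * w + t) = ∫ t in (a * w)..((a + 1) * w), g (u + t) := by
      rw [intervalIntegral.integral_comp_add_left, intervalIntegral.integral_comp_add_left]
      congr 1 <;> ring
    change ∫ t in (a * w)..((a + 1) * w), (g u - g (u + t)) = w * (g u - avg w g (u + a * w))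
    rw [intervalIntegral.integral_sub (by simp)
      ((by fun_prop : Continuous fun t => g (u + t)).intervalIntegrable _ _), avg, h1,
      intervalIntegral.integral_const, smul_eq_mul]
    field_simp
    ring
  | cons r ts ih =>
    have hc := evG_cont_L33Ev hg ts
    have hi : ∀ v : ℝ, IntervalIntegrable (fun t => evG g ts v - evG g ts (v + t))
        MeasureTheory.volume (a * w) ((a + 1) * w) := fun v =>
      (by fun_prop : Continuous fun t => evG g ts v - evG g ts (v + t)).intervalIntegrable _ _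
    rw [evG_cons_L33Ev (fun v => g v - avg w g (v + a * w)), mul_sub, ← ih u, ← ih (u + r),
      ← intervalIntegral.integral_sub (hi _) (hi _)]
    refine intervalIntegral.integral_congr fun t _ => ?_
    simp only [evG_cons_L33Ev, add_right_comm u t r]
    ring

theorem BI_mul_L33Ev (w c : ℝ) (as : List ℕ) (Φ : List ℝ → ℝ) :
    BI w as (fun ts => c * Φ ts) = c * BI w as Φ := by
  induction as generalizing Φ with
  | nil => rfl
  | cons a as ih =>
    rw [BI, BI, ← ih]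
    simp only [intervalIntegral.integral_const_mul]

/-- Hint: induction on `as` generalizing `g`; first show
`∫ t in a w..(a+1) w, evG g (t :: ts) u = w * evG (fun v => g v - avg w g (v + a * w)) ts u`
by induction on `ts` generalizing `u` (`evG g ts` is continuous, and linear in `g`), and
`BI w as (fun ts => c * Φ ts) = c * BI w as Φ`. -/
theorem BI_evG {w : ℝ} (hw : 0 < w) (as : List ℕ) {g : ℝ → ℝ} (hg : Continuous g) (u : ℝ) :
    BI w as (fun ts => evG g ts u) = w ^ as.length * Lf w as g u := by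
  induction as generalizing g with
  | nil => simp [BI, Lf, evG, ev]
  | cons a as ih =>
    have hc := avg_cont (w := w) hg
    rw [BI, Lf, List.length_cons, pow_succ', mul_assoc, ← ih (by fun_prop), ← BI_mul_L33Ev]
    simp only [evG_cons_L33Ev, evG_int_L33Ev hw (a : ℝ) hg]

theorem int_L33Ev (w : ℝ) (a : ℕ) (A B C : ℝ) :
    ∫ t in ((a : ℝ) * w)..(((a : ℝ) + 1) * w), (A * t ^ 1 + B * t ^ 2 + C * t ^ 3) =
      A * mI w a 1 + B * mI w a 2 + C * mI w a 3 := by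
  have hi : ∀ (c : ℝ) (j : ℕ), IntervalIntegrable (fun t : ℝ => c * t ^ j) MeasureTheory.volume
      ((a : ℝ) * w) (((a : ℝ) + 1) * w) := fun c j =>
    (by fun_prop : Continuous fun t : ℝ => c * t ^ j).intervalIntegrable _ _
  rw [intervalIntegral.integral_add ((hi _ _).add (hi _ _)) (hi _ _),
    intervalIntegral.integral_add (hi _ _) (hi _ _)]
  simp only [intervalIntegral.integral_const_mul, integral_pow, mI]

/-- Hint: use `evV_eq`; induction on `as` generalizing `c0 c1 c2`: integrating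
`t * (c0 + c1 (t + x) + c2 (t + x) ^ 2)` over the cell gives the quadratic in `x` with
coefficients `c0 m1 + c1 m2 + c2 m3`, `c1 m1 + 2 c2 m2`, `c2 m1`, `mj = mI w a j`. -/
theorem BI_evV (w : ℝ) (as : List ℕ) (c0 c1 c2 : ℝ) :
    BI w as (fun ts => evV (fun x => c0 + c1 * x + c2 * x ^ 2) ts 0)
      = c0 * (mom w as).1 + c1 * (mom w as).2.1 + c2 * (mom w as).2.2 := by
  simp only [evV_eq, zero_add]
  induction as generalizing c0 c1 c2 with
  | nil => simp [BI, mom]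
  | cons a as ih =>
    have h1 : ∀ ts : List ℝ, ∫ t in ((a : ℝ) * w)..(((a : ℝ) + 1) * w),
        (t :: ts).prod * (c0 + c1 * (t :: ts).sum + c2 * (t :: ts).sum ^ 2) =
        ts.prod * ((c0 * mI w a 1 + c1 * mI w a 2 + c2 * mI w a 3) +
          (c1 * mI w a 1 + 2 * c2 * mI w a 2) * ts.sum + c2 * mI w a 1 * ts.sum ^ 2) := by
      intro ts
      have h2 := int_L33Ev w a (ts.prod * (c0 + c1 * ts.sum + c2 * ts.sum ^ 2))
        (ts.prod * (c1 + 2 * c2 * ts.sum)) (ts.prod * c2)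
      refine Eq.trans (intervalIntegral.integral_congr fun t _ => ?_) (h2.trans (by ring))
      simp only [List.prod_cons, List.sum_cons]
      ring
    rw [BI]
    simp only [h1]
    rw [ih, mom]
    ring

theorem Lf_shift_L33Ev (w c : ℝ) (as : List ℕ) (g : ℝ → ℝ) (u : ℝ) :
    Lf w as (fun v => g (v + c)) u = Lf w as g (u + c) := by
  induction as generalizing g with
  | nil => rfl
  | cons a as ih =>
    rw [Lf, Lf, ← ih]
    simp only [avg, add_right_comm _ c]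

theorem Lf_sub_L33Ev (w : ℝ) (as : List ℕ) {g g' : ℝ → ℝ} (hg : Continuous g) (hg' : Continuous g')
    (u : ℝ) : Lf w as (fun v => g v - g' v) u = Lf w as g u - Lf w as g' u := by
  induction as generalizing g g' with
  | nil => rfl
  | cons a as ih =>
    have hc := avg_cont (w := w) hg
    have hc' := avg_cont (w := w) hg'
    rw [Lf, Lf, Lf, ← ih (by fun_prop) (by fun_prop)]
    congr 1
    funext v
    unfold avg
    rw [intervalIntegral.integral_sub
      ((by fun_prop : Continuous fun t => g (v + a * w + t)).intervalIntegrable _ _)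
      ((by fun_prop : Continuous fun t => g' (v + a * w + t)).intervalIntegrable _ _)]
    ring

/-- Hint: `Lf w as` is additive on continuous functions and commutes with shifts. -/
theorem Lf_eq (w : ℝ) {g : ℝ → ℝ} (hg : Continuous g) (as : List ℕ) (j o : ℕ) :
    Lf w as ((avg w)^[j] g) (o * w) = ellR (fun j o => (avg w)^[j] g (o * w)) as j o := by
  have hc : ∀ j, Continuous ((avg w)^[j] g) := by
    intro j
    induction j with
    | zero => exact hg
    | succ j ih =>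
      rw [Function.iterate_succ_apply']
      exact avg_cont ih
  induction as generalizing j o with
  | nil => rfl
  | cons a as ih =>
    have h1 := hc j
    have h2 := avg_cont (w := w) h1
    rw [Lf, ellR, Lf_sub_L33Ev w as h1 (by fun_prop), Lf_shift_L33Ev, ← ih, ← ih,
      Function.iterate_succ_apply', Nat.cast_add, add_mul]

theorem Rf_cont (h : ℝ) (n : ℕ) (f : ℕ → ℝ) : Continuous (Rf h n f) := by
  unfold Rf rho
  fun_prop

theorem Rf_big {h : ℝ} (hh : 0 < h) (n : ℕ) (f : ℕ → ℝ) {t : ℝ} (ht : n * h ≤ t) :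
    Rf h n f t = 0 := by
  refine Finset.sum_eq_zero fun a ha => ?_
  have h1 : (a : ℝ) + 1 ≤ n := by exact_mod_cast Finset.mem_range.1 ha
  have h2 := mul_le_mul_of_nonneg_right h1 hh.le
  rw [rho, max_eq_right (by linarith), max_eq_right (by linarith), sub_zero, mul_zero]

theorem Rf_bd {h : ℝ} (hh : 0 < h) (hh1 : h ≤ 1) (n : ℕ) (f : ℕ → ℝ) (s t : ℝ) :
    |Rf h n f s| ≤ ∑ a ∈ range n, |f a| ∧
      |Rf h n f s - Rf h n f t| ≤ (∑ a ∈ range n, |f a|) * |s - t| := by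
  have h1 : ∀ a : ℕ, (a : ℝ) * h ≤ (a + 1) * h := fun a => by linarith
  unfold Rf
  constructor
  · refine (Finset.abs_sum_le_sum_abs _ _).trans (Finset.sum_le_sum fun a _ => ?_)
    rw [abs_mul]
    exact mul_le_of_le_one_right (abs_nonneg _) ((abs_rho_le (h1 a) s).trans (by linarith))
  · rw [← Finset.sum_sub_distrib, Finset.sum_mul]
    refine (Finset.abs_sum_le_sum_abs _ _).trans (Finset.sum_le_sum fun a _ => ?_)
    rw [← mul_sub, abs_mul]
    exact mul_le_mul_of_nonneg_left (rho_lip (h1 a) s t) (abs_nonneg _)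

end Pool.Agent.P.MP_dddec0_nt.L33
end

-- part Pool.Agent.P.MP_dddec0_nt.L33TS
section

namespace Pool.Agent.P.MP_dddec0_nt.L33
open Finset Real Filter Pool.Agent.Lib.Tup

theorem TS_mono (Cs : List (Finset ℕ)) {Φ Ψ : List ℕ → ℝ} (h : ∀ ps, Val Cs ps → Φ ps ≤ Ψ ps) :
    TS Cs Φ ≤ TS Cs Ψ := by
  induction Cs generalizing Φ Ψ with
  | nil => exact h [] ⟨List.Forall₂.nil, List.nodup_nil⟩
  | cons C Cs ih =>
    exact ih fun ps hps => sum_le_sum fun p hp => h (p :: ps)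
      ⟨List.Forall₂.cons (mem_filter.1 hp).1 hps.1, List.nodup_cons.2 ⟨(mem_filter.1 hp).2, hps.2⟩⟩

theorem TS_congr (Cs : List (Finset ℕ)) {Φ Ψ : List ℕ → ℝ} (h : ∀ ps, Val Cs ps → Φ ps = Ψ ps) :
    TS Cs Φ = TS Cs Ψ :=
  le_antisymm (TS_mono Cs fun ps hp => (h ps hp).le) (TS_mono Cs fun ps hp => (h ps hp).ge)

theorem TS_add (Cs : List (Finset ℕ)) (Φ Ψ : List ℕ → ℝ) :
    TS Cs (fun ps => Φ ps + Ψ ps) = TS Cs Φ + TS Cs Ψ := by
  induction Cs generalizing Φ Ψ with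
  | nil => rfl
  | cons C Cs ih => simp only [TS, sum_add_distrib, ih]

theorem TS_mul (Cs : List (Finset ℕ)) (c : ℝ) (Φ : List ℕ → ℝ) :
    TS Cs (fun ps => c * Φ ps) = c * TS Cs Φ := by
  induction Cs generalizing Φ with
  | nil => rfl
  | cons C Cs ih => simp only [TS, ← mul_sum, ih]

theorem TS_sum {ι : Type*} (Cs : List (Finset ℕ)) (s : Finset ι) (Φ : ι → List ℕ → ℝ) :
    TS Cs (fun ps => ∑ i ∈ s, Φ i ps) = ∑ i ∈ s, TS Cs (Φ i) := by
  induction Cs generalizing Φ with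
  | nil => rfl
  | cons C Cs ih =>
    simp only [TS]
    rw [← ih]
    congr 1
    funext ps
    exact sum_comm

theorem L33TS_count (P : Finset ℕ) (k : ℕ) (φ : Finset ℕ → ℝ) :
    ∑ A ∈ powersetCard k P, ∑ p ∈ P.filter (fun p => p ∉ A), φ (insert p A)
      = ∑ B ∈ powersetCard (k + 1) P, ∑ _p ∈ B, φ B := by
  rw [sum_sigma', sum_sigma']
  refine sum_bij' (fun x _ => (⟨insert x.2 x.1, x.2⟩ : Σ _ : Finset ℕ, ℕ))
    (fun x _ => (⟨x.1.erase x.2, x.2⟩ : Σ _ : Finset ℕ, ℕ)) ?_ ?_ ?_ ?_ fun _ _ => rfl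
  · rintro ⟨A, p⟩ h
    simp only [mem_sigma, mem_powersetCard, mem_filter] at h ⊢
    exact ⟨⟨insert_subset h.2.1 h.1.1, by rw [card_insert_of_notMem h.2.2, h.1.2]⟩,
      mem_insert_self _ _⟩
  · rintro ⟨B, p⟩ h
    simp only [mem_sigma, mem_powersetCard, mem_filter] at h ⊢
    exact ⟨⟨(erase_subset _ _).trans h.1.1, by rw [card_erase_of_mem h.2, h.1.2]; rfl⟩,
      h.1.1 h.2, notMem_erase _ _⟩
  · rintro ⟨A, p⟩ h
    simp only [mem_sigma, mem_powersetCard, mem_filter] at h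
    simp only [erase_insert h.2.2]
  · rintro ⟨B, p⟩ h
    simp only [mem_sigma, mem_powersetCard] at h
    simp only [insert_erase h.2]

/-- Hint: induction on `k` generalizing `φ`, double counting of the pairs `(A, p ∈ A)`. -/
theorem TS_replicate (P : Finset ℕ) (k : ℕ) (φ : Finset ℕ → ℝ) :
    TS (List.replicate k P) (fun ps => φ ps.toFinset)
      = k.factorial * ∑ A ∈ powersetCard k P, φ A := by
  induction k generalizing φ with
  | zero => simp [TS]
  | succ k ih =>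
    have h := ih fun A => ∑ p ∈ P.filter (fun p => p ∉ A), φ (insert p A)
    simp only [List.mem_toFinset] at h
    simp only [List.replicate_succ, TS, List.toFinset_cons]
    rw [h, L33TS_count, sum_congr rfl fun B hB => by
      rw [sum_const, (mem_powersetCard.1 hB).2, nsmul_eq_mul], ← mul_sum, Nat.factorial_succ]
    push_cast
    ring

theorem L33TS_SL_sum {ι : Type*} (m k : ℕ) (s : Finset ι) (f : ι → List ℕ → ℝ) :
    SL m k (fun as => ∑ i ∈ s, f i as) = ∑ i ∈ s, SL m k (f i) := by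
  induction k generalizing f with
  | zero => rfl
  | succ k ih =>
    simp only [SL, ih]
    exact sum_comm

theorem TS_part (m : ℕ) (C : ℕ → Finset ℕ) (hC : ∀ a b, a ≠ b → Disjoint (C a) (C b)) (k : ℕ)
    (Φ : List ℕ → ℝ) :
    TS (List.replicate k ((range m).biUnion C)) Φ = SL m k (fun as => TS (as.map C) Φ) := by
  induction k generalizing Φ with
  | zero => rfl
  | succ k ih =>
    simp only [List.replicate_succ, TS, SL, List.map_cons]
    rw [ih, ← L33TS_SL_sum]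
    congr 1
    funext as
    rw [← TS_sum]
    congr 1
    funext ps
    rw [filter_biUnion, sum_biUnion fun a _ b _ hab => disjoint_filter_filter (hC a b hab)]

theorem SL_mono (m k : ℕ) {f g : List ℕ → ℝ}
    (h : ∀ as, as.length = k → (∀ a ∈ as, a < m) → f as ≤ g as) : SL m k f ≤ SL m k g := by
  induction k generalizing f g with
  | zero => exact h [] rfl fun a ha => absurd ha List.not_mem_nil
  | succ k ih =>
    refine sum_le_sum fun a ha => ih fun as h1 h2 => h (a :: as) (by rw [List.length_cons, h1]) ?_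
    exact List.forall_mem_cons.2 ⟨mem_range.1 ha, h2⟩

theorem SL_add (m k : ℕ) (f g : List ℕ → ℝ) :
    SL m k (fun as => f as + g as) = SL m k f + SL m k g := by
  induction k generalizing f g with
  | zero => rfl
  | succ k ih => simp only [SL, ih, sum_add_distrib]

theorem SL_mul (m k : ℕ) (c : ℝ) (f : List ℕ → ℝ) :
    SL m k (fun as => c * f as) = c * SL m k f := by
  induction k generalizing f with
  | zero => rfl
  | succ k ih => simp only [SL, ih, mul_sum]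

theorem SL_const (m k : ℕ) (c : ℝ) : SL m k (fun _ => c) = (m : ℝ) ^ k * c := by
  induction k with
  | zero => simp [SL]
  | succ k ih =>
    simp only [SL, ih, sum_const, card_range, nsmul_eq_mul]
    ring

theorem SL_sum {ι : Type*} (m k : ℕ) (s : Finset ι) (f : ι → List ℕ → ℝ) :
    SL m k (fun as => ∑ i ∈ s, f i as) = ∑ i ∈ s, SL m k (f i) := by
  exact L33TS_SL_sum m k s f

/-- A property that holds for large `l` for each list holds for large `l` for all lists. -/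
theorem ev_all_lists (m k : ℕ) {Q : List ℕ → ℝ → Prop}
    (h : ∀ as, as.length = k → (∀ a ∈ as, a < m) → ∀ᶠ l : ℝ in atTop, Q as l) :
    ∀ᶠ l : ℝ in atTop, ∀ as, as.length = k → (∀ a ∈ as, a < m) → Q as l := by
  induction k generalizing Q with
  | zero =>
    filter_upwards [h [] rfl fun a ha => absurd ha List.not_mem_nil] with l hl as h1 _
    rwa [List.length_eq_zero_iff.1 h1]
  | succ k ih =>
    have h1 := (eventually_all_finset (range m)).2 fun a ha =>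
      ih (Q := fun as => Q (a :: as)) fun as h1 h2 => h (a :: as) (by rw [List.length_cons, h1])
        (List.forall_mem_cons.2 ⟨mem_range.1 ha, h2⟩)
    filter_upwards [h1] with l hl as h2 h3
    cases as with
    | nil => cases h2
    | cons a as =>
      obtain ⟨h4, h5⟩ := List.forall_mem_cons.1 h3
      exact hl a (mem_range.2 h4) as (Nat.succ_injective h2) h5

theorem GA_insert (l : ℝ) (g : ℝ → ℝ) {A : Finset ℕ} {p : ℕ} (hp : p ∉ A) (u : ℝ) :
    GA l g (insert p A) u = GA l g A u - GA l g A (u + lg l p) := by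
  unfold GA
  rw [sum_powerset_insert hp, sub_eq_add_neg, ← sum_neg_distrib]
  congr 1
  refine sum_congr rfl fun S hS => ?_
  have h : p ∉ S := fun h => hp (mem_powerset.1 hS h)
  rw [card_insert_of_notMem h, sz, sum_insert h, add_div, ← add_assoc, pow_succ, lg, sz]
  ring

theorem GA_list (l : ℝ) (g : ℝ → ℝ) {ps : List ℕ} (hp : ps.Nodup) (u : ℝ) :
    GA l g ps.toFinset u = evG g (ps.map (lg l)) u := by
  induction ps generalizing u with
  | nil => simp [GA, evG, ev, sz]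
  | cons p ps ih =>
    obtain ⟨h1, h2⟩ := List.nodup_cons.1 hp
    rw [List.toFinset_cons, GA_insert l g (fun h => h1 (List.mem_toFinset.1 h)), ih h2, ih h2]
    simp only [evG, List.map_cons, ev]
    ring

/-- Big primes are not seen. -/
theorem GA_union {l : ℝ} (hl : 0 < l) {g : ℝ → ℝ} (hg : ∀ t, 1 ≤ t → g t = 0) {A B : Finset ℕ}
    (hAB : Disjoint A B) (hB : ∀ p ∈ B, 1 ≤ lg l p) : GA l g (A ∪ B) 0 = GA l g A 0 := by
  induction B using Finset.induction with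
  | empty => rw [union_empty]
  | insert p B hp ih =>
    obtain ⟨h1, h2⟩ := disjoint_insert_right.1 hAB
    have h3 : GA l g (A ∪ B) (0 + lg l p) = 0 := by
      refine sum_eq_zero fun S _ => ?_
      have h4 : 0 ≤ sz S / l := div_nonneg (sum_nonneg fun q _ => log_natCast_nonneg q) hl.le
      rw [hg _ (by linarith [hB p (mem_insert_self _ _)]), mul_zero]
    rw [union_insert, GA_insert l g (fun h => (mem_union.1 h).elim h1 hp), h3, sub_zero,
      ih h2 fun q hq => hB q (mem_insert_of_mem hq)]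

end Pool.Agent.P.MP_dddec0_nt.L33
end

-- part Pool.Agent.P.MP_dddec0_nt.L33Box
section

namespace Pool.Agent.P.MP_dddec0_nt.L33
open Finset Real Filter Pool.Agent.Lib.Tup

/-- Prime sums against a Lipschitz function on one cell. -/
theorem cell_test {e : ℝ} (he : 0 < e) :
    ∀ᶠ l : ℝ in atTop, ∀ (x y B : ℝ) (φ : ℝ → ℝ), 0 ≤ x → x ≤ y → y ≤ 5 →
      (∀ s, x ≤ s → s ≤ y → |φ s| ≤ B) →
      (∀ s t, x ≤ s → s ≤ y → x ≤ t → t ≤ y → |φ s - φ t| ≤ B * |s - t|) →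
      |∑ p ∈ cellP l x y, lg l p / p * φ (lg l p) - ∫ s in x..y, φ s| ≤ e * B := by
  obtain ⟨C, -, hC⟩ := mertens_ap (W := 1) one_pos
  filter_upwards [lip_test 1 C he, eventually_gt_atTop (0 : ℝ)] with l h hl x y B φ hx hxy hy h1 h2
  have key := h (NN l) (fun n => if n.Prime ∧ n ≡ 0 [MOD 1] then log n / n else 0) x y B φ
    (fun n => by
      split_ifs
      exacts [div_nonneg (log_natCast_nonneg n) (Nat.cast_nonneg n), le_rfl])
    (fun x hx hx5 => by
      have := hC 0 (NN l) x (by simp) hx ((exp_le_exp.2 hx5).trans (Nat.le_ceil _))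
      simpa using this)
    hx hxy hy (fun s hs => h1 s hs.1 hs.2) (fun s hs t ht => h2 s t hs.1 hs.2 ht.1 ht.2)
  have e1 : ∑ n ∈ (range (NN l)).filter (fun n : ℕ => x * l ≤ log n ∧ log n < y * l),
      (if n.Prime ∧ n ≡ 0 [MOD 1] then log n / n else 0) * φ (log n / l)
      = l * ∑ p ∈ cellP l x y, lg l p / p * φ (lg l p) := by
    rw [cellP, mul_sum, sum_filter, sum_filter]
    refine sum_congr rfl fun n _ => ?_
    by_cases hp : n.Prime
    · simp only [hp, true_and, Nat.modEq_one, if_true, lg]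
      split_ifs
      · field_simp
      · rfl
    · simp [hp]
  rw [e1, one_mul, ← mul_sub, abs_mul, abs_of_pos hl] at key
  have e2 : e * l * B = l * (e * B) := by ring
  rw [e2] at key
  exact le_of_mul_le_mul_left key hl

theorem mem_cellP {l x y : ℝ} (hl : 0 < l) (hy : y ≤ 5) {p : ℕ} :
    p ∈ cellP l x y ↔ p.Prime ∧ x ≤ lg l p ∧ lg l p < y := by
  rw [cellP, mem_filter, mem_range, lg, le_div_iff₀ hl, div_lt_iff₀ hl]
  refine ⟨fun h => h.2, fun h => ⟨?_, h⟩⟩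
  have hp : (0 : ℝ) < p := by exact_mod_cast h.1.pos
  have h1 : log p < 5 * l := h.2.2.trans_le (mul_le_mul_of_nonneg_right hy hl.le)
  rw [NN, Nat.lt_ceil]
  exact (log_lt_iff_lt_exp hp).1 h1

theorem box_lg_nonneg {l : ℝ} (hl : 0 < l) (p : ℕ) : 0 ≤ lg l p / p :=
  div_nonneg (div_nonneg (log_natCast_nonneg p) hl.le) (Nat.cast_nonneg p)

theorem box_lg_le {l : ℝ} (hl : 0 < l) (p : ℕ) : lg l p / p ≤ 1 / l := by
  have h : log p / p ≤ 1 :=
    div_le_one_of_le₀ (log_le_self (Nat.cast_nonneg p)) (Nat.cast_nonneg p)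
  have e : lg l p / p = log p / p / l := by
    rw [lg]
    ring
  rw [e]
  exact div_le_div_of_nonneg_right h hl.le

theorem box_aws_cons (l : ℝ) (p : ℕ) (ps : List ℕ) :
    aws l (p :: ps) = lg l p / p * aws l ps := by
  simp [aws]

theorem aws_nonneg {l : ℝ} (hl : 0 < l) (ps : List ℕ) : 0 ≤ aws l ps := by
  induction ps with
  | nil => simp [aws]
  | cons p ps ih =>
    rw [box_aws_cons]
    exact mul_nonneg (box_lg_nonneg hl p) ih

theorem box_cell_le {η w : ℝ} (h0 : 0 ≤ η) (hw : η ≤ w) (a : ℕ) :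
    0 ≤ (a : ℝ) * w ∧ (a : ℝ) * w ≤ max ((a : ℝ) * w) η ∧
      max ((a : ℝ) * w) η ≤ ((a : ℝ) + 1) * w ∧ max ((a : ℝ) * w) η ≤ (a : ℝ) * w + η := by
  have h1 : 0 ≤ (a : ℝ) * w := mul_nonneg (Nat.cast_nonneg a) (h0.trans hw)
  refine ⟨h1, le_max_left _ _, max_le ?_ ?_, max_le ?_ ?_⟩ <;> linarith

/-- Total mass of a box. -/
theorem box_mass : ∀ᶠ l : ℝ in atTop, ∀ (η w : ℝ) (as : List ℕ), 0 ≤ η → η ≤ w →
    (∀ a ∈ as, ((a : ℝ) + 1) * w ≤ 1) → TS (as.map (cellW l η w)) (aws l) ≤ 2 ^ as.length := by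
  filter_upwards [cell_test one_pos, eventually_gt_atTop (0 : ℝ)] with l h hl η w as h0 hw has
  induction as with
  | nil => simp [TS, aws]
  | cons a as ih =>
    have ha := has a (by simp)
    obtain ⟨c1, c2, c3, -⟩ := box_cell_le h0 hw a
    have h1 := (abs_le.1 (h (max (a * w) η) ((a + 1) * w) 1 (fun _ => 1) (by linarith) c3
      (by linarith) (fun s _ _ => by simp) (fun s t _ _ _ _ => by simp))).2
    simp only [mul_one, intervalIntegral.integral_const, smul_eq_mul] at h1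
    have h2 : ∑ p ∈ cellW l η w a, lg l p / p ≤ 2 := by
      rw [cellW]
      linarith
    have h3 := ih fun b hb => has b (by simp [hb])
    rw [List.map_cons, TS, List.length_cons, pow_succ']
    calc TS (as.map (cellW l η w))
          (fun ps => ∑ p ∈ (cellW l η w a).filter (fun p => p ∉ ps), aws l (p :: ps))
        ≤ TS (as.map (cellW l η w)) (fun ps => 2 * aws l ps) := by
          refine TS_mono _ fun ps _ => ?_
          simp only [box_aws_cons]
          rw [← sum_mul]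
          refine mul_le_mul_of_nonneg_right (le_trans ?_ h2) (aws_nonneg hl ps)
          exact sum_le_sum_of_subset_of_nonneg (filter_subset _ _)
            fun p _ _ => box_lg_nonneg hl p
      _ = 2 * TS (as.map (cellW l η w)) (aws l) := TS_mul _ _ _
      _ ≤ 2 * 2 ^ as.length := by linarith

theorem box_dl_self (ts : List ℝ) : dl ts ts = 0 := by
  induction ts with
  | nil => rfl
  | cons t ts ih => simp [dl, ih]

theorem box_dl_nonneg (ss ts : List ℝ) : 0 ≤ dl ss ts := by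
  induction ss generalizing ts with
  | nil => simp [dl]
  | cons s ss ih =>
    cases ts with
    | nil => simp [dl]
    | cons t ts => exact add_nonneg (abs_nonneg _) (ih ts)

theorem box_in_cons {k : ℕ} {ts : List ℝ} (h : In01 k ts) {t : ℝ} (h0 : 0 ≤ t) (h1 : t ≤ 1) :
    In01 (k + 1) (t :: ts) := by
  refine ⟨by simp [h.1], fun s hs => ?_⟩
  rcases List.mem_cons.1 hs with rfl | hs
  exacts [⟨h0, h1⟩, h.2 s hs]

theorem box_B_nonneg {k : ℕ} {B : ℝ} {Φ : List ℝ → ℝ} (h : LipL k B Φ) : 0 ≤ B :=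
  (abs_nonneg _).trans (h (List.replicate k 0) ⟨by simp, fun t ht => by
    rw [List.eq_of_mem_replicate ht]
    exact ⟨le_rfl, zero_le_one⟩⟩).1

theorem box_slice {k : ℕ} {B : ℝ} {Φ : List ℝ → ℝ} (h : LipL (k + 1) B Φ) {ts : List ℝ}
    (hts : In01 k ts) {s t : ℝ} (hs0 : 0 ≤ s) (hs1 : s ≤ 1) (ht0 : 0 ≤ t) (ht1 : t ≤ 1) :
    |Φ (s :: ts) - Φ (t :: ts)| ≤ B * |s - t| := by
  have := (h _ (box_in_cons hts hs0 hs1)).2 _ (box_in_cons hts ht0 ht1)
  simpa [dl, box_dl_self] using this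

theorem box_intable {k : ℕ} {B : ℝ} {Φ : List ℝ → ℝ} (h : LipL (k + 1) B Φ) {ts : List ℝ}
    (hts : In01 k ts) {x y : ℝ} (hx : 0 ≤ x) (hxy : x ≤ y) (hy : y ≤ 1) :
    IntervalIntegrable (fun t => Φ (t :: ts)) MeasureTheory.volume x y :=
  (contOn_of_lip (φ := fun t => Φ (t :: ts)) (box_B_nonneg h) fun _ hs _ ht =>
    box_slice h hts (hx.trans hs.1) (hs.2.trans hy) (hx.trans ht.1)
      (ht.2.trans hy)).intervalIntegrable_of_Icc hxy

theorem box_int_le {f : ℝ → ℝ} {x y C : ℝ} (hxy : x ≤ y)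
    (h : ∀ s, x ≤ s → s ≤ y → |f s| ≤ C) : |∫ s in x..y, f s| ≤ C * (y - x) := by
  have := intervalIntegral.norm_integral_le_of_norm_le_const (a := x) (b := y) (C := C) (f := f)
    fun s hs => by
      rw [Set.uIoc_of_le hxy] at hs
      exact h s hs.1.le hs.2
  rwa [abs_of_nonneg (sub_nonneg.2 hxy)] at this

theorem box_lip_int {k : ℕ} {B : ℝ} {Φ : List ℝ → ℝ} (h : LipL (k + 1) B Φ) {x y : ℝ}
    (hx : 0 ≤ x) (hxy : x ≤ y) (hy : y ≤ 1) :
    LipL k B (fun ts => ∫ t in x..y, Φ (t :: ts)) := by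
  have hB := box_B_nonneg h
  have hl : y - x ≤ 1 := by linarith
  intro ss hss
  refine ⟨(box_int_le hxy fun s h1 h2 =>
    (h _ (box_in_cons hss (hx.trans h1) (h2.trans hy))).1).trans
      (mul_le_of_le_one_right hB hl), fun ts hts => ?_⟩
  show |(∫ t in x..y, Φ (t :: ss)) - ∫ t in x..y, Φ (t :: ts)| ≤ _
  rw [← intervalIntegral.integral_sub (box_intable h hss hx hxy hy) (box_intable h hts hx hxy hy)]
  refine (box_int_le (C := B * dl ss ts) hxy fun s h1 h2 => ?_).trans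
    (mul_le_of_le_one_right (mul_nonneg hB (box_dl_nonneg _ _)) hl)
  have := (h _ (box_in_cons hss (hx.trans h1) (h2.trans hy))).2 _
    (box_in_cons hts (hx.trans h1) (h2.trans hy))
  simpa [dl] using this

theorem box_val {l η w : ℝ} (hl : 0 < l) {as : List ℕ} (has : ∀ a ∈ as, ((a : ℝ) + 1) * w ≤ 1)
    {ps : List ℕ} (h : List.Forall₂ (fun p C => p ∈ C) ps (as.map (cellW l η w))) :
    In01 as.length (ps.map (lg l)) := by
  induction as generalizing ps with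
  | nil =>
    rw [List.map_nil, List.forall₂_nil_right_iff] at h
    subst h
    exact ⟨rfl, by simp⟩
  | cons a as ih =>
    rw [List.map_cons, List.forall₂_cons_right_iff] at h
    obtain ⟨p, qs, hp, hq, rfl⟩ := h
    have ha := has a (by simp)
    have h1 := (mem_cellP hl (by linarith)).1 hp
    exact box_in_cons (ih (fun b hb => has b (by simp [hb])) hq)
      (div_nonneg (log_natCast_nonneg p) hl.le) (by linarith [h1.2.2])

theorem box_removed {l x y B : ℝ} (hl : 0 < l) (hy : y ≤ 5) (hB : 0 ≤ B) {φ : ℝ → ℝ}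
    (h : ∀ s, x ≤ s → s ≤ y → |φ s| ≤ B) (ps : List ℕ) :
    |∑ p ∈ (cellP l x y).filter (fun p => p ∉ ps), lg l p / p * φ (lg l p)
      - ∑ p ∈ cellP l x y, lg l p / p * φ (lg l p)| ≤ ps.length / l * B := by
  rw [← sum_filter_add_sum_filter_not (cellP l x y) (fun p => p ∈ ps), sub_add_cancel_right,
    abs_neg]
  refine (abs_sum_le_sum_abs _ _).trans ?_
  have h1 : ∀ p ∈ (cellP l x y).filter (fun p => p ∈ ps),
      |lg l p / p * φ (lg l p)| ≤ 1 / l * B := by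
    intro p hp
    have h2 := (mem_cellP hl hy).1 (mem_filter.1 hp).1
    rw [abs_mul, abs_of_nonneg (box_lg_nonneg hl p)]
    exact mul_le_mul (box_lg_le hl p) (h _ h2.2.1 h2.2.2.le) (abs_nonneg _) (by positivity)
  refine (sum_le_card_nsmul _ _ _ h1).trans ?_
  have h3 : ((cellP l x y).filter (fun p => p ∈ ps)).card ≤ ps.length :=
    (card_le_card fun p hp => List.mem_toFinset.2 (mem_filter.1 hp).2).trans ps.toFinset_card_le
  have h4 : (((cellP l x y).filter (fun p => p ∈ ps)).card : ℝ) ≤ ps.length := by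
    exact_mod_cast h3
  rw [nsmul_eq_mul]
  calc _ ≤ (ps.length : ℝ) * (1 / l * B) := mul_le_mul_of_nonneg_right h4 (by positivity)
    _ = _ := by ring

theorem box_abs (Cs : List (Finset ℕ)) {F G H : List ℕ → ℝ}
    (h : ∀ ps, Val Cs ps → |F ps - G ps| ≤ H ps) : |TS Cs F - TS Cs G| ≤ TS Cs H := by
  have h1 : TS Cs F ≤ TS Cs G + TS Cs H := by
    rw [← TS_add]
    exact TS_mono _ fun ps hp => by linarith [(abs_le.1 (h ps hp)).2]
  have h2 : TS Cs G ≤ TS Cs F + TS Cs H := by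
    rw [← TS_add]
    exact TS_mono _ fun ps hp => by linarith [(abs_le.1 (h ps hp)).1]
  rw [abs_le]
  constructor <;> linarith

/-- Sums over a box of primes against the iterated integral. -/
theorem box_approx (k : ℕ) {e : ℝ} (he : 0 < e) :
    ∀ᶠ l : ℝ in atTop, ∀ (η w B : ℝ) (as : List ℕ) (Φ : List ℝ → ℝ), 0 ≤ η → η ≤ w →
      as.length = k → (∀ a ∈ as, ((a : ℝ) + 1) * w ≤ 1) → LipL k B Φ →
      |TS (as.map (cellW l η w)) (fun ps => aws l ps * Φ (ps.map (lg l))) - BI w as Φ|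
        ≤ 2 ^ k * (e + η) * B := by
  induction k with
  | zero =>
    refine Eventually.of_forall fun l η w B as Φ h0 _ hk _ hΦ => ?_
    have hB := box_B_nonneg hΦ
    rw [List.length_eq_zero_iff] at hk
    subst hk
    simp only [List.map_nil, TS, BI, aws, List.prod_nil, one_mul, sub_self, abs_zero]
    positivity
  | succ k ih =>
    filter_upwards [ih, cell_test (half_pos he), box_mass, eventually_gt_atTop (0 : ℝ),
      eventually_ge_atTop (2 * k / e)] with l ih hc hm hl hlk η w B as Φ h0 hw hk has hΦ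
    have hB := box_B_nonneg hΦ
    have hkl : (k : ℝ) / l ≤ e / 2 := by
      rw [div_le_iff₀ he] at hlk
      rw [div_le_iff₀ hl]
      linarith
    cases as with
    | nil => simp at hk
    | cons a as =>
      have hk' : as.length = k := by simpa using hk
      have ha := has a (by simp)
      have has' : ∀ b ∈ as, ((b : ℝ) + 1) * w ≤ 1 := fun b hb => has b (by simp [hb])
      obtain ⟨c1, c2, c3, c4⟩ := box_cell_le h0 hw a
      have h1 := ih η w B as _ h0 hw hk' has' (box_lip_int hΦ c1 (c2.trans c3) ha)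
      have h2 := hm η w as h0 hw has'
      rw [hk'] at h2
      have h3 := box_abs (as.map (cellW l η w))
        (F := fun ps => ∑ p ∈ (cellW l η w a).filter (fun p => p ∉ ps),
          aws l (p :: ps) * Φ ((p :: ps).map (lg l)))
        (G := fun ps => aws l ps *
          ∫ t in ((a : ℝ) * w)..(((a : ℝ) + 1) * w), Φ (t :: ps.map (lg l)))
        (H := fun ps => (e + η) * B * aws l ps) fun ps hp => by
          have hin := box_val hl has' hp.1
          rw [hk'] at hin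
          have hlen : ps.length = k := by simpa using hin.1
          have hb : ∀ s, (a : ℝ) * w ≤ s → s ≤ ((a : ℝ) + 1) * w →
              |Φ (s :: ps.map (lg l))| ≤ B := fun s h1 h2 =>
            (hΦ _ (box_in_cons hin (c1.trans h1) (h2.trans ha))).1
          have g1 := hc (max (a * w) η) ((a + 1) * w) B (fun t => Φ (t :: ps.map (lg l)))
            (c1.trans c2) c3 (by linarith) (fun s h1 h2 => hb s (c2.trans h1) h2)
            (fun s t h1 h2 h3 h4 => box_slice hΦ hin (by linarith) (by linarith) (by linarith)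
              (by linarith))
          have g2 := box_removed (x := max (a * w) η) (y := (a + 1) * w) hl (by linarith) hB
            (φ := fun t => Φ (t :: ps.map (lg l))) (fun s h1 h2 => hb s (c2.trans h1) h2) ps
          have g3 := box_int_le (f := fun t => Φ (t :: ps.map (lg l))) c2
            (fun s h1 h2 => hb s h1 (h2.trans c3))
          have g4 := intervalIntegral.integral_add_adjacent_intervals
            (box_intable hΦ hin c1 c2 (c3.trans ha)) (box_intable hΦ hin (c1.trans c2) c3 ha)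
          have g5 : ∑ p ∈ (cellW l η w a).filter (fun p => p ∉ ps),
              aws l (p :: ps) * Φ ((p :: ps).map (lg l))
              = aws l ps * ∑ p ∈ (cellP l (max (a * w) η) ((a + 1) * w)).filter (fun p => p ∉ ps),
                lg l p / p * Φ (lg l p :: ps.map (lg l)) := by
            rw [cellW, mul_sum]
            refine sum_congr rfl fun p _ => ?_
            rw [box_aws_cons, List.map_cons]
            ring
          rw [g5, ← mul_sub, abs_mul, abs_of_nonneg (aws_nonneg hl ps), mul_comm]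
          refine mul_le_mul_of_nonneg_right ?_ (aws_nonneg hl ps)
          rw [hlen] at g2
          have g6 := mul_le_mul_of_nonneg_right hkl hB
          have g7 : B * (max ((a : ℝ) * w) η - a * w) ≤ B * η :=
            mul_le_mul_of_nonneg_left (by linarith) hB
          rw [← g4]
          rw [abs_le] at g1 g2 g3 ⊢
          constructor <;> linarith [g1.1, g1.2, g2.1, g2.2, g3.1, g3.2]
      rw [TS_mul] at h3
      have h4 := mul_le_mul_of_nonneg_left h2 (by positivity : 0 ≤ (e + η) * B)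
      rw [List.map_cons, TS, BI, pow_succ]
      rw [abs_le] at h1 h3 ⊢
      constructor <;> linarith [h1.1, h1.2, h3.1, h3.2]

end Pool.Agent.P.MP_dddec0_nt.L33
end

-- part Pool.Agent.P.MP_dddec0_nt.L33Cell
section

namespace Pool.Agent.P.MP_dddec0_nt.L33
open Finset Real Filter Pool.Agent.Lib.Tup

/-- The majorant of `1 / Wt` on a box. -/
noncomputable def vq (s w N0 N1 : ℝ) (k σ : ℕ) (τ : ℝ) : ℝ :=
  (s - τ) * ((τ - σ * w) / N0 + ((σ + k) * w - τ) / N1) / (k * w)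

/-- Hint: with `λ = (τ - σ w) / (k w) ∈ [0, 1]`,
`(λ / N0 + (1 - λ) / N1) * (λ N0 + (1 - λ) N1) ≥ 1`, so `vq * Wt ≥ 1` and `vq > 0`; then
`2 A G - A ^ 2 V ≤ G ^ 2 / V` with `V = P * vq`. -/
theorem pt_le {s w N0 N1 : ℝ} {J k σ : ℕ} (hs : 4 ≤ s) (hw : 0 < w) (hk : 1 ≤ k)
    (h3 : ((σ : ℝ) + k) * w ≤ 3) (hN : CondN s J w k σ N0 N1) {τ P : ℝ} (h0 : σ * w ≤ τ)
    (h1 : τ ≤ (σ + k) * w) (hP : 0 < P) (A G : ℝ) :
    2 * A * G - A ^ 2 * (P * vq s w N0 N1 k σ τ) ≤ G ^ 2 / P * Wt s J τ := by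
  obtain ⟨n0, n1, hN⟩ := hN
  have hk' : (1 : ℝ) ≤ k := by exact_mod_cast hk
  have hK : 0 < (k : ℝ) * w := by positivity
  have h2 := hN τ h0 h1
  obtain ⟨a, ha⟩ : ∃ a, a = τ - σ * w := ⟨_, rfl⟩
  obtain ⟨b, hb⟩ : ∃ b, b = ((σ : ℝ) + k) * w - τ := ⟨_, rfl⟩
  have hab : a + b = k * w := by rw [ha, hb]; ring
  have a0 : 0 ≤ a := by linarith
  have b0 : 0 ≤ b := by linarith
  have hd : 0 < s - τ := by linarith
  have hv : vq s w N0 N1 k σ τ = (s - τ) * (a / N0 + b / N1) / (k * w) := by rw [ha, hb, vq]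
  rw [← ha, ← hb] at h2
  have hX0 : 0 ≤ a / N0 + b / N1 := by positivity
  have hC : ((k : ℝ) * w) ^ 2 ≤ (a / N0 + b / N1) * (N0 * a + N1 * b) := by
    have e : (a / N0 + b / N1) * (N0 * a + N1 * b) =
        (a + b) ^ 2 + a * b * ((N1 - N0) ^ 2 / (N0 * N1)) := by
      field_simp
      ring
    rw [e, hab]
    have : 0 ≤ a * b * ((N1 - N0) ^ 2 / (N0 * N1)) := by positivity
    linarith
  have hX : 0 < a / N0 + b / N1 := by
    refine hX0.lt_of_ne fun h => ?_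
    rw [← h, zero_mul] at hC
    exact absurd hC (not_le.2 (by positivity))
  have hv0 : 0 < vq s w N0 N1 k σ τ := by rw [hv]; positivity
  have hvw : 1 ≤ vq s w N0 N1 k σ τ * Wt s J τ := by
    have h4 := hC.trans (mul_le_mul_of_nonneg_left h2 hX0)
    rw [hv, div_mul_eq_mul_div, le_div_iff₀ hK, one_mul]
    refine le_of_mul_le_mul_left ?_ hK
    calc k * w * (k * w) = ((k : ℝ) * w) ^ 2 := by ring
      _ ≤ _ := h4
      _ = _ := by ring
  generalize vq s w N0 N1 k σ τ = v at hv0 hvw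
  have h5 : 2 * A * G - A ^ 2 * (P * v) ≤ G ^ 2 / P * v⁻¹ := by
    have e : G ^ 2 / P * v⁻¹ - (2 * A * G - A ^ 2 * (P * v)) = (G - A * (P * v)) ^ 2 / (P * v) := by
      field_simp
      ring
    have : 0 ≤ (G - A * (P * v)) ^ 2 / (P * v) := by positivity
    linarith
  refine h5.trans (mul_le_mul_of_nonneg_left ?_ (by positivity))
  rw [inv_le_iff_one_le_mul₀' hv0]
  exact hvw

theorem vq_quad_Cell (s w N0 N1 : ℝ) (k σ : ℕ) : vq s w N0 N1 k σ = fun x =>
    (-(s * (σ * w)) / N0 + s * ((σ + k) * w) / N1) / (k * w) +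
      ((s + σ * w) / N0 - (s + (σ + k) * w) / N1) / (k * w) * x +
      (-1 / N0 + 1 / N1) / (k * w) * x ^ 2 := by
  funext x
  rw [vq]
  ring

theorem quad_lip_Cell (c0 c1 c2 : ℝ) : ∃ B : ℝ, (∀ u, 0 ≤ u → u ≤ 5 →
    |c0 + c1 * u + c2 * u ^ 2| ≤ B) ∧ ∀ u v, 0 ≤ u → u ≤ 5 → 0 ≤ v → v ≤ 5 →
      |c0 + c1 * u + c2 * u ^ 2 - (c0 + c1 * v + c2 * v ^ 2)| ≤ B * |u - v| := by
  have h0 := abs_nonneg c0
  have h1 := abs_nonneg c1
  have h2 := abs_nonneg c2
  refine ⟨|c0| + 5 * |c1| + 25 * |c2|, fun u u0 u5 => ?_, fun u v u0 u5 v0 v5 => ?_⟩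
  · have a1 : |c1 * u| ≤ |c1| * 5 := by
      rw [abs_mul, abs_of_nonneg u0]
      exact mul_le_mul_of_nonneg_left u5 h1
    have a2 : |c2 * u ^ 2| ≤ |c2| * 25 := by
      rw [abs_mul, abs_of_nonneg (sq_nonneg u)]
      exact mul_le_mul_of_nonneg_left (by nlinarith) h2
    linarith [abs_add_three c0 (c1 * u) (c2 * u ^ 2)]
  · have e : c0 + c1 * u + c2 * u ^ 2 - (c0 + c1 * v + c2 * v ^ 2) =
        (c1 + c2 * (u + v)) * (u - v) := by ring
    rw [e, abs_mul]
    refine mul_le_mul_of_nonneg_right ?_ (abs_nonneg _)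
    have a2 : |c2 * (u + v)| ≤ |c2| * 10 := by
      rw [abs_mul, abs_of_nonneg (add_nonneg u0 v0)]
      exact mul_le_mul_of_nonneg_left (by linarith) h2
    linarith [abs_add_le c1 (c2 * (u + v))]

theorem aws_eq_Cell (l : ℝ) (ps : List ℕ) : aws l ps = (ps.map (lg l)).prod / (ps.prod : ℕ) := by
  unfold aws
  induction ps with
  | nil => simp
  | cons p ps ih =>
    rw [List.map_cons, List.map_cons, List.prod_cons, List.prod_cons, List.prod_cons, ih,
      Nat.cast_mul, div_mul_div_comm]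

theorem cell_val_Cell {l η w : ℝ} (hl : 0 < l) (hη : 0 < η) (as : List ℕ)
    (ha : ∀ a ∈ as, ((a : ℝ) + 1) * w ≤ 1) (ps : List ℕ)
    (hp : List.Forall₂ (fun p C => p ∈ C) ps (as.map (cellW l η w))) :
    0 < (ps.map (lg l)).prod ∧ (as.sum : ℕ) * w ≤ (ps.map (lg l)).sum ∧
      (ps.map (lg l)).sum ≤ ((as.sum : ℕ) + (as.length : ℕ)) * w := by
  induction as generalizing ps with
  | nil =>
    rw [List.map_nil, List.forall₂_nil_right_iff] at hp
    subst hp
    simp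
  | cons a as ih =>
    rw [List.map_cons, List.forall₂_cons_right_iff] at hp
    obtain ⟨p, ps, h1, h2, rfl⟩ := hp
    obtain ⟨b1, b2, b3⟩ := ih (fun a h => ha a (List.mem_cons_of_mem _ h)) ps h2
    obtain ⟨-, c1, c2⟩ := (mem_cellP hl ((ha a List.mem_cons_self).trans (by norm_num))).1 h1
    have c3 := (le_max_left _ _).trans c1
    have c4 := hη.trans_le ((le_max_right _ _).trans c1)
    simp only [List.map_cons, List.prod_cons, List.sum_cons, List.length_cons, Nat.cast_add,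
      Nat.cast_one]
    exact ⟨mul_pos c4 b1, by linarith, by linarith⟩

/-- Hint: `vq` is a quadratic polynomial in `τ`, `BI_evV`. -/
theorem BI_vq (s w N0 N1 : ℝ) (as : List ℕ) :
    BI w as (fun ts => evV (vq s w N0 N1 as.length as.sum) ts 0) = Vbox s w N0 N1 as := by
  rw [vq_quad_Cell, BI_evV, Vbox]
  ring

theorem vq_lip (s w N0 N1 : ℝ) (k σ : ℕ) : ∃ B : ℝ, (∀ u, 0 ≤ u → u ≤ 5 →
    |vq s w N0 N1 k σ u| ≤ B) ∧ ∀ u v, 0 ≤ u → u ≤ 5 → 0 ≤ v → v ≤ 5 →
      |vq s w N0 N1 k σ u - vq s w N0 N1 k σ v| ≤ B * |u - v| := by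
  rw [vq_quad_Cell]
  exact quad_lip_Cell _ _ _

/-- One box. Hint: `A = (w ^ k * Lf w as g 0) / Vbox`; for a valid tuple `ps` the sizes `ts` are
positive, `as.sum * w ≤ ts.sum ≤ (as.sum + k) * w`, `1 / ps.prod = aws l ps / ts.prod`; `pt_le`,
`evV_eq`, `TS_mono`, `TS_add`, `TS_mul`, `box_approx` for `evG g` and for `evV vq` (`ev_lip`),
`BI_evG`, `BI_vq`, and `2 (x / V) x - (x / V) ^ 2 V = x ^ 2 / V` (also for `V = 0`). -/
theorem box_ge {s w N0 N1 B : ℝ} {J : ℕ} (hs : 4 ≤ s) (hw : 0 < w) (as : List ℕ)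
    (hk : 1 ≤ as.length) (hk5 : as.length ≤ 5) (ha : ∀ a ∈ as, ((a : ℝ) + 1) * w ≤ 1)
    (h3 : ((as.sum : ℝ) + as.length) * w ≤ 3) (hN : CondN s J w as.length as.sum N0 N1)
    {g : ℝ → ℝ} (hc : Continuous g) (hg : ∀ u v, |g u| ≤ B ∧ |g u - g v| ≤ B * |u - v|)
    {ε : ℝ} (hε : 0 < ε) :
    ∃ η1 : ℝ, 0 < η1 ∧ ∀ η : ℝ, 0 < η → η ≤ η1 → ∀ᶠ l : ℝ in atTop,
      bx s w N0 N1 g as - ε ≤ TS (as.map (cellW l η w)) (fun ps =>
        evG g (ps.map (lg l)) 0 ^ 2 / (ps.prod : ℕ) * Wt s J (ps.map (lg l)).sum) := by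
  obtain ⟨B', hB1, hB2⟩ := vq_lip s w N0 N1 as.length as.sum
  have L1 : LipL as.length (3 ^ as.length * B) (fun ts => evG g ts 0) :=
    ev_lip (by simp) (fun t _ _ => by simp) (fun s t => by simp) (fun u _ _ => (hg u u).1)
      (fun u v _ _ _ _ => (hg u v).2) hk5
  have L2 : LipL as.length (3 ^ as.length * B')
      (fun ts => evV (vq s w N0 N1 as.length as.sum) ts 0) :=
    ev_lip (by simp) (fun t h0 h1 => by rwa [abs_of_nonneg h0]) (fun s t => le_rfl) hB1 hB2 hk5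
  have B0 : 0 ≤ B := (abs_nonneg _).trans (hg 0 0).1
  have B1 : 0 ≤ B' := (abs_nonneg _).trans (hB1 0 le_rfl (by norm_num))
  obtain ⟨x, hx⟩ : ∃ x, x = w ^ as.length * Lf w as g 0 := ⟨_, rfl⟩
  obtain ⟨V, hV⟩ : ∃ V, V = Vbox s w N0 N1 as := ⟨_, rfl⟩
  obtain ⟨A, hA⟩ : ∃ A, A = x / V := ⟨_, rfl⟩
  obtain ⟨M1, hM1⟩ : ∃ M1 : ℝ, M1 = 2 ^ as.length * (3 ^ as.length * B) := ⟨_, rfl⟩
  obtain ⟨M2, hM2⟩ : ∃ M2 : ℝ, M2 = 2 ^ as.length * (3 ^ as.length * B') := ⟨_, rfl⟩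
  have m1 : 0 ≤ M1 := by rw [hM1]; positivity
  have m2 : 0 ≤ M2 := by rw [hM2]; positivity
  obtain ⟨M, hM⟩ : ∃ M : ℝ, M = 2 * |A| * M1 + A ^ 2 * M2 := ⟨_, rfl⟩
  have m0 : 0 ≤ M := by rw [hM]; positivity
  obtain ⟨e, he⟩ : ∃ e : ℝ, e = ε / (2 * (M + 1)) := ⟨_, rfl⟩
  have e0 : 0 < e := by rw [he]; positivity
  have e1 : 2 * e * (M + 1) = ε := by rw [he]; field_simp
  have hbx : bx s w N0 N1 g as = 2 * A * x - A ^ 2 * V := by
    rw [bx, ← hx, ← hV, hA]
    by_cases h : V = 0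
    · simp [h]
    · field_simp
      ring
  refine ⟨min w e, lt_min hw e0, fun η hη hη1 => ?_⟩
  have η1 : η ≤ w := hη1.trans (min_le_left _ _)
  have η2 : η ≤ e := hη1.trans (min_le_right _ _)
  filter_upwards [box_approx as.length e0, eventually_gt_atTop 0] with l hl l0
  have a1 := hl η w _ as _ hη.le η1 rfl ha L1
  have a2 := hl η w _ as _ hη.le η1 rfl ha L2
  rw [BI_evG hw as hc, ← hx, mul_right_comm, ← hM1] at a1
  rw [BI_vq, ← hV, mul_right_comm, ← hM2] at a2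
  have a3 : TS (as.map (cellW l η w)) (fun ps => 2 * A * (aws l ps * evG g (ps.map (lg l)) 0) +
      -A ^ 2 * (aws l ps * evV (vq s w N0 N1 as.length as.sum) (ps.map (lg l)) 0)) ≤
      TS (as.map (cellW l η w)) (fun ps =>
        evG g (ps.map (lg l)) 0 ^ 2 / (ps.prod : ℕ) * Wt s J (ps.map (lg l)).sum) := by
    refine TS_mono _ fun ps hp => ?_
    obtain ⟨b1, b2, b3⟩ := cell_val_Cell l0 hη as ha ps hp.1
    have b4 := mul_le_mul_of_nonneg_left
      (pt_le hs hw hk h3 hN b2 b3 b1 A (evG g (ps.map (lg l)) 0)) (aws_nonneg l0 ps)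
    rw [evV_eq, zero_add]
    refine le_of_eq_of_le (by ring) (b4.trans_eq ?_)
    rw [aws_eq_Cell]
    field_simp
  rw [TS_add, TS_mul, TS_mul] at a3
  refine le_trans ?_ a3
  rw [hbx]
  generalize TS (as.map (cellW l η w)) (fun ps => aws l ps * evG g (ps.map (lg l)) 0) = T1 at a1 ⊢
  generalize TS (as.map (cellW l η w)) (fun ps => aws l ps *
    evV (vq s w N0 N1 as.length as.sum) (ps.map (lg l)) 0) = T2 at a2 ⊢
  have c1 : |A * (T1 - x)| ≤ |A| * (M1 * (2 * e)) := by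
    rw [abs_mul]
    exact mul_le_mul_of_nonneg_left (a1.trans (mul_le_mul_of_nonneg_left (by linarith) m1))
      (abs_nonneg _)
  have c2 : A ^ 2 * (T2 - V) ≤ A ^ 2 * (M2 * (2 * e)) :=
    mul_le_mul_of_nonneg_left ((le_abs_self _).trans
      (a2.trans (mul_le_mul_of_nonneg_left (by linarith) m2))) (sq_nonneg _)
  have c3 := (abs_le.1 c1).1
  have c4 : 2 * (|A| * (M1 * (2 * e))) + A ^ 2 * (M2 * (2 * e)) = 2 * e * M := by rw [hM]; ring
  nlinarith

end Pool.Agent.P.MP_dddec0_nt.L33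
end

-- part Pool.Agent.P.MP_dddec0_nt.L33Big
section

namespace Pool.Agent.P.MP_dddec0_nt.L33
open Finset Real Filter Pool.Agent.Lib.Tup

theorem big_lg_prod (l : ℝ) {ps : List ℕ} (h : ∀ p ∈ ps, p ≠ 0) :
    lg l ps.prod = (ps.map (lg l)).sum := by
  induction ps with
  | nil => simp [lg]
  | cons p ps ih =>
    have h1 : ∀ q ∈ ps, q ≠ 0 := fun q hq => h q (List.mem_cons_of_mem _ hq)
    have h2 : ps.prod ≠ 0 := List.prod_ne_zero fun h0 => h1 0 h0 rfl
    rw [List.map_cons, List.sum_cons, ← ih h1, List.prod_cons, lg, lg, lg, Nat.cast_mul,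
      log_mul (Nat.cast_ne_zero.2 (h p List.mem_cons_self)) (Nat.cast_ne_zero.2 h2), add_div]

theorem big_lg_mul (l : ℝ) {a b : ℕ} (ha : a ≠ 0) (hb : b ≠ 0) :
    lg l (a * b) = lg l a + lg l b := by
  rw [lg, lg, lg, Nat.cast_mul, log_mul (Nat.cast_ne_zero.2 ha) (Nat.cast_ne_zero.2 hb), add_div]

theorem big_lg_nonneg {l : ℝ} (hl : 0 < l) (a : ℕ) : 0 ≤ lg l a :=
  div_nonneg (log_natCast_nonneg a) hl.le

theorem big_le {l : ℝ} (hl : 0 < l) {p : ℕ} (h : 1 ≤ lg l p) : l ≤ p := by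
  rw [lg, le_div_iff₀ hl, one_mul] at h
  exact h.trans (log_le_self p.cast_nonneg)

theorem big_I {ψ : ℝ → ℝ} {s0 s1 : ℝ} (hψ : Bump ψ s0 s1) :
    0 ≤ ∫ s in s0..s1, ψ s ∧ ∫ s in s0..s1, ψ s ≤ 1 := by
  refine ⟨intervalIntegral.integral_nonneg hψ.le fun s _ => hψ.nonneg s, ?_⟩
  have := intervalIntegral.norm_integral_le_of_norm_le_const (a := s0) (b := s1) (C := 1)
    (f := ψ) fun s _ => by
      rw [Real.norm_of_nonneg (hψ.nonneg s)]
      exact hψ.le_one s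
  rw [abs_of_nonneg (by linarith [hψ.le])] at this
  linarith [le_abs_self (∫ s in s0..s1, ψ s), Real.norm_eq_abs (∫ s in s0..s1, ψ s), hψ.lo,
    hψ.hi]

/-- The sum of the reciprocals of the big primes. -/
theorem big_recip : ∀ᶠ l : ℝ in atTop, ∑ p ∈ cellP l 1 5, (1 : ℝ) / p ≤ 5 := by
  filter_upwards [cell_test one_pos, eventually_gt_atTop 0] with l h hl
  have hb : ∀ s : ℝ, 1 ≤ s → |1 / s| ≤ 1 := fun s hs => by
    rw [abs_of_nonneg (by positivity)]
    exact (div_le_one (by linarith)).2 hs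
  have h1 := h 1 5 1 (fun t => 1 / t) zero_le_one (by norm_num) le_rfl (fun s hs _ => hb s hs)
    fun s t hs _ ht _ => by
      have e : 1 / s - 1 / t = (1 / s) * (1 / t) * (t - s) := by field_simp
      rw [e, abs_mul, abs_mul, abs_sub_comm t s]
      exact mul_le_mul_of_nonneg_right (mul_le_one₀ (hb s hs) (abs_nonneg _) (hb t ht))
        (abs_nonneg _)
  have h2 := intervalIntegral.norm_integral_le_of_norm_le_const (a := 1) (b := 5) (C := 1)
    (f := fun t : ℝ => 1 / t) fun s hs => hb s (by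
      rw [Set.uIoc_of_le (by norm_num)] at hs
      exact hs.1.le)
  have h3 : ∑ p ∈ cellP l 1 5, lg l p / p * (1 / lg l p) = ∑ p ∈ cellP l 1 5, (1 : ℝ) / p :=
    sum_congr rfl fun p hp => by
      have := ((mem_cellP hl le_rfl).1 hp).2.1
      field_simp
  rw [h3] at h1
  rw [Real.norm_eq_abs] at h2
  norm_num at h1 h2 ⊢
  linarith [(abs_le.1 h1).2, (abs_le.1 h2).2]

theorem BM_nonneg {ψ : ℝ → ℝ} {s0 s1 : ℝ} (hψ : Bump ψ s0 s1) (l : ℝ) (W b κ j : ℕ) :
    0 ≤ BM ψ l W b κ j :=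
  sum_nonneg fun _ _ => by
    split_ifs
    · exact div_nonneg (hψ.nonneg _) (Nat.cast_nonneg _)
    · exact le_rfl

/-- The last big prime, avoiding the primes of the list `ps`. Hint: `inner_ge` for
`κ * ps.prod`; a prime with `ψ ≠ 0` has size at least `s0 - 3 ≥ 1` and below `5`. -/
theorem last_ge {ψ : ℝ → ℝ} {s0 s1 : ℝ} (hψ : Bump ψ s0 s1) (h4 : 4 < s0) {W : ℕ} (hW : 0 < W)
    {e : ℝ} (he : 0 < e) :
    ∀ᶠ l : ℝ in atTop, ∀ (κ b : ℕ) (ps : List ℕ), κ ≠ 0 → Nat.Coprime κ W → Nat.Coprime b W →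
      (∀ p ∈ ps, p ∈ cellP l 1 5) → lg l κ + (ps.map (lg l)).sum ≤ 3 →
      ((∫ s in s0..s1, ψ s) / (s1 - (lg l κ + (ps.map (lg l)).sum)) - e) / (Nat.totient W : ℝ)
        ≤ ∑ p ∈ (cellP l 1 5).filter (fun p => p ∉ ps), if κ * (p * ps.prod) ≡ b [MOD W] then
            ψ (log (κ * (p * ps.prod) : ℕ) / l) / p else 0 := by
  filter_upwards [inner_ge hψ hW he, eventually_gt_atTop 0, eventually_gt_atTop (W : ℝ)]
    with l h hl hlW κ b ps hκ hκW hbW hps h3
  have m := fun p hp => (mem_cellP hl le_rfl).1 (hps p hp)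
  have h0 : ∀ p ∈ ps, p ≠ 0 := fun p hp => (m p hp).1.ne_zero
  have h1 : ps.prod ≠ 0 := List.prod_ne_zero fun h => h0 0 h rfl
  have hk : κ * ps.prod ≠ 0 := mul_ne_zero hκ h1
  have h2 : lg l (κ * ps.prod) = lg l κ + (ps.map (lg l)).sum := by
    rw [big_lg_mul l hκ h1, big_lg_prod l h0]
  have hc : Nat.Coprime (κ * ps.prod) W := Nat.Coprime.mul_left hκW
    (Nat.coprime_list_prod_left_iff.2 fun p hp => (Nat.coprime_of_lt_prime hW.ne'
      (by exact_mod_cast hlW.trans_le (big_le hl (m p hp).2.1)) (m p hp).1))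
  rw [← h2] at h3 ⊢
  refine (h _ b hk hc hbW ((div_le_iff₀ hl).1 h3)).trans ?_
  rw [← sum_filter, ← sum_filter_ne_zero]
  simp only [show ∀ p, κ * (p * ps.prod) = κ * ps.prod * p from fun p => by ring]
  refine sum_le_sum_of_subset_of_nonneg (fun p hp => ?_) fun p _ _ =>
    div_nonneg (hψ.nonneg _) (Nat.cast_nonneg _)
  obtain ⟨hp, hn⟩ := mem_filter.1 hp
  obtain ⟨-, p1, p2, p3⟩ := mem_filter.1 hp
  have hs := hψ.supp (lg l (κ * ps.prod * p)) fun h => hn (by rw [← lg, h, zero_div])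
  rw [big_lg_mul l hk p1.ne_zero] at hs
  refine mem_filter.2 ⟨mem_filter.2 ⟨(mem_cellP hl le_rfl).2 ⟨p1, by linarith [hs.1], ?_⟩,
    fun hm => p3 ((List.dvd_prod hm).mul_left _)⟩, p2⟩
  linarith [hs.2, hψ.hi, big_lg_nonneg hl (κ * ps.prod)]

/-- `BM` as a sum over ordered tuples (`TS_replicate`, `TS_congr`). -/
theorem BM_eq (ψ : ℝ → ℝ) (l : ℝ) (W b κ j : ℕ) :
    j.factorial * BM ψ l W b κ j = TS (List.replicate j (cellP l 1 5)) (fun ps =>
      if κ * ps.prod ≡ b [MOD W] then ψ (log (κ * ps.prod : ℕ) / l) / (ps.prod : ℕ) else 0) := by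
  rw [BM, ← TS_replicate]
  refine TS_congr _ fun ps hp => ?_
  rw [List.prod_toFinset _ hp.2, List.map_id']

theorem big1 {ψ : ℝ → ℝ} {s0 s1 : ℝ} (hψ : Bump ψ s0 s1) (h4 : 4 < s0) {W : ℕ} (hW : 0 < W)
    {e : ℝ} (he : 0 < e) :
    ∀ᶠ l : ℝ in atTop, ∀ κ b : ℕ, κ ≠ 0 → Nat.Coprime κ W → Nat.Coprime b W →
      ((∫ s in s0..s1, ψ s) * w1 s1 (lg l κ) - e) / (Nat.totient W : ℝ) ≤ BM ψ l W b κ 1 := by
  filter_upwards [last_ge hψ h4 hW he] with l h κ b hκ hκW hbW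
  rw [w1]
  split_ifs with h3
  · have h1 := h κ b [] hκ hκW hbW (by simp) (by simpa using h3)
    have h2 := BM_eq ψ l W b κ 1
    simp only [Nat.factorial_one, Nat.cast_one, one_mul, List.replicate, TS, List.prod_cons,
      List.prod_nil, mul_one, List.map_nil, List.sum_nil, add_zero] at h1 h2
    rwa [h2, mul_one_div]
  · rw [mul_zero, zero_sub]
    exact (div_nonpos_of_nonpos_of_nonneg (by linarith) (Nat.cast_nonneg _)).trans
      (BM_nonneg hψ l W b κ 1)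

/-- One more big prime `p ≠ q` of size in `[1, 3 - τ)`. Hint: `cell_test` with
`φ t = 1 / (t * (s - τ - t))`, and one removed term at most `1 / l`. -/
theorem mid_ge {s : ℝ} (hs : 4 ≤ s) (hs' : s ≤ 5) {e : ℝ} (he : 0 < e) :
    ∀ᶠ l : ℝ in atTop, ∀ (τ : ℝ) (q : ℕ), 0 ≤ τ → τ ≤ 2 →
      (∫ t in (1 : ℝ)..(3 - τ), 1 / (t * (s - τ - t))) - e
        ≤ ∑ p ∈ (cellP l 1 (3 - τ)).filter (fun p => p ≠ q), 1 / (p * (s - τ - lg l p)) := by
  filter_upwards [cell_test (show 0 < e / 10 by positivity), eventually_gt_atTop 0,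
    eventually_ge_atTop (2 / e)] with l h hl hle τ q h0 h2
  have hd : ∀ t, 1 ≤ t → t ≤ 3 - τ → 1 ≤ t * (s - τ - t) := fun t a b =>
    one_le_mul_of_one_le_of_one_le a (by linarith)
  have hb : ∀ t, 1 ≤ t → t ≤ 3 - τ → |1 / (t * (s - τ - t))| ≤ 1 := fun t a b => by
    have := hd t a b
    rw [abs_of_nonneg (by positivity)]
    exact (div_le_one (by linarith)).2 this
  have h1 := h 1 (3 - τ) 5 (fun t => 1 / (t * (s - τ - t))) zero_le_one (by linarith)
    (by linarith) (fun t a b => (hb t a b).trans (by norm_num)) fun u t a b c d => by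
      have d1 : u * (s - τ - u) ≠ 0 := by linarith [hd u a b]
      have d2 : t * (s - τ - t) ≠ 0 := by linarith [hd t c d]
      have e : 1 / (u * (s - τ - u)) - 1 / (t * (s - τ - t)) =
          1 / (u * (s - τ - u)) * (1 / (t * (s - τ - t))) * (u + t - (s - τ)) * (u - t) := by
        rw [div_sub_div _ _ d1 d2, div_mul_div_comm, mul_assoc (_ / _), div_mul_eq_mul_div]
        congr 1
        ring
      rw [e, abs_mul, abs_mul, abs_mul]
      refine mul_le_mul_of_nonneg_right ?_ (abs_nonneg _)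
      exact (mul_le_of_le_one_left (abs_nonneg _)
        (mul_le_one₀ (hb u a b) (abs_nonneg _) (hb t c d))).trans
          (abs_le.2 ⟨by linarith, by linarith⟩)
  have m := fun p => (mem_cellP (p := p) (x := 1) hl (by linarith : 3 - τ ≤ 5)).1
  have h3 : ∑ p ∈ cellP l 1 (3 - τ), lg l p / p * (1 / (lg l p * (s - τ - lg l p))) =
      ∑ p ∈ cellP l 1 (3 - τ), 1 / (p * (s - τ - lg l p)) :=
    sum_congr rfl fun p hp => by
      have : lg l p ≠ 0 := by linarith [(m p hp).2.1]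
      rw [div_mul_div_comm, mul_left_comm, mul_div_mul_left _ _ this]
  rw [h3] at h1
  have h4 := (abs_le.1 h1).1
  rw [filter_ne']
  by_cases hq : q ∈ cellP l 1 (3 - τ)
  · rw [← add_sum_erase _ _ hq] at h4
    have h5 : l ≤ q * (s - τ - lg l q) := (big_le hl (m q hq).2.1).trans
      (le_mul_of_one_le_right q.cast_nonneg (by linarith [(m q hq).2.2]))
    have h6 : 1 / (q * (s - τ - lg l q)) ≤ e / 2 := by
      rw [← one_div_div 2 e]
      exact one_div_le_one_div_of_le (by positivity) (hle.trans h5)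
    linarith
  · rw [erase_eq_of_notMem hq]
    linarith

/-- Hint: antiderivative `(log t - log (u - t)) / u`, `u = s - τ`; `log (s - 3) ≤ s - 4`. -/
theorem int2_ge {s τ : ℝ} (hs : 4 ≤ s) (hτ : τ ≤ 2) :
    2 * ((log (3 - τ) - (s - 4) / 2) / (s - τ)) ≤ ∫ t in (1 : ℝ)..(3 - τ), 1 / (t * (s - τ - t)) := by
  have hu : 0 < s - τ := by linarith
  have hI : Set.uIcc (1 : ℝ) (3 - τ) = Set.Icc 1 (3 - τ) := Set.uIcc_of_le (by linarith)
  refine le_of_le_of_eq ?_ (intervalIntegral.integral_eq_sub_of_hasDerivAt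
    (f := fun t => (log t - log (s - τ - t)) / (s - τ)) (fun t ht => ?_)
    (ContinuousOn.intervalIntegrable ?_)).symm
  · rw [← mul_div_assoc, ← sub_div]
    refine div_le_div_of_nonneg_right ?_ hu.le
    have h1 := log_le_sub_one_of_pos (show 0 < s - τ - (3 - τ) by linarith)
    have h2 := log_le_log (show 0 < 3 - τ by linarith) (show 3 - τ ≤ s - τ - 1 by linarith)
    rw [log_one]
    linarith
  · rw [hI] at ht
    have a : t ≠ 0 := by linarith [ht.1]
    have b : s - τ - t ≠ 0 := by linarith [ht.2]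
    refine (((hasDerivAt_log a).sub (((hasDerivAt_id' t).const_sub (s - τ)).log b)).div_const
      (s - τ)).congr_deriv ?_
    field_simp
    ring
  · rw [hI]
    refine continuousOn_const.div (by fun_prop) fun t ht => mul_ne_zero ?_ ?_
    · linarith [ht.1]
    · linarith [ht.2]

/-- Hint: `BM_eq` with `j = 2`, `last_ge` with `ps = [p]` for `p ∈ cellP l 1 (3 - τ)` and `0 ≤`
for the other `p`; `∑ 1 / p` over `cellP l 1 5` is at most `5` by `cell_test`. -/
theorem big2 {ψ : ℝ → ℝ} {s0 s1 : ℝ} (hψ : Bump ψ s0 s1) (h4 : 4 < s0) {W : ℕ} (hW : 0 < W)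
    {e : ℝ} (he : 0 < e) :
    ∀ᶠ l : ℝ in atTop, ∀ κ b : ℕ, κ ≠ 0 → Nat.Coprime κ W → Nat.Coprime b W →
      ((∫ s in s0..s1, ψ s) * w2 s1 (lg l κ) - e) / (Nat.totient W : ℝ) ≤ BM ψ l W b κ 2 := by
  have hs : 4 ≤ s1 := h4.le.trans hψ.le
  filter_upwards [last_ge hψ h4 hW (show 0 < e / 5 by positivity),
    mid_ge hs (by linarith [hψ.hi]) he, big_recip, eventually_gt_atTop 0]
    with l h hm hr hl κ b hκ hκW hbW
  obtain ⟨I0, I1⟩ := big_I hψ
  have hφ : (0 : ℝ) < Nat.totient W := by exact_mod_cast Nat.totient_pos.2 hW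
  have triv : ((∫ s in s0..s1, ψ s) * 0 - e) / (Nat.totient W : ℝ) ≤ BM ψ l W b κ 2 := by
    rw [mul_zero, zero_sub]
    exact (div_nonpos_of_nonpos_of_nonneg (by linarith) hφ.le).trans (BM_nonneg hψ l W b κ 2)
  rw [w2]
  split_ifs with h2
  swap
  · exact triv
  rcases max_cases 0 (log (3 - lg l κ) - (s1 - 4) / 2) with ⟨hx, -⟩ | ⟨hx, -⟩ <;> rw [hx]
  · rwa [zero_div]
  have t0 := big_lg_nonneg hl κ
  have h1 := hm _ 0 t0 h2
  have h3 := int2_ge hs h2
  have h5 := BM_eq ψ l W b κ 2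
  set I := ∫ s in s0..s1, ψ s
  set T := (cellP l 1 (3 - lg l κ)).filter (fun p => p ≠ 0) with hT
  have m : ∀ q ∈ T, q.Prime ∧ 1 ≤ lg l q ∧ lg l q < 3 - lg l κ := fun q hq =>
    (mem_cellP hl (by linarith)).1 (mem_filter.1 hq).1
  have sub : T ⊆ cellP l 1 5 := fun q hq =>
    (mem_cellP hl le_rfl).2 ⟨(m q hq).1, (m q hq).2.1, by linarith [(m q hq).2.2]⟩
  have h6 : ∑ q ∈ T, (I * (1 / (q * (s1 - lg l κ - lg l q))) - e / 5 * (1 / q)) /
      (Nat.totient W : ℝ) ≤ 2 * BM ψ l W b κ 2 := by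
    simp only [Nat.factorial_two, Nat.cast_ofNat, List.replicate, TS] at h5
    rw [h5]
    refine (sum_le_sum fun q hq => ?_).trans (sum_le_sum_of_subset_of_nonneg (s := T)
      (fun q hq => mem_filter.2 ⟨sub hq, by simp⟩) fun q _ _ => sum_nonneg fun p _ => ?_)
    · have h7 := h κ b [q] hκ hκW hbW (by simpa using sub hq) (by
        simp only [List.map_cons, List.map_nil, List.sum_cons, List.sum_nil]
        linarith [(m q hq).2.2])
      have h8 := mul_le_mul_of_nonneg_left h7 (show (0 : ℝ) ≤ 1 / q by positivity)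
      rw [mul_sum] at h8
      refine le_trans (le_of_eq ?_) (h8.trans (le_of_eq (sum_congr rfl fun p _ => ?_)))
      · simp only [List.map_cons, List.map_nil, List.sum_cons, List.sum_nil, add_zero]
        rw [← sub_sub, ← one_div_mul_one_div]
        ring
      · simp only [List.prod_cons, List.prod_nil, mul_one]
        split_ifs
        · push_cast
          ring
        · exact mul_zero _
    · split_ifs
      · exact div_nonneg (hψ.nonneg _) (Nat.cast_nonneg _)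
      · exact le_rfl
  rw [← sum_div, sum_sub_distrib, ← mul_sum, ← mul_sum, div_le_iff₀ hφ] at h6
  have h9 := (sum_le_sum_of_subset_of_nonneg (f := fun q : ℕ => (1 : ℝ) / q) sub
    fun q _ _ => by positivity).trans hr
  rw [div_le_iff₀ hφ]
  have h10 := mul_le_mul_of_nonneg_left ((sub_le_sub_right h3 e).trans h1) I0
  nlinarith [mul_le_mul_of_nonneg_left h9 he.le, mul_le_mul_of_nonneg_right I1 he.le]

end Pool.Agent.P.MP_dddec0_nt.L33
end

-- part Pool.Agent.P.MP_dddec0_nt.L33Big3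
section

namespace Pool.Agent.P.MP_dddec0_nt.L33
open Finset Real Filter Pool.Agent.Lib.Tup

/-- `∫ t' in 1..(3 - τ - t), (2 A - A ^ 2 t t' (s - τ - t - t'))` in closed form. -/
noncomputable def pol3 (s τ A t : ℝ) : ℝ :=
  2 * A * (2 - τ - t) - A ^ 2 * t *
    ((s - τ - t) * ((3 - τ - t) ^ 2 - 1) / 2 - ((3 - τ - t) ^ 3 - 1) / 3)

theorem b3_poly (c0 c1 c2 c3 c4 a b : ℝ) :
    ∫ x in a..b, (c0 + c1 * x + c2 * x ^ 2 + c3 * x ^ 3 + c4 * x ^ 4) =
      c0 * (b - a) + c1 * (b ^ 2 - a ^ 2) / 2 + c2 * (b ^ 3 - a ^ 3) / 3 +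
        c3 * (b ^ 4 - a ^ 4) / 4 + c4 * (b ^ 5 - a ^ 5) / 5 := by
  have h : ∀ x : ℝ, HasDerivAt
      (fun x : ℝ => c0 * x ^ 1 + c1 / 2 * x ^ 2 + c2 / 3 * x ^ 3 + c3 / 4 * x ^ 4 + c4 / 5 * x ^ 5)
      (c0 + c1 * x + c2 * x ^ 2 + c3 * x ^ 3 + c4 * x ^ 4) x := fun x =>
    ((((((hasDerivAt_pow 1 x).const_mul c0).fun_add
      ((hasDerivAt_pow 2 x).const_mul (c1 / 2))).fun_add
      ((hasDerivAt_pow 3 x).const_mul (c2 / 3))).fun_add
      ((hasDerivAt_pow 4 x).const_mul (c3 / 4))).fun_add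
      ((hasDerivAt_pow 5 x).const_mul (c4 / 5))).congr_deriv (by norm_num; ring)
  rw [intervalIntegral.integral_eq_sub_of_hasDerivAt (fun x _ => h x)
    (Continuous.intervalIntegrable (by fun_prop) _ _)]
  ring

theorem b3_E {s d : ℝ} (hs : 4 ≤ s) (hd : 0 ≤ d) : 1 ≤ E3 s d := by
  unfold E3
  have h : 0 ≤ d + d ^ 2 / 4 + d ^ 3 / 60 := by positivity
  nlinarith

/-- Hint: `2 A - A ^ 2 V ≤ 1 / V` for `V > 0`, `intervalIntegral.integral_mono_on`. -/
theorem pol3_le {s τ A t : ℝ} (hs : 4 ≤ s) (ht : 1 ≤ t) (ht' : τ + t ≤ 2) :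
    t * pol3 s τ A t ≤ ∫ t' in (1 : ℝ)..(3 - (τ + t)), 1 / (t' * (s - (τ + t) - t')) := by
  have e : t * pol3 s τ A t = ∫ x in (1 : ℝ)..(3 - (τ + t)), (2 * A * t +
      -(A ^ 2 * t ^ 2 * (s - τ - t)) * x + A ^ 2 * t ^ 2 * x ^ 2 + 0 * x ^ 3 + 0 * x ^ 4) := by
    rw [b3_poly, pol3]
    ring
  have h13 : (1 : ℝ) ≤ 3 - (τ + t) := by linarith
  rw [e]
  refine intervalIntegral.integral_mono_on h13 (Continuous.intervalIntegrable (by fun_prop) _ _)
    (ContinuousOn.intervalIntegrable ?_) fun x hx => ?_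
  · rw [Set.uIcc_of_le h13]
    refine continuousOn_const.div (by fun_prop) fun x hx => ?_
    exact (mul_pos (by linarith [hx.1]) (by linarith [hx.2])).ne'
  · have hV : 0 < x * (s - (τ + t) - x) := mul_pos (by linarith [hx.1]) (by linarith [hx.2])
    rw [le_div_iff₀ hV]
    nlinarith [sq_nonneg (A * t * (x * (s - (τ + t) - x)) - 1)]

/-- Hint: the integral is a polynomial; with `d = 1 - τ` it equals
`d ^ 2 / 2 * (2 A - A ^ 2 * (1 + d + d ^ 2 / 4 + d ^ 3 / 60 + (s - 4) * (1 + 2 d / 3 + d ^ 2 / 12)))`. -/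
theorem int3_ge {s τ : ℝ} (hs : 4 ≤ s) (hτ : τ ≤ 1) :
    6 * ((1 - τ) ^ 2 / (12 * E3 s (1 - τ)))
      ≤ ∫ t in (1 : ℝ)..(2 - τ), pol3 s τ (1 / E3 s (1 - τ)) t := by
  obtain ⟨d, rfl⟩ : ∃ d, τ = 1 - d := ⟨1 - τ, by ring⟩
  have hd : 0 ≤ d := by linarith
  rw [sub_sub_cancel]
  have hE := b3_E hs hd
  have hA : 1 / E3 s d * E3 s d = 1 := one_div_mul_cancel (by linarith)
  have hA0 : 0 ≤ 1 / E3 s d := by positivity
  have e0 : 6 * (d ^ 2 / (12 * E3 s d)) = d ^ 2 / 2 * (1 / E3 s d) := by ring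
  rw [e0]
  generalize 1 / E3 s d = A at hA hA0
  have e : ∀ t, pol3 s (1 - d) A t = 2 * A * (1 + d) +
      (-(2 * A) - A ^ 2 * ((s - 1 + d) * ((2 + d) ^ 2 - 1) / 2 - ((2 + d) ^ 3 - 1) / 3)) * t +
      -(A ^ 2 * (-((s - 1 + d) * (2 + d)) + (2 + d) ^ 2 / 2 + 1 / 2)) * t ^ 2 +
      -(A ^ 2 * (s - 1 + d) / 2) * t ^ 3 + A ^ 2 / 6 * t ^ 4 := fun t => by
    unfold pol3
    ring
  simp only [e]
  rw [b3_poly]
  have h1 : 0 ≤ d ^ 2 / 2 * (A ^ 2 * ((s - 4) * (d / 3 + d ^ 2 / 6 + d ^ 3 / 60))) :=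
    mul_nonneg (by positivity) (mul_nonneg (by positivity)
      (mul_nonneg (by linarith) (by positivity)))
  have h2 : d ^ 2 / 2 * (A * (A * E3 s d)) = d ^ 2 / 2 * A := by rw [hA, mul_one]
  unfold E3 at h2
  linear_combination h1 + h2

theorem pol3_lip : ∃ B : ℝ, 0 ≤ B ∧ ∀ s τ A : ℝ, 4 ≤ s → s ≤ 5 → 0 ≤ τ → τ ≤ 1 → 0 ≤ A → A ≤ 1 →
    ∀ t, 1 ≤ t → t ≤ 2 → |pol3 s τ A t| ≤ B ∧
      ∀ t', 1 ≤ t' → t' ≤ 2 → |pol3 s τ A t - pol3 s τ A t'| ≤ B * |t - t'| := by
  have hf : ContDiff ℝ 1 fun x : ℝ × ℝ × ℝ × ℝ => pol3 x.1 x.2.1 x.2.2.1 x.2.2.2 := by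
    unfold pol3
    fun_prop
  have hK : IsCompact (Set.Icc ((4, 0, 0, 1) : ℝ × ℝ × ℝ × ℝ) (5, 1, 1, 2)) := isCompact_Icc
  obtain ⟨K, hL⟩ := hf.contDiffOn.exists_lipschitzOnWith one_ne_zero (convex_Icc _ _) hK
  obtain ⟨C, hC⟩ := hK.exists_bound_of_continuousOn hf.continuous.continuousOn
  refine ⟨max K C, le_max_of_le_left K.2, fun s τ A a1 a2 a3 a4 a5 a6 t a7 a8 => ?_⟩
  have m : ∀ t, 1 ≤ t → t ≤ 2 →
      (s, τ, A, t) ∈ Set.Icc ((4, 0, 0, 1) : ℝ × ℝ × ℝ × ℝ) (5, 1, 1, 2) :=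
    fun t h h' => ⟨⟨a1, a3, a5, h⟩, a2, a4, a6, h'⟩
  refine ⟨(hC _ (m t a7 a8)).trans (le_max_right _ _), fun t' a9 a10 => ?_⟩
  have h := hL.dist_le_mul _ (m t a7 a8) _ (m t' a9 a10)
  simp only [Prod.dist_eq, dist_self, Real.dist_eq, max_eq_right (abs_nonneg (t - t'))] at h
  exact h.trans (mul_le_mul_of_nonneg_right (le_max_left _ _) (abs_nonneg _))

theorem b3_TS (P : Finset ℕ) (Φ : List ℕ → ℝ) : TS (List.replicate 3 P) Φ =
    ∑ q ∈ P, ∑ p ∈ P.filter (fun p => p ≠ q), ∑ r ∈ P.filter (fun r => r ∉ [p, q]),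
      Φ [r, p, q] := by
  show TS [P, P, P] Φ = _
  simp only [TS]
  rw [filter_true_of_mem fun _ _ => List.not_mem_nil]
  exact sum_congr rfl fun q _ => sum_congr (filter_congr fun _ _ => by simp) fun _ _ => rfl

theorem b3_mass : ∀ᶠ l : ℝ in atTop, ∑ p ∈ cellP l 1 5, (1 : ℝ) / p ≤ 5 := by
  filter_upwards [eventually_gt_atTop 0, cell_test one_pos] with l hl h
  have h1 := h 1 5 1 (fun _ => 1) zero_le_one (by norm_num) le_rfl (by simp) (by simp)
  simp only [mul_one, intervalIntegral.integral_const, smul_eq_mul] at h1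
  refine le_trans (sum_le_sum fun p hp => ?_) (by linarith [(abs_le.1 h1).2])
  exact div_le_div_of_nonneg_right ((mem_cellP hl le_rfl).1 hp).2.1 (Nat.cast_nonneg p)

theorem b3_sub {l y : ℝ} (hl : 0 < l) (hy : y ≤ 5) : cellP l 1 y ⊆ cellP l 1 5 := fun p hp => by
  have h := (mem_cellP hl hy).1 hp
  exact (mem_cellP hl le_rfl).2 ⟨h.1, h.2.1, h.2.2.trans_le hy⟩

theorem b3_I {ψ : ℝ → ℝ} {s0 s1 : ℝ} (hψ : Bump ψ s0 s1) :
    0 ≤ ∫ s in s0..s1, ψ s ∧ ∫ s in s0..s1, ψ s ≤ 1 := by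
  refine ⟨intervalIntegral.integral_nonneg hψ.le fun s _ => hψ.nonneg s, ?_⟩
  have h := intervalIntegral.norm_integral_le_of_norm_le_const (C := 1) (f := ψ) (a := s0)
    (b := s1) fun x _ => by
      rw [Real.norm_eq_abs, abs_of_nonneg (hψ.nonneg x)]
      exact hψ.le_one x
  rw [one_mul, abs_of_nonneg (sub_nonneg.2 hψ.le), Real.norm_eq_abs] at h
  linarith [le_abs_self (∫ s in s0..s1, ψ s), hψ.lo, hψ.hi]

/-- Hint: `BM_eq` with `j = 3`; outer prime `q ∈ cellP l 1 (2 - τ)`, middle prime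
`p ∈ cellP l 1 (3 - (τ + lg l q))`, `p ≠ q` (`mid_ge` at `τ + lg l q`), inner sum `last_ge` with
`ps = [p, q]`; then `pol3_le`, `cell_test` with `pol3`, `int3_ge`. -/
theorem big3 {ψ : ℝ → ℝ} {s0 s1 : ℝ} (hψ : Bump ψ s0 s1) (h4 : 4 < s0) {W : ℕ} (hW : 0 < W)
    {e : ℝ} (he : 0 < e) :
    ∀ᶠ l : ℝ in atTop, ∀ κ b : ℕ, κ ≠ 0 → Nat.Coprime κ W → Nat.Coprime b W →
      ((∫ s in s0..s1, ψ s) * w3 s1 (lg l κ) - e) / (Nat.totient W : ℝ) ≤ BM ψ l W b κ 3 := by
  obtain ⟨B, hB0, hB⟩ := pol3_lip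
  have hs4 : 4 ≤ s1 := h4.le.trans hψ.le
  have hs5 : s1 ≤ 5 := by linarith [hψ.hi]
  obtain ⟨hI0, hI1⟩ := b3_I hψ
  have hφ : (0 : ℝ) < Nat.totient W := Nat.cast_pos.2 (Nat.totient_pos.2 hW)
  filter_upwards [eventually_gt_atTop 0, last_ge hψ h4 hW (e := e / 25) (by positivity),
    mid_ge hs4 hs5 (e := e / 5) (by positivity), cell_test (e := e / (B + 1)) (by positivity),
    b3_mass] with l hl h1 h2 h3 h5 κ b hκ hκW hbW
  generalize (∫ s in s0..s1, ψ s) = I at *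
  generalize (Nat.totient W : ℝ) = φ at *
  have hτ0 : 0 ≤ lg l κ := div_nonneg (log_natCast_nonneg κ) hl.le
  replace h1 := fun ps => h1 κ b ps hκ hκW hbW
  generalize lg l κ = τ at *
  by_cases hτ : τ ≤ 1
  swap
  · rw [w3, if_neg hτ, mul_zero, zero_sub]
    exact (div_nonpos_of_nonpos_of_nonneg (by linarith) hφ.le).trans (BM_nonneg hψ l W b κ 3)
  rw [w3, if_pos hτ]
  have hE := b3_E hs4 (sub_nonneg.2 hτ)
  have h6 := int3_ge hs4 hτ
  have hA0 : 0 ≤ 1 / E3 s1 (1 - τ) := by positivity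
  have hA1 : 1 / E3 s1 (1 - τ) ≤ 1 := by rwa [div_le_one (by linarith)]
  generalize 1 / E3 s1 (1 - τ) = A at *
  generalize (1 - τ) ^ 2 / (12 * E3 s1 (1 - τ)) = w at *
  have h7 := h3 1 (2 - τ) B (pol3 s1 τ A) zero_le_one (by linarith) (by linarith)
    (fun t a1 a2 => (hB s1 τ A hs4 hs5 hτ0 hτ hA0 hA1 t a1 (by linarith)).1)
    fun t t' a1 a2 a3 a4 =>
      (hB s1 τ A hs4 hs5 hτ0 hτ hA0 hA1 t a1 (by linarith)).2 t' a3 (by linarith)
  have h8 : e / (B + 1) * B ≤ e := by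
    rw [div_mul_eq_mul_div, div_le_iff₀ (by positivity)]
    nlinarith
  obtain ⟨g, hg⟩ : ∃ g : List ℕ → ℝ, ∀ ps, g ps = ∑ p ∈ (cellP l 1 5).filter (fun p => p ∉ ps),
      if κ * (p * ps.prod) ≡ b [MOD W] then ψ (log (κ * (p * ps.prod) : ℕ) / l) / p else 0 :=
    ⟨_, fun _ => rfl⟩
  have g0 : ∀ ps, 0 ≤ g ps := fun ps => by
    rw [hg]
    refine sum_nonneg fun p _ => ?_
    split_ifs
    exacts [div_nonneg (hψ.nonneg _) (Nat.cast_nonneg p), le_rfl]
  have e1 : 6 * BM ψ l W b κ 3 = ∑ q ∈ cellP l 1 5,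
      ∑ p ∈ (cellP l 1 5).filter (fun p => p ≠ q), g [p, q] / (p * q) := by
    have h := BM_eq ψ l W b κ 3
    rw [b3_TS] at h
    rw [show (6 : ℝ) = (Nat.factorial 3 : ℕ) by norm_num [Nat.factorial], h]
    refine sum_congr rfl fun q _ => sum_congr rfl fun p _ => ?_
    rw [hg, sum_div]
    refine sum_congr rfl fun r _ => ?_
    rw [List.prod_cons (a := r)]
    split_ifs
    · simp only [List.prod_cons, List.prod_nil, mul_one, Nat.cast_mul, div_div]
    · rw [zero_div]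
  have key : ∀ q ∈ cellP l 1 (2 - τ),
      (I * (lg l q / q * pol3 s1 τ A (lg l q)) - 2 * (e / 5) * (1 / q)) / φ ≤
        ∑ p ∈ (cellP l 1 5).filter (fun p => p ≠ q), g [p, q] / (p * q) := by
    intro q hq
    have hq5 := b3_sub hl (by linarith) hq
    obtain ⟨q1, q2, q3⟩ := (mem_cellP hl (by linarith)).1 hq
    have hq0 : (0 : ℝ) < q := Nat.cast_pos.2 q1.pos
    have hs : cellP l 1 (3 - (τ + lg l q)) ⊆ cellP l 1 5 := b3_sub hl (by linarith)
    have m1 := h2 (τ + lg l q) q (by linarith) (by linarith)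
    have m2 := pol3_le (A := A) hs4 q2 (τ := τ) (by linarith)
    have m3 : ∑ p ∈ (cellP l 1 (3 - (τ + lg l q))).filter (fun p => p ≠ q), (1 : ℝ) / p ≤ 5 :=
      (sum_le_sum_of_subset_of_nonneg ((filter_subset _ _).trans hs)
        fun _ _ _ => by positivity).trans h5
    refine le_trans ?_ (sum_le_sum_of_subset_of_nonneg (filter_subset_filter _ hs)
      fun p _ _ => div_nonneg (g0 _) (by positivity))
    have m4 : ∀ p ∈ (cellP l 1 (3 - (τ + lg l q))).filter (fun p => p ≠ q),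
        (I * (1 / (p * (s1 - (τ + lg l q) - lg l p))) - e / 25 * (1 / p)) / φ / q ≤
          g [p, q] / (p * q) := by
      intro p hp
      have hp' := (mem_filter.1 hp).1
      obtain ⟨p1, p2, p3⟩ := (mem_cellP hl (by linarith)).1 hp'
      have hp0 : (0 : ℝ) < p := Nat.cast_pos.2 p1.pos
      have m5 := h1 [p, q] (by simpa using ⟨hs hp', hq5⟩) (by simp; linarith)
      rw [← hg] at m5
      refine le_trans (le_of_eq ?_) (div_le_div_of_nonneg_right m5 (by positivity))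
      simp only [List.map_cons, List.map_nil, List.sum_cons, List.sum_nil, one_div, mul_inv]
      ring
    refine le_trans ?_ (sum_le_sum m4)
    rw [← sum_div, ← sum_div, sum_sub_distrib, ← mul_sum, ← mul_sum, div_right_comm]
    refine div_le_div_of_nonneg_right ?_ hφ.le
    rw [show I * (lg l q / q * pol3 s1 τ A (lg l q)) - 2 * (e / 5) * (1 / q) =
      (I * (lg l q * pol3 s1 τ A (lg l q)) - 2 * (e / 5)) / q by ring]
    refine div_le_div_of_nonneg_right ?_ hq0.le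
    have m6 := mul_le_mul_of_nonneg_left ((sub_le_sub_right m2 (e / 5)).trans m1) hI0
    nlinarith
  have hs : cellP l 1 (2 - τ) ⊆ cellP l 1 5 := b3_sub hl (by linarith)
  have m1 := (sum_le_sum key).trans (sum_le_sum_of_subset_of_nonneg hs fun q _ _ =>
    sum_nonneg fun p _ => div_nonneg (g0 _) (by positivity))
  rw [← e1, ← sum_div, sum_sub_distrib, ← mul_sum, ← mul_sum, div_le_iff₀ hφ] at m1
  have m2 : ∑ p ∈ cellP l 1 (2 - τ), (1 : ℝ) / p ≤ 5 :=
    (sum_le_sum_of_subset_of_nonneg hs fun _ _ _ => by positivity).trans h5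
  have m3 : 6 * w - e ≤ ∑ q ∈ cellP l 1 (2 - τ), lg l q / q * pol3 s1 τ A (lg l q) := by
    linarith [(abs_le.1 h7).1]
  have m4 := mul_le_mul_of_nonneg_left m3 hI0
  rw [div_le_iff₀ hφ]
  nlinarith

theorem big_ge {ψ : ℝ → ℝ} {s0 s1 : ℝ} (hψ : Bump ψ s0 s1) (h4 : 4 < s0) {W : ℕ} (hW : 0 < W)
    {e : ℝ} (he : 0 < e) :
    ∀ᶠ l : ℝ in atTop, ∀ κ b J : ℕ, κ ≠ 0 → Nat.Coprime κ W → Nat.Coprime b W → 1 ≤ J →
      ((∫ s in s0..s1, ψ s) * Wt s1 J (lg l κ) - e) / (Nat.totient W : ℝ)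
        ≤ ∑ j ∈ Icc 1 J, BM ψ l W b κ j := by
  have he3 : 0 < e / 3 := by positivity
  have hφ : (0 : ℝ) < Nat.totient W := Nat.cast_pos.2 (Nat.totient_pos.2 hW)
  filter_upwards [big1 hψ h4 hW he3, big2 hψ h4 hW he3, big3 hψ h4 hW he3]
    with l h1 h2 h3 κ b J hκ hκW hbW hJ
  have a1 := (div_le_iff₀ hφ).1 (h1 κ b hκ hκW hbW)
  have a2 := (div_le_iff₀ hφ).1 (h2 κ b hκ hκW hbW)
  have a3 := (div_le_iff₀ hφ).1 (h3 κ b hκ hκW hbW)
  rw [div_le_iff₀ hφ, Wt]
  rcases hJ.eq_or_lt with rfl | hJ2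
  · rw [if_neg (by omega), if_neg (by omega), Icc_self, sum_singleton]
    linarith
  rcases (Nat.succ_le_of_lt hJ2).eq_or_lt with rfl | hJ3
  · rw [if_pos le_rfl, if_neg (by omega), sum_Icc_succ_top (by norm_num), Icc_self, sum_singleton]
    linarith
  · have hs : ∑ j ∈ Icc 1 3, BM ψ l W b κ j ≤ ∑ j ∈ Icc 1 J, BM ψ l W b κ j :=
      sum_le_sum_of_subset_of_nonneg (Icc_subset_Icc_right hJ3) fun j _ _ => BM_nonneg hψ l W b κ j
    rw [sum_Icc_succ_top (by norm_num), sum_Icc_succ_top (by norm_num), Icc_self,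
      sum_singleton] at hs
    have := mul_le_mul_of_nonneg_right hs hφ.le
    rw [if_pos (by omega), if_pos (by omega)]
    linarith

theorem Wt_nonneg {s : ℝ} (hs : 4 ≤ s) (J : ℕ) (τ : ℝ) : 0 ≤ Wt s J τ := by
  have h1 : 0 ≤ w1 s τ := by
    unfold w1
    split_ifs
    exacts [div_nonneg zero_le_one (by linarith), le_rfl]
  have h2 : 0 ≤ w2 s τ := by
    unfold w2
    split_ifs
    exacts [div_nonneg (le_max_left _ _) (by linarith), le_rfl]
  have h3 : 0 ≤ w3 s τ := by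
    unfold w3
    split_ifs with h
    · have := b3_E hs (sub_nonneg.2 h)
      positivity
    · exact le_rfl
  unfold Wt
  split_ifs <;> linarith

end Pool.Agent.P.MP_dddec0_nt.L33
end

-- part Pool.Agent.P.MP_dddec0_nt.L33Dec
section

namespace Pool.Agent.P.MP_dddec0_nt.L33
open Finset Real Filter Pool.Agent.Lib.Tup

theorem dec_esymm {f : ℕ → ℝ} (P : Finset ℕ) (hf : ∀ p ∈ P, 0 ≤ f p) (k : ℕ) :
    ∑ A ∈ powersetCard k P, ∏ p ∈ A, f p ≤ (∑ p ∈ P, f p) ^ k := by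
  induction P using Finset.induction_on generalizing k with
  | empty =>
    cases k with
    | zero => simp
    | succ k => rw [powersetCard_eq_empty.2 (by simp)]; simp
  | insert a P ha ih =>
    cases k with
    | zero => simp
    | succ k =>
      have hP : ∀ p ∈ P, 0 ≤ f p := fun p hp => hf p (mem_insert_of_mem hp)
      have hfa : 0 ≤ f a := hf a (mem_insert_self _ _)
      have hS : 0 ≤ ∑ p ∈ P, f p := sum_nonneg hP
      rw [powersetCard_succ_insert ha, sum_union, sum_image, sum_insert ha]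
      · have e : ∑ A ∈ powersetCard k P, ∏ p ∈ insert a A, f p
            = f a * ∑ A ∈ powersetCard k P, ∏ p ∈ A, f p := by
          rw [mul_sum]
          refine sum_congr rfl fun A hA => ?_
          rw [prod_insert fun h => ha ((mem_powersetCard.1 hA).1 h)]
        rw [e]
        have h1 := ih hP (k + 1)
        have h2 := mul_le_mul_of_nonneg_left (ih hP k) hfa
        have h3 : (∑ p ∈ P, f p) ^ k ≤ (f a + ∑ p ∈ P, f p) ^ k :=
          pow_le_pow_left₀ hS (by linarith) k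
        have h4 := mul_le_mul_of_nonneg_left h3 (add_nonneg hfa hS)
        rw [pow_succ'] at h1 ⊢
        linarith
      · intro A hA A' hA' h
        have h1 : a ∉ A := fun h => ha ((mem_powersetCard.1 hA).1 h)
        have h2 : a ∉ A' := fun h => ha ((mem_powersetCard.1 hA').1 h)
        rw [← erase_insert h1, ← erase_insert h2, h]
      · rw [disjoint_left]
        intro A hA hA'
        obtain ⟨A', -, rfl⟩ := mem_image.1 hA'
        exact ha ((mem_powersetCard.1 hA).1 (mem_insert_self _ _))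

theorem dec_GA_le {B : ℝ} {g : ℝ → ℝ} (hg : ∀ u, |g u| ≤ B) (l : ℝ) (A : Finset ℕ) (u : ℝ) :
    |GA l g A u| ≤ 2 ^ A.card * B := by
  unfold GA
  refine (abs_sum_le_sum_abs _ _).trans ?_
  refine (sum_le_card_nsmul _ _ B fun S _ => ?_).trans ?_
  · rw [abs_mul, abs_pow, abs_neg, abs_one, one_pow, one_mul]
    exact hg _
  · rw [card_powerset, nsmul_eq_mul]
    push_cast
    exact le_rfl

theorem dec_merge (s P : Finset ℕ) {h : Finset ℕ → ℝ} (hh : ∀ A, 0 ≤ h A) :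
    ∑ k ∈ s, ∑ A ∈ powersetCard k P, h A ≤ ∑ A ∈ P.powerset, h A := by
  rw [← sum_biUnion fun i _ j _ hij => pairwise_disjoint_powersetCard P hij]
  refine sum_le_sum_of_subset_of_nonneg (fun A hA => ?_) fun A _ _ => hh A
  obtain ⟨k, -, hk⟩ := mem_biUnion.1 hA
  exact mem_powerset.2 (mem_powersetCard.1 hk).1

/-- Hint: `|GA| ≤ 2 ^ k B`, `∑ 1 / p` over `cellP l η 1` is at most `2 / η` (`cell_test` with
`φ = 1`, `1 / p ≤ (lg l p / p) / η`), and the sum over the sets of `∏ 1 / p` is at most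
`(∑ 1 / p) ^ k` (or use `TS_replicate`). -/
theorem level_le {B : ℝ} (k : ℕ) {g : ℝ → ℝ} (hg : ∀ u, |g u| ≤ B) {η : ℝ} (hη : 0 < η)
    (hη1 : η ≤ 1) :
    ∀ᶠ l : ℝ in atTop, ∑ A ∈ powersetCard k (cellP l η 1),
      GA l g A 0 ^ 2 / (∏ p ∈ A, p : ℕ) ≤ (2 ^ k * B) ^ 2 * (2 / η) ^ k := by
  filter_upwards [cell_test (e := 1) one_pos, eventually_gt_atTop (0 : ℝ)] with l h1 hl
  have h2 := h1 η 1 1 (fun _ => 1) hη.le hη1 (by norm_num) (fun _ _ _ => by simp)
    (fun s t _ _ _ _ => by simp)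
  have h3 : ∑ p ∈ cellP l η 1, lg l p / p ≤ 2 := by
    have := (abs_le.1 h2).2
    simp only [mul_one, intervalIntegral.integral_const, smul_eq_mul] at this
    linarith
  have h4 : ∑ p ∈ cellP l η 1, (1 : ℝ) / p ≤ 2 / η := by
    rw [le_div_iff₀ hη, sum_mul]
    refine le_trans (sum_le_sum fun p hp => ?_) h3
    have h5 := ((mem_cellP hl (by norm_num)).1 hp).2.1
    rw [one_div_mul_eq_div]
    exact div_le_div_of_nonneg_right h5 (Nat.cast_nonneg _)
  have h5 := dec_esymm (f := fun p => (1 : ℝ) / p) (cellP l η 1) (fun p _ => by positivity) k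
  have h6 : (∑ p ∈ cellP l η 1, (1 : ℝ) / p) ^ k ≤ (2 / η) ^ k :=
    pow_le_pow_left₀ (sum_nonneg fun p _ => by positivity) h4 k
  refine le_trans ?_ (mul_le_mul_of_nonneg_left (h5.trans h6) (sq_nonneg (2 ^ k * B)))
  rw [mul_sum]
  refine sum_le_sum fun A hA => ?_
  have h7 := dec_GA_le hg l A 0
  rw [(mem_powersetCard.1 hA).2] at h7
  have h8 : GA l g A 0 ^ 2 ≤ (2 ^ k * B) ^ 2 := sq_le_sq' (abs_le.1 h7).1 (abs_le.1 h7).2
  rw [prod_div_distrib, prod_const_one, mul_one_div, Nat.cast_prod]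
  exact div_le_div_of_nonneg_right h8 (prod_nonneg fun p _ => Nat.cast_nonneg _)

open Classical in
/-- Small part times big part. Hint: the map `(A, B) ↦ ∏ A * ∏ B` is injective on pairs of a set
of small primes and a set of big primes (`Nat.primeFactors_prod`), `GA_union`; drop the terms with
`ψ = 0`, the others give `m < NN l` (`lt_NN`, `Bump.supp`). -/
theorem decomp {ψ : ℝ → ℝ} {s0 s1 : ℝ} (hψ : Bump ψ s0 s1) {l η : ℝ} (hl : 0 < l) (hη : 0 < η)
    (hη1 : η ≤ 1 / 2) (W b R K : ℕ) {g : ℝ → ℝ} (hg : ∀ t, 1 ≤ t → g t = 0) :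
    ∑ k ∈ range (K + 1), ∑ A ∈ powersetCard k (cellP l (2 * η) 1),
        GA l g A 0 ^ 2 / (∏ p ∈ A, p : ℕ) * ∑ j ∈ Icc 1 (R - k), BM ψ l W b (∏ p ∈ A, p) j
      ≤ ∑ m ∈ (cls l W b).filter (RS η l),
          wg ψ l m * gR R m.primeFactors.card * GA l g m.primeFactors 0 ^ 2 := by
  set P := cellP l (2 * η) 1 with hP
  set Q := cellP l 1 5 with hQ
  set S := (cls l W b).filter (RS η l) with hS
  set t : ℕ → ℝ := fun m =>
    wg ψ l m * gR R m.primeFactors.card * GA l g m.primeFactors 0 ^ 2 with ht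
  have ht0 : ∀ m, 0 ≤ t m := fun m => by
    refine mul_nonneg (mul_nonneg (div_nonneg (hψ.nonneg _) (Nat.cast_nonneg _)) ?_) (sq_nonneg _)
    unfold gR
    split_ifs <;> norm_num
  set F : ℕ → ℝ := fun m => if m ∈ S then t m else 0 with hF
  have hF0 : ∀ m, 0 ≤ F m := fun m => by
    simp only [hF]
    split_ifs
    · exact ht0 m
    · exact le_rfl
  have mP : ∀ p ∈ P, p.Prime ∧ 2 * η ≤ lg l p ∧ lg l p < 1 := fun p hp =>
    (mem_cellP hl (by norm_num)).1 hp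
  have mQ : ∀ p ∈ Q, p.Prime ∧ 1 ≤ lg l p ∧ lg l p < 5 := fun p hp =>
    (mem_cellP hl le_rfl).1 hp
  have hPQ : Disjoint P Q := disjoint_left.2 fun p h1 h2 => by
    have := (mP p h1).2.2
    have := (mQ p h2).2.1
    linarith
  have hun : ∀ A ⊆ P, ∀ C ⊆ Q, Disjoint A C ∧ (∀ p ∈ A ∪ C, p.Prime ∧ η * l < log p) ∧
      (∏ p ∈ A, p) * (∏ p ∈ C, p) = ∏ p ∈ A ∪ C, p := fun A hA C hC => by
    have hd : Disjoint A C := hPQ.mono hA hC
    refine ⟨hd, fun p hp => ?_, (prod_union hd).symm⟩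
    rcases mem_union.1 hp with h | h
    · obtain ⟨a1, a2, -⟩ := mP p (hA h)
      refine ⟨a1, ?_⟩
      rw [lg, le_div_iff₀ hl] at a2
      nlinarith [mul_pos hη hl]
    · obtain ⟨a1, a2, -⟩ := mQ p (hC h)
      refine ⟨a1, ?_⟩
      rw [lg, le_div_iff₀ hl] at a2
      nlinarith [mul_pos hη hl]
  have hpt : ∀ k, ∀ A ∈ powersetCard k P, ∀ j ∈ Icc 1 (R - k), ∀ C ∈ powersetCard j Q,
      GA l g A 0 ^ 2 / (∏ p ∈ A, p : ℕ) *
        (if (∏ p ∈ A, p) * ∏ p ∈ C, p ≡ b [MOD W] then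
          ψ (log ((∏ p ∈ A, p) * ∏ p ∈ C, p : ℕ) / l) / (∏ p ∈ C, p : ℕ) else 0)
        ≤ F ((∏ p ∈ A, p) * ∏ p ∈ C, p) := by
    intro k A hA j hj C hC
    obtain ⟨hA1, hA2⟩ := mem_powersetCard.1 hA
    obtain ⟨hC1, hC2⟩ := mem_powersetCard.1 hC
    obtain ⟨hd, hpr, he⟩ := hun A hA1 C hC1
    split_ifs with hc
    swap
    · rw [mul_zero]
      exact hF0 _
    by_cases h0 : ψ (log ((∏ p ∈ A, p) * ∏ p ∈ C, p : ℕ) / l) = 0
    · rw [h0, zero_div, mul_zero]
      exact hF0 _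
    have hpf : ((∏ p ∈ A, p) * ∏ p ∈ C, p).primeFactors = A ∪ C := by
      rw [he]
      exact Nat.primeFactors_prod fun p hp => (hpr p hp).1
    have hm0 : (∏ p ∈ A, p) * ∏ p ∈ C, p ≠ 0 := by
      rw [he]
      exact prod_ne_zero_iff.2 fun p hp => (hpr p hp).1.ne_zero
    have hmem : (∏ p ∈ A, p) * ∏ p ∈ C, p ∈ S := by
      refine mem_filter.2 ⟨mem_filter.2 ⟨mem_range.2 ((lt_NN hm0).2 ?_), hc⟩, ?_, ?_⟩
      · have h1 := (hψ.supp _ h0).2
        have h2 := hψ.hi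
        rw [div_le_iff₀ hl] at h1
        nlinarith
      · rw [he]
        refine Finset.squarefree_prod_of_pairwise_isCoprime (fun p hp q hq hpq => ?_)
          fun p hp => (hpr p hp).1.squarefree
        exact Nat.coprime_iff_isRelPrime.1
          ((Nat.coprime_primes (hpr p hp).1 (hpr q hq).1).2 hpq)
      · intro p hp hdv
        have : p ∈ A ∪ C := by
          rw [← hpf]
          exact Nat.mem_primeFactors.2 ⟨hp, hdv, hm0⟩
        exact (hpr p this).2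
    have hR : gR R (A ∪ C).card = 1 := by
      rw [card_union_of_disjoint hd, hA2, hC2, gR, if_pos]
      have := mem_Icc.1 hj
      omega
    simp only [hF, ht, if_pos hmem, hpf, hR, wg]
    rw [GA_union hl hg hd fun p hp => (mQ p (hC1 hp)).2.1]
    refine le_of_eq ?_
    rw [mul_one, div_mul_div_comm, ← Nat.cast_mul, mul_comm (GA l g A 0 ^ 2), mul_div_right_comm]
  calc _ ≤ ∑ k ∈ range (K + 1), ∑ A ∈ powersetCard k P,
        ∑ C ∈ Q.powerset, F ((∏ p ∈ A, p) * ∏ p ∈ C, p) := by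
        refine sum_le_sum fun k _ => sum_le_sum fun A hA => ?_
        refine le_trans ?_ (dec_merge (Icc 1 (R - k)) Q
          (h := fun C => F ((∏ p ∈ A, p) * ∏ p ∈ C, p)) fun C => hF0 _)
        rw [mul_sum]
        refine sum_le_sum fun j hj => ?_
        rw [BM, mul_sum]
        exact sum_le_sum fun C hC => hpt k A hA j hj C hC
    _ ≤ ∑ A ∈ P.powerset, ∑ C ∈ Q.powerset, F ((∏ p ∈ A, p) * ∏ p ∈ C, p) :=
        dec_merge _ P fun A => sum_nonneg fun C _ => hF0 _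
    _ = ∑ x ∈ P.powerset ×ˢ Q.powerset, F ((∏ p ∈ x.1, p) * ∏ p ∈ x.2, p) :=
        (sum_product' _ _ fun A C => F ((∏ p ∈ A, p) * ∏ p ∈ C, p)).symm
    _ = ∑ m ∈ (P.powerset ×ˢ Q.powerset).image
          (fun x => (∏ p ∈ x.1, p) * ∏ p ∈ x.2, p), F m := by
        refine (sum_image (g := fun x : Finset ℕ × Finset ℕ => (∏ p ∈ x.1, p) * ∏ p ∈ x.2, p)
          fun x hx y hy hxy => ?_).symm
        obtain ⟨x1, x2⟩ := mem_product.1 hx
        obtain ⟨y1, y2⟩ := mem_product.1 hy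
        rw [mem_powerset] at x1 x2 y1 y2
        obtain ⟨-, a2, a3⟩ := hun _ x1 _ x2
        obtain ⟨-, b2, b3⟩ := hun _ y1 _ y2
        have hu : x.1 ∪ x.2 = y.1 ∪ y.2 := by
          rw [← Nat.primeFactors_prod fun p hp => (a2 p hp).1,
            ← Nat.primeFactors_prod fun p hp => (b2 p hp).1, ← a3, ← b3]
          exact congrArg _ hxy
        have hd := disjoint_left.1 hPQ
        refine Prod.ext ?_ ?_
        · ext p
          constructor
          · intro h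
            rcases mem_union.1 (hu ▸ mem_union_left x.2 h) with h' | h'
            · exact h'
            · exact absurd (y2 h') (hd (x1 h))
          · intro h
            rcases mem_union.1 (hu ▸ mem_union_left y.2 h : p ∈ x.1 ∪ x.2) with h' | h'
            · exact h'
            · exact absurd (x2 h') (hd (y1 h))
        · ext p
          constructor
          · intro h
            rcases mem_union.1 (hu ▸ mem_union_right x.1 h) with h' | h'
            · exact absurd (x2 h) (hd (y1 h'))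
            · exact h'
          · intro h
            rcases mem_union.1 (hu ▸ mem_union_right y.1 h : p ∈ x.1 ∪ x.2) with h' | h'
            · exact absurd (y2 h) (hd (x1 h'))
            · exact h'
    _ ≤ ∑ m ∈ S, t m := by
        simp only [hF]
        rw [← sum_filter]
        exact sum_le_sum_of_subset_of_nonneg (fun m hm => (mem_filter.1 hm).2) fun m _ _ => ht0 m

end Pool.Agent.P.MP_dddec0_nt.L33
end

-- part Pool.Agent.P.MP_dddec0_nt.L33Shape
section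

namespace Pool.Agent.P.MP_dddec0_nt.L33
open Finset Real Filter Pool.Agent.Lib.Tup

lemma shape_small {Q : ℝ → Prop} :
    (∃ η1 : ℝ, 0 < η1 ∧ ∀ η : ℝ, 0 < η → η ≤ η1 → Q η) ↔ ∀ᶠ t : ℝ in atTop, Q t⁻¹ := by
  constructor
  · rintro ⟨η1, h0, h⟩
    filter_upwards [eventually_ge_atTop η1⁻¹] with t ht
    have ht0 : 0 < t := (inv_pos.2 h0).trans_le ht
    exact h _ (inv_pos.2 ht0) ((inv_le_comm₀ ht0 h0).2 ht)
  · intro h
    obtain ⟨T, hT⟩ := eventually_atTop.1 h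
    have h1 : 0 < max T 1 := lt_max_of_lt_right one_pos
    refine ⟨(max T 1)⁻¹, inv_pos.2 h1, fun η h0 hη => ?_⟩
    have := hT η⁻¹ ((le_max_left T 1).trans ((le_inv_comm₀ h0 h1).1 hη))
    rwa [inv_inv] at this

lemma shape_TS_nonneg (Cs : List (Finset ℕ)) {Φ : List ℕ → ℝ} (h : ∀ ps, 0 ≤ Φ ps) :
    0 ≤ TS Cs Φ := by
  have h1 := TS_mono Cs (Φ := fun ps => 0 * Φ ps) (Ψ := Φ) fun ps _ => by
    rw [zero_mul]
    exact h ps
  rwa [TS_mul, zero_mul] at h1

lemma shape_lg (l : ℝ) (ps : List ℕ) (h : ∀ p ∈ ps, p ≠ 0) :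
    lg l ps.prod = (ps.map (lg l)).sum := by
  induction ps with
  | nil => simp [lg]
  | cons p ps ih =>
    have h1 : ps.prod ≠ 0 := List.prod_ne_zero fun h0 => h 0 (List.mem_cons_of_mem _ h0) rfl
    rw [List.map_cons, List.sum_cons, ← ih fun q hq => h q (List.mem_cons_of_mem _ hq),
      List.prod_cons, lg, lg, lg, Nat.cast_mul,
      log_mul (Nat.cast_ne_zero.2 (h p List.mem_cons_self)) (Nat.cast_ne_zero.2 h1), add_div]

lemma shape_val {C : ℕ → Finset ℕ} (hC : ∀ a, ∀ p ∈ C a, p ≠ 0) {as ps : List ℕ}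
    (h : List.Forall₂ (fun p D => p ∈ D) ps (as.map C)) : ∀ p ∈ ps, p ≠ 0 := by
  induction ps generalizing as with
  | nil => exact fun p hp => absurd hp List.not_mem_nil
  | cons q ps ih =>
    cases as with
    | nil => cases h
    | cons a as =>
      rw [List.map_cons, List.forall₂_cons] at h
      exact List.forall_mem_cons.2 ⟨hC a q h.1, ih h.2⟩

lemma shape_disj {l w : ℝ} (hl : 0 < l) (hw : 0 < w) (η : ℝ) {a b : ℕ} (h : a < b) :
    Disjoint (cellW l η w a) (cellW l η w b) := by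
  refine disjoint_left.2 fun p ha hb => ?_
  have h1 := (mem_filter.1 ha).2.2.2
  have h2 := (mem_filter.1 hb).2.2.1
  have h3 : (a : ℝ) + 1 ≤ b := by exact_mod_cast h
  have h4 := mul_le_mul_of_nonneg_right
    ((mul_le_mul_of_nonneg_right h3 hw.le).trans (le_max_left _ η)) hl.le
  linarith

/-- The sets of `k` small primes. Hint: `cellP l η 1 ⊇ (range m).biUnion (cellW l η (1 / m))`, the
cells are disjoint, all terms are nonnegative (`Wt_nonneg`); `TS_replicate`, `TS_congr` with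
`GA_list`, `TS_part`, `SL_mono`, `box_ge` (finitely many lists: take the least `η1`, then
`ev_all_lists`; `0 ≤ TS` takes care of `max 0` and of the dropped boxes), `SL_add`, `SL_const`. -/
theorem level_ge {s B : ℝ} {J m k : ℕ} (hs : 4 ≤ s) (hm : 0 < m) (hk : 1 ≤ k) (hk5 : k ≤ 5)
    (N0 N1 : ℕ → ℝ) (hN : ∀ σ, σ + k ≤ 3 * m → CondN s J (1 / m) k σ (N0 σ) (N1 σ))
    {g : ℝ → ℝ} (hc : Continuous g) (hg : ∀ u v, |g u| ≤ B ∧ |g u - g v| ≤ B * |u - v|)
    {ε : ℝ} (hε : 0 < ε) :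
    ∃ η1 : ℝ, 0 < η1 ∧ ∀ η : ℝ, 0 < η → η ≤ η1 → ∀ᶠ l : ℝ in atTop,
      Qk s m k N0 N1 g - ε ≤ ∑ A ∈ powersetCard k (cellP l η 1),
        GA l g A 0 ^ 2 / (∏ p ∈ A, p : ℕ) * Wt s J (lg l (∏ p ∈ A, p)) := by
  have hm' : (0 : ℝ) < m := Nat.cast_pos.2 hm
  have hw : (0 : ℝ) < 1 / m := by positivity
  have hf : (0 : ℝ) < k.factorial := Nat.cast_pos.2 k.factorial_pos
  have he : 0 < ε * k.factorial / (m : ℝ) ^ k := by positivity
  have ha : ∀ a < m, ((a : ℝ) + 1) * (1 / m) ≤ 1 := fun a h => by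
    rw [mul_one_div, div_le_one hm']
    exact_mod_cast h
  have h0 : ∀ (l : ℝ) (ps : List ℕ),
      0 ≤ evG g (ps.map (lg l)) 0 ^ 2 / (ps.prod : ℕ) * Wt s J (ps.map (lg l)).sum := fun l ps =>
    mul_nonneg (by positivity) (Wt_nonneg hs _ _)
  have h1 := ev_all_lists m k (Q := fun as t => ∀ᶠ l : ℝ in atTop,
      (if as.sum + k ≤ 3 * m then max 0 (bx s (1 / m) (N0 as.sum) (N1 as.sum) g as) else 0)
        + -(ε * k.factorial / (m : ℝ) ^ k) ≤ TS (as.map (cellW l t⁻¹ (1 / m))) fun ps =>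
          evG g (ps.map (lg l)) 0 ^ 2 / (ps.prod : ℕ) * Wt s J (ps.map (lg l)).sum)
    fun as hl hlt => by
      subst hl
      split_ifs with h3
      · have h4 : ((as.sum : ℝ) + as.length) * (1 / m) ≤ 3 := by
          rw [mul_one_div, div_le_iff₀ hm']
          exact_mod_cast h3
        filter_upwards [shape_small.1 (box_ge hs hw as hk hk5 (fun a h => ha a (hlt a h)) h4
          (hN _ h3) hc hg he)] with t ht
        filter_upwards [ht] with l hl
        have := shape_TS_nonneg (as.map (cellW l t⁻¹ (1 / m))) (h0 l)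
        rcases le_total 0 (bx s (1 / m) (N0 as.sum) (N1 as.sum) g as) with h | h
        · rw [max_eq_right h]
          linarith
        · rw [max_eq_left h]
          linarith
      · refine Eventually.of_forall fun t => Eventually.of_forall fun l => ?_
        have := shape_TS_nonneg (as.map (cellW l t⁻¹ (1 / m))) (h0 l)
        linarith
  refine shape_small.2 ?_
  filter_upwards [h1] with t ht
  filter_upwards [ev_all_lists m k ht, eventually_gt_atTop (0 : ℝ)] with l hl hl0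
  have h2 := SL_mono m k hl
  rw [SL_add, SL_const, mul_neg, mul_div_cancel₀ _ (pow_pos hm' k).ne'] at h2
  have h3 := TS_replicate ((range m).biUnion (cellW l t⁻¹ (1 / m))) k fun A =>
    GA l g A 0 ^ 2 / (∏ p ∈ A, p : ℕ) * Wt s J (lg l (∏ p ∈ A, p))
  rw [TS_part m _ fun a b hab => (lt_or_gt_of_ne hab).elim (shape_disj hl0 hw _)
    fun h => (shape_disj hl0 hw _ h).symm] at h3
  have h4 := h2.trans ((SL_mono m k fun as _ _ => TS_mono _ fun ps hp => le_of_eq (by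
    have e : ∏ p ∈ ps.toFinset, p = ps.prod := by rw [List.prod_toFinset _ hp.2, List.map_id']
    rw [GA_list l g hp.2, e, shape_lg l ps
      (shape_val (fun a p h => (mem_filter.1 h).2.1.ne_zero) hp.1)])).trans h3.le)
  have h5 : (range m).biUnion (cellW l t⁻¹ (1 / m)) ⊆ cellP l t⁻¹ 1 := fun p hp => by
    obtain ⟨a, h6, h7⟩ := mem_biUnion.1 hp
    obtain ⟨h8, h9, h10, h11⟩ := mem_filter.1 h7
    exact mem_filter.2 ⟨h8, h9, (mul_le_mul_of_nonneg_right (le_max_right _ _) hl0.le).trans h10,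
      h11.trans_le (mul_le_mul_of_nonneg_right (ha a (mem_range.1 h6)) hl0.le)⟩
  refine le_trans ?_ (sum_le_sum_of_subset_of_nonneg (powersetCard_mono h5) fun A _ _ =>
    mul_nonneg (by positivity) (Wt_nonneg hs _ _))
  rw [Qk, sub_le_iff_le_add, div_le_iff₀ hf]
  linarith

open Classical in
/-- Hint: `decomp`, `big_ge` (the products of small primes are coprime to `W` for large `l`),
`level_ge` with `2 η`, `level_le`; the `e` of `big_ge` is chosen after `η`; `0 ≤ I ≤ 1`. -/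
theorem shape {ψ : ℝ → ℝ} {s0 s1 : ℝ} (hψ : Bump ψ s0 s1) (h4 : 4 < s0) {R K : ℕ} (hK : K < R)
    (hK5 : K ≤ 5) (m : ℕ → ℕ) (hm : ∀ k, 0 < m k) (N0 N1 : ℕ → ℕ → ℝ)
    (hN : ∀ k σ, 1 ≤ k → k ≤ K → σ + k ≤ 3 * m k →
      CondN s1 (R - k) (1 / m k) k σ (N0 k σ) (N1 k σ))
    {g : ℝ → ℝ} {B : ℝ} (hc : Continuous g) (hg : ∀ u v, |g u| ≤ B ∧ |g u - g v| ≤ B * |u - v|)
    (hg1 : ∀ t, 1 ≤ t → g t = 0) {ε : ℝ} (hε : 0 < ε) :
    ∃ η1 : ℝ, 0 < η1 ∧ ∀ η : ℝ, 0 < η → η ≤ η1 → ∀ W : ℕ, 0 < W → ∀ᶠ l : ℝ in atTop, ∀ b : ℕ,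
      Nat.Coprime b W →
      ((∫ s in s0..s1, ψ s) * Qsh s1 R K m N0 N1 g - ε) / (Nat.totient W : ℝ)
        ≤ ∑ m ∈ (cls l W b).filter (RS η l),
          wg ψ l m * gR R m.primeFactors.card * GA l g m.primeFactors 0 ^ 2 := by
  set I := ∫ s in s0..s1, ψ s with hI
  have hI0 : 0 ≤ I := intervalIntegral.integral_nonneg hψ.le fun s _ => hψ.nonneg s
  have hs : 4 ≤ s1 := h4.le.trans hψ.le
  obtain ⟨d, hd, hdε⟩ : ∃ d : ℝ, 0 < d ∧ d * (I * K + 1) = ε / 2 :=
    ⟨ε / 2 / (I * K + 1), by positivity, div_mul_cancel₀ _ (by positivity)⟩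
  obtain ⟨η2, h2, hη2⟩ := (shape_small (Q := fun η => ∀ k ∈ Icc 1 K, ∀ᶠ l : ℝ in atTop,
    Qk s1 (m k) k (N0 k) (N1 k) g - d ≤ ∑ A ∈ powersetCard k (cellP l η 1),
      GA l g A 0 ^ 2 / (∏ p ∈ A, p : ℕ) * Wt s1 (R - k) (lg l (∏ p ∈ A, p)))).2
    ((eventually_all_finset (Icc 1 K)).2 fun k hk =>
    shape_small.1 (level_ge hs (hm k) (mem_Icc.1 hk).1 ((mem_Icc.1 hk).2.trans hK5) (N0 k) (N1 k)
      (fun σ => hN k σ (mem_Icc.1 hk).1 (mem_Icc.1 hk).2) hc hg hd))
  refine ⟨min (η2 / 2) (1 / 2), by positivity, fun η hη hη1 W hW => ?_⟩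
  have hη3 := hη1.trans (min_le_left _ _)
  have hη4 := hη1.trans (min_le_right _ _)
  obtain ⟨M, hM⟩ : ∃ M : ℝ, M = ∑ k ∈ range (K + 1), (2 ^ k * B) ^ 2 * (2 / (2 * η)) ^ k :=
    ⟨_, rfl⟩
  have hM0 : 0 ≤ M := hM ▸ sum_nonneg fun k _ => by positivity
  obtain ⟨e, he, heε⟩ : ∃ e : ℝ, 0 < e ∧ e * (M + 1) = ε / 2 :=
    ⟨ε / 2 / (M + 1), by positivity, div_mul_cancel₀ _ (by positivity)⟩
  have hφ : (0 : ℝ) < Nat.totient W := by exact_mod_cast Nat.totient_pos.2 hW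
  filter_upwards [big_ge hψ h4 hW he, eventually_gt_atTop (0 : ℝ),
    eventually_gt_atTop (log W / (2 * η)),
    (eventually_all_finset (Icc 1 K)).2 (hη2 (2 * η) (by positivity) (by linarith)),
    (eventually_all_finset (range (K + 1))).2 fun k _ =>
      level_le k (fun u => (hg u u).1) (η := 2 * η) (by positivity) (by linarith)]
    with l hbig hl hlW hge hle b hb
  refine le_trans ?_ (decomp hψ hl hη hη4 W b R K hg1)
  have hco : ∀ p ∈ cellP l (2 * η) 1, p ≠ 0 ∧ Nat.Coprime p W := fun p hp => by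
    obtain ⟨-, h5, h6, -⟩ := mem_filter.1 hp
    refine ⟨h5.ne_zero, h5.coprime_iff_not_dvd.2 fun h7 => ?_⟩
    have h8 : (p : ℝ) ≤ W := by exact_mod_cast Nat.le_of_dvd hW h7
    have h9 := log_le_log (by exact_mod_cast h5.pos) h8
    rw [div_lt_iff₀ (by positivity)] at hlW
    linarith
  have h5 : ∀ k ∈ range (K + 1), (I * ∑ A ∈ powersetCard k (cellP l (2 * η) 1),
        GA l g A 0 ^ 2 / (∏ p ∈ A, p : ℕ) * Wt s1 (R - k) (lg l (∏ p ∈ A, p))
        - e * ((2 ^ k * B) ^ 2 * (2 / (2 * η)) ^ k)) / (Nat.totient W : ℝ)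
      ≤ ∑ A ∈ powersetCard k (cellP l (2 * η) 1),
        GA l g A 0 ^ 2 / (∏ p ∈ A, p : ℕ) * ∑ j ∈ Icc 1 (R - k), BM ψ l W b (∏ p ∈ A, p) j := by
    intro k hk
    refine le_trans (div_le_div_of_nonneg_right
      (sub_le_sub_left (mul_le_mul_of_nonneg_left (hle k hk) he.le) _) hφ.le) ?_
    rw [mul_sum, mul_sum, ← sum_sub_distrib, sum_div]
    refine sum_le_sum fun A hA => ?_
    have h6 := (mem_powersetCard.1 hA).1
    have h7 := mem_range.1 hk
    refine le_trans (le_of_eq ?_) (mul_le_mul_of_nonneg_left (hbig _ b (R - k)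
      (prod_ne_zero_iff.2 fun p hp => (hco p (h6 hp)).1)
      (Nat.Coprime.prod_left fun p hp => (hco p (h6 hp)).2) hb (by omega)) (by positivity))
    ring
  refine le_trans ?_ (sum_le_sum h5)
  rw [← sum_div, sum_sub_distrib, ← mul_sum, ← mul_sum, ← hM, range_eq_Ico,
    sum_eq_sum_Ico_succ_bot (Nat.add_one_pos K), zero_add, Ico_add_one_right_eq_Icc]
  refine div_le_div_of_nonneg_right ?_ hφ.le
  have h6 := sum_le_sum hge
  rw [sum_sub_distrib, sum_const, Nat.card_Icc, Nat.add_sub_cancel, nsmul_eq_mul] at h6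
  have h7 := mul_le_mul_of_nonneg_left h6 hI0
  have h8 : GA l g ∅ 0 = g 0 := by simp [GA, sz]
  have h9 : lg l 1 = 0 := by simp [lg]
  rw [powersetCard_zero, sum_singleton, prod_empty, h8, h9, Nat.cast_one, div_one, Nat.sub_zero,
    Qsh]
  nlinarith

end Pool.Agent.P.MP_dddec0_nt.L33
end

-- part Pool.Agent.P.MP_dddec0_nt.L33Fib
section

namespace Pool.Agent.P.MP_dddec0_nt.L33
open Finset Real Filter Pool.Agent.Lib.Tup

theorem gR_nonneg (R r : ℕ) : 0 ≤ gR R r := by unfold gR; split_ifs <;> norm_num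

theorem gR_le_one (R r : ℕ) : gR R r ≤ 1 := by unfold gR; split_ifs <;> norm_num

theorem fib_uniform {J : Type*} [Fintype J] {Q : J → ℕ → ℝ → Prop}
    (h : ∀ j, ∃ D1 : ℕ, ∀ D ≥ D1, ∀ᶠ l : ℝ in atTop, Q j D l) :
    ∃ D1 : ℕ, ∀ D ≥ D1, ∀ᶠ l : ℝ in atTop, ∀ j, Q j D l := by
  choose D1 h using h
  exact ⟨univ.sup D1, fun D hD => eventually_all.2 fun j =>
    h j D ((le_sup (mem_univ j)).trans hD)⟩

theorem fib_small {J : Type*} [Fintype J] {a : ℝ} (ha : 0 < a) {f : J → ℝ} (hf : ∀ j, 0 < f j) :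
    ∃ η : ℝ, 0 < η ∧ η ≤ a ∧ ∀ j, η ≤ f j := by
  have h1 : ∀ᶠ η in nhdsWithin (0 : ℝ) (Set.Ioi 0), ∀ j, η ∈ Set.Ioc 0 (f j) :=
    eventually_all.2 fun j => Ioc_mem_nhdsGT (hf j)
  have h2 : ∀ᶠ η in nhdsWithin (0 : ℝ) (Set.Ioi 0), η ∈ Set.Ioc 0 a := Ioc_mem_nhdsGT ha
  obtain ⟨η, h3, h4⟩ := (h1.and h2).exists
  exact ⟨η, h4.1, h4.2, fun j => (h3 j).2⟩

theorem fib_sq_add_ge {G θ s : ℝ} (hs : 0 < s) : (1 - s) * G ^ 2 - θ ^ 2 / s ≤ (G + θ) ^ 2 := by
  have h1 : 0 ≤ (s * G + θ) ^ 2 / s := by positivity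
  have h2 : (s * G + θ) ^ 2 / s = s * G ^ 2 + 2 * G * θ + θ ^ 2 / s := by field_simp; ring
  nlinarith [sq_nonneg θ]

theorem GA_Rf (l h : ℝ) (n : ℕ) (f : ℕ → ℝ) (m : ℕ) :
    GA l (Rf h n f) m.primeFactors 0 = ∑ a : Fin n, f a * Gt l (a * h) ((a + 1) * h) m := by
  rw [Fin.sum_univ_eq_sum_range (fun a => f a * Gt l (a * h) ((a + 1) * h) m) n]
  unfold GA Rf Gt
  simp only [zero_add, mul_sum]
  rw [sum_comm]
  exact sum_congr rfl fun a _ => sum_congr rfl fun S _ => by ring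

theorem sum_fin2 (n : ℕ) (t : ℕ → ℕ → ℝ) :
    ∑ b : Fin 2 → Fin n, t (b 0) (b 1) = ∑ a ∈ range n, ∑ b ∈ range n, t a b := by
  rw [← Fin.sum_univ_eq_sum_range (fun a => ∑ b ∈ range n, t a b) n]
  simp only [← fun a => Fin.sum_univ_eq_sum_range (fun b => t a b) n]
  rw [← Fintype.sum_prod_type']
  exact Fintype.sum_equiv (finTwoArrowEquiv (Fin n)) _ _ fun b => rfl

theorem S3_eq (D : ℕ) (l h : ℝ) (n : ℕ) (F : ℕ → ℕ → ℕ → ℝ) (x y m : ℤ) :
    ∑ a : Fin n, ∑ b : Fin 2 → Fin n, F (b 0) (b 1) a *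
      (XC D l h a m * ∏ i, XC D l h (b i) (m + ![x, y] i)) = S3 D l h n F (m + x) (m + y) m := by
  rw [sum_comm, S3, ← sum_fin2 n (fun a b => ∑ c ∈ range n,
    F a b c * (XC D l h a (m + x) * XC D l h b (m + y) * XC D l h c m))]
  refine sum_congr rfl fun b _ => ?_
  rw [← Fin.sum_univ_eq_sum_range (fun c => F (b 0) (b 1) c *
    (XC D l h (b 0) (m + x) * XC D l h (b 1) (m + y) * XC D l h c m)) n]
  refine sum_congr rfl fun a _ => ?_
  rw [Fin.prod_univ_two]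
  simp only [Matrix.cons_val_zero, Matrix.cons_val_one]
  ring

/-- Lower bound on one fibre. -/
theorem fib_ge {ψ : ℝ → ℝ} {s0 s1 : ℝ} (hψ : Bump ψ s0 s1) (h4 : 4 < s0) {R K : ℕ} (hK : K < R)
    (hK5 : K ≤ 5) (m : ℕ → ℕ) (hm : ∀ k, 0 < m k) (N0 N1 : ℕ → ℕ → ℝ)
    (hN : ∀ k σ, 1 ≤ k → k ≤ K → σ + k ≤ 3 * m k →
      CondN s1 (R - k) (1 / m k) k σ (N0 k σ) (N1 k σ))
    {n : ℕ} {h : ℝ} (hh : 0 < h) (hh1 : h ≤ 1) (hn : n * h ≤ 1) (f : ℕ → ℝ) :
    FibGe ψ s0 s1 n h R f (Qsh s1 R K m N0 N1 (Rf h n f)) := by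
  classical
  intro ε hε
  set Q := (∫ s in s0..s1, ψ s) * Qsh s1 R K m N0 N1 (Rf h n f) with hQ
  obtain ⟨η1, hη1, H3⟩ := shape hψ h4 hK hK5 m hm N0 N1 hN (Rf_cont h n f)
    (Rf_bd hh hh1 n f) (fun t ht => Rf_big hh n f (hn.trans ht)) (ε := ε / 3) (by positivity)
  refine ⟨min η1 (1 / 10), lt_min hη1 (by norm_num), fun η hη hηm => ?_⟩
  set A := ∑ a : Fin n, |f a| with hA
  have hA0 : 0 ≤ A := sum_nonneg fun _ _ => abs_nonneg _
  obtain ⟨C, hC, D1, H1⟩ := rough_major (ι := Empty) (fun i => i.elim) (fun i => i.elim)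
    (fun i => i.elim) hψ hη (hηm.trans (min_le_right _ _))
  set s := min 1 (ε / (3 * (|Q| + 1))) with hs
  have hs0 : 0 < s := lt_min one_pos (by positivity)
  have hs1 : s ≤ 1 := min_le_left _ _
  set e := min 1 (ε * s / (3 * (A ^ 2 * C + 1))) with he
  have he0 : 0 < e := lt_min one_pos (by positivity)
  obtain ⟨D2, H2⟩ := Xapprox hη he0
  refine ⟨max D1 D2, fun D hD => ?_⟩
  have hW := primorial_pos D
  filter_upwards [H1 D (le_of_max_le_left hD), H2 D (le_of_max_le_right hD),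
    H3 η hη (hηm.trans (min_le_left _ _)) _ hW, eventually_gt_atTop 0]
    with l h1 h2 h3 hl b hb
  have h4' := h1 b (fun i => i.elim) (fun i => i.elim) (fun i => i.elim) (by norm_num)
  simp only [univ_eq_empty, prod_empty, mul_one, Fintype.card_eq_zero, zero_add] at h4'
  have h5 := h3 b hb
  set L := cW D * l with hL
  have hc := cW_pos D
  have hL0 : 0 < L := mul_pos hc hl
  have hφ : (0 : ℝ) < Nat.totient (primorial D) := by exact_mod_cast Nat.totient_pos.2 hW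
  have hW' : (0 : ℝ) < primorial D := by exact_mod_cast hW
  have hsc : scale D l 1 = L ^ 2 / Nat.totient (primorial D) := by
    rw [scale, hL, cW]; field_simp
  have hsc0 : 0 ≤ scale D l 1 := Co.scale_nonneg D hl.le 1
  let G : ℕ → ℝ := fun k => GA l (Rf h n f) k.primeFactors 0
  have hpt : ∀ k ∈ (cls l (primorial D) b).filter (RS η l),
      (1 - s) * (L ^ 2 * (wg ψ l k * gR R k.primeFactors.card * G k ^ 2))
        - (e * A) ^ 2 / s * (L ^ 2 * wg ψ l k)
      ≤ wg ψ l k * gR R k.primeFactors.card * (∑ a : Fin n, f a * XC D l h a k) ^ 2 := by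
    intro k hk
    rw [mem_filter] at hk
    have hk1 : k < NN l := mem_range.1 (mem_filter.1 hk.1).1
    set θ := (∑ a : Fin n, f a * XC D l h a k) - L * G k with hθ
    have hθ1 : |θ| ≤ e * A * L := by
      rw [hθ, show G k = ∑ a : Fin n, f a * Gt l (a * h) ((a + 1) * h) k from GA_Rf l h n f k,
        mul_sum, ← sum_sub_distrib, hA, mul_sum, sum_mul]
      refine (abs_sum_le_sum_abs _ _).trans (sum_le_sum fun a _ => ?_)
      have ha : (a : ℝ) + 1 ≤ n := by exact_mod_cast a.2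
      have h6 := h2 k (a * h) ((a + 1) * h) hk.2 hk1 (by positivity) (by linarith)
        (by nlinarith)
      rw [show f a * XC D l h a k - L * (f a * Gt l (a * h) ((a + 1) * h) k)
        = f a * (XW D l (a * h) ((a + 1) * h) k
          - L * Gt l (a * h) ((a + 1) * h) k) by rw [XC]; ring, abs_mul]
      nlinarith [abs_nonneg (f a)]
    have h7 : θ ^ 2 ≤ (e * A * L) ^ 2 := sq_le_sq' (abs_le.1 hθ1).1 (abs_le.1 hθ1).2
    have h8 := fib_sq_add_ge (G := L * G k) (θ := θ) hs0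
    rw [show L * G k + θ = ∑ a : Fin n, f a * XC D l h a k by rw [hθ]; ring] at h8
    have hw := wg_nonneg hψ l k
    have h9 := mul_le_mul_of_nonneg_left h8 (mul_nonneg hw (gR_nonneg R k.primeFactors.card))
    have h10 : wg ψ l k * gR R k.primeFactors.card * (θ ^ 2 / s)
        ≤ wg ψ l k * 1 * ((e * A * L) ^ 2 / s) := by
      gcongr; exact gR_le_one _ _
    have h11 : (e * A) ^ 2 / s * (L ^ 2 * wg ψ l k) = wg ψ l k * 1 * ((e * A * L) ^ 2 / s) := by
      ring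
    nlinarith
  refine le_trans ?_ (sum_le_sum hpt)
  rw [sum_sub_distrib, ← mul_sum, ← mul_sum, ← mul_sum, ← mul_sum]
  have h12 : L ^ 2 * ∑ k ∈ (cls l (primorial D) b).filter (RS η l), wg ψ l k
      ≤ C * scale D l 1 := by
    refine le_trans (mul_le_mul_of_nonneg_left (sum_le_sum_of_subset_of_nonneg
      (fun k hk => ?_) fun k _ _ => wg_nonneg hψ l k) (sq_nonneg _)) h4'
    rw [mem_filter] at hk ⊢
    exact ⟨hk.1, hk.2.2⟩
  have h13 : scale D l 1 * (Q - ε / 3) ≤ L ^ 2 * ∑ k ∈ (cls l (primorial D) b).filter (RS η l),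
      wg ψ l k * gR R k.primeFactors.card * G k ^ 2 := by
    refine le_trans (le_of_eq ?_) (mul_le_mul_of_nonneg_left h5 (sq_nonneg L))
    rw [hsc]; ring
  have h14 : (e * A) ^ 2 / s * C ≤ ε / 3 := by
    have e1 : e ≤ 1 := min_le_left _ _
    have e2 : e ≤ ε * s / (3 * (A ^ 2 * C + 1)) := min_le_right _ _
    rw [le_div_iff₀ (by positivity)] at e2
    rw [div_mul_eq_mul_div, div_le_iff₀ hs0]
    have : 0 ≤ A ^ 2 * C := by positivity
    nlinarith [mul_nonneg he0.le this, mul_le_mul_of_nonneg_right e1 (mul_nonneg he0.le this)]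
  have h15 : Q - 2 * ε / 3 ≤ (1 - s) * (Q - ε / 3) := by
    have e2 : s ≤ ε / (3 * (|Q| + 1)) := min_le_right _ _
    rw [le_div_iff₀ (by positivity)] at e2
    nlinarith [le_abs_self Q, mul_le_mul_of_nonneg_left (le_abs_self Q) hs0.le]
  have h16 := mul_le_mul_of_nonneg_left h13 (sub_nonneg.2 hs1)
  have h17 := mul_le_mul_of_nonneg_left h12 (show 0 ≤ (e * A) ^ 2 / s by positivity)
  nlinarith [mul_le_mul_of_nonneg_left h14 hsc0, mul_le_mul_of_nonneg_left h15 hsc0]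

/-- All fibres. -/
theorem coord_fib {ψ : ℝ → ℝ} {s0 s1 : ℝ} (hψ : Bump ψ s0 s1) (h4 : 4 < s0) (h41 : s1 ≤ 41 / 10)
    {x y : ℤ} (hx : x ≠ 0) (hy : y ≠ 0) (hxy : x ≠ y) {n R : ℕ} (hR : 1 ≤ R) {h : ℝ} (hh : 0 < h)
    (hn : n * h ≤ 1) (F : ℕ → ℕ → ℕ → ℝ) (hF : Sup h F)
    (hF' : ∀ a b c : ℕ, F a b c ≠ 0 → ((a : ℝ) + b + 2) * h ≤ 1) (Q : ℕ → ℕ → ℝ)
    (hQ : ∀ a b, FibGe ψ s0 s1 n h R (F a b) (Q a b)) {ε : ℝ} (hε : 0 < ε) :
    ∃ D1 : ℕ, ∀ D ≥ D1, ∀ᶠ l : ℝ in atTop, ∀ b0 : ℕ, Nat.Coprime b0 (primorial D) →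
      scale D l 3 * ((∫ s in s0..s1, ψ s) * h ^ 2 * ∑ a ∈ range n, ∑ b ∈ range n, Q a b - ε)
        ≤ ∑ m ∈ cls l (primorial D) b0, wg ψ l m * (gR R (ArithmeticFunction.cardFactors m) *
          S3 D l h n F (m + x) (m + y) m ^ 2) := by
  classical
  set I := ∫ s in s0..s1, ψ s with hI
  let P : (Fin 2 → Fin n) → ℝ := fun b => I * Q (b 0) (b 1)
  obtain ⟨η0, hη0, H1⟩ := coord ![x, y] (fun i => by fin_cases i <;> simpa)
    (fun i j e => by
      fin_cases i <;> fin_cases j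
      · rfl
      · exact absurd e hxy
      · exact absurd e.symm hxy
      · rfl)
    hψ h4 h41 (n := n) hh (fun a b => F (b 0) (b 1) a) (fun _ => True)
    (fun a b h0 => by
      have h1 := hF _ _ _ h0
      have h2 := hF' _ _ _ h0
      rw [Fin.sum_univ_two]
      constructor <;> linarith)
    (fun a b a' b' h0 _ h0' => by
      have h1 := hF' _ _ _ h0
      have h2 := hF' _ _ _ h0'
      rw [Fin.sum_univ_two]
      linarith)
    (gR R) (gR_nonneg R) (gR_le_one R) (by simp [gR]) (by simp [gR, hR]) (ε := ε / 2)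
    (by positivity)
  set K := ∑ b, (2 * |P b| + 1) with hK
  have hK0 : 0 ≤ K := sum_nonneg fun _ _ => by positivity
  set e := min h (ε / (2 * (K + 1))) with he
  have he0 : 0 < e := lt_min hh (by positivity)
  have he1 : e ≤ h := min_le_left _ _
  choose η1 hη1 H2 using fun b : Fin 2 → Fin n => hQ (b 0) (b 1) e he0
  obtain ⟨η, hη, hηa, hηb⟩ := fib_small hη0 hη1
  obtain ⟨D1, H1⟩ := H1 η hη hηa
  obtain ⟨D2, H2⟩ := fib_uniform fun b : Fin 2 → Fin n => H2 b η hη (hηb b)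
  obtain ⟨D3, H3⟩ := ipW_approx he0
  refine ⟨max D1 (max D2 D3), fun D hD => ?_⟩
  simp only [ge_iff_le, max_le_iff] at hD
  filter_upwards [H1 D hD.1, H2 D hD.2.1, H3 D hD.2.2, eventually_gt_atTop 0]
    with l h1 h2 h3 hl b0 hb
  have h5 := h1 b0 hb
  set L := cW D * l with hL
  have hL0 : 0 < L := mul_pos (cW_pos D) hl
  have hsc1 : 0 ≤ scale D l 1 := Co.scale_nonneg D hl.le 1
  have hsc : scale D l 3 = scale D l 1 * L ^ 2 := Co.scale_add D l 2 1
  have hN : ∀ a : Fin n, L * (h - e) ≤ NC D l h a := fun a => by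
    have ha : (a : ℝ) + 1 ≤ n := by exact_mod_cast a.2
    have := (abs_le.1 (h3 (a * h) ((a + 1) * h) (by positivity) (by linarith)
      (by nlinarith))).1
    unfold NC
    linarith
  have h6 : ∀ b ∈ (univ : Finset (Fin 2 → Fin n)), scale D l 3 * (h ^ 2 * P b - e * (2 * |P b| + 1))
      ≤ (∏ i, NC D l h (b i)) * ∑ m ∈ (cls l (primorial D) b0).filter (RS η l),
        wg ψ l m * gR R m.primeFactors.card *
          (∑ a : Fin n, F (b 0) (b 1) a * XC D l h a m) ^ 2 := by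
    intro b _
    have hn1 : (1 : ℝ) ≤ n := by exact_mod_cast (b 0).pos
    have hh1 : h ≤ 1 := by nlinarith
    have h7 := h2 b b0 hb
    have h0 : 0 ≤ L * (h - e) := mul_nonneg hL0.le (by linarith)
    have h8 : (L * (h - e)) ^ 2 ≤ ∏ i, NC D l h (b i) := by
      rw [Fin.prod_univ_two, sq]
      exact mul_le_mul (hN _) (hN _) h0 (h0.trans (hN _))
    refine le_trans ?_ (mul_le_mul_of_nonneg_right h8 (sum_nonneg fun m _ =>
      mul_nonneg (mul_nonneg (wg_nonneg hψ l m) (gR_nonneg _ _)) (sq_nonneg _)))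
    refine le_trans ?_ (mul_le_mul_of_nonneg_left h7 (sq_nonneg _))
    have h9 : h ^ 2 * P b - e * (2 * |P b| + 1) ≤ (h - e) ^ 2 * (P b - e) := by
      have h10 : 0 ≤ e * (2 * h - e) := mul_nonneg he0.le (by linarith)
      have h11 := mul_le_mul_of_nonneg_left (le_abs_self (P b)) h10
      have h12 : e * (2 * h - e) * |P b| ≤ e * 2 * |P b| := by gcongr; linarith
      have h13 : (h - e) ^ 2 ≤ 1 := by nlinarith
      nlinarith
    calc _ ≤ scale D l 3 * ((h - e) ^ 2 * (P b - e)) :=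
          mul_le_mul_of_nonneg_left h9 (Co.scale_nonneg D hl.le 3)
      _ = _ := by rw [hsc]; simp only [P]; ring
  have h14 := sum_le_sum h6
  rw [← mul_sum, sum_sub_distrib, ← mul_sum _ P, ← mul_sum _ (fun b => 2 * |P b| + 1)] at h14
  have h15 : ∑ b, P b = I * ∑ a ∈ range n, ∑ b ∈ range n, Q a b := by
    rw [← sum_fin2 n Q, mul_sum]
  have h16 : e * K ≤ ε / 2 := by
    have e2 : e ≤ ε / (2 * (K + 1)) := min_le_right _ _
    rw [le_div_iff₀ (by positivity)] at e2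
    nlinarith
  rw [h15, ← hK] at h14
  have h17 := mul_le_mul_of_nonneg_left h16 (Co.scale_nonneg D hl.le 3)
  rw [Fintype.card_fin, filter_true] at h5
  refine le_trans ?_ (h5.trans ?_)
  · rw [le_sub_iff_add_le]
    refine le_trans ?_ h14
    change _ + ε / 2 * scale D l 3 ≤ _
    nlinarith
  refine le_trans (le_of_eq (sum_congr rfl fun m hm => ?_)) (sum_le_sum_of_subset_of_nonneg
    (filter_subset (RS η l) _) fun m _ _ =>
      mul_nonneg (wg_nonneg hψ l m) (mul_nonneg (gR_nonneg _ _) (sq_nonneg _)))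
  have hsq := (mem_filter.1 hm).2.1
  rw [← (ArithmeticFunction.cardDistinctFactors_eq_cardFactors_iff_squarefree hsq.ne_zero).2 hsq,
    ArithmeticFunction.cardDistinctFactors_apply, ← List.card_toFinset, mul_assoc, S3_eq]
  rfl

end Pool.Agent.P.MP_dddec0_nt.L33
end

-- part Pool.Agent.P.MP_dddec0_nt.L33Lift
section

namespace Pool.Agent.P.MP_dddec0_nt.L33
open Finset Real Filter Pool.Agent.Lib.Tup

/-- The weight at a prime, in the third variable. -/
def F0 (T : ℕ → ℕ → ℝ) (a b c : ℕ) : ℝ := if c = 0 then T a b else 0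

theorem lift_sq (n : ℕ) (t : ℕ → ℕ → ℝ) : ∑ a : Fin 2 → Fin n, t (a 0) (a 1)
    = ∑ a ∈ range n, ∑ b ∈ range n, t a b := by
  rw [← (finTwoArrowEquiv (Fin n)).symm.sum_comp, Fintype.sum_prod_type,
    ← Fin.sum_univ_eq_sum_range (fun a => ∑ b ∈ range n, t a b)]
  refine sum_congr rfl fun y _ => ?_
  rw [← Fin.sum_univ_eq_sum_range (fun b => t y b)]
  rfl

theorem lift_cube (n : ℕ) (t : ℕ → ℕ → ℕ → ℝ) : ∑ a : Fin 3 → Fin n, t (a 0) (a 1) (a 2)
    = ∑ a ∈ range n, ∑ b ∈ range n, ∑ c ∈ range n, t a b c := by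
  rw [← (Fin.insertNthEquiv (fun _ : Fin 3 => Fin n) 0).sum_comp, Fintype.sum_prod_type,
    ← Fin.sum_univ_eq_sum_range (fun a => ∑ b ∈ range n, ∑ c ∈ range n, t a b c)]
  refine sum_congr rfl fun x _ => ?_
  rw [← lift_sq n (fun b c => t x b c)]
  rfl

open Classical in
/-- The indicator of an admissible cell. -/
noncomputable def liftInd (h : ℝ) (p : ℕ × ℕ × ℕ) (a b c : ℕ) : ℝ :=
  if a = p.1 then if b = p.2.1 then if c = p.2.2 then
    (if ((p.1 : ℝ) + p.2.1 + p.2.2 + 3) * h ≤ 5 / 3 then 1 else 0) else 0 else 0 else 0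

theorem lift_sup (h : ℝ) (p : ℕ × ℕ × ℕ) : Sup h (liftInd h p) := by
  intro a b c H
  unfold liftInd at H
  split_ifs at H with h1 h2 h3 h4 <;> first | exact absurd rfl H | skip
  rw [h1, h2, h3]
  exact h4

theorem lift_sum (n : ℕ) (h : ℝ) {p : ℕ × ℕ × ℕ} (hp : p ∈ range n ×ˢ range n ×ˢ range n)
    (t : ℝ → ℕ → ℕ → ℕ → ℝ) (ht : ∀ a b c, t 0 a b c = 0) :
    ∑ a ∈ range n, ∑ b ∈ range n, ∑ c ∈ range n, t (liftInd h p a b c) a b c =
      t (liftInd h p p.1 p.2.1 p.2.2) p.1 p.2.1 p.2.2 := by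
  obtain ⟨h1, h2⟩ := mem_product.1 hp
  obtain ⟨h2, h3⟩ := mem_product.1 h2
  rw [sum_eq_single_of_mem p.1 h1, sum_eq_single_of_mem p.2.1 h2, sum_eq_single_of_mem p.2.2 h3]
  · intro c _ hc
    simp [liftInd, hc, ht]
  · intro b _ hb
    simp [liftInd, hb, ht]
  · intro a _ ha
    simp [liftInd, ha, ht]

theorem lift_dec (D : ℕ) (l h : ℝ) (n : ℕ) {d : ℕ → ℕ → ℕ → ℝ} (hd : Sup h d) (u v z : ℤ) :
    S3 D l h n d u v z = ∑ p ∈ range n ×ˢ range n ×ˢ range n,
      d p.1 p.2.1 p.2.2 * S3 D l h n (liftInd h p) u v z := by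
  have e : S3 D l h n d u v z = ∑ p ∈ range n ×ˢ range n ×ˢ range n,
      d p.1 p.2.1 p.2.2 * (XC D l h p.1 u * XC D l h p.2.1 v * XC D l h p.2.2 z) := by
    rw [S3, sum_product]
    exact sum_congr rfl fun a _ => by rw [sum_product]
  rw [e]
  refine sum_congr rfl fun p hp => ?_
  rw [S3, lift_sum n h hp (fun r a b c => r * (XC D l h a u * XC D l h b v * XC D l h c z))
    (fun a b c => zero_mul _)]
  by_cases h0 : d p.1 p.2.1 p.2.2 = 0
  · rw [h0, zero_mul, zero_mul]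
  · simp [liftInd, hd _ _ _ h0]

theorem lift_sq3 (n : ℕ) (h : ℝ) {p : ℕ × ℕ × ℕ} (hp : p ∈ range n ×ˢ range n ×ˢ range n) :
    sq3 n (liftInd h p) ≤ 1 := by
  rw [sq3, lift_sum n h hp (fun r _ _ _ => r ^ 2) (fun a b c => by simp)]
  unfold liftInd
  split_ifs <;> norm_num

theorem lift_inj3 {x y z : ℤ} (hxy : x ≠ y) (hxz : x ≠ z) (hyz : y ≠ z) :
    Function.Injective ![x, y, z] := by
  intro i j hij
  fin_cases i <;> fin_cases j <;> simp_all [eq_comm]

theorem S3_swap (D : ℕ) (l h : ℝ) (n : ℕ) {F : ℕ → ℕ → ℕ → ℝ} (hF : ∀ a b c, F a b c = F b a c)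
    (u v z : ℤ) : S3 D l h n F u v z = S3 D l h n F v u z := by
  unfold S3
  rw [sum_comm]
  refine sum_congr rfl fun a _ => sum_congr rfl fun b _ => sum_congr rfl fun c _ => ?_
  rw [hF b a c]
  ring

/-- Hint: `total_le` with `κ = Fin 3`, `c = ![x, y, z]`, `fun a => F (a 0) (a 1) (a 2)`; see
`sum_cube` in `Main223.lean` of this folder. -/
theorem total3 {ψ : ℝ → ℝ} {s0 s1 : ℝ} (hψ : Bump ψ s0 s1) {x y z : ℤ} (hxy : x ≠ y) (hxz : x ≠ z)
    (hyz : y ≠ z) (n : ℕ) {h : ℝ} (hh : 0 < h) (F : ℕ → ℕ → ℕ → ℝ) (hF : Sup h F) {ε : ℝ}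
    (hε : 0 < ε) :
    ∃ D1 : ℕ, ∀ D ≥ D1, ∀ᶠ l : ℝ in atTop, ∀ b : ℕ,
      ∑ m ∈ cls l (primorial D) b, wg ψ l m * S3 D l h n F (m + x) (m + y) (m + z) ^ 2
        ≤ scale D l 3 * ((∫ s in s0..s1, ψ s) * h ^ 3 * sq3 n F + ε) := by
  obtain ⟨D1, H⟩ := total_le ![x, y, z] (lift_inj3 hxy hxz hyz) hψ (n := n) hh
    (fun a => F (a 0) (a 1) (a 2)) (fun a ha => by
      have := hF _ _ _ ha
      rw [Fin.sum_univ_three]
      linarith) hε
  refine ⟨D1, fun D hD => ?_⟩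
  filter_upwards [H D hD] with l hl b
  have h1 := hl b
  rw [lift_cube n (fun a b c => F a b c ^ 2), Fintype.card_fin] at h1
  refine le_of_eq_of_le (sum_congr rfl fun m _ => ?_) h1
  rw [S3, ← lift_cube n (fun a b c => F a b c *
    (XC D l h a (m + x) * XC D l h b (m + y) * XC D l h c (m + z)))]
  simp only [Fin.prod_univ_three]
  rfl

/-- Small coefficients, uniformly. Hint: `total3` for the indicator of each admissible cell
`(a, b, c)`, and `(∑ d Y) ^ 2 ≤ n ^ 3 ∑ d ^ 2 Y ^ 2`. -/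
theorem small3 {ψ : ℝ → ℝ} {s0 s1 : ℝ} (hψ : Bump ψ s0 s1) {x y z : ℤ} (hxy : x ≠ y) (hxz : x ≠ z)
    (hyz : y ≠ z) (n : ℕ) {h : ℝ} (hh : 0 < h) :
    ∃ C : ℝ, 0 ≤ C ∧ ∃ D1 : ℕ, ∀ D ≥ D1, ∀ᶠ l : ℝ in atTop, ∀ (b : ℕ) (d : ℕ → ℕ → ℕ → ℝ) (e : ℝ),
      Sup h d → (∀ a b c, |d a b c| ≤ e) →
      ∑ m ∈ cls l (primorial D) b, wg ψ l m * S3 D l h n d (m + x) (m + y) (m + z) ^ 2
        ≤ C * e ^ 2 * scale D l 3 := by
  set s := range n ×ˢ range n ×ˢ range n with hs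
  set I := ∫ s in s0..s1, ψ s with hI
  have hI0 : 0 ≤ I := fin_int_nonneg hψ
  choose D1 H using fun p : ℕ × ℕ × ℕ =>
    total3 hψ hxy hxz hyz n hh (liftInd h p) (lift_sup h p) one_pos
  refine ⟨s.card * (s.card * (I * h ^ 3 + 1)), by positivity, s.sup D1, fun D hD => ?_⟩
  have H2 := (eventually_all_finset s).2 fun p hp => H p D ((le_sup hp).trans hD)
  filter_upwards [H2, eventually_ge_atTop 0] with l hl hl0 b d e hd he
  have hsc : 0 ≤ scale D l 3 := Co.scale_nonneg D hl0 3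
  have hw : ∀ m : ℕ, 0 ≤ wg ψ l m := fun m => div_nonneg (hψ.nonneg _) (Nat.cast_nonneg _)
  have hd2 : ∑ p ∈ s, d p.1 p.2.1 p.2.2 ^ 2 ≤ s.card * e ^ 2 := by
    rw [← nsmul_eq_mul]
    refine sum_le_card_nsmul _ _ _ fun p _ => ?_
    rw [← sq_abs]
    exact pow_le_pow_left₀ (abs_nonneg _) (he _ _ _) 2
  calc _ ≤ ∑ m ∈ cls l (primorial D) b, wg ψ l m * (s.card * e ^ 2 *
          ∑ p ∈ s, S3 D l h n (liftInd h p) (m + x) (m + y) (m + z) ^ 2) := by
        refine sum_le_sum fun m _ => mul_le_mul_of_nonneg_left ?_ (hw m)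
        rw [lift_dec D l h n hd]
        exact (sum_mul_sq_le_sq_mul_sq _ _ _).trans
          (mul_le_mul_of_nonneg_right hd2 (sum_nonneg fun _ _ => sq_nonneg _))
    _ = s.card * e ^ 2 * ∑ p ∈ s, ∑ m ∈ cls l (primorial D) b,
          wg ψ l m * S3 D l h n (liftInd h p) (m + x) (m + y) (m + z) ^ 2 := by
        rw [sum_comm, mul_sum]
        refine sum_congr rfl fun m _ => ?_
        rw [← mul_sum]
        ring
    _ ≤ s.card * e ^ 2 * (s.card * (scale D l 3 * (I * h ^ 3 + 1))) := by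
        refine mul_le_mul_of_nonneg_left ?_ (by positivity)
        rw [← nsmul_eq_mul]
        refine sum_le_card_nsmul _ _ _ fun p hp => (hl p hp b).trans ?_
        refine mul_le_mul_of_nonneg_left ?_ hsc
        have h1 := mul_le_mul_of_nonneg_left (lift_sq3 n h hp)
          (show 0 ≤ I * h ^ 3 by positivity)
        linarith
    _ = _ := by ring

open Classical in
/-- Hint: `coord_prime` with `ι = Fin 2`, `c = ![x, y]`, `fun a b => F0 T (b 0) (b 1) a`,
`good b = (b 0 + b 1 + 2 + E ≤ n)`. -/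
theorem main3 {ψ : ℝ → ℝ} {s0 s1 : ℝ} (hψ : Bump ψ s0 s1) (h4 : 4 < s0) (h41 : s1 ≤ 41 / 10)
    {x y : ℤ} (hx : x ≠ 0) (hy : y ≠ 0) (hxy : x ≠ y) {n E : ℕ} (hn0 : 0 < n) {h : ℝ} (hh : 0 < h)
    (hn : n * h ≤ 1) (hE : ((n : ℝ) + E + 1) * h ≤ 3 / 2) (T : ℕ → ℕ → ℝ)
    (hT : ∀ a b, T a b ≠ 0 → a + b + 2 ≤ n + E) {ε : ℝ} (hε : 0 < ε) :
    ∃ D1 : ℕ, ∀ D ≥ D1, ∀ᶠ l : ℝ in atTop, ∀ b0 : ℕ, Nat.Coprime b0 (primorial D) →
      scale D l 3 * ((∫ s in s0..s1, ψ s) / s1 * h ^ 4 * (∑ a ∈ range n, ∑ b ∈ range n,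
          if a + b + 2 + E ≤ n then T a b ^ 2 else 0) - ε)
        ≤ ∑ m ∈ cls l (primorial D) b0, wg ψ l m * ((if m.Prime then 1 else 0) *
          S3 D l h n (F0 T) (m + x) (m + y) m ^ 2) := by
  have key : ∀ (a : Fin n) (b : Fin 2 → Fin n), F0 T (b 0) (b 1) a ≠ 0 →
      (a : ℝ) = 0 ∧ ((b 0 : ℝ) + b 1 + 2) ≤ n + E := by
    intro a b H
    unfold F0 at H
    split_ifs at H with h0
    · exact ⟨by exact_mod_cast h0, by exact_mod_cast hT _ _ H⟩
    · exact absurd rfl H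
  obtain ⟨D1, H⟩ := coord_prime ![x, y] (fun i => by fin_cases i <;> simpa)
    (fun i j hij => by fin_cases i <;> fin_cases j <;> simp_all [eq_comm]) hψ h4 h41 (n := n) hh
    (fun a b => F0 T (b 0) (b 1) a) (fun b => (b 0 : ℕ) + b 1 + 2 + E ≤ n)
    (fun a b H => by
      obtain ⟨h1, h2⟩ := key a b H
      have h3 := mul_le_mul_of_nonneg_right h2 hh.le
      rw [Fin.sum_univ_two, h1]
      constructor <;> nlinarith)
    (fun a b a' b' _ hg H => by
      obtain ⟨-, h2⟩ := key a' b' H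
      have h1 : (b 0 : ℝ) + b 1 + 2 + E ≤ n := by exact_mod_cast hg
      have h3 := mul_le_mul_of_nonneg_right h2 hh.le
      have h4 := mul_le_mul_of_nonneg_right h1 hh.le
      rw [Fin.sum_univ_two]
      nlinarith) hε
  refine ⟨D1, fun D hD => ?_⟩
  filter_upwards [H D hD] with l hl b0 hb
  have h1 := hl b0 hb
  have e1 : ∀ a b : ℕ, ∑ c : Fin n, F0 T a b c = T a b := by
    intro a b
    rw [Fin.sum_univ_eq_sum_range (fun c => F0 T a b c)]
    exact (sum_eq_single_of_mem (f := fun c => F0 T a b c) 0 (mem_range.2 hn0)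
      fun c _ hc => if_neg hc).trans (if_pos rfl)
  simp only [e1, Fintype.card_fin] at h1
  rw [sum_filter] at h1
  refine le_of_eq_of_le ?_ (h1.trans_eq (sum_congr rfl fun m _ => ?_))
  · rw [← lift_sq n (fun a b => if a + b + 2 + E ≤ n then T a b ^ 2 else 0)]
    congr 3
    exact sum_congr rfl fun b _ => by congr
  · congr 3
    rw [sum_comm, S3, ← lift_sq n (fun a b => ∑ c ∈ range n, F0 T a b c *
      (XC D l h a (m + x) * XC D l h b (m + y) * XC D l h c m))]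
    refine sum_congr rfl fun b _ => ?_
    rw [← Fin.sum_univ_eq_sum_range (fun c => F0 T (b 0) (b 1) c *
      (XC D l h (b 0) (m + x) * XC D l h (b 1) (m + y) * XC D l h c m))]
    refine sum_congr rfl fun c _ => ?_
    rw [Fin.prod_univ_two, mul_comm (XC D l h c m)]
    rfl

end Pool.Agent.P.MP_dddec0_nt.L33
end

-- part Pool.Agent.P.MP_dddec0_nt.L33LiftB
section

namespace Pool.Agent.P.MP_dddec0_nt.L33
open Finset Real Filter Pool.Agent.Lib.Tup

/-- Moving the weight. Hint: part `b1` of `final_step` (`wg_shift`, `sum_cls_shift`, `total3`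
for `bump_big`). -/
theorem shift3 {ψ : ℝ → ℝ} {s0 s1 : ℝ} (hψ : Bump ψ s0 s1) (h4 : 4 < s0) (h41 : s1 ≤ 41 / 10)
    {x y z : ℕ} (hxy : x ≠ y) (hxz : x ≠ z) (hyz : y ≠ z) (n : ℕ) {h : ℝ} (hh : 0 < h)
    (F : ℕ → ℕ → ℕ → ℝ) (hF : Sup h F) (G : ℕ → ℝ) (hG0 : ∀ m, 0 ≤ G m) (hG1 : ∀ m, G m ≤ 1)
    (Λ : ℝ) (hΛ : ∀ ε : ℝ, 0 < ε → ∃ D1 : ℕ, ∀ D ≥ D1, ∀ᶠ l : ℝ in atTop, ∀ b : ℕ,
      Nat.Coprime b (primorial D) → scale D l 3 * (Λ - ε) ≤ ∑ m ∈ cls l (primorial D) b,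
        wg ψ l m * (G m * S3 D l h n F (m + ((x : ℤ) - z)) (m + ((y : ℤ) - z)) m ^ 2))
    {ε : ℝ} (hε : 0 < ε) :
    ∃ D1 : ℕ, ∀ D ≥ D1, ∀ᶠ l : ℝ in atTop, ∀ b : ℕ, Nat.Coprime (b + z) (primorial D) →
      scale D l 3 * (Λ - ε) ≤ ∑ m ∈ cls l (primorial D) b,
        wg ψ l m * (G (m + z) * S3 D l h n F (m + x) (m + y) (m + z) ^ 2) := by
  set T' := (∫ s in (19 / 5 : ℝ)..(21 / 5), big s) * h ^ 3 * sq3 n F with hT'
  have hA : 0 < |T'| + 2 := by positivity
  set e := ε / (|T'| + 2) with he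
  have he0 : 0 < e := div_pos hε hA
  have he1 : e * (|T'| + 2) = ε := div_mul_cancel₀ _ hA.ne'
  obtain ⟨D1, H1⟩ := hΛ e he0
  obtain ⟨D2, H2⟩ := total3 bump_big (x := x) (y := y) (z := z) (by exact_mod_cast hxy)
    (by exact_mod_cast hxz) (by exact_mod_cast hyz) n hh F hF one_pos
  refine ⟨max D1 D2, fun D hD => ?_⟩
  filter_upwards [H1 D (le_trans (le_max_left _ _) hD), H2 D (le_trans (le_max_right _ _) hD),
    wg_shift hψ (by linarith) h41 z he0, sum_cls_shift hψ z, one_le_scale D 3]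
    with l a1 a2 a4 a5 a6
  intro b hb
  have c1 := a1 (b + z) hb
  rw [a5] at c1
  let S : ℕ → ℝ := fun m => S3 D l h n F (m + x) (m + y) (m + z) ^ 2
  have hS : ∀ m, 0 ≤ S m := fun m => sq_nonneg _
  have c2 : ∑ m ∈ cls l (primorial D) b, wg ψ l (m + z) * (G (m + z) *
      S3 D l h n F ((m + z : ℕ) + ((x : ℤ) - z)) ((m + z : ℕ) + ((y : ℤ) - z)) (m + z : ℕ) ^ 2)
      ≤ ∑ m ∈ cls l (primorial D) b,
        (wg ψ l m * (G (m + z) * S m) + e * (wg big l m * S m)) := by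
    refine sum_le_sum fun m _ => ?_
    have e1 : ((m + z : ℕ) : ℤ) + ((x : ℤ) - z) = m + (x : ℤ) := by push_cast; ring
    have e2 : ((m + z : ℕ) : ℤ) + ((y : ℤ) - z) = m + (y : ℤ) := by push_cast; ring
    have e3 : ((m + z : ℕ) : ℤ) = m + (z : ℤ) := by push_cast; ring
    rw [e1, e2, e3]
    change wg ψ l (m + z) * (G (m + z) * S m) ≤ _
    have c3 := (abs_le.1 (a4 m)).2
    have c4 : 0 ≤ e * wg big l m := mul_nonneg he0.le (wg_nonneg bump_big l m)
    have c5 := mul_nonneg (hG0 (m + z)) (hS m)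
    have c6 := mul_le_mul_of_nonneg_right (hG1 (m + z)) (hS m)
    nlinarith [mul_le_mul_of_nonneg_right c3 c5, mul_le_mul_of_nonneg_left c6 c4]
  rw [sum_add_distrib, ← mul_sum] at c2
  have c7 := mul_le_mul_of_nonneg_left (a2 b) he0.le
  change e * ∑ m ∈ cls l (primorial D) b, wg big l m * S m ≤ _ at c7
  change _ ≤ ∑ m ∈ cls l (primorial D) b, wg ψ l m * (G (m + z) * S m)
  have c8 : 0 ≤ scale D l 3 * e := mul_nonneg (by linarith) he0.le
  have c9 := mul_le_mul_of_nonneg_left (le_abs_self T') c8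
  rw [← hT'] at c7
  rw [← he1]
  nlinarith

theorem ratio_LiftB {n : ℕ} {h : ℝ} (hn0 : 0 < n) (hh : 0 < h) (hn : n * h ≤ 1) {δ : ℝ}
    (hδ : 0 < δ) : ∃ D1 : ℕ, ∀ D ≥ D1, ∀ᶠ l : ℝ in atTop, 0 < NC D l h 0 ∧
      ∀ a < n, |NC D l h a / NC D l h 0 - 1| ≤ δ := by
  set η := min (h / 2) (δ * h / 4) with hη
  have hη0 : 0 < η := lt_min (by positivity) (by positivity)
  have hη1 : η ≤ h / 2 := min_le_left _ _
  have hη2 : η ≤ δ * h / 4 := min_le_right _ _
  obtain ⟨D1, H⟩ := ipW_approx hη0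
  refine ⟨D1, fun D hD => ?_⟩
  filter_upwards [H D hD, eventually_gt_atTop (0 : ℝ)] with l h1 hl
  have hL : 0 < cW D * l := mul_pos (cW_pos D) hl
  set L := cW D * l with hLd
  have key : ∀ a < n, |NC D l h a - L * h| ≤ η * L := fun a ha => by
    have h2 : (a : ℝ) + 1 ≤ n := by exact_mod_cast ha
    have h3 := h1 (a * h) ((a + 1) * h) (by positivity) (by nlinarith) (by nlinarith)
    rwa [show ((a : ℝ) + 1) * h - a * h = h by ring] at h3
  have k0 := abs_le.1 (key 0 hn0)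
  have p0 : L * (h / 2) ≤ NC D l h 0 := by nlinarith [k0.1]
  have p1 : 0 < NC D l h 0 := lt_of_lt_of_le (by positivity) p0
  refine ⟨p1, fun a ha => ?_⟩
  have ka := abs_le.1 (key a ha)
  rw [div_sub_one p1.ne', abs_div, abs_of_pos p1, div_le_iff₀ p1]
  have p2 := mul_le_mul_of_nonneg_left p0 hδ.le
  have p3 := mul_le_mul_of_nonneg_right hη2 hL.le
  exact abs_le.2 ⟨by nlinarith [ka.1, k0.2], by nlinarith [ka.2, k0.1]⟩

theorem sumF0_LiftB {n : ℕ} (hn0 : 0 < n) (T : ℕ → ℕ → ℝ) (a b : ℕ) (f : ℕ → ℝ) :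
    ∑ c ∈ range n, F0 T a b c * f c = T a b * f 0 := by
  rw [sum_eq_single 0]
  · simp [F0]
  · intro c _ hc
    simp [F0, hc]
  · intro h
    exact absurd (mem_range.2 hn0) h

/-- The lift agrees with the weight at a prime. Hint: `may_XC_prime`, `ipW_approx`;
`d a b c = if a = 0 then ∑ a' < n, F a' b c * (NC a' - NC 0) / NC 0 else 0` for `b, c < n`
(and `0` otherwise). -/
theorem err1 {n : ℕ} (hn0 : 0 < n) {h : ℝ} (hh : 0 < h) (hn : n * h ≤ 1) (F : ℕ → ℕ → ℕ → ℝ)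
    (hF : Sup h F) (T : ℕ → ℕ → ℝ) (hT : ∀ b < n, ∀ c < n, ∑ a ∈ range n, F a b c = T b c)
    {e : ℝ} (he : 0 < e) :
    ∃ D1 : ℕ, ∀ D ≥ D1, ∀ᶠ l : ℝ in atTop, ∃ d : ℕ → ℕ → ℕ → ℝ, Sup h d ∧
      (∀ a b c, |d a b c| ≤ e) ∧ ∀ (p : ℕ) (v z : ℤ), p.Prime → 2 * l ≤ log p →
        S3 D l h n F p v z - S3 D l h n (F0 T) v z p = S3 D l h n d p v z := by
  set M := ∑ b ∈ range n, ∑ c ∈ range n, ∑ a ∈ range n, |F a b c| with hM
  have hM0 : 0 ≤ M := by positivity
  have hMb : ∀ b < n, ∀ c < n, ∑ a ∈ range n, |F a b c| ≤ M := fun b hb c hc =>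
    (single_le_sum (f := fun c => ∑ a ∈ range n, |F a b c|) (fun _ _ => by positivity)
      (mem_range.2 hc)).trans
      (single_le_sum (f := fun b => ∑ c ∈ range n, ∑ a ∈ range n, |F a b c|)
        (fun _ _ => by positivity) (mem_range.2 hb))
  have hA : 0 < M + 1 := by linarith
  obtain ⟨D1, H⟩ := ratio_LiftB hn0 hh hn (div_pos he hA)
  refine ⟨D1, fun D hD => ?_⟩
  filter_upwards [H D hD] with l ⟨h0, h1⟩
  refine ⟨fun a b c => if a = 0 ∧ b < n ∧ c < n then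
    ∑ a' ∈ range n, F a' b c * (NC D l h a' / NC D l h 0 - 1) else 0, ?_, ?_, ?_⟩
  · intro a b c hd
    by_cases hc : a = 0 ∧ b < n ∧ c < n
    · simp only [if_pos hc] at hd
      obtain ⟨a', -, ha'⟩ := exists_ne_zero_of_sum_ne_zero hd
      have h2 := hF a' b c (left_ne_zero_of_mul ha')
      have h3 : (0 : ℝ) ≤ a' * h := by positivity
      rw [hc.1]
      push_cast
      nlinarith
    · exact absurd (if_neg hc) hd
  · intro a b c
    by_cases hc : a = 0 ∧ b < n ∧ c < n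
    · simp only [if_pos hc]
      refine (abs_sum_le_sum_abs _ _).trans ?_
      have h2 : ∑ a' ∈ range n, |F a' b c * (NC D l h a' / NC D l h 0 - 1)|
          ≤ ∑ a' ∈ range n, |F a' b c| * (e / (M + 1)) := sum_le_sum fun a' ha' => by
        rw [abs_mul]
        exact mul_le_mul_of_nonneg_left (h1 a' (mem_range.1 ha')) (abs_nonneg _)
      refine h2.trans ?_
      rw [← sum_mul]
      refine (mul_le_mul_of_nonneg_right (hMb b hc.2.1 c hc.2.2) (div_pos he hA).le).trans ?_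
      rw [← mul_div_assoc, div_le_iff₀ hA]
      nlinarith
    · simp only [if_neg hc, abs_zero]
      exact he.le
  · intro p v z hp hl
    unfold S3
    simp only [may_XC_prime hp hl]
    rw [sum_eq_single 0 (f := fun a => ∑ b ∈ range n, ∑ c ∈ range n,
      (if a = 0 ∧ b < n ∧ c < n then
        ∑ a' ∈ range n, F a' b c * (NC D l h a' / NC D l h 0 - 1) else 0) *
        (NC D l h a * XC D l h b v * XC D l h c z)) (fun a _ ha => by simp [ha])
      (fun h => absurd (mem_range.2 hn0) h), sum_comm, ← sum_sub_distrib]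
    refine sum_congr rfl fun b hb => ?_
    rw [sum_comm, ← sum_sub_distrib]
    refine sum_congr rfl fun c hc => ?_
    rw [sumF0_LiftB hn0, if_pos ⟨rfl, mem_range.1 hb, mem_range.1 hc⟩,
      ← hT b (mem_range.1 hb) c (mem_range.1 hc), sum_mul, sum_mul, ← sum_sub_distrib]
    refine sum_congr rfl fun a _ => ?_
    field_simp

/-- The second lift agrees with the weight at two primes. Hint:
`d a b c = if a = 0 ∧ b = 0 then (∑ a' b', F a' b' c * NC a' * NC b'
  - NC 0 * ∑ b', T b' c * NC b') / NC 0 ^ 2 else 0` for `c < n` (and `0` otherwise). -/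
theorem err2 {n : ℕ} (hn0 : 0 < n) {h : ℝ} (hh : 0 < h) (hn : n * h ≤ 1) (hh3 : h ≤ 1 / 3)
    (F : ℕ → ℕ → ℕ → ℝ) (T : ℕ → ℕ → ℝ)
    (hT : ∀ c < n, ∑ a ∈ range n, ∑ b ∈ range n, F a b c = ∑ b ∈ range n, T b c)
    {e : ℝ} (he : 0 < e) :
    ∃ D1 : ℕ, ∀ D ≥ D1, ∀ᶠ l : ℝ in atTop, ∃ d : ℕ → ℕ → ℕ → ℝ, Sup h d ∧
      (∀ a b c, |d a b c| ≤ e) ∧ ∀ (p q : ℕ) (z : ℤ), p.Prime → 2 * l ≤ log p → q.Prime →
        2 * l ≤ log q → S3 D l h n F p q z - S3 D l h n (F0 T) q z p = S3 D l h n d p q z := by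
  set M := ∑ c ∈ range n, (3 * ∑ a ∈ range n, ∑ b ∈ range n, |F a b c| + ∑ b ∈ range n, |T b c|)
    with hM
  have hM0 : 0 ≤ M := by positivity
  have hMb : ∀ c < n, 3 * ∑ a ∈ range n, ∑ b ∈ range n, |F a b c| + ∑ b ∈ range n, |T b c| ≤ M :=
    fun c hc => single_le_sum (f := fun c =>
      3 * ∑ a ∈ range n, ∑ b ∈ range n, |F a b c| + ∑ b ∈ range n, |T b c|)
      (fun _ _ => by positivity) (mem_range.2 hc)
  have hA : 0 < M + 1 := by linarith
  set δ := min 1 (e / (M + 1)) with hδ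
  have hδ0 : 0 < δ := lt_min one_pos (div_pos he hA)
  have hδ1 : δ ≤ 1 := min_le_left _ _
  have hδ2 : δ * (M + 1) ≤ e := (le_div_iff₀ hA).1 (min_le_right _ _)
  obtain ⟨D1, H⟩ := ratio_LiftB hn0 hh hn hδ0
  refine ⟨D1, fun D hD => ?_⟩
  filter_upwards [H D hD] with l ⟨h0, h1⟩
  set r : ℕ → ℝ := fun a => NC D l h a / NC D l h 0 with hr
  have hr' : ∀ a, NC D l h a = r a * NC D l h 0 := fun a => (div_mul_cancel₀ _ h0.ne').symm
  refine ⟨fun a b c => if a = 0 ∧ b = 0 ∧ c < n then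
    ∑ a' ∈ range n, ∑ b' ∈ range n, F a' b' c * (r a' * r b' - 1)
      - ∑ b' ∈ range n, T b' c * (r b' - 1) else 0, ?_, ?_, ?_⟩
  · intro a b c hd
    by_cases hc : a = 0 ∧ b = 0 ∧ c < n
    · have h2 : (c : ℝ) + 1 ≤ n := by exact_mod_cast hc.2.2
      rw [hc.1, hc.2.1]
      push_cast
      nlinarith
    · exact absurd (if_neg hc) hd
  · intro a b c
    by_cases hc : a = 0 ∧ b = 0 ∧ c < n
    · simp only [if_pos hc]
      have h2 : |∑ a' ∈ range n, ∑ b' ∈ range n, F a' b' c * (r a' * r b' - 1)|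
          ≤ (∑ a' ∈ range n, ∑ b' ∈ range n, |F a' b' c|) * (3 * δ) := by
        rw [sum_mul]
        refine (abs_sum_le_sum_abs _ _).trans (sum_le_sum fun a' ha' => ?_)
        rw [sum_mul]
        refine (abs_sum_le_sum_abs _ _).trans (sum_le_sum fun b' hb' => ?_)
        rw [abs_mul]
        refine mul_le_mul_of_nonneg_left ?_ (abs_nonneg _)
        have k1 := abs_le.1 (h1 a' (mem_range.1 ha'))
        have k2 := abs_le.1 (h1 b' (mem_range.1 hb'))
        change -δ ≤ r a' - 1 ∧ r a' - 1 ≤ δ at k1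
        change -δ ≤ r b' - 1 ∧ r b' - 1 ≤ δ at k2
        have k3 : |(r a' - 1) * (r b' - 1)| ≤ δ := by
          rw [abs_mul]
          have := mul_le_mul (abs_le.2 k1) ((abs_le.2 k2).trans hδ1) (abs_nonneg _) hδ0.le
          linarith
        have k4 := abs_le.1 k3
        exact abs_le.2 ⟨by nlinarith [k1.1, k2.1, k4.1], by nlinarith [k1.2, k2.2, k4.2]⟩
      have h3 : |∑ b' ∈ range n, T b' c * (r b' - 1)| ≤ (∑ b' ∈ range n, |T b' c|) * δ := by
        rw [sum_mul]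
        refine (abs_sum_le_sum_abs _ _).trans (sum_le_sum fun b' hb' => ?_)
        rw [abs_mul]
        exact mul_le_mul_of_nonneg_left (h1 b' (mem_range.1 hb')) (abs_nonneg _)
      have h4 := mul_le_mul_of_nonneg_right (hMb c hc.2.2) hδ0.le
      refine (abs_sub _ _).trans ?_
      nlinarith
    · simp only [if_neg hc, abs_zero]
      exact he.le
  · intro p q z hp hl hq hl'
    unfold S3
    simp only [may_XC_prime hp hl, may_XC_prime hq hl', sumF0_LiftB hn0]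
    rw [sum_eq_single 0 (f := fun a => ∑ b ∈ range n, ∑ c ∈ range n,
      (if a = 0 ∧ b = 0 ∧ c < n then
        ∑ a' ∈ range n, ∑ b' ∈ range n, F a' b' c * (r a' * r b' - 1)
          - ∑ b' ∈ range n, T b' c * (r b' - 1) else 0) *
        (NC D l h a * NC D l h b * XC D l h c z)) (fun a _ ha => by simp [ha])
      (fun h => absurd (mem_range.2 hn0) h),
      sum_eq_single 0 (f := fun b => ∑ c ∈ range n,
      (if 0 = 0 ∧ b = 0 ∧ c < n then
        ∑ a' ∈ range n, ∑ b' ∈ range n, F a' b' c * (r a' * r b' - 1)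
          - ∑ b' ∈ range n, T b' c * (r b' - 1) else 0) *
        (NC D l h 0 * NC D l h b * XC D l h c z)) (fun a _ ha => by simp [ha])
      (fun h => absurd (mem_range.2 hn0) h)]
    have e1 : ∑ a ∈ range n, ∑ b ∈ range n, ∑ c ∈ range n,
        F a b c * (NC D l h a * NC D l h b * XC D l h c z) = ∑ c ∈ range n, ∑ a ∈ range n,
        ∑ b ∈ range n, F a b c * (NC D l h a * NC D l h b * XC D l h c z) := by
      rw [sum_congr rfl fun a _ => sum_comm, sum_comm]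
    rw [e1, sum_comm (f := fun a b => T a b * (NC D l h a * XC D l h b z * NC D l h 0)),
      ← sum_sub_distrib]
    refine sum_congr rfl fun c hc => ?_
    rw [if_pos ⟨rfl, rfl, mem_range.1 hc⟩]
    set N := NC D l h 0 with hN
    set Y := XC D l h c z with hY
    have e2 : ∑ a ∈ range n, ∑ b ∈ range n, F a b c * (NC D l h a * NC D l h b * Y)
        = (∑ a ∈ range n, ∑ b ∈ range n, F a b c * (r a * r b - 1)) * (N * N * Y)
          + (∑ a ∈ range n, ∑ b ∈ range n, F a b c) * (N * N * Y) := by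
      rw [sum_mul, sum_mul, ← sum_add_distrib]
      refine sum_congr rfl fun a _ => ?_
      rw [sum_mul, sum_mul, ← sum_add_distrib]
      refine sum_congr rfl fun b _ => ?_
      rw [hr' a, hr' b]
      ring
    have e3 : ∑ b ∈ range n, T b c * (NC D l h b * Y * N)
        = (∑ b ∈ range n, T b c * (r b - 1)) * (N * N * Y)
          + (∑ b ∈ range n, T b c) * (N * N * Y) := by
      rw [sum_mul, sum_mul, ← sum_add_distrib]
      refine sum_congr rfl fun b _ => ?_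
      rw [hr' b]
      ring
    rw [e2, e3, hT c (mem_range.1 hc)]
    ring

end Pool.Agent.P.MP_dddec0_nt.L33
end
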