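import Mathlib

/-! Narrow admissible tuples from a sieve certificate. -/

namespace BGap

/-- Bits at the positions `p * j` with `j < 2 ^ t`. -/
def comb (p : ℕ) : ℕ → ℕ
  | 0 => 1
  | t + 1 => comb p t ||| (comb p t <<< (p * 2 ^ t))

theorem comb_testBit (p t j : ℕ) (hj : j < 2 ^ t) : (comb p t).testBit (p * j) = true := by
  induction t generalizing j with
  | zero =>
    have : j = 0 := by simpa using hj
    subst this
    simp [comb]
  | succ t ih =>
    rw [comb, Nat.testBit_or, Nat.testBit_shiftLeft]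
    by_cases h : j < 2 ^ t
    · simp [ih j h]
    · have h1 : 2 ^ t ≤ j := by omega
      have h2 : j - 2 ^ t < 2 ^ t := by rw [pow_succ] at hj; omega
      have h3 : p * j - p * 2 ^ t = p * (j - 2 ^ t) := by rw [Nat.mul_sub]
      have h4 : p * j ≥ p * 2 ^ t := Nat.mul_le_mul_left p h1
      simp [h3, ih _ h2, h4]

/-- All removed positions. -/
def sieved (D : ℕ) : List (ℕ × ℕ) → ℕ
  | [] => 0
  | (p, a) :: l => (comb p (Nat.log2 (D / p) + 1) <<< a) ||| sieved D l

theorem sieved_testBit (D : ℕ) (l : List (ℕ × ℕ)) (p a x : ℕ) (h : (p, a) ∈ l) (hx : x ≤ D)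
    (hxa : x % p = a) : (sieved D l).testBit x = true := by
  induction l with
  | nil => simp at h
  | cons q l ih =>
    obtain ⟨q, b⟩ := q
    rw [sieved, Nat.testBit_or]
    rcases List.mem_cons.1 h with h | h
    · obtain ⟨rfl, rfl⟩ := Prod.mk.inj h
      have h1 : x - a = p * (x / p) := by
        have := Nat.mod_add_div x p
        omega
      have h2 : x ≥ a := by rw [← hxa]; exact Nat.mod_le x p
      have h3 : x / p < 2 ^ (Nat.log2 (D / p) + 1) :=
        lt_of_le_of_lt (Nat.div_le_div_right hx) Nat.lt_log2_self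
      rw [Nat.testBit_shiftLeft, h1, comb_testBit p _ _ h3]
      simp [h2]
    · simp [ih h]

def survivors (D : ℕ) (S : ℕ) : List ℕ := (List.range (D + 1)).filter (fun x => !S.testBit x)

def covered (K : ℕ) (l : List (ℕ × ℕ)) : Bool :=
  (List.range (K + 1)).all fun n =>
    n < 2 || [2, 3, 5, 7, 11, 13, 17, 19, 23, 29, 31, 37, 41, 43, 47, 53, 59, 61, 67].any
      (fun d => d < n && n % d == 0) || l.any (fun q => q.1 == n)

theorem covered_spec {K : ℕ} {l : List (ℕ × ℕ)} (h : covered K l = true) {p : ℕ} (hp : p.Prime)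
    (hK : p ≤ K) : ∃ a, (p, a) ∈ l := by
  have h1 := List.all_eq_true.1 h p (List.mem_range.2 (by omega))
  simp only [Bool.or_eq_true, decide_eq_true_eq, List.any_eq_true, Bool.and_eq_true,
    beq_iff_eq] at h1
  rcases h1 with (h1 | ⟨d, hd, h2, h3⟩) | ⟨q, hq, h2⟩
  · have := hp.two_le; omega
  · have h4 : d ∣ p := Nat.dvd_of_mod_eq_zero h3
    have h5 : 2 ≤ d := by
      simp only [List.mem_cons, List.not_mem_nil, or_false] at hd
      omega
    rcases (Nat.dvd_prime hp).1 h4 with h6 | h6 <;> omega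
  · exact ⟨q.2, by rw [← h2]; exact hq⟩

theorem exists_avoid {K : ℕ} (H : Fin K → ℕ) {p : ℕ} (a : ℕ) (ha : a < p)
    (h : ∀ i, H i % p ≠ a) : ∃ r : ℕ, ∀ i, ¬ p ∣ r + H i := by
  refine ⟨p - a, fun i hi => h i ?_⟩
  obtain ⟨c, hc⟩ := hi
  have h1 : H i + p = p * c + a := by omega
  have h2 : (H i + p) % p = (p * c + a) % p := by rw [h1]
  rw [Nat.add_mod_right, Nat.mul_add_mod, Nat.mod_eq_of_lt ha] at h2
  exact h2

theorem tuple_of_check (K D : ℕ) (l : List (ℕ × ℕ)) (h1 : covered K l = true)
    (h2 : l.all (fun q => q.2 < q.1) = true) (h3 : K ≤ (survivors D (sieved D l)).length) :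
    ∃ H : Fin K → ℕ, Function.Injective H ∧ (∀ p : ℕ, p.Prime → ∃ r : ℕ, ∀ i, ¬ p ∣ r + H i) ∧
      ∀ i, H i ≤ D := by
  set L := survivors D (sieved D l) with hL
  have hnd : L.Nodup := List.Nodup.filter _ List.nodup_range
  have hmem : ∀ x ∈ L, x ≤ D ∧ (sieved D l).testBit x = false := by
    intro x hx
    have := List.mem_filter.1 hx
    refine ⟨by have := List.mem_range.1 this.1; omega, by simpa using this.2⟩
  let H : Fin K → ℕ := fun i => L.get ⟨i, lt_of_lt_of_le i.2 h3⟩
  have hH : ∀ i, H i ∈ L := fun i => List.get_mem _ _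
  refine ⟨H, ?_, ?_, fun i => (hmem _ (hH i)).1⟩
  · intro i j hij
    have := hnd.injective_get hij
    exact Fin.ext (by simpa using this)
  · intro p hp
    by_cases hK : p ≤ K
    · obtain ⟨a, ha⟩ := covered_spec h1 hp hK
      have hap : a < p := by simpa using List.all_eq_true.1 h2 _ ha
      refine exists_avoid H a hap fun i hi => ?_
      have := sieved_testBit D l p a (H i) ha (hmem _ (hH i)).1 hi
      rw [(hmem _ (hH i)).2] at this
      exact absurd this (by simp)
    · have hlt : (Finset.univ.image fun i => H i % p).card < (Finset.range p).card := by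
        refine lt_of_le_of_lt Finset.card_image_le ?_
        simp only [Finset.card_univ, Fintype.card_fin, Finset.card_range]
        omega
      obtain ⟨a, ha, hna⟩ := Finset.exists_mem_notMem_of_card_lt_card hlt
      refine exists_avoid H a (Finset.mem_range.1 ha) fun i hi => hna ?_
      exact Finset.mem_image.2 ⟨i, Finset.mem_univ _, hi⟩

end BGap
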