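import Pool.Agent.Lib.Tup.Defs
import Pool.Agent.Lib.Tup.Xap
import Pool.Agent.Lib.Tup.Inner
import Pool.Agent.Lib.Tup.Disc

-- part Pool.Agent.P.MP_dddec0_nt.T223Defs
section

namespace Pool.Agent.P.MP_dddec0_nt.T223
open Finset Real

noncomputable section

/-- Score of a number with `r` prime factors. -/
def g3 (r : ℕ) : ℝ := if r ≤ 2 then 1 else if r = 3 then 1 / 2 else 0

/-- Partial sums, constant from `43` on. -/
def pre (f : ℕ → ℝ) (j : ℕ) : ℝ := ∑ i ∈ range (min j 43), f i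

def SS : ℝ := 4001 / 25

def m1 (a : ℕ) : ℝ := (2 * a + 1) / 2

def m2 (a : ℕ) : ℝ := (3 * a ^ 2 + 3 * a + 1) / 3

def V1 (a : ℕ) : ℝ := SS * m1 a - m2 a

def V2 (a b : ℕ) : ℝ := SS * m1 a * m1 b - m2 a * m1 b - m1 a * m2 b

def ell (P : ℕ → ℝ) (a b : ℕ) : ℝ :=
  (P a + P (a + 1)) / 2 + (P b + P (b + 1)) / 2 - (P (a + b) + 4 * P (a + b + 1) + P (a + b + 2)) / 6

/-- Squares used for numbers with three prime factors, the largest two being large. -/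
def reg2 : Finset (ℕ × ℕ) :=
  (Ico 1 160 ×ˢ Ico 1 160).filter
    (fun x => max 43 (x.1 + 1) ≤ x.2 ∧ x.1 + x.2 + 2 + max 43 (x.1 + 1) ≤ 160)

def qhat (f : ℕ → ℝ) : ℝ :=
  pre f 43 ^ 2 / SS + ∑ a ∈ Ico 1 80, ((pre f a + pre f (a + 1)) / 2) ^ 2 / V1 a
    + ∑ a ∈ Ico 1 43, ∑ b ∈ Ico 1 43, ell (pre f) a b ^ 2 / (4 * V2 a b)
    + ∑ x ∈ reg2, ell (pre f) x.1 x.2 ^ 2 / (4 * V2 x.1 x.2)

end

end Pool.Agent.P.MP_dddec0_nt.T223
end

-- part Pool.Agent.P.MP_dddec0_nt.ShapeA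
section

namespace Pool.Agent.P.MP_dddec0_nt.T223.Sh
open Finset Real Filter Pool.Agent.Lib.Tup

noncomputable section

def Rr (f : ℕ → ℝ) (t : ℝ) : ℝ :=
  ∑ a ∈ range 43, f a * rho (a * (1 / 40)) ((a + 1) * (1 / 40)) t

def Psi (f : ℕ → ℝ) (t : ℝ) : ℝ := Rr f 0 - Rr f t

def B0 (f : ℕ → ℝ) : ℝ := ∑ a ∈ range 43, |f a|

lemma B0_nonneg (f : ℕ → ℝ) : 0 ≤ B0 f := sum_nonneg fun _ _ => abs_nonneg _

lemma Rr_big (f : ℕ → ℝ) {t : ℝ} (ht : 43 / 40 ≤ t) : Rr f t = 0 := by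
  refine sum_eq_zero fun a ha => ?_
  have h : (a : ℝ) + 1 ≤ 43 := by exact_mod_cast mem_range.1 ha
  unfold rho
  rw [max_eq_right (by linarith), max_eq_right (by linarith)]
  simp

lemma pre_eq (f : ℕ → ℝ) (j : ℕ) : pre f j = ∑ a ∈ range 43, if a < j then f a else 0 := by
  unfold pre
  rw [← sum_filter]
  refine sum_congr ?_ fun _ _ => rfl
  ext a
  simp only [mem_range, mem_filter, lt_min_iff]
  tauto

lemma Psi_cell (f : ℕ → ℝ) (j : ℕ) {t : ℝ} (h1 : (j : ℝ) * (1 / 40) ≤ t)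
    (h2 : t ≤ ((j : ℝ) + 1) * (1 / 40)) :
    Psi f t = pre f j / 40 + (pre f (j + 1) - pre f j) * (t - j * (1 / 40)) := by
  rw [pre_eq, pre_eq, Psi, Rr, Rr, ← sum_sub_distrib, ← sum_sub_distrib, sum_div, sum_mul,
    ← sum_add_distrib]
  refine sum_congr rfl fun a _ => ?_
  have ha : (0 : ℝ) ≤ a := Nat.cast_nonneg a
  unfold rho
  rw [max_eq_left (by linarith : (0 : ℝ) ≤ ((a : ℝ) + 1) * (1 / 40) - 0),
    max_eq_left (by linarith : (0 : ℝ) ≤ (a : ℝ) * (1 / 40) - 0)]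
  rcases lt_trichotomy a j with h | h | h
  · have h' : (a : ℝ) + 1 ≤ j := by exact_mod_cast h
    rw [if_pos h, if_pos (by omega), max_eq_right (by linarith), max_eq_right (by linarith)]
    ring
  · subst h
    rw [if_neg (lt_irrefl _), if_pos (by omega), max_eq_left (by linarith),
      max_eq_right (by linarith)]
    ring
  · have h' : (j : ℝ) + 1 ≤ a := by exact_mod_cast h
    rw [if_neg (by omega), if_neg (by omega), max_eq_left (by linarith),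
      max_eq_left (by linarith)]
    ring

lemma Rr_zero (f : ℕ → ℝ) : Rr f 0 = pre f 43 / 40 := by
  have h := Psi_cell f 43 (t := 43 / 40) (by norm_num) (by norm_num)
  rw [Psi, Rr_big f le_rfl] at h
  push_cast at h
  linarith

lemma Psi_lip (f : ℕ → ℝ) (s t : ℝ) : |Psi f s - Psi f t| ≤ B0 f * |s - t| := by
  have : Psi f s - Psi f t = ∑ a ∈ range 43, f a *
      (rho (a * (1 / 40)) ((a + 1) * (1 / 40)) t - rho (a * (1 / 40)) ((a + 1) * (1 / 40)) s) := by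
    simp only [Psi, Rr, mul_sub, sum_sub_distrib]
    ring
  rw [this, B0, sum_mul]
  refine (abs_sum_le_sum_abs _ _).trans (sum_le_sum fun a _ => ?_)
  rw [abs_mul, abs_sub_comm s t]
  exact mul_le_mul_of_nonneg_left (rho_lip (by linarith) _ _) (abs_nonneg _)

lemma Psi_bd (f : ℕ → ℝ) (t : ℝ) : |Psi f t| ≤ B0 f := by
  have : Psi f t = ∑ a ∈ range 43, f a *
      (rho (a * (1 / 40)) ((a + 1) * (1 / 40)) 0 - rho (a * (1 / 40)) ((a + 1) * (1 / 40)) t) := by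
    simp only [Psi, Rr, mul_sub, sum_sub_distrib]
  rw [this, B0]
  refine (abs_sum_le_sum_abs _ _).trans (sum_le_sum fun a _ => ?_)
  rw [abs_mul]
  refine mul_le_of_le_one_right (abs_nonneg _) ?_
  have h1 := abs_rho_le (x := a * (1 / 40)) (y := (a + 1) * (1 / 40)) (by linarith) 0
  have h2 := abs_rho_le (x := a * (1 / 40)) (y := (a + 1) * (1 / 40)) (by linarith) t
  have h3 := abs_sub (rho (a * (1 / 40)) ((a + 1) * (1 / 40)) 0)
    (rho (a * (1 / 40)) ((a + 1) * (1 / 40)) t)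
  linarith

lemma Psi_cont (f : ℕ → ℝ) : Continuous (Psi f) := by
  unfold Psi Rr rho
  fun_prop

lemma int_poly (c0 c1 c2 z x y : ℝ) :
    ∫ s in x..y, (c0 + c1 * (s - z) + c2 * (s - z) ^ 2) =
      c0 * (y - x) + c1 * ((y - z) ^ 2 - (x - z) ^ 2) / 2
        + c2 * ((y - z) ^ 3 - (x - z) ^ 3) / 3 := by
  have : ∀ s ∈ Set.uIcc x y, HasDerivAt
      (fun s => c0 * s + c1 * (s - z) ^ 2 / 2 + c2 * (s - z) ^ 3 / 3)
      (c0 + c1 * (s - z) + c2 * (s - z) ^ 2) s := by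
    intro s _
    have h0 : HasDerivAt (fun s : ℝ => s - z) 1 s := (hasDerivAt_id s).sub_const z
    have := (((hasDerivAt_id s).const_mul c0).add (((h0.pow 2).const_mul c1).div_const 2)).add
      (((h0.pow 3).const_mul c2).div_const 3)
    refine this.congr_deriv ?_
    norm_num
    ring
  rw [intervalIntegral.integral_eq_sub_of_hasDerivAt this
    (by apply Continuous.intervalIntegrable; fun_prop)]
  ring

lemma int_Psi (f : ℕ → ℝ) (j : ℕ) {x y : ℝ} (h1 : (j : ℝ) * (1 / 40) ≤ x) (hxy : x ≤ y)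
    (h2 : y ≤ ((j : ℝ) + 1) * (1 / 40)) :
    ∫ s in x..y, Psi f s = pre f j / 40 * (y - x) + (pre f (j + 1) - pre f j) *
      ((y - j * (1 / 40)) ^ 2 - (x - j * (1 / 40)) ^ 2) / 2 := by
  have h := int_poly (pre f j / 40) (pre f (j + 1) - pre f j) 0 (j * (1 / 40)) x y
  rw [intervalIntegral.integral_congr (g := fun s => pre f j / 40 + (pre f (j + 1) - pre f j) *
    (s - j * (1 / 40)) + 0 * (s - j * (1 / 40)) ^ 2), h]
  · ring
  · intro s hs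
    rw [Set.uIcc_of_le hxy] at hs
    simp only
    rw [Psi_cell f j (h1.trans hs.1) (hs.2.trans h2)]
    ring

lemma int_Psi_cell (f : ℕ → ℝ) (j : ℕ) :
    ∫ s in ((j : ℝ) * (1 / 40))..(((j : ℝ) + 1) * (1 / 40)), Psi f s
      = (pre f j + pre f (j + 1)) / 3200 := by
  rw [int_Psi f j le_rfl (by linarith) le_rfl]
  ring

lemma int_Psi_add (f : ℕ → ℝ) (a b : ℕ) {t : ℝ} (h1 : (a : ℝ) * (1 / 40) ≤ t)
    (h2 : t ≤ ((a : ℝ) + 1) * (1 / 40)) :
    ∫ s in ((b : ℝ) * (1 / 40))..(((b : ℝ) + 1) * (1 / 40)), Psi f (t + s)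
      = (pre f (a + b) + pre f (a + b + 1)) / 3200
        + (pre f (a + b + 1) - pre f (a + b)) / 40 * (t - a * (1 / 40))
        + (pre f (a + b + 2) - 2 * pre f (a + b + 1) + pre f (a + b)) / 2
          * (t - a * (1 / 40)) ^ 2 := by
  rw [intervalIntegral.integral_comp_add_left (fun s => Psi f s) t,
    ← intervalIntegral.integral_add_adjacent_intervals (b := ((a : ℝ) + b + 1) * (1 / 40))
      ((Psi_cont f).intervalIntegrable _ _) ((Psi_cont f).intervalIntegrable _ _),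
    int_Psi f (a + b) (by push_cast; linarith) (by linarith) (by push_cast; linarith),
    int_Psi f (a + b + 1) (by push_cast; linarith) (by linarith) (by push_cast; linarith)]
  push_cast
  ring

def ph1 (f : ℕ → ℝ) (I A C t : ℝ) : ℝ :=
  I * (2 * A * Psi f t - A ^ 2 * (t * (4001 / 1000 - t))) - C

def G2 (f : ℕ → ℝ) (t s : ℝ) : ℝ := Psi f t + Psi f s - Psi f (t + s)

def ph2 (f : ℕ → ℝ) (I A C t s : ℝ) : ℝ :=
  I * (2 * A * G2 f t s - A ^ 2 * (t * s * (4001 / 1000 - t - s))) - C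

lemma int_ph1 (f : ℕ → ℝ) (I A C : ℝ) (a : ℕ) :
    ∫ t in ((a : ℝ) * (1 / 40))..(((a : ℝ) + 1) * (1 / 40)), ph1 f I A C t
      = I * (2 * A * ((pre f a + pre f (a + 1)) / 3200) - A ^ 2 * (V1 a / 64000)) - C / 40 := by
  have h : ∀ t, ph1 f I A C t = (-C + (-(I * A ^ 2 * (4001 / 1000))) * (t - 0)
      + (I * A ^ 2) * (t - 0) ^ 2) + (2 * A * I) * Psi f t := by
    intro t
    unfold ph1
    ring
  simp only [h]
  have := Psi_cont f
  rw [intervalIntegral.integral_add (by apply Continuous.intervalIntegrable; fun_prop)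
    (by apply Continuous.intervalIntegrable; fun_prop), int_poly,
    intervalIntegral.integral_const_mul, int_Psi_cell]
  unfold V1 m1 m2 SS
  ring

lemma int_ph2_inner (f : ℕ → ℝ) (I A C : ℝ) (b : ℕ) (t : ℝ) :
    ∫ s in ((b : ℝ) * (1 / 40))..(((b : ℝ) + 1) * (1 / 40)), ph2 f I A C t s
      = ((2 * A * I * ((pre f b + pre f (b + 1)) / 3200) - C / 40)
          + (-(I * A ^ 2 * (4001 / 1000 * (m1 b / 1600) - m2 b / 64000))) * (t - 0)
          + (I * A ^ 2 * (m1 b / 1600)) * (t - 0) ^ 2) + (2 * A * I / 40) * Psi f t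
        - 2 * A * I * ∫ s in ((b : ℝ) * (1 / 40))..(((b : ℝ) + 1) * (1 / 40)), Psi f (t + s) := by
  have h : ∀ s, ph2 f I A C t s = ((2 * A * I * Psi f t - C)
      + (-(I * A ^ 2 * t * (4001 / 1000 - t))) * (s - 0)
      + (I * A ^ 2 * t) * (s - 0) ^ 2) + (2 * A * I) * Psi f s - 2 * A * I * Psi f (t + s) := by
    intro s
    unfold ph2 G2
    ring
  simp only [h]
  have := Psi_cont f
  rw [intervalIntegral.integral_sub (by apply Continuous.intervalIntegrable; fun_prop)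
    (by apply Continuous.intervalIntegrable; fun_prop),
    intervalIntegral.integral_add (by apply Continuous.intervalIntegrable; fun_prop)
    (by apply Continuous.intervalIntegrable; fun_prop), int_poly,
    intervalIntegral.integral_const_mul, intervalIntegral.integral_const_mul, int_Psi_cell]
  unfold m1 m2
  ring

lemma int_ph2 (f : ℕ → ℝ) (I A C : ℝ) (a b : ℕ) :
    ∫ t in ((a : ℝ) * (1 / 40))..(((a : ℝ) + 1) * (1 / 40)),
      ∫ s in ((b : ℝ) * (1 / 40))..(((b : ℝ) + 1) * (1 / 40)), ph2 f I A C t s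
      = I * (2 * A * (ell (pre f) a b / 64000) - A ^ 2 * (V2 a b / 102400000)) - C / 1600 := by
  have := Psi_cont f
  rw [intervalIntegral.integral_congr (g := fun t =>
      ((2 * A * I * ((pre f b + pre f (b + 1)) / 3200) - C / 40)
          + (-(I * A ^ 2 * (4001 / 1000 * (m1 b / 1600) - m2 b / 64000))) * (t - 0)
          + (I * A ^ 2 * (m1 b / 1600)) * (t - 0) ^ 2) + (2 * A * I / 40) * Psi f t
        - 2 * A * I * ((pre f (a + b) + pre f (a + b + 1)) / 3200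
        + (pre f (a + b + 1) - pre f (a + b)) / 40 * (t - a * (1 / 40))
        + (pre f (a + b + 2) - 2 * pre f (a + b + 1) + pre f (a + b)) / 2
          * (t - a * (1 / 40)) ^ 2))]
  · rw [intervalIntegral.integral_sub (by apply Continuous.intervalIntegrable; fun_prop)
      (by apply Continuous.intervalIntegrable; fun_prop),
      intervalIntegral.integral_add (by apply Continuous.intervalIntegrable; fun_prop)
      (by apply Continuous.intervalIntegrable; fun_prop), int_poly,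
      intervalIntegral.integral_const_mul, intervalIntegral.integral_const_mul, int_Psi_cell,
      int_poly]
    unfold ell V2 m1 m2 SS
    ring
  · intro t ht
    rw [Set.uIcc_of_le (by linarith)] at ht
    simp only
    rw [int_ph2_inner, int_Psi_add f a b ht.1 ht.2]

/-- Bounded and Lipschitz on the square. -/
def LB (φ : ℝ → ℝ → ℝ) : Prop :=
  ∃ B : ℝ, 0 ≤ B ∧ ∀ s ∈ Set.Icc (0 : ℝ) 5, ∀ t ∈ Set.Icc (0 : ℝ) 5, |φ s t| ≤ B ∧
    ∀ s' ∈ Set.Icc (0 : ℝ) 5, ∀ t' ∈ Set.Icc (0 : ℝ) 5,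
      |φ s t - φ s' t'| ≤ B * (|s - s'| + |t - t'|)

lemma LB.const (c : ℝ) : LB fun _ _ => c :=
  ⟨|c|, abs_nonneg _, fun _ _ _ _ => ⟨le_rfl, fun _ _ _ _ => by
    rw [sub_self, abs_zero]; positivity⟩⟩

lemma LB.fst : LB fun s _ => s :=
  ⟨5, by norm_num, fun s hs t _ => ⟨abs_le.2 ⟨by linarith [hs.1], hs.2⟩, fun s' _ t' _ => by
    linarith [abs_nonneg (s - s'), abs_nonneg (t - t')]⟩⟩

lemma LB.snd : LB fun _ t => t :=
  ⟨5, by norm_num, fun s _ t ht => ⟨abs_le.2 ⟨by linarith [ht.1], ht.2⟩, fun s' _ t' _ => by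
    linarith [abs_nonneg (s - s'), abs_nonneg (t - t')]⟩⟩

lemma LB.add {φ χ : ℝ → ℝ → ℝ} (h1 : LB φ) (h2 : LB χ) : LB fun s t => φ s t + χ s t := by
  obtain ⟨B, hB, h1⟩ := h1
  obtain ⟨C, hC, h2⟩ := h2
  refine ⟨B + C, by positivity, fun s hs t ht => ⟨?_, fun s' hs' t' ht' => ?_⟩⟩
  · exact (abs_add_le _ _).trans (add_le_add (h1 s hs t ht).1 (h2 s hs t ht).1)
  · have e1 := (h1 s hs t ht).2 s' hs' t' ht'
    have e2 := (h2 s hs t ht).2 s' hs' t' ht'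
    have e3 := abs_add_le (φ s t - φ s' t') (χ s t - χ s' t')
    rw [show φ s t + χ s t - (φ s' t' + χ s' t') = φ s t - φ s' t' + (χ s t - χ s' t') by ring]
    linarith

lemma LB.mul {φ χ : ℝ → ℝ → ℝ} (h1 : LB φ) (h2 : LB χ) : LB fun s t => φ s t * χ s t := by
  obtain ⟨B, hB, h1⟩ := h1
  obtain ⟨C, hC, h2⟩ := h2
  refine ⟨2 * (B * C), by positivity, fun s hs t ht => ⟨?_, fun s' hs' t' ht' => ?_⟩⟩
  · rw [abs_mul]
    have := mul_le_mul (h1 s hs t ht).1 (h2 s hs t ht).1 (abs_nonneg _) hB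
    nlinarith [mul_nonneg hB hC]
  · have e1 := (h1 s hs t ht).2 s' hs' t' ht'
    have e2 := (h2 s hs t ht).2 s' hs' t' ht'
    have e3 := abs_add_le (φ s t * (χ s t - χ s' t')) ((φ s t - φ s' t') * χ s' t')
    rw [show φ s t * χ s t - φ s' t' * χ s' t'
      = φ s t * (χ s t - χ s' t') + (φ s t - φ s' t') * χ s' t' by ring]
    rw [abs_mul, abs_mul] at e3
    have hd : 0 ≤ |s - s'| + |t - t'| := by positivity
    have e4 := mul_le_mul (h1 s hs t ht).1 e2 (abs_nonneg _) hB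
    have e5 := mul_le_mul e1 (h2 s' hs' t' ht').1 (abs_nonneg _) (mul_nonneg hB hd)
    nlinarith

lemma LB.sub {φ χ : ℝ → ℝ → ℝ} (h1 : LB φ) (h2 : LB χ) : LB fun s t => φ s t - χ s t := by
  have := h1.add ((LB.const (-1)).mul h2)
  convert this using 3
  ring

lemma LB.psi (f : ℕ → ℝ) {φ : ℝ → ℝ → ℝ} (h : LB φ) : LB fun s t => Psi f (φ s t) := by
  obtain ⟨B, hB, h⟩ := h
  have h0 := B0_nonneg f
  refine ⟨B0 f * (B + 1), by positivity, fun s hs t ht => ⟨?_, fun s' hs' t' ht' => ?_⟩⟩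
  · exact (Psi_bd f _).trans (by nlinarith)
  · have hd : 0 ≤ |s - s'| + |t - t'| := by positivity
    refine (Psi_lip f _ _).trans ?_
    rw [mul_assoc]
    refine mul_le_mul_of_nonneg_left (((h s hs t ht).2 s' hs' t' ht').trans ?_) h0
    nlinarith

lemma LB_ph1 (f : ℕ → ℝ) (I A C : ℝ) : LB fun s _ => ph1 f I A C s :=
  ((LB.const I).mul (((LB.const (2 * A)).mul (LB.fst.psi f)).sub ((LB.const (A ^ 2)).mul
    (LB.fst.mul ((LB.const _).sub LB.fst))))).sub (LB.const C)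

lemma LB_ph2 (f : ℕ → ℝ) (I A C : ℝ) : LB (ph2 f I A C) :=
  ((LB.const I).mul (((LB.const (2 * A)).mul (((LB.fst.psi f).add (LB.snd.psi f)).sub
    ((LB.fst.add LB.snd).psi f))).sub ((LB.const (A ^ 2)).mul
    ((LB.fst.mul LB.snd).mul (((LB.const _).sub LB.fst).sub LB.snd))))).sub (LB.const C)

lemma ph2_cont (f : ℕ → ℝ) (I A C t : ℝ) : Continuous (ph2 f I A C t) := by
  have := Psi_cont f
  unfold ph2 G2
  fun_prop

end

end Pool.Agent.P.MP_dddec0_nt.T223.Sh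
end

-- part Pool.Agent.P.MP_dddec0_nt.ShapeB
section

namespace Pool.Agent.P.MP_dddec0_nt.T223.Sh
open Finset Real Filter Pool.Agent.Lib.Tup

noncomputable section

def Pr (l : ℝ) : Finset ℕ := (range (NN l)).filter Nat.Prime

def idx (l : ℝ) (n : ℕ) : ℕ := ⌊40 * (log n / l)⌋₊

def cell (l : ℝ) (a : ℕ) : Finset ℕ := (Pr l).filter (fun p => idx l p = a)

def aw (p : ℕ) : ℝ := log p / p

lemma aw_nonneg (p : ℕ) : 0 ≤ aw p := div_nonneg (log_natCast_nonneg p) (Nat.cast_nonneg p)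

lemma aw_le_one (p : ℕ) : aw p ≤ 1 :=
  div_le_one_of_le₀ (log_le_self (Nat.cast_nonneg p)) (Nat.cast_nonneg p)

lemma idx_eq_iff {l : ℝ} (hl : 0 < l) (n a : ℕ) :
    idx l n = a ↔ (a : ℝ) * (1 / 40) ≤ log n / l ∧ log n / l < ((a : ℝ) + 1) * (1 / 40) := by
  have h0 : 0 ≤ log n / l := div_nonneg (log_natCast_nonneg n) hl.le
  rw [idx, Nat.floor_eq_iff (by linarith)]
  constructor <;> rintro ⟨h1, h2⟩ <;> constructor <;> linarith

lemma cell_mem {l : ℝ} (hl : 0 < l) {a p : ℕ} (hp : p ∈ cell l a) :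
    p.Prime ∧ (a : ℝ) * (1 / 40) ≤ log p / l ∧ log p / l < ((a : ℝ) + 1) * (1 / 40) :=
  ⟨(mem_filter.1 (mem_filter.1 hp).1).2, (idx_eq_iff hl p a).1 (mem_filter.1 hp).2⟩

lemma cell_test {δ : ℝ} (hδ : 0 < δ) :
    ∀ᶠ l : ℝ in atTop, ∀ a : ℕ, a < 200 → ∀ (B : ℝ) (φ : ℝ → ℝ),
      (∀ s ∈ Set.Icc (0 : ℝ) 5, |φ s| ≤ B) →
      (∀ s ∈ Set.Icc (0 : ℝ) 5, ∀ t ∈ Set.Icc (0 : ℝ) 5, |φ s - φ t| ≤ B * |s - t|) →
      |∑ p ∈ cell l a, aw p * φ (log p / l)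
        - l * ∫ s in ((a : ℝ) * (1 / 40))..(((a : ℝ) + 1) * (1 / 40)), φ s| ≤ δ * l * B := by
  obtain ⟨C, -, hC⟩ := mertens_ap (W := 1) one_pos
  filter_upwards [lip_test 1 C hδ, eventually_gt_atTop (0 : ℝ)] with l h hl a ha B φ h1 h2
  have ha' : (a : ℝ) + 1 ≤ 200 := by exact_mod_cast ha
  have ha0 : (0 : ℝ) ≤ a := Nat.cast_nonneg a
  have hsub : Set.Icc ((a : ℝ) * (1 / 40)) (((a : ℝ) + 1) * (1 / 40)) ⊆ Set.Icc 0 5 :=
    Set.Icc_subset_Icc (by linarith) (by linarith)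
  have := h (NN l) (fun n => if n.Prime ∧ n ≡ 0 [MOD 1] then log n / n else 0)
    ((a : ℝ) * (1 / 40)) (((a : ℝ) + 1) * (1 / 40)) B φ
    (fun n => by split_ifs; exacts [aw_nonneg n, le_rfl])
    (fun x hx hx5 => by
      have := hC 0 (NN l) x (by simp) hx ((exp_le_exp.2 hx5).trans (Nat.le_ceil _))
      simpa using this)
    (by linarith) (by linarith) (by linarith) (fun s hs => h1 s (hsub hs))
    (fun s hs t ht => h2 s (hsub hs) t (hsub ht))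
  rw [one_mul] at this
  convert this using 3
  rw [cell, Pr, filter_filter, sum_filter, sum_filter]
  refine sum_congr rfl fun n _ => ?_
  have e : (idx l n = a) ↔ ((a : ℝ) * (1 / 40) * l ≤ log n ∧
      log n < ((a : ℝ) + 1) * (1 / 40) * l) := by
    rw [idx_eq_iff hl, le_div_iff₀ hl, div_lt_iff₀ hl]
  by_cases hp : n.Prime
  · simp only [hp, true_and, e, Nat.modEq_one, if_true, aw]
  · simp [hp]

lemma cell1 {φ : ℝ → ℝ} (hφ : LB fun s _ => φ s) {a : ℕ} (ha : a < 200) {δ : ℝ} (hδ : 0 < δ) :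
    ∀ᶠ l : ℝ in atTop, (∫ s in ((a : ℝ) * (1 / 40))..(((a : ℝ) + 1) * (1 / 40)), φ s) - δ
      ≤ ∑ p ∈ cell l a, aw p / l * φ (log p / l) := by
  obtain ⟨B, hB, h⟩ := hφ
  have h0 : (0 : ℝ) ∈ Set.Icc (0 : ℝ) 5 := ⟨le_rfl, by norm_num⟩
  filter_upwards [cell_test (δ := δ / (B + 1)) (by positivity), eventually_gt_atTop (0 : ℝ)]
    with l h1 hl
  have h2 := (abs_le.1 (h1 a ha B φ (fun s hs => (h s hs 0 h0).1)
    (fun s hs t ht => by simpa using (h s hs 0 h0).2 t ht 0 h0))).1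
  have h3 : δ / (B + 1) * B ≤ δ := by
    rw [div_mul_eq_mul_div, div_le_iff₀ (by positivity)]
    nlinarith
  have h4 : ∑ p ∈ cell l a, aw p / l * φ (log p / l)
      = (∑ p ∈ cell l a, aw p * φ (log p / l)) / l := by
    rw [sum_div]
    exact sum_congr rfl fun p _ => by ring
  rw [h4, le_div_iff₀ hl]
  nlinarith

lemma cell2 {φ : ℝ → ℝ → ℝ} (hφ : LB φ) (hc : ∀ t, Continuous (φ t)) {a b : ℕ} (ha : a < 200)
    (hb : b < 200) {δ : ℝ} (hδ : 0 < δ) :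
    ∀ᶠ l : ℝ in atTop, (∫ t in ((a : ℝ) * (1 / 40))..(((a : ℝ) + 1) * (1 / 40)),
        ∫ s in ((b : ℝ) * (1 / 40))..(((b : ℝ) + 1) * (1 / 40)), φ t s) - δ
      ≤ ∑ p ∈ cell l a, ∑ q ∈ (cell l b).erase p,
          aw p / l * (aw q / l) * φ (log p / l) (log q / l) := by
  obtain ⟨B, hB, h⟩ := hφ
  obtain ⟨d, hd, hd1, hdB⟩ : ∃ d : ℝ, 0 < d ∧ d ≤ 1 ∧ 5 * (d * B) ≤ δ := by
    refine ⟨min 1 (δ / (5 * (B + 1))), by positivity, min_le_left _ _, ?_⟩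
    have h1 : min 1 (δ / (5 * (B + 1))) * B ≤ δ / (5 * (B + 1)) * (B + 1) :=
      mul_le_mul (min_le_right _ _) (by linarith) hB (by positivity)
    have h2 : δ / (5 * (B + 1)) * (B + 1) = δ / 5 := by field_simp
    linarith
  have ha' : (a : ℝ) + 1 ≤ 200 := by exact_mod_cast ha
  have ha0 : (0 : ℝ) ≤ a := Nat.cast_nonneg a
  have hb' : (b : ℝ) + 1 ≤ 200 := by exact_mod_cast hb
  have hb0 : (0 : ℝ) ≤ b := Nat.cast_nonneg b
  set Φ : ℝ → ℝ := fun t => ∫ s in ((b : ℝ) * (1 / 40))..(((b : ℝ) + 1) * (1 / 40)), φ t s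
    with hΦ
  have hI : ∀ s ∈ Set.uIoc ((b : ℝ) * (1 / 40)) (((b : ℝ) + 1) * (1 / 40)),
      s ∈ Set.Icc (0 : ℝ) 5 := by
    intro s hs
    rw [Set.uIoc_of_le (by linarith)] at hs
    exact ⟨by linarith [hs.1], by linarith [hs.2]⟩
  have hlen : |((b : ℝ) + 1) * (1 / 40) - (b : ℝ) * (1 / 40)| ≤ 1 := by
    rw [abs_of_nonneg (by linarith)]
    linarith
  have hΦ1 : ∀ t ∈ Set.Icc (0 : ℝ) 5, |Φ t| ≤ B := fun t ht =>
    (intervalIntegral.norm_integral_le_of_norm_le_const (C := B) (f := φ t)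
      (fun s hs => (h t ht s (hI s hs)).1)).trans (mul_le_of_le_one_right hB hlen)
  have hΦ2 : ∀ t ∈ Set.Icc (0 : ℝ) 5, ∀ t' ∈ Set.Icc (0 : ℝ) 5, |Φ t - Φ t'| ≤ B * |t - t'| := by
    intro t ht t' ht'
    simp only [hΦ]
    rw [← intervalIntegral.integral_sub ((hc t).intervalIntegrable _ _)
      ((hc t').intervalIntegrable _ _)]
    refine (intervalIntegral.norm_integral_le_of_norm_le_const (C := B * |t - t'|)
      (f := fun s => φ t s - φ t' s) (fun s hs => ?_)).trans (mul_le_of_le_one_right (by positivity) hlen)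
    simpa using (h t ht s (hI s hs)).2 t' ht' s (hI s hs)
  filter_upwards [cell_test hd, eventually_gt_atTop (0 : ℝ), eventually_ge_atTop (1 / d)]
    with l h1 hl hld
  have hld' : 1 ≤ d * l := by
    rw [div_le_iff₀ hd] at hld
    linarith
  have e1 := (abs_le.1 (h1 a ha B Φ hΦ1 hΦ2)).1
  have e2 := (abs_le.1 (h1 a ha 1 (fun _ => 1) (fun s _ => by simp)
    (fun s _ t _ => by simp))).2
  simp only [mul_one, intervalIntegral.integral_const, smul_eq_mul] at e2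
  have e3 : ∀ p ∈ cell l a, aw p / l * (Φ (log p / l) - 2 * (d * B))
      ≤ ∑ q ∈ (cell l b).erase p, aw p / l * (aw q / l) * φ (log p / l) (log q / l) := by
    intro p hp
    obtain ⟨-, hp1, hp2⟩ := cell_mem hl hp
    have hp5 : log p / l ∈ Set.Icc (0 : ℝ) 5 := ⟨by linarith, by linarith⟩
    have f1 := (abs_le.1 (h1 b hb B (φ (log p / l)) (fun s hs => (h _ hp5 s hs).1)
      (fun s hs t ht => by simpa using (h _ hp5 s hs).2 _ hp5 t ht))).1
    have f2 : ∑ q ∈ cell l b, aw q * φ (log p / l) (log q / l) - B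
        ≤ ∑ q ∈ (cell l b).erase p, aw q * φ (log p / l) (log q / l) := by
      by_cases hpb : p ∈ cell l b
      · rw [← add_sum_erase _ _ hpb]
        have g1 := (abs_le.1 (h _ hp5 _ hp5).1).2
        have g2 : aw p * φ (log p / l) (log p / l) ≤ 1 * B :=
          (mul_le_mul_of_nonneg_left g1 (aw_nonneg p)).trans
            (mul_le_mul_of_nonneg_right (aw_le_one p) hB)
        linarith
      · rw [erase_eq_of_notMem hpb]
        linarith
    have f3 : ∑ q ∈ (cell l b).erase p, aw p / l * (aw q / l) * φ (log p / l) (log q / l)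
        = aw p / l * ((∑ q ∈ (cell l b).erase p, aw q * φ (log p / l) (log q / l)) / l) := by
      rw [sum_div, mul_sum]
      exact sum_congr rfl fun q _ => by ring
    rw [f3]
    refine mul_le_mul_of_nonneg_left ?_ (div_nonneg (aw_nonneg p) hl.le)
    rw [le_div_iff₀ hl]
    have f4 : B ≤ d * l * B := le_mul_of_one_le_left hB hld'
    simp only [hΦ]
    nlinarith
  refine le_trans ?_ (sum_le_sum e3)
  have e4 : ∑ p ∈ cell l a, aw p / l * (Φ (log p / l) - 2 * (d * B))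
      = (∑ p ∈ cell l a, aw p * Φ (log p / l) - 2 * (d * B) * ∑ p ∈ cell l a, aw p) / l := by
    rw [mul_sum, ← sum_sub_distrib, sum_div]
    exact sum_congr rfl fun q _ => by ring
  rw [e4, le_div_iff₀ hl]
  have e5 : ∑ p ∈ cell l a, aw p ≤ 2 * l := by nlinarith
  have e6 := mul_le_mul_of_nonneg_left e5 (by positivity : 0 ≤ 2 * (d * B))
  have e7 := mul_le_mul_of_nonneg_right hdB hl.le
  nlinarith

lemma am_gm {g X A : ℝ} (hX : 0 < X) : 2 * A * g - A ^ 2 * X ≤ g ^ 2 / X := by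
  rw [le_div_iff₀ hX]
  nlinarith [sq_nonneg (g - A * X)]

lemma opt_val (x V : ℝ) : 2 * (x / V) * x - (x / V) ^ 2 * V = x ^ 2 / V := by
  by_cases h : V = 0
  · simp [h]
  · field_simp
    ring

/-- One cell, numbers with two prime factors. -/
lemma cell_two (f : ℕ → ℝ) {I : ℝ} (hI : 0 ≤ I) {a : ℕ} (ha1 : 1 ≤ a) (ha : a < 80) {ε : ℝ}
    (hε : 0 < ε) :
    ∀ᶠ l : ℝ in atTop,
      I * (1 / 40) * (((pre f a + pre f (a + 1)) / 2) ^ 2 / V1 a) - ε * (B0 f ^ 2 + 1)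
      ≤ ∑ p ∈ cell l a, Psi f (log p / l) ^ 2 / p * (I / (4001 / 1000 - log p / l) - ε) := by
  set A : ℝ := ((pre f a + pre f (a + 1)) / 3200) / (V1 a / 64000) with hA
  filter_upwards [cell1 (LB_ph1 f I A (40 * (ε * B0 f ^ 2))) (a := a) (by omega) hε,
    eventually_gt_atTop (0 : ℝ)] with l h hl
  rw [int_ph1, hA, opt_val] at h
  refine le_trans (le_of_eq ?_) (h.trans (sum_le_sum fun p hp => ?_))
  · ring
  · obtain ⟨hpp, hp1, hp2⟩ := cell_mem hl hp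
    have ha1' : (1 : ℝ) ≤ a := by exact_mod_cast ha1
    have ha' : (a : ℝ) + 1 ≤ 80 := by exact_mod_cast ha
    have hp0 : (0 : ℝ) < p := by exact_mod_cast hpp.pos
    set t := log p / l with ht
    have ht0 : 0 < t := by linarith
    have hw : 0 < 4001 / 1000 - t := by linarith
    have e : Psi f t ^ 2 / p * (I / (4001 / 1000 - t) - ε)
        = aw p / l * (I * (Psi f t ^ 2 / (t * (4001 / 1000 - t))) - ε * (Psi f t ^ 2 / t)) := by
      have : aw p / l = t / p := by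
        rw [aw, ht]
        ring
      rw [this]
      field_simp
    rw [e]
    refine mul_le_mul_of_nonneg_left ?_ (div_nonneg (aw_nonneg p) hl.le)
    have g1 := mul_le_mul_of_nonneg_left (am_gm (g := Psi f t) (A := A) (mul_pos ht0 hw)) hI
    have g2 : Psi f t ^ 2 / t ≤ 40 * B0 f ^ 2 := by
      rw [div_le_iff₀ ht0]
      have := sq_le_sq' (abs_le.1 (Psi_bd f t)).1 (abs_le.1 (Psi_bd f t)).2
      nlinarith [sq_nonneg (B0 f)]
    have g3 := mul_le_mul_of_nonneg_left g2 hε.le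
    unfold ph1
    rw [← hA]
    linarith

/-- One pair of cells, numbers with three prime factors. -/
lemma cell_three (f : ℕ → ℝ) {I : ℝ} (hI : 0 ≤ I) {a b : ℕ} (ha1 : 1 ≤ a) (hb1 : 1 ≤ b)
    (hab : a + b + 2 ≤ 160) {ε : ℝ} (hε : 0 < ε) :
    ∀ᶠ l : ℝ in atTop,
      I * (1 / 40) * (ell (pre f) a b ^ 2 / V2 a b) - ε * (9 * B0 f ^ 2 + 1)
      ≤ ∑ p ∈ cell l a, ∑ q ∈ (cell l b).erase p, G2 f (log p / l) (log q / l) ^ 2 / (p * q)
          * (I / (4001 / 1000 - (log p / l + log q / l)) - ε) := by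
  set A : ℝ := (ell (pre f) a b / 64000) / (V2 a b / 102400000) with hA
  filter_upwards [cell2 (LB_ph2 f I A (1600 * (ε * (9 * B0 f ^ 2)))) (ph2_cont f I A _)
    (a := a) (b := b) (by omega) (by omega) hε, eventually_gt_atTop (0 : ℝ)] with l h hl
  rw [int_ph2, hA, opt_val] at h
  refine le_trans (le_of_eq ?_) (h.trans (sum_le_sum fun p hp => sum_le_sum fun q hq => ?_))
  · ring
  · obtain ⟨hpp, hp1, hp2⟩ := cell_mem hl hp
    obtain ⟨hqp, hq1, hq2⟩ := cell_mem hl (mem_of_mem_erase hq)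
    have ha1' : (1 : ℝ) ≤ a := by exact_mod_cast ha1
    have hb1' : (1 : ℝ) ≤ b := by exact_mod_cast hb1
    have hab' : (a : ℝ) + b + 2 ≤ 160 := by exact_mod_cast hab
    have hp0 : (0 : ℝ) < p := by exact_mod_cast hpp.pos
    have hq0 : (0 : ℝ) < q := by exact_mod_cast hqp.pos
    set t := log p / l with ht
    set s := log q / l with hs
    have ht0 : 0 < t := by linarith
    have hs0 : 0 < s := by linarith
    have hw : 0 < 4001 / 1000 - t - s := by linarith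
    have e : G2 f t s ^ 2 / (p * q) * (I / (4001 / 1000 - (t + s)) - ε)
        = aw p / l * (aw q / l) * (I * (G2 f t s ^ 2 / (t * s * (4001 / 1000 - t - s)))
          - ε * (G2 f t s ^ 2 / (t * s))) := by
      have h1 : aw p / l = t / p := by
        rw [aw, ht]
        ring
      have h2 : aw q / l = s / q := by
        rw [aw, hs]
        ring
      rw [h1, h2, ← sub_sub]
      field_simp
    rw [e]
    refine mul_le_mul_of_nonneg_left ?_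
      (mul_nonneg (div_nonneg (aw_nonneg p) hl.le) (div_nonneg (aw_nonneg q) hl.le))
    have g1 := mul_le_mul_of_nonneg_left
      (am_gm (g := G2 f t s) (A := A) (mul_pos (mul_pos ht0 hs0) hw)) hI
    have g2 : G2 f t s ^ 2 / (t * s) ≤ 1600 * (9 * B0 f ^ 2) := by
      rw [div_le_iff₀ (mul_pos ht0 hs0)]
      have k1 := abs_le.1 (Psi_bd f t)
      have k2 := abs_le.1 (Psi_bd f s)
      have k3 := abs_le.1 (Psi_bd f (t + s))
      have : G2 f t s ^ 2 ≤ (3 * B0 f) ^ 2 :=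
        sq_le_sq' (by unfold G2; linarith) (by unfold G2; linarith)
      have k4 : 1 / 40 * (1 / 40) ≤ t * s :=
        mul_le_mul (by linarith) (by linarith) (by norm_num) ht0.le
      nlinarith [sq_nonneg (B0 f)]
    have g3 := mul_le_mul_of_nonneg_left g2 hε.le
    unfold ph2
    rw [← hA]
    linarith

end

end Pool.Agent.P.MP_dddec0_nt.T223.Sh
end

-- part Pool.Agent.P.MP_dddec0_nt.ShapeC
section

namespace Pool.Agent.P.MP_dddec0_nt.T223.Sh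
open Finset Real Filter Pool.Agent.Lib.Tup

noncomputable section

def GG (f : ℕ → ℝ) (l : ℝ) (m : ℕ) : ℝ :=
  ∑ a ∈ range 43, f a * Gt l (a * (1 / 40)) ((a + 1) * (1 / 40)) m

lemma GG_eq (f : ℕ → ℝ) (l : ℝ) (m : ℕ) :
    GG f l m = ∑ S ∈ m.primeFactors.powerset, (-1) ^ S.card * Rr f (sz S / l) := by
  simp only [GG, Gt, Rr, mul_sum]
  rw [sum_comm]
  exact sum_congr rfl fun S _ => sum_congr rfl fun a _ => by ring

lemma pf_mul {k p : ℕ} (hk : k ≠ 0) (hp : p.Prime) :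
    (k * p).primeFactors = insert p k.primeFactors := by
  rw [Nat.primeFactors_mul hk hp.ne_zero, hp.primeFactors, union_comm, insert_eq]

lemma GG_mul (f : ℕ → ℝ) (l : ℝ) {k p : ℕ} (hk : k ≠ 0) (hp : p.Prime) (hpk : ¬ p ∣ k) :
    GG f l (k * p) = GG f l k
      - ∑ S ∈ k.primeFactors.powerset, (-1) ^ S.card * Rr f (log p / l + sz S / l) := by
  have hn : p ∉ k.primeFactors := fun h => hpk (Nat.dvd_of_mem_primeFactors h)
  rw [GG_eq, GG_eq, pf_mul hk hp, sum_powerset_insert hn, sub_eq_add_neg, ← sum_neg_distrib]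
  congr 1
  refine sum_congr rfl fun S hS => ?_
  have hS' : p ∉ S := fun h => hn (mem_powerset.1 hS h)
  rw [card_insert_of_notMem hS', sz, sum_insert hS', add_div, pow_succ, sz]
  ring

lemma GG_mul_big (f : ℕ → ℝ) {l : ℝ} (hl : 0 < l) {k p : ℕ} (hk : k ≠ 0) (hp : p.Prime)
    (hpk : ¬ p ∣ k) (hb : 43 / 40 ≤ log p / l) : GG f l (k * p) = GG f l k := by
  rw [GG_mul f l hk hp hpk, sum_eq_zero, sub_zero]
  intro S _
  rw [Rr_big f (by linarith [div_nonneg (sz_nonneg S) hl.le]), mul_zero]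

lemma GG_one (f : ℕ → ℝ) (l : ℝ) : GG f l 1 = pre f 43 / 40 := by
  rw [GG_eq, ← Rr_zero]
  simp [sz]

lemma GG_prime (f : ℕ → ℝ) (l : ℝ) {p : ℕ} (hp : p.Prime) : GG f l p = Psi f (log p / l) := by
  have := GG_mul f l one_ne_zero hp hp.not_dvd_one
  rw [one_mul, GG_one, ← Rr_zero] at this
  rw [this, Psi]
  simp [sz]

lemma GG_two (f : ℕ → ℝ) (l : ℝ) {p q : ℕ} (hp : p.Prime) (hq : q.Prime) (h : p ≠ q) :
    GG f l (p * q) = G2 f (log p / l) (log q / l) := by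
  rw [GG_mul f l hp.ne_zero hq (fun h' => h ((Nat.prime_dvd_prime_iff_eq hq hp).1 h').symm),
    GG_prime f l hp, hp.primeFactors, show ({p} : Finset ℕ) = insert p ∅ from rfl,
    sum_powerset_insert (notMem_empty p)]
  simp [sz, G2, Psi, add_comm]
  ring

lemma sum_le_of_fiber {α : Type*} (T : Finset α) (g : α → ℕ) (S : Finset ℕ) (H : ℕ → ℝ) (M : ℕ)
    (hS : ∀ x ∈ T, g x ∈ S) (hH : ∀ m ∈ S, 0 ≤ H m)
    (hM : ∀ m ∈ S, (T.filter (fun x => g x = m)).card ≤ M) :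
    ∑ x ∈ T, H (g x) ≤ M * ∑ m ∈ S, H m := by
  rw [← sum_fiberwise_of_maps_to hS, mul_sum]
  refine sum_le_sum fun m hm => ?_
  rw [sum_congr rfl (g := fun _ => H m) (fun x hx => by rw [(mem_filter.1 hx).2]), sum_const,
    nsmul_eq_mul]
  exact mul_le_mul_of_nonneg_right (by exact_mod_cast hM m hm) (hH m hm)

lemma RS_mul {η l : ℝ} {k p : ℕ} (hk : RS η l k) (hp : p.Prime) (hpk : ¬ p ∣ k)
    (h : η * l < log p) : RS η l (k * p) := by
  refine ⟨(Nat.squarefree_mul ((hp.coprime_iff_not_dvd.2 hpk).symm)).2 ⟨hk.1, hp.squarefree⟩,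
    fun q hq hd => ?_⟩
  rcases (hq.dvd_mul).1 hd with h1 | h1
  · exact hk.2 q hq h1
  · rwa [(Nat.prime_dvd_prime_iff_eq hq hp).1 h1]

lemma RS_one (η l : ℝ) : RS η l 1 :=
  ⟨squarefree_one, fun _ hq hd => absurd hd hq.not_dvd_one⟩

lemma log_mul_div {k p : ℕ} (hk : k ≠ 0) (hp : p ≠ 0) (l : ℝ) :
    log (k * p : ℕ) / l = log k / l + log p / l := by
  rw [Nat.cast_mul, log_mul (by exact_mod_cast hk) (by exact_mod_cast hp), add_div]

open Classical in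
lemma outer {α : Type*} (f : ℕ → ℝ) {ψ : ℝ → ℝ} {s0 : ℝ} (hψ : Bump ψ s0 (4001 / 1000))
    (h4 : 4 < s0) (W b : ℕ) {l η : ℝ} (hl : 0 < l) (hη : η ≤ 1 / 80) (K : Finset α) (k : α → ℕ)
    (r M : ℕ) (Low : α → ℝ)
    (hk : ∀ x ∈ K, RS η l (k x) ∧ (k x).primeFactors.card = r ∧ log (k x) / l ≤ 117 / 40)
    (hlow : ∀ x ∈ K, Low x ≤ ∑ p ∈ (range (NN l)).filter
      (fun p => p.Prime ∧ k x * p ≡ b [MOD W] ∧ ¬ p ∣ k x), ψ (log (k x * p : ℕ) / l) / p)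
    (hM : ∀ (m : ℕ) (T : Finset (α × ℕ)), (∀ y ∈ T, y.1 ∈ K ∧ y.2.Prime ∧
      4 < log (k y.1) / l + log y.2 / l ∧ k y.1 * y.2 = m) → T.card ≤ M) :
    ∑ x ∈ K, GG f l (k x) ^ 2 / k x * Low x
      ≤ M * ∑ m ∈ ((cls l W b).filter (RS η l)).filter (fun m => m.primeFactors.card = r + 1),
        wg ψ l m * GG f l m ^ 2 := by
  set T := (K ×ˢ range (NN l)).filter (fun y => (y.2.Prime ∧ k y.1 * y.2 ≡ b [MOD W] ∧
    ¬ y.2 ∣ k y.1) ∧ ψ (log (k y.1 * y.2 : ℕ) / l) ≠ 0) with hT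
  have hT1 : ∀ y ∈ T, y.1 ∈ K ∧ k y.1 ≠ 0 ∧ y.2.Prime ∧ k y.1 * y.2 ≡ b [MOD W] ∧
      ¬ y.2 ∣ k y.1 ∧ 4 < log (k y.1) / l + log y.2 / l ∧ log (k y.1 * y.2 : ℕ) / l < 5 ∧
      43 / 40 ≤ log y.2 / l := by
    intro y hy
    obtain ⟨h1, ⟨h2, h3, h5⟩, h6⟩ := mem_filter.1 hy
    have h0 := (mem_product.1 h1).1
    have hk0 : k y.1 ≠ 0 := (hk _ h0).1.1.ne_zero
    have h7 := hψ.supp _ h6
    have h8 := log_mul_div hk0 h2.ne_zero l
    have h9 := (hk _ h0).2.2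
    exact ⟨h0, hk0, h2, h3, h5, by linarith [h7.1], by linarith [h7.2], by linarith [h7.1]⟩
  refine le_trans ?_ (sum_le_of_fiber T (fun y => k y.1 * y.2) _
    (fun m => wg ψ l m * GG f l m ^ 2) M (fun y hy => ?_)
    (fun m _ => mul_nonneg (wg_nonneg hψ l m) (sq_nonneg _)) (fun m _ => hM m _ fun y hy => ?_))
  · have e : ∑ y ∈ T, wg ψ l (k y.1 * y.2) * GG f l (k y.1 * y.2) ^ 2
        = ∑ y ∈ T, GG f l (k y.1) ^ 2 / k y.1 * (ψ (log (k y.1 * y.2 : ℕ) / l) / y.2) := by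
      refine sum_congr rfl fun y hy => ?_
      obtain ⟨-, h1, h2, -, h3, -, -, h5⟩ := hT1 y hy
      rw [GG_mul_big f hl h1 h2 h3 h5, wg]
      generalize ψ (log (k y.1 * y.2 : ℕ) / l) = z
      push_cast
      ring
    rw [e, hT, ← filter_filter, sum_filter_of_ne, sum_filter, sum_product]
    · refine sum_le_sum fun x hx => ?_
      dsimp only
      rw [← sum_filter, ← mul_sum]
      exact mul_le_mul_of_nonneg_left (hlow x hx) (by positivity)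
    · intro y _ h h'
      exact h (by rw [h']; simp)
  · obtain ⟨h0, h1, h2, h3, h5, -, h6, h7⟩ := hT1 y hy
    refine mem_filter.2 ⟨mem_filter.2 ⟨mem_filter.2 ⟨mem_range.2 ?_, h3⟩, ?_⟩, ?_⟩
    · rw [lt_NN (mul_ne_zero h1 h2.ne_zero)]
      rwa [div_lt_iff₀ hl] at h6
    · refine RS_mul (hk _ h0).1 h2 h5 ?_
      rw [le_div_iff₀ hl] at h7
      nlinarith
    · rw [pf_mul h1 h2, card_insert_of_notMem (fun h => h5 (Nat.dvd_of_mem_primeFactors h)),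
        (hk _ h0).2.1]
  · obtain ⟨h0, -, h2, -, -, h5, -, -⟩ := hT1 y (mem_filter.1 hy).1
    exact ⟨h0, h2, h5, (mem_filter.1 hy).2⟩

lemma perm2 {p1 p2 q1 q2 : ℕ} (h1 : p1.Prime) (h2 : p2.Prime) (k1 : q1.Prime)
    (h : p1 * p2 = q1 * q2) : (q1 = p1 ∧ q2 = p2) ∨ (q1 = p2 ∧ q2 = p1) := by
  rcases (k1.dvd_mul).1 (show q1 ∣ p1 * p2 from ⟨q2, h⟩) with e | e
  · obtain rfl := (Nat.prime_dvd_prime_iff_eq k1 h1).1 e
    exact Or.inl ⟨rfl, (Nat.eq_of_mul_eq_mul_left h1.pos h).symm⟩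
  · obtain rfl := (Nat.prime_dvd_prime_iff_eq k1 h2).1 e
    rw [mul_comm] at h
    exact Or.inr ⟨rfl, (Nat.eq_of_mul_eq_mul_left h2.pos h).symm⟩

lemma perm3 {p1 p2 p3 q1 q2 q3 : ℕ} (h1 : p1.Prime) (h2 : p2.Prime) (h3 : p3.Prime)
    (k1 : q1.Prime) (k3 : q3.Prime) (h : p1 * p2 * p3 = q1 * q2 * q3) :
    (q3 = p3 ∧ ((q1 = p1 ∧ q2 = p2) ∨ (q1 = p2 ∧ q2 = p1))) ∨
    (q3 = p2 ∧ ((q1 = p1 ∧ q2 = p3) ∨ (q1 = p3 ∧ q2 = p1))) ∨
    (q3 = p1 ∧ ((q1 = p2 ∧ q2 = p3) ∨ (q1 = p3 ∧ q2 = p2))) := by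
  rcases (k3.dvd_mul).1 (show q3 ∣ p1 * p2 * p3 from ⟨q1 * q2, by rw [h]; ring⟩) with e | e
  · rcases (k3.dvd_mul).1 e with e | e
    · obtain rfl := (Nat.prime_dvd_prime_iff_eq k3 h1).1 e
      exact Or.inr (Or.inr ⟨rfl, perm2 h2 h3 k1
        (Nat.eq_of_mul_eq_mul_left h1.pos (by linarith))⟩)
    · obtain rfl := (Nat.prime_dvd_prime_iff_eq k3 h2).1 e
      exact Or.inr (Or.inl ⟨rfl, perm2 h1 h3 k1
        (Nat.eq_of_mul_eq_mul_left h2.pos (by linarith))⟩)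
  · obtain rfl := (Nat.prime_dvd_prime_iff_eq k3 h3).1 e
    exact Or.inl ⟨rfl, perm2 h1 h2 k1 (Nat.eq_of_mul_eq_mul_right h3.pos h)⟩

lemma mem_reg2 {x : ℕ × ℕ} : x ∈ reg2 ↔ ((1 ≤ x.1 ∧ x.1 < 160) ∧ (1 ≤ x.2 ∧ x.2 < 160)) ∧
    (max 43 (x.1 + 1) ≤ x.2 ∧ x.1 + x.2 + 2 + max 43 (x.1 + 1) ≤ 160) := by
  rw [reg2, mem_filter, mem_product, mem_Ico, mem_Ico]

attribute [local irreducible] reg2

@[irreducible] def Reg : Finset (ℕ × ℕ) := (Ico 1 43 ×ˢ Ico 1 43) ∪ reg2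

lemma Reg_bd {x : ℕ × ℕ} (h : x ∈ Reg) : 1 ≤ x.1 ∧ 1 ≤ x.2 ∧ x.1 + x.2 + 2 ≤ 117 ∧
    ((x.1 + 1 ≤ 43 ∧ x.2 + 1 ≤ 43) ∨
      (43 ≤ x.2 ∧ x.1 + 1 ≤ x.2 ∧ x.1 + x.2 + 2 + (x.1 + 1) ≤ 160)) := by
  rw [Reg, mem_union, mem_reg2, mem_product, mem_Ico, mem_Ico] at h
  omega

lemma Reg_disj : Disjoint (Ico 1 43 ×ˢ Ico 1 43) reg2 := by
  refine disjoint_left.2 fun x h1 => ?_
  rw [mem_reg2]
  rw [mem_product, mem_Ico, mem_Ico] at h1
  omega

lemma sum_Reg (F : ℕ × ℕ → ℝ) : ∑ x ∈ Reg, F x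
    = ∑ a ∈ Ico 1 43, ∑ b ∈ Ico 1 43, F (a, b) + ∑ x ∈ reg2, F x := by
  rw [Reg, sum_union Reg_disj, sum_product]

def Ty (t1 t2 t3 : ℝ) : Prop :=
  (t1 < 43 / 40 ∧ t2 < 43 / 40 ∧ 43 / 40 ≤ t3) ∨ (t1 < t2 ∧ t1 < t3 ∧ 43 / 40 ≤ t2 ∧ 43 / 40 ≤ t3)

def K3 (l : ℝ) : Finset (ℕ × ℕ) := (Pr l).offDiag.filter (fun x => (idx l x.1, idx l x.2) ∈ Reg)

lemma K3_mem {l : ℝ} (hl : 0 < l) {x : ℕ × ℕ} (hx : x ∈ K3 l) :
    x.1.Prime ∧ x.2.Prime ∧ x.1 ≠ x.2 ∧ 1 / 40 ≤ log x.1 / l ∧ 1 / 40 ≤ log x.2 / l ∧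
      log x.1 / l + log x.2 / l ≤ 117 / 40 ∧
      ∀ t : ℝ, 4 < log x.1 / l + log x.2 / l + t → Ty (log x.1 / l) (log x.2 / l) t := by
  obtain ⟨h1, h2⟩ := mem_filter.1 hx
  obtain ⟨h3, h4, h5⟩ := mem_offDiag.1 h1
  obtain ⟨r1, r2, r3, r4⟩ := Reg_bd h2
  obtain ⟨a1, a2⟩ := (idx_eq_iff hl x.1 _).1 rfl
  obtain ⟨b1, b2⟩ := (idx_eq_iff hl x.2 _).1 rfl
  simp only at r1 r2 r3 r4
  generalize idx l x.1 = a at *
  generalize idx l x.2 = b at *
  have r1' : (1 : ℝ) ≤ a := by exact_mod_cast r1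
  have r2' : (1 : ℝ) ≤ b := by exact_mod_cast r2
  have r3' : (a : ℝ) + b + 2 ≤ 117 := by exact_mod_cast r3
  refine ⟨(mem_filter.1 h3).2, (mem_filter.1 h4).2, h5, by linarith, by linarith, by linarith,
    fun t ht => ?_⟩
  rcases r4 with ⟨c1, c2⟩ | ⟨c1, c2, c3⟩
  · have c1' : (a : ℝ) + 1 ≤ 43 := by exact_mod_cast c1
    have c2' : (b : ℝ) + 1 ≤ 43 := by exact_mod_cast c2
    exact Or.inl ⟨by linarith, by linarith, by linarith⟩
  · have c1' : (43 : ℝ) ≤ b := by exact_mod_cast c1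
    have c2' : (a : ℝ) + 1 ≤ b := by exact_mod_cast c2
    have c3' : (a : ℝ) + b + 2 + (a + 1) ≤ 160 := by exact_mod_cast c3
    exact Or.inr ⟨by linarith, by linarith, by linarith, by linarith⟩

lemma fiber3 {l : ℝ} (hl : 0 < l) (m : ℕ) (T : Finset ((ℕ × ℕ) × ℕ))
    (h : ∀ y ∈ T, y.1 ∈ K3 l ∧ y.2.Prime ∧
      4 < log (y.1.1 * y.1.2 : ℕ) / l + log y.2 / l ∧ y.1.1 * y.1.2 * y.2 = m) : T.card ≤ 2 := by
  have h' : ∀ y ∈ T, y.1.1.Prime ∧ y.1.2.Prime ∧ y.2.Prime ∧ y.1.1 * y.1.2 * y.2 = m ∧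
      Ty (log y.1.1 / l) (log y.1.2 / l) (log y.2 / l) := by
    intro y hy
    obtain ⟨h1, h2, h3, h4⟩ := h y hy
    obtain ⟨k1, k2, -, -, -, -, k3⟩ := K3_mem hl h1
    rw [log_mul_div k1.ne_zero k2.ne_zero] at h3
    exact ⟨k1, k2, h2, h4, k3 _ h3⟩
  rcases T.eq_empty_or_nonempty with rfl | ⟨⟨⟨p1, p2⟩, p3⟩, hx⟩
  · simp
  obtain ⟨a1, a2, a3, a4, a5⟩ := h' _ hx
  simp only at a1 a2 a3 a4 a5
  rcases a5 with ⟨c1, c2, c3⟩ | ⟨c1, c2, c3, c4⟩
  · refine (card_le_card (t := {((p1, p2), p3), ((p2, p1), p3)}) ?_).trans card_le_two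
    rintro ⟨⟨q1, q2⟩, q3⟩ hy
    obtain ⟨b1, b2, b3, b4, b5⟩ := h' _ hy
    simp only at b1 b2 b3 b4 b5
    rcases perm3 a1 a2 a3 b1 b3 (a4.trans b4.symm) with
      ⟨rfl, ⟨rfl, rfl⟩ | ⟨rfl, rfl⟩⟩ | ⟨rfl, ⟨rfl, rfl⟩ | ⟨rfl, rfl⟩⟩ |
      ⟨rfl, ⟨rfl, rfl⟩ | ⟨rfl, rfl⟩⟩
    · simp
    · simp
    all_goals
      exfalso
      rcases b5 with ⟨d1, d2, d3⟩ | ⟨d1, d2, d3, d4⟩ <;> linarith
  · refine (card_le_card (t := {((p1, p2), p3), ((p1, p3), p2)}) ?_).trans card_le_two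
    rintro ⟨⟨q1, q2⟩, q3⟩ hy
    obtain ⟨b1, b2, b3, b4, b5⟩ := h' _ hy
    simp only at b1 b2 b3 b4 b5
    rcases perm3 a1 a2 a3 b1 b3 (a4.trans b4.symm) with
      ⟨rfl, ⟨rfl, rfl⟩ | ⟨rfl, rfl⟩⟩ | ⟨rfl, ⟨rfl, rfl⟩ | ⟨rfl, rfl⟩⟩ |
      ⟨rfl, ⟨rfl, rfl⟩ | ⟨rfl, rfl⟩⟩
    · simp
    on_goal 2 => simp
    all_goals
      exfalso
      rcases b5 with ⟨d1, d2, d3⟩ | ⟨d1, d2, d3, d4⟩ <;> linarith

def K2 (l : ℝ) : Finset ℕ := (Pr l).filter (fun p => idx l p ∈ Ico 1 80)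

lemma K2_mem {l : ℝ} (hl : 0 < l) {p : ℕ} (hp : p ∈ K2 l) :
    p.Prime ∧ 1 / 40 ≤ log p / l ∧ log p / l < 2 := by
  obtain ⟨h1, h2⟩ := mem_filter.1 hp
  obtain ⟨r1, r2⟩ := mem_Ico.1 h2
  obtain ⟨a1, a2⟩ := (idx_eq_iff hl p _).1 rfl
  have r1' : (1 : ℝ) ≤ idx l p := by exact_mod_cast r1
  have r2' : (idx l p : ℝ) + 1 ≤ 80 := by exact_mod_cast r2
  exact ⟨(mem_filter.1 h1).2, by linarith, by linarith⟩

lemma fiber2 {l : ℝ} (hl : 0 < l) (m : ℕ) (T : Finset (ℕ × ℕ))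
    (h : ∀ y ∈ T, y.1 ∈ K2 l ∧ y.2.Prime ∧
      4 < log y.1 / l + log y.2 / l ∧ y.1 * y.2 = m) : T.card ≤ 1 := by
  rw [card_le_one]
  rintro ⟨p1, p2⟩ hx ⟨q1, q2⟩ hy
  obtain ⟨a1, a2, a3, a4⟩ := h _ hx
  obtain ⟨b1, b2, b3, b4⟩ := h _ hy
  obtain ⟨c1, -, c2⟩ := K2_mem hl a1
  obtain ⟨d1, -, d2⟩ := K2_mem hl b1
  simp only at a2 a3 a4 b2 b3 b4 c1 c2 d1 d2
  rcases perm2 c1 a2 d1 (a4.trans b4.symm) with ⟨rfl, rfl⟩ | ⟨rfl, rfl⟩
  · rfl
  · linarith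

lemma sum_K2 (l : ℝ) (F : ℕ → ℝ) : ∑ p ∈ K2 l, F p = ∑ a ∈ Ico 1 80, ∑ p ∈ cell l a, F p :=
  (sum_fiberwise_eq_sum_filter _ _ _ _).symm

lemma sum_K3 (l : ℝ) (F : ℕ × ℕ → ℝ) : ∑ x ∈ K3 l, F x
    = ∑ r ∈ Reg, ∑ p ∈ cell l r.1, ∑ q ∈ (cell l r.2).erase p, F (p, q) := by
  rw [K3, ← sum_fiberwise_eq_sum_filter]
  refine sum_congr rfl fun r _ => sum_finset_product _ _ _ fun x => ?_
  simp only [mem_filter, mem_offDiag, cell, mem_erase, Prod.ext_iff]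
  tauto

end

end Pool.Agent.P.MP_dddec0_nt.T223.Sh
end

-- part Pool.Agent.P.MP_dddec0_nt.Shape
section

namespace Pool.Agent.P.MP_dddec0_nt.T223
open Finset Real Filter Pool.Agent.Lib.Tup

namespace Sh

lemma coprime_of_big {W p : ℕ} {l : ℝ} (hW : 0 < W) (hl : 0 < l) (hlW : 40 * log W < l)
    (hp : p.Prime) (h : 1 / 40 ≤ log p / l) : Nat.Coprime p W := by
  refine hp.coprime_iff_not_dvd.2 fun hd => ?_
  have h1 : (p : ℝ) ≤ W := by exact_mod_cast Nat.le_of_dvd hW hd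
  have h2 := log_le_log (by exact_mod_cast hp.pos) h1
  rw [le_div_iff₀ hl] at h
  linarith

lemma RS_prime {η l : ℝ} (hl : 0 < l) (hη : η ≤ 1 / 80) {p : ℕ} (hp : p.Prime)
    (h : 1 / 40 ≤ log p / l) : η * l < log p := by
  rw [le_div_iff₀ hl] at h
  nlinarith

open Classical in
lemma split3 (S : Finset ℕ) (H : ℕ → ℝ) (hH : ∀ m, 0 ≤ H m) (w : ℕ → ℕ) :
    ∑ m ∈ S.filter (fun m => w m = 0 + 1), H m + ∑ m ∈ S.filter (fun m => w m = 1 + 1), H m
      + 1 / 2 * ∑ m ∈ S.filter (fun m => w m = 2 + 1), H m ≤ ∑ m ∈ S, g3 (w m) * H m := by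
  rw [sum_filter, sum_filter, sum_filter, mul_sum, ← sum_add_distrib, ← sum_add_distrib]
  refine sum_le_sum fun m _ => ?_
  have := hH m
  unfold g3
  split_ifs <;> first | omega | linarith

end Sh

open Sh

open Classical in
/-- Contribution of primes, and of products of two and of three primes. -/
theorem shape (f : ℕ → ℝ) {ψ : ℝ → ℝ} {s0 : ℝ} (hψ : Bump ψ s0 (4001 / 1000)) (h4 : 4 < s0)
    {W : ℕ} (hW : 0 < W) {η ε : ℝ} (hη : 0 < η) (hη1 : η ≤ 1 / 80) (hε : 0 < ε) :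
    ∀ᶠ l : ℝ in atTop, ∀ b : ℕ, Nat.Coprime b W →
      ((∫ s in s0..(4001 / 1000), ψ s) * (1 / 40) * qhat f - ε) / (Nat.totient W : ℝ)
        ≤ ∑ m ∈ (cls l W b).filter (RS η l), wg ψ l m * g3 m.primeFactors.card *
            (∑ a ∈ range 43, f a * Gt l (a * (1 / 40)) ((a + 1) * (1 / 40)) m) ^ 2 := by
  set I := ∫ s in s0..(4001 / 1000), ψ s with hI
  have hI0 : 0 ≤ I := intervalIntegral.integral_nonneg hψ.le fun s _ => hψ.nonneg s
  obtain ⟨e, he, heε⟩ : ∃ e : ℝ, 0 < e ∧ e * ((pre f 43 / 40) ^ 2 + 79 * (B0 f ^ 2 + 1)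
      + (Reg.card : ℝ) * (9 * B0 f ^ 2 + 1) / 4) ≤ ε :=
    ⟨ε / ((pre f 43 / 40) ^ 2 + 79 * (B0 f ^ 2 + 1) + (Reg.card : ℝ) * (9 * B0 f ^ 2 + 1) / 4),
      by positivity, le_of_eq (div_mul_cancel₀ _ (by positivity))⟩
  have hφ : (0 : ℝ) < Nat.totient W := by exact_mod_cast Nat.totient_pos.2 hW
  filter_upwards [inner_ge hψ hW he, eventually_gt_atTop (0 : ℝ),
    eventually_gt_atTop (40 * log W),
    (eventually_all_finset (Ico 1 80)).2 (fun a ha =>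
      cell_two f hI0 (mem_Ico.1 ha).1 (mem_Ico.1 ha).2 he),
    (eventually_all_finset Reg).2 (fun x hx =>
      cell_three f hI0 (Reg_bd hx).1 (Reg_bd hx).2.1 ((Reg_bd hx).2.2.1.trans (by norm_num)) he)]
    with l hin hl hlW h2 h3 b hb
  rw [← hI] at hin
  have hlog : ∀ k : ℕ, log k / l ≤ 117 / 40 → log k ≤ 3 * l := fun k h => by
    rw [div_le_iff₀ hl] at h
    linarith
  have p1 := outer f hψ h4 W b hl hη1 ({1} : Finset ℕ) id 0 1
    (fun k => (I / (4001 / 1000 - log k / l) - e) / (Nat.totient W : ℝ))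
    (fun x hx => by
      obtain rfl := mem_singleton.1 hx
      exact ⟨RS_one η l, by simp, by simp; norm_num⟩)
    (fun x hx => by
      obtain rfl := mem_singleton.1 hx
      exact hin 1 b one_ne_zero (by simp) hb (by simp; positivity))
    (fun m T hT => card_le_one.2 fun x hx y hy => by
      obtain ⟨a1, -, -, a2⟩ := hT x hx
      obtain ⟨b1, -, -, b2⟩ := hT y hy
      rw [mem_singleton] at a1 b1
      rw [a1, id, one_mul] at a2
      rw [b1, id, one_mul] at b2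
      exact Prod.ext (a1.trans b1.symm) (a2.trans b2.symm))
  have p2 := outer f hψ h4 W b hl hη1 (K2 l) id 1 1
    (fun k => (I / (4001 / 1000 - log k / l) - e) / (Nat.totient W : ℝ))
    (fun x hx => by
      obtain ⟨a1, a2, a3⟩ := K2_mem hl hx
      refine ⟨?_, by simp [a1.primeFactors], by simp only [id]; linarith⟩
      simpa using RS_mul (RS_one η l) a1 a1.not_dvd_one (RS_prime hl hη1 a1 a2))
    (fun x hx => by
      obtain ⟨a1, a2, a3⟩ := K2_mem hl hx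
      exact hin x b a1.ne_zero (coprime_of_big hW hl hlW a1 a2) hb (hlog x (by linarith)))
    (fiber2 hl)
  have p3 := outer f hψ h4 W b hl hη1 (K3 l) (fun x => x.1 * x.2) 2 2
    (fun x => (I / (4001 / 1000 - log (x.1 * x.2 : ℕ) / l) - e) / (Nat.totient W : ℝ))
    (fun x hx => by
      obtain ⟨a1, a2, a3, a4, a5, a6, -⟩ := K3_mem hl hx
      have hd : ¬ x.2 ∣ x.1 := fun h => a3 ((Nat.prime_dvd_prime_iff_eq a2 a1).1 h).symm
      refine ⟨RS_mul ?_ a2 hd (RS_prime hl hη1 a2 a5), ?_, ?_⟩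
      · simpa using RS_mul (RS_one η l) a1 a1.not_dvd_one (RS_prime hl hη1 a1 a4)
      · rw [pf_mul a1.ne_zero a2, a1.primeFactors, card_pair a3.symm]
      · rwa [log_mul_div a1.ne_zero a2.ne_zero])
    (fun x hx => by
      obtain ⟨a1, a2, a3, a4, a5, a6, -⟩ := K3_mem hl hx
      exact hin _ b (mul_ne_zero a1.ne_zero a2.ne_zero)
        (Nat.Coprime.mul_left (coprime_of_big hW hl hlW a1 a4) (coprime_of_big hW hl hlW a2 a5))
        hb (hlog _ (by rwa [log_mul_div a1.ne_zero a2.ne_zero])))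
    (fiber3 hl)
  have q2 := sum_le_sum h2
  have q3 := sum_le_sum h3
  rw [← sum_K2] at q2
  rw [← sum_K3 l (fun x => G2 f (log x.1 / l) (log x.2 / l) ^ 2 / (x.1 * x.2)
    * (I / (4001 / 1000 - (log x.1 / l + log x.2 / l)) - e))] at q3
  have r2 : ∑ x ∈ K2 l, GG f l (id x) ^ 2 / (id x : ℕ)
      * ((I / (4001 / 1000 - log x / l) - e) / (Nat.totient W : ℝ))
      = (∑ p ∈ K2 l, Psi f (log p / l) ^ 2 / p * (I / (4001 / 1000 - log p / l) - e))
        / (Nat.totient W : ℝ) := by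
    rw [sum_div]
    refine sum_congr rfl fun x hx => ?_
    rw [id, GG_prime f l (K2_mem hl hx).1, mul_div_assoc]
  have r3 : ∑ x ∈ K3 l, GG f l (x.1 * x.2) ^ 2 / (x.1 * x.2 : ℕ)
      * ((I / (4001 / 1000 - log (x.1 * x.2 : ℕ) / l) - e) / (Nat.totient W : ℝ))
      = (∑ x ∈ K3 l, G2 f (log x.1 / l) (log x.2 / l) ^ 2 / (x.1 * x.2)
        * (I / (4001 / 1000 - (log x.1 / l + log x.2 / l)) - e)) / (Nat.totient W : ℝ) := by
    rw [sum_div]
    refine sum_congr rfl fun x hx => ?_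
    obtain ⟨a1, a2, a3, -⟩ := K3_mem hl hx
    rw [GG_two f l a1 a2 a3, log_mul_div a1.ne_zero a2.ne_zero, mul_div_assoc, Nat.cast_mul]
  rw [r2] at p2
  rw [r3] at p3
  rw [sum_singleton, id, GG_one, Nat.cast_one, log_one, zero_div, sub_zero, div_one,
    ← mul_div_assoc] at p1
  have hs := split3 ((cls l W b).filter (RS η l)) (fun m => wg ψ l m * GG f l m ^ 2)
    (fun m => mul_nonneg (wg_nonneg hψ l m) (sq_nonneg _)) (fun m => m.primeFactors.card)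
  have hs' : ∑ m ∈ (cls l W b).filter (RS η l), g3 m.primeFactors.card * (wg ψ l m * GG f l m ^ 2)
      = ∑ m ∈ (cls l W b).filter (RS η l), wg ψ l m * g3 m.primeFactors.card *
        (∑ a ∈ range 43, f a * Gt l (a * (1 / 40)) ((a + 1) * (1 / 40)) m) ^ 2 :=
    sum_congr rfl fun m _ => by rw [GG]; ring
  rw [← hs']
  refine le_trans ?_ hs
  rw [sum_sub_distrib, ← mul_sum, sum_const, nsmul_eq_mul] at q2 q3
  rw [sum_Reg] at q3
  have c79 : ((Ico 1 80).card : ℝ) = 79 := by simp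
  rw [c79] at q2
  have t1 : ∑ a ∈ Ico 1 43, ∑ b ∈ Ico 1 43, ell (pre f) a b ^ 2 / (4 * V2 a b)
      = (∑ a ∈ Ico 1 43, ∑ b ∈ Ico 1 43, ell (pre f) a b ^ 2 / V2 a b) / 4 := by
    simp only [sum_div]
    exact sum_congr rfl fun _ _ => sum_congr rfl fun _ _ => by ring
  have t2 : ∑ x ∈ reg2, ell (pre f) x.1 x.2 ^ 2 / (4 * V2 x.1 x.2)
      = (∑ x ∈ reg2, ell (pre f) x.1 x.2 ^ 2 / V2 x.1 x.2) / 4 := by
    rw [sum_div]
    exact sum_congr rfl fun _ _ => by ring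
  rw [qhat, t1, t2, SS]
  have u2 := div_le_div_of_nonneg_right q2 hφ.le
  have u3 := div_le_div_of_nonneg_right q3 hφ.le
  have u4 := div_le_div_of_nonneg_right heε hφ.le
  push_cast at p1 p2 p3
  simp only [div_eq_mul_inv] at *
  linarith

end Pool.Agent.P.MP_dddec0_nt.T223
end
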