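import Pool.Agent.K.MP_dddec0_nt.C13
import Pool.Agent.K.MP_dddec0_nt.C12
import Pool.Agent.Lib.Tup.Coord
import Pool.Agent.Lib.Tup.Final

-- part Pool.Agent.P.MP_dddec0_nt.CertB
section

namespace Pool.Agent.P.MP_dddec0_nt.T223
open Finset

theorem sumTo_eq (n : ℕ) (f : ℕ → ℕ) : sumTo n f = ∑ i ∈ range n, f i := by
  induction n with
  | zero => rfl
  | succ n ih => rw [sum_range_succ, ← ih]; rfl

theorem pack_eq (B : ℕ) (f : ℕ → ℕ) (n : ℕ) :
    pack B f n = ∑ j ∈ range n, (∑ i ∈ range j, f i) * B ^ j := by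
  induction n with
  | zero => rfl
  | succ n ih => rw [sum_range_succ, ← ih, ← sumTo_eq]; rfl

theorem Fv_lt (a b c : ℕ) : Fv a b c < 4096 := by
  unfold Fv look
  split_ifs
  · exact Nat.mod_lt _ (by norm_num)
  · norm_num

theorem digits_lt {B : ℕ} (g : ℕ → ℕ) (n : ℕ) (hg : ∀ i < n, g i < B) :
    ∑ i ∈ range n, g i * B ^ i < B ^ n := by
  induction n with
  | zero => simp
  | succ n ih =>
    have h1 := ih fun i hi => hg i (by omega)
    have h2 := Nat.mul_le_mul_right (B ^ n) (Nat.succ_le_of_lt (hg n (by omega)))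
    rw [sum_range_succ, pow_succ]
    rw [Nat.succ_mul] at h2
    nlinarith

theorem digit_eq {B : ℕ} (g : ℕ → ℕ) {n k : ℕ} (hk : k < n) (hg : ∀ i < n, g i < B) :
    (∑ i ∈ range n, g i * B ^ i) / B ^ k % B = g k := by
  obtain ⟨r, rfl⟩ := Nat.exists_eq_add_of_lt hk
  have hB : 0 < B := lt_of_le_of_lt (Nat.zero_le _) (hg k hk)
  have h1 := digits_lt g k fun i hi => hg i (by omega)
  have h2 : ∑ i ∈ range (k + r + 1), g i * B ^ i = ∑ i ∈ range k, g i * B ^ i
      + B ^ k * (g k + B * ∑ i ∈ range r, g (k + (i + 1)) * B ^ i) := by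
    rw [add_assoc, sum_range_add, sum_range_succ', mul_add, mul_sum, mul_sum]
    congr 1
    rw [add_comm]
    congr 1
    · simp [mul_comm]
    · exact sum_congr rfl fun i _ => by ring
  rw [h2, Nat.add_mul_div_left _ _ (pow_pos hB k), Nat.div_eq_of_lt h1, zero_add,
    Nat.add_mul_mod_self_left, Nat.mod_eq_of_lt (hg k hk)]

def Pn (f : ℕ → ℕ) (j : ℕ) : ℕ := ∑ i ∈ range (min j 43), f i

def fib : Finset (Σ _ : ℕ, ℕ) := (range 35).sigma fun b => range (35 - b)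

theorem pack_mul {α : Type*} (s : Finset α) (Q : α → ℕ → ℕ) (B1 B2 n : ℕ) :
    ∑ x ∈ s, (∑ i ∈ range n, Q x i * B1 ^ i) * ∑ j ∈ range n, Q x j * B2 ^ j
      = ∑ i ∈ range n, (∑ j ∈ range n, (∑ x ∈ s, Q x i * Q x j) * B2 ^ j) * B1 ^ i := by
  simp only [sum_mul_sum]
  simp only [sum_mul]
  rw [sum_comm]
  refine sum_congr rfl fun i _ => ?_
  rw [sum_comm]
  exact sum_congr rfl fun j _ => sum_congr rfl fun x _ => by ring

attribute [local irreducible] Fv

theorem gam_eq (i j : ℕ) : gam GG i j =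
    ∑ x ∈ fib, Pn (fun a => Fv a x.1 x.2) i * Pn (fun a => Fv a x.1 x.2) j := by
  let Q : (Σ _ : ℕ, ℕ) → ℕ → ℕ := fun x j => ∑ a ∈ range j, Fv a x.1 x.2
  let Γ : ℕ → ℕ → ℕ := fun i j => ∑ x ∈ fib, Q x i * Q x j
  have hQ : ∀ x, ∀ j < 44, Q x j ≤ 44 * 4096 := fun x j hj =>
    (sum_le_card_nsmul _ _ 4096 fun a _ => (Fv_lt _ _ _).le).trans (by
      rw [card_range, smul_eq_mul]; omega)
  have hc : fib.card ≤ 35 * 35 := by
    rw [fib, card_sigma]
    refine (sum_le_card_nsmul _ _ 35 fun b _ => by rw [card_range]; omega).trans (by simp)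
  have hΓ : ∀ i < 44, ∀ j < 44, Γ i j < 2 ^ 64 := fun i hi j hj => by
    refine lt_of_le_of_lt (sum_le_card_nsmul _ _ (44 * 4096 * (44 * 4096)) fun x _ =>
      Nat.mul_le_mul (hQ x i hi) (hQ x j hj)) ?_
    rw [smul_eq_mul]
    exact lt_of_le_of_lt (Nat.mul_le_mul_right _ hc) (by norm_num)
  have hG : GG = ∑ i ∈ range 44, (∑ j ∈ range 44, Γ i j * (2 ^ 64) ^ j) * (2 ^ (64 * 44)) ^ i := by
    have h1 : GG = ∑ x ∈ fib, (∑ i ∈ range 44, Q x i * (2 ^ (64 * 44)) ^ i) *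
        ∑ j ∈ range 44, Q x j * (2 ^ 64) ^ j := by
      simp only [GG, sumTo_eq, pack_eq, fib, sum_sigma, Q]
    rw [h1]
    exact pack_mul fib Q _ _ 44
  have hi : min i 43 < 44 := by omega
  have hj : min j 43 < 44 := by omega
  unfold gam
  rw [hG, digit_eq (fun i => ∑ j ∈ range 44, Γ i j * (2 ^ 64) ^ j) hi fun i hi => by
    rw [pow_mul]; exact digits_lt _ _ (hΓ i hi), digit_eq (Γ (min i 43)) hj (hΓ _ hi)]
  rfl

theorem lin_sum {α : Type*} (s : Finset α) (l : List (ℕ × ℕ)) (Q : α → ℕ → ℕ) :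
    lin l (fun i => ∑ x ∈ s, Q x i) = ∑ x ∈ s, lin l (Q x) := by
  induction l with
  | nil => simp [lin]
  | cons y l ih =>
    simp only [lin, List.foldr_cons] at ih ⊢
    rw [ih, mul_sum, ← sum_add_distrib]

theorem lin_mul (l : List (ℕ × ℕ)) (P : ℕ → ℕ) (c : ℕ) :
    lin l (fun i => c * P i) = c * lin l P := by
  induction l with
  | nil => simp [lin]
  | cons y l ih =>
    simp only [lin, List.foldr_cons] at ih ⊢
    rw [ih]; ring

theorem bl_sum {α : Type*} (s : Finset α) (P : α → ℕ → ℕ) (l l' : List (ℕ × ℕ)) :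
    bl (fun i j => ∑ x ∈ s, P x i * P x j) l l' = ∑ x ∈ s, lin l (P x) * lin l' (P x) := by
  simp only [bl, lin_sum, lin_mul]
  refine sum_congr rfl fun x _ => ?_
  simp only [mul_comm (P x _), lin_mul]
  ring

theorem pre_cast (f : ℕ → ℕ) (j : ℕ) : pre (fun a => (f a : ℝ)) j = Pn f j := by
  simp [pre, Pn]

theorem V1_pos {a : ℕ} (ha : a < 80) : 0 < V1 a := by
  have h : (a : ℝ) < 80 := by exact_mod_cast ha
  have h0 : (0 : ℝ) ≤ a := by positivity
  unfold V1 SS m1 m2; nlinarith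

theorem V2_pos {a b : ℕ} (hab : a + b + 2 ≤ 160) : 0 < V2 a b := by
  have h : (a : ℝ) + b + 2 ≤ 160 := by exact_mod_cast hab
  have ha : (0 : ℝ) ≤ a := by positivity
  have hb : (0 : ℝ) ≤ b := by positivity
  have h1 : ∀ x : ℕ, m2 x ≤ (x + 1) * m1 x := fun x => by
    have : (0 : ℝ) ≤ x := by positivity
    unfold m1 m2; nlinarith
  have h2 : ∀ x : ℕ, 0 < m1 x := fun x => by unfold m1; positivity
  have h3 := mul_le_mul_of_nonneg_right (h1 a) (h2 b).le
  have h4 := mul_le_mul_of_nonneg_left (h1 b) (h2 a).le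
  have h5 := mul_pos (h2 a) (h2 b)
  unfold V2 SS; nlinarith

theorem cast_sub_ge (x y : ℕ) : (x : ℝ) - y ≤ (x - y : ℕ) := by
  rcases le_total y x with h | h
  · rw [Nat.cast_sub h]
  · have : (x : ℝ) ≤ y := by exact_mod_cast h
    have h2 : (0 : ℝ) ≤ (x - y : ℕ) := by positivity
    linarith

theorem c1_le {a : ℕ} (ha : a < 80) :
    ((10 ^ 12 * 75 / (2 * n1 a) : ℕ) : ℝ) ≤ 10 ^ 12 / (4 * V1 a) := by
  have h1 := V1_pos ha
  have h2 : 150 * V1 a ≤ n1 a := by
    refine le_trans (le_of_eq ?_) (cast_sub_ge _ _)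
    unfold V1 SS m1 m2; push_cast; ring
  refine Nat.cast_div_le.trans ?_
  push_cast
  rw [div_le_div_iff₀ (by linarith) (by linarith)]
  linarith

theorem c2_le {a b : ℕ} (hab : a + b + 2 ≤ 160) :
    (c2 a b : ℝ) ≤ 10 ^ 12 / (144 * V2 a b) := by
  have h1 := V2_pos hab
  have h2 : 300 * V2 a b ≤ n2 a b := by
    refine le_trans (le_of_eq ?_) (cast_sub_ge _ _)
    unfold V2 SS m1 m2; push_cast; ring
  refine Nat.cast_div_le.trans ?_
  push_cast
  rw [div_le_div_iff₀ (by linarith) (by linarith)]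
  linarith

theorem inReg_le {a b : ℕ} (h : inReg a b = true) : a + b + 2 ≤ 160 := by
  simp only [inReg, Bool.and_eq_true, Bool.or_eq_true, decide_eq_true_eq] at h
  omega

theorem mem_reg2 {x : ℕ × ℕ} : x ∈ reg2 ↔ ((1 ≤ x.1 ∧ x.1 < 160) ∧ 1 ≤ x.2 ∧ x.2 < 160) ∧
    max 43 (x.1 + 1) ≤ x.2 ∧ x.1 + x.2 + 2 + max 43 (x.1 + 1) ≤ 160 := by
  simp only [reg2, mem_filter, mem_product, mem_Ico]

attribute [local irreducible] reg2

set_option linter.constructorNameAsVariable false in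
theorem reg_sum_le (P : ℕ → ℝ) :
    ∑ a ∈ range 160, ∑ b ∈ range 160, (if inReg a b then ell P a b ^ 2 / (4 * V2 a b) else 0)
      ≤ ∑ a ∈ Ico 1 43, ∑ b ∈ Ico 1 43, ell P a b ^ 2 / (4 * V2 a b)
        + ∑ x ∈ reg2, ell P x.1 x.2 ^ 2 / (4 * V2 x.1 x.2) := by
  have hd : Disjoint (Ico 1 43 ×ˢ Ico 1 43) reg2 := by
    rw [disjoint_left]
    intro x h1 h2
    simp only [mem_reg2, mem_product, mem_Ico] at h1 h2
    omega
  rw [← sum_product', ← sum_product', ← sum_union hd, ← sum_filter]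
  refine le_of_eq (sum_congr ?_ fun _ _ => rfl)
  ext x
  simp only [mem_reg2, inReg, mem_union, mem_filter, mem_product, mem_Ico, mem_range,
    Bool.and_eq_true, Bool.or_eq_true, decide_eq_true_eq]
  omega

theorem key_le {α : Type*} (s : Finset α) (f P : α → ℕ → ℕ) (hP : ∀ x, P x = Pn (f x)) :
    ((pos fun i j => ∑ x ∈ s, P x i * P x j : ℕ) : ℝ)
      - (neg fun i j => ∑ x ∈ s, P x i * P x j : ℕ)
      ≤ 10 ^ 12 * ∑ x ∈ s, qhat (fun a => (f x a : ℝ)) := by
  have e0 : ((10 ^ 12 * 25 / 4001 * ∑ x ∈ s, P x 43 * P x 43 : ℕ) : ℝ)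
      ≤ 10 ^ 12 * ∑ x ∈ s, (P x 43 : ℝ) ^ 2 / SS := by
    rw [Nat.cast_mul, ← sum_div, Nat.cast_sum]
    simp only [Nat.cast_mul, ← sq]
    have : 0 ≤ ∑ x ∈ s, (P x 43 : ℝ) ^ 2 := sum_nonneg fun _ _ => sq_nonneg _
    unfold SS
    norm_num
    linarith
  have e1 : ((sumTo 79 (fun a => 10 ^ 12 * 75 / (2 * n1 (a + 1)) *
      bl (fun i j => ∑ x ∈ s, P x i * P x j) [(1, a + 1), (1, a + 2)]
        [(1, a + 1), (1, a + 2)]) : ℕ) : ℝ)
      ≤ 10 ^ 12 * ∑ x ∈ s, ∑ a ∈ Ico 1 80, (((P x a : ℝ) + P x (a + 1)) / 2) ^ 2 / V1 a := by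
    rw [sumTo_eq, Nat.cast_sum, sum_comm, sum_Ico_eq_sum_range, mul_sum]
    refine sum_le_sum fun a ha => ?_
    have ha' : a + 1 < 80 := by have := mem_range.1 ha; omega
    have hV := V1_pos ha'
    rw [Nat.cast_mul, bl_sum, Nat.cast_sum, add_comm 1 a]
    refine (mul_le_mul_of_nonneg_right (c1_le ha') (by positivity)).trans (le_of_eq ?_)
    rw [mul_sum, mul_sum]
    refine sum_congr rfl fun x _ => ?_
    simp only [lin, List.foldr]
    push_cast
    field_simp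
    ring
  have e2 : ((sumTo 160 fun a => sumTo 160 fun b => if inReg a b then c2 a b *
        (bl (fun i j => ∑ x ∈ s, P x i * P x j) (lu a b) (lu a b)
          + bl (fun i j => ∑ x ∈ s, P x i * P x j) (lv a b) (lv a b)) else 0 : ℕ) : ℝ)
      - (neg fun i j => ∑ x ∈ s, P x i * P x j : ℕ)
      ≤ 10 ^ 12 * ∑ x ∈ s, ∑ a ∈ range 160, ∑ b ∈ range 160,
        (if inReg a b then ell (fun j => (P x j : ℝ)) a b ^ 2 / (4 * V2 a b) else 0) := by
    simp only [neg, sumTo_eq, Nat.cast_sum]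
    rw [← sum_sub_distrib, sum_comm, mul_sum]
    refine sum_le_sum fun a _ => ?_
    rw [← sum_sub_distrib, sum_comm, mul_sum]
    refine sum_le_sum fun b _ => ?_
    by_cases hr : inReg a b = true
    · have hV := V2_pos (inReg_le hr)
      simp only [hr, if_true, bl_sum]
      push_cast
      rw [← mul_sub, mul_sum, ← sum_add_distrib, ← sum_sub_distrib]
      refine (mul_le_mul_of_nonneg_right (c2_le (inReg_le hr)) (sum_nonneg fun x _ => ?_)).trans
        (le_of_eq ?_)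
      · nlinarith [sq_nonneg ((lin (lu a b) (P x) : ℝ) - lin (lv a b) (P x))]
      · rw [mul_sum, mul_sum]
        refine sum_congr rfl fun x _ => ?_
        simp only [lin, lu, lv, List.foldr, ell]
        push_cast
        field_simp
        ring
    · simp [hr]
  have e3 : ∑ x ∈ s, (P x 43 : ℝ) ^ 2 / SS
      + ∑ x ∈ s, ∑ a ∈ Ico 1 80, (((P x a : ℝ) + P x (a + 1)) / 2) ^ 2 / V1 a
      + ∑ x ∈ s, ∑ a ∈ range 160, ∑ b ∈ range 160,
        (if inReg a b then ell (fun j => (P x j : ℝ)) a b ^ 2 / (4 * V2 a b) else 0)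
      ≤ ∑ x ∈ s, qhat (fun a => (f x a : ℝ)) := by
    rw [← sum_add_distrib, ← sum_add_distrib]
    refine sum_le_sum fun x _ => ?_
    have h1 : pre (fun a => (f x a : ℝ)) = fun j => (P x j : ℝ) :=
      funext fun j => by rw [hP]; exact pre_cast _ j
    have h2 := reg_sum_le fun j => (P x j : ℝ)
    unfold qhat
    rw [h1]
    linarith
  unfold pos
  rw [Nat.cast_add, Nat.cast_add]
  linarith

theorem F2_eq : (F2 : ℝ) = ∑ a ∈ range 43, ∑ b ∈ range 43, ∑ c ∈ range 43, (Fv a b c : ℝ) ^ 2 := by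
  simp only [F2, sumTo_eq, sq, Nat.cast_sum, Nat.cast_mul]

attribute [local irreducible] pos neg F2 fib GG gam

theorem cert : 2 * ∑ a ∈ range 43, ∑ b ∈ range 43, ∑ c ∈ range 43, (Fv a b c : ℝ) ^ 2
    < 3 * ∑ x ∈ fib, qhat (fun a => (Fv a x.1 x.2 : ℝ)) := by
  have h := cert_nat
  have hg : gam GG = fun i j =>
      ∑ x ∈ fib, Pn (fun a => Fv a x.1 x.2) i * Pn (fun a => Fv a x.1 x.2) j :=
    funext fun i => funext fun j => gam_eq i j
  have key := key_le fib (fun x a => Fv a x.1 x.2) (fun x => Pn (fun a => Fv a x.1 x.2))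
    fun _ => rfl
  rw [← hg] at key
  have h' : (2 * 10 ^ 12 * (F2 : ℝ) + 3 * (neg (gam GG) : ℕ)) < 3 * (pos (gam GG) : ℕ) := by
    exact_mod_cast h
  rw [← F2_eq]
  linarith

end Pool.Agent.P.MP_dddec0_nt.T223
end

-- part Pool.Agent.P.MP_dddec0_nt.Fiber
section

namespace Pool.Agent.P.MP_dddec0_nt.T223
open Finset Real Filter Pool.Agent.Lib.Tup

attribute [local irreducible] Fv

theorem g3_nonneg (r : ℕ) : 0 ≤ g3 r := by unfold g3; split_ifs <;> norm_num

theorem g3_le_one (r : ℕ) : g3 r ≤ 1 := by unfold g3; split_ifs <;> norm_num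

theorem uniform {J : Type*} [Fintype J] {Q : J → ℕ → ℝ → Prop}
    (h : ∀ j, ∃ D1 : ℕ, ∀ D ≥ D1, ∀ᶠ l : ℝ in atTop, Q j D l) :
    ∃ D1 : ℕ, ∀ D ≥ D1, ∀ᶠ l : ℝ in atTop, ∀ j, Q j D l := by
  choose D1 h using h
  exact ⟨univ.sup D1, fun D hD => eventually_all.2 fun j =>
    h j D ((le_sup (mem_univ j)).trans hD)⟩

theorem sq_add_ge {G θ s : ℝ} (hs : 0 < s) : (1 - s) * G ^ 2 - θ ^ 2 / s ≤ (G + θ) ^ 2 := by
  have h1 : 0 ≤ (s * G + θ) ^ 2 / s := by positivity
  have h2 : (s * G + θ) ^ 2 / s = s * G ^ 2 + 2 * G * θ + θ ^ 2 / s := by field_simp; ring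
  nlinarith [sq_nonneg θ]

open Classical in
theorem fiber_ge (f : ℕ → ℝ) {ψ : ℝ → ℝ} {s0 : ℝ} (hψ : Bump ψ s0 (4001 / 1000)) (h4 : 4 < s0)
    {η ε : ℝ} (hη : 0 < η) (hη1 : η ≤ 1 / 80) (hε : 0 < ε) :
    ∃ D1 : ℕ, ∀ D ≥ D1, ∀ᶠ l : ℝ in atTop, ∀ b : ℕ, Nat.Coprime b (primorial D) →
      scale D l 1 * ((∫ s in s0..(4001 / 1000), ψ s) * (1 / 40) * qhat f - ε)
        ≤ ∑ m ∈ (cls l (primorial D) b).filter (RS η l), wg ψ l m * g3 m.primeFactors.card *
            (∑ a : Fin 43, f a * XC D l (1 / 40) a m) ^ 2 := by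
  set Q := (∫ s in s0..(4001 / 1000), ψ s) * (1 / 40) * qhat f with hQ
  set K := ∑ a : Fin 43, |f a| with hK
  have hK0 : 0 ≤ K := sum_nonneg fun _ _ => abs_nonneg _
  obtain ⟨C, hC, D1, H1⟩ := rough_major (ι := Empty) (fun i => i.elim) (fun i => i.elim)
    (fun i => i.elim) hψ hη (by linarith)
  set s := min 1 (ε / (3 * (|Q| + 1))) with hs
  have hs0 : 0 < s := lt_min one_pos (by positivity)
  have hs1 : s ≤ 1 := min_le_left _ _
  set e := min 1 (ε * s / (3 * (K ^ 2 * C + 1))) with he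
  have he0 : 0 < e := lt_min one_pos (by positivity)
  obtain ⟨D2, H2⟩ := Xapprox hη he0
  refine ⟨max D1 D2, fun D hD => ?_⟩
  have hW := primorial_pos D
  filter_upwards [H1 D (le_of_max_le_left hD), H2 D (le_of_max_le_right hD),
    shape f hψ h4 hW hη hη1 (ε := ε / 3) (by positivity), eventually_gt_atTop 0]
    with l h1 h2 h3 hl b hb
  have h4' := h1 b (fun i => i.elim) (fun i => i.elim) (fun i => i.elim) (by norm_num)
  simp only [univ_eq_empty, prod_empty, mul_one, Fintype.card_eq_zero, zero_add] at h4'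
  have h5 := h3 b hb
  set L := cW D * l with hL
  have hc := cW_pos D
  have hL0 : 0 < L := mul_pos hc hl
  have hφ : (0 : ℝ) < Nat.totient (primorial D) := by exact_mod_cast Nat.totient_pos.2 hW
  have hW' : (0 : ℝ) < primorial D := by exact_mod_cast hW
  have hsc : scale D l 1 = L ^ 2 / Nat.totient (primorial D) := by
    rw [scale, hL, cW]; field_simp
  have hsc0 : 0 ≤ scale D l 1 := Co.scale_nonneg D hl.le 1
  let G : ℕ → ℝ := fun m => ∑ a ∈ range 43, f a * Gt l (a * (1 / 40)) ((a + 1) * (1 / 40)) m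
  have hpt : ∀ m ∈ (cls l (primorial D) b).filter (RS η l),
      (1 - s) * (L ^ 2 * (wg ψ l m * g3 m.primeFactors.card * G m ^ 2))
        - (e * K) ^ 2 / s * (L ^ 2 * wg ψ l m)
      ≤ wg ψ l m * g3 m.primeFactors.card * (∑ a : Fin 43, f a * XC D l (1 / 40) a m) ^ 2 := by
    intro m hm
    rw [mem_filter] at hm
    have hm1 : m < NN l := mem_range.1 (mem_filter.1 hm.1).1
    set θ := (∑ a : Fin 43, f a * XC D l (1 / 40) a m) - L * G m with hθ
    have hθ1 : |θ| ≤ e * K * L := by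
      rw [hθ, show G m = ∑ a : Fin 43, f a * Gt l (a * (1 / 40)) ((a + 1) * (1 / 40)) m from
        (Fin.sum_univ_eq_sum_range
          (fun a => f a * Gt l (a * (1 / 40)) ((a + 1) * (1 / 40)) m) 43).symm,
        mul_sum, ← sum_sub_distrib, hK, mul_sum, sum_mul]
      refine (abs_sum_le_sum_abs _ _).trans (sum_le_sum fun a _ => ?_)
      have ha : (a : ℝ) < 43 := by exact_mod_cast a.2
      have h6 := h2 m (a * (1 / 40)) ((a + 1) * (1 / 40)) hm.2 hm1 (by positivity) (by linarith)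
        (by linarith)
      rw [show f a * XC D l (1 / 40) a m - L * (f a * Gt l (a * (1 / 40)) ((a + 1) * (1 / 40)) m)
        = f a * (XW D l (a * (1 / 40)) ((a + 1) * (1 / 40)) m
          - L * Gt l (a * (1 / 40)) ((a + 1) * (1 / 40)) m) by rw [XC]; ring, abs_mul]
      nlinarith [abs_nonneg (f a)]
    have h7 : θ ^ 2 ≤ (e * K * L) ^ 2 := sq_le_sq' (abs_le.1 hθ1).1 (abs_le.1 hθ1).2
    have h8 := sq_add_ge (G := L * G m) (θ := θ) hs0
    rw [show L * G m + θ = ∑ a : Fin 43, f a * XC D l (1 / 40) a m by rw [hθ]; ring] at h8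
    have hw := wg_nonneg hψ l m
    have h9 := mul_le_mul_of_nonneg_left h8 (mul_nonneg hw (g3_nonneg m.primeFactors.card))
    have h10 : wg ψ l m * g3 m.primeFactors.card * (θ ^ 2 / s)
        ≤ wg ψ l m * 1 * ((e * K * L) ^ 2 / s) := by
      gcongr; exact g3_le_one _
    have h11 : (e * K) ^ 2 / s * (L ^ 2 * wg ψ l m) = wg ψ l m * 1 * ((e * K * L) ^ 2 / s) := by
      ring
    nlinarith
  refine le_trans ?_ (sum_le_sum hpt)
  rw [sum_sub_distrib, ← mul_sum, ← mul_sum, ← mul_sum, ← mul_sum]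
  have h12 : L ^ 2 * ∑ m ∈ (cls l (primorial D) b).filter (RS η l), wg ψ l m
      ≤ C * scale D l 1 := by
    refine le_trans (mul_le_mul_of_nonneg_left (sum_le_sum_of_subset_of_nonneg
      (fun m hm => ?_) fun m _ _ => wg_nonneg hψ l m) (sq_nonneg _)) h4'
    rw [mem_filter] at hm ⊢
    exact ⟨hm.1, hm.2.2⟩
  have h13 : scale D l 1 * (Q - ε / 3) ≤ L ^ 2 * ∑ m ∈ (cls l (primorial D) b).filter (RS η l),
      wg ψ l m * g3 m.primeFactors.card * G m ^ 2 := by
    refine le_trans (le_of_eq ?_) (mul_le_mul_of_nonneg_left h5 (sq_nonneg L))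
    rw [hsc]; ring
  have h14 : (e * K) ^ 2 / s * C ≤ ε / 3 := by
    have e1 : e ≤ 1 := min_le_left _ _
    have e2 : e ≤ ε * s / (3 * (K ^ 2 * C + 1)) := min_le_right _ _
    rw [le_div_iff₀ (by positivity)] at e2
    rw [div_mul_eq_mul_div, div_le_iff₀ hs0]
    have : 0 ≤ K ^ 2 * C := by positivity
    nlinarith [mul_nonneg he0.le this, mul_le_mul_of_nonneg_right e1 (mul_nonneg he0.le this)]
  have h15 : Q - 2 * ε / 3 ≤ (1 - s) * (Q - ε / 3) := by
    have e2 : s ≤ ε / (3 * (|Q| + 1)) := min_le_right _ _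
    rw [le_div_iff₀ (by positivity)] at e2
    nlinarith [le_abs_self Q, mul_le_mul_of_nonneg_left (le_abs_self Q) hs0.le]
  have h16 := mul_le_mul_of_nonneg_left h13 (sub_nonneg.2 hs1)
  have h17 := mul_le_mul_of_nonneg_left h12 (show 0 ≤ (e * K) ^ 2 / s by positivity)
  nlinarith [mul_le_mul_of_nonneg_left h14 hsc0, mul_le_mul_of_nonneg_left h15 hsc0]

theorem sum_good (t : ℕ → ℕ → ℝ) :
    ∑ b ∈ univ.filter (fun b : Fin 2 → Fin 43 => (b 0 : ℕ) + b 1 ≤ 34), t (b 0) (b 1)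
      = ∑ x ∈ fib, t x.1 x.2 := by
  refine sum_bij (fun b _ => (⟨b 0, b 1⟩ : Σ _ : ℕ, ℕ)) (fun b hb => ?_) (fun b _ b' _ e => ?_)
    (fun x hx => ?_) fun _ _ => rfl
  · simp only [mem_filter, mem_univ, true_and] at hb
    simp only [fib, mem_sigma, mem_range]; omega
  · simp only [Sigma.mk.injEq, heq_eq_eq] at e
    funext i
    fin_cases i
    · exact Fin.ext e.1
    · exact Fin.ext e.2
  · simp only [fib, mem_sigma, mem_range] at hx
    refine ⟨![⟨x.1, by omega⟩, ⟨x.2, by omega⟩], ?_, rfl⟩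
    simp only [mem_filter, mem_univ, true_and, Matrix.cons_val_zero, Matrix.cons_val_one]
    omega

theorem Fv_supp {a b c : ℕ} (h : Fv a b c ≠ 0) : a + b ≤ 42 ∧ a + c ≤ 42 ∧ b + c ≤ 42 := by
  unfold Fv look at h
  split_ifs at h with h1
  · omega
  · exact absurd rfl h

theorem Fv_swap12 (a b c : ℕ) : Fv a b c = Fv b a c := by
  unfold Fv; congr 1 <;> omega

theorem Fv_swap13 (a b c : ℕ) : Fv a b c = Fv c a b := by
  unfold Fv; congr 1 <;> omega

open Classical in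
theorem coord223 (c : Fin 2 → ℤ) (hc0 : ∀ i, c i ≠ 0) (hc : Function.Injective c)
    {ψ : ℝ → ℝ} {s0 : ℝ} (hψ : Bump ψ s0 (4001 / 1000)) (h4 : 4 < s0) {ε : ℝ} (hε : 0 < ε) :
    ∃ D1 : ℕ, ∀ D ≥ D1, ∀ᶠ l : ℝ in atTop, ∀ b0 : ℕ, Nat.Coprime b0 (primorial D) →
      scale D l 3 * ((∫ s in s0..(4001 / 1000), ψ s) * (1 / 40) ^ 3 *
          ∑ x ∈ fib, qhat (fun a => (Fv a x.1 x.2 : ℝ)) - ε)
        ≤ ∑ m ∈ cls l (primorial D) b0, wg ψ l m * (g3 (ArithmeticFunction.cardFactors m) *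
          (∑ a : Fin 43, ∑ b : Fin 2 → Fin 43, (Fv a (b 0) (b 1) : ℝ) *
            (XC D l (1 / 40) a m * ∏ i, XC D l (1 / 40) (b i) (m + c i))) ^ 2) := by
  set I := ∫ s in s0..(4001 / 1000), ψ s with hI
  let good : (Fin 2 → Fin 43) → Prop := fun b => (b 0 : ℕ) + b 1 ≤ 34
  let Q : (Fin 2 → Fin 43) → ℝ := fun b => I * (1 / 40) * qhat (fun a => (Fv a (b 0) (b 1) : ℝ))
  obtain ⟨η0, hη0, H1⟩ := coord c hc0 hc hψ h4 (by norm_num) (n := 43) (h := 1 / 40) (by norm_num)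
    (fun a b => (Fv a (b 0) (b 1) : ℝ)) good
    (fun a b h => by
      obtain ⟨h1, h2, h3⟩ := Fv_supp (Nat.cast_ne_zero.1 h)
      have h1' : (a : ℝ) + b 0 ≤ 42 := by exact_mod_cast h1
      have h2' : (a : ℝ) + b 1 ≤ 42 := by exact_mod_cast h2
      have h3' : (b 0 : ℝ) + b 1 ≤ 42 := by exact_mod_cast h3
      rw [Fin.sum_univ_two]
      constructor <;> linarith)
    (fun a b a' b' _ hg h => by
      obtain ⟨_, _, h3⟩ := Fv_supp (Nat.cast_ne_zero.1 h)
      have h3' : (b' 0 : ℝ) + b' 1 ≤ 42 := by exact_mod_cast h3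
      have h2' : (b 0 : ℝ) + b 1 ≤ 34 := by exact_mod_cast hg
      rw [Fin.sum_univ_two]
      linarith)
    g3 g3_nonneg g3_le_one (by simp [g3]) (by simp [g3]) (ε := ε / 2) (by positivity)
  set η := min η0 (1 / 80) with hη
  have hη1 : 0 < η := lt_min hη0 (by norm_num)
  obtain ⟨D1, H1⟩ := H1 η hη1 (min_le_left _ _)
  set K := ∑ b, (|Q b| + 1) with hK
  have hK0 : 0 ≤ K := sum_nonneg fun _ _ => by positivity
  set e := min (1 / 40) (ε / (2 * (K + 1))) with he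
  have he0 : 0 < e := lt_min (by norm_num) (by positivity)
  have he1 : e ≤ 1 / 40 := min_le_left _ _
  obtain ⟨D2, H2⟩ := uniform fun b : Fin 2 → Fin 43 =>
    fiber_ge (fun a => (Fv a (b 0) (b 1) : ℝ)) hψ h4 hη1 (min_le_right _ _) he0
  obtain ⟨D3, H3⟩ := ipW_approx he0
  refine ⟨max D1 (max D2 D3), fun D hD => ?_⟩
  simp only [ge_iff_le, max_le_iff] at hD
  filter_upwards [H1 D hD.1, H2 D hD.2.1, H3 D hD.2.2, eventually_gt_atTop 0]
    with l h1 h2 h3 hl b0 hb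
  have h5 := h1 b0 hb
  set L := cW D * l with hL
  have hL0 : 0 < L := mul_pos (cW_pos D) hl
  have hsc1 : 0 ≤ scale D l 1 := Co.scale_nonneg D hl.le 1
  have hsc : scale D l 3 = scale D l 1 * L ^ 2 := Co.scale_add D l 2 1
  have hN : ∀ a : Fin 43, L * (1 / 40 - e) ≤ NC D l (1 / 40) a := fun a => by
    have ha : (a : ℝ) < 43 := by exact_mod_cast a.2
    have := (abs_le.1 (h3 (a * (1 / 40)) ((a + 1) * (1 / 40)) (by positivity) (by linarith)
      (by linarith))).1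
    unfold NC
    linarith
  have h6 : ∀ b ∈ univ.filter good, scale D l 3 * ((1 / 40) ^ 2 * Q b - e * (|Q b| + 1))
      ≤ (∏ i, NC D l (1 / 40) (b i)) * ∑ m ∈ (cls l (primorial D) b0).filter (RS η l),
        wg ψ l m * g3 m.primeFactors.card *
          (∑ a : Fin 43, (Fv a (b 0) (b 1) : ℝ) * XC D l (1 / 40) a m) ^ 2 := by
    intro b _
    have h7 := h2 b b0 hb
    have h0 : 0 ≤ L * (1 / 40 - e) := mul_nonneg hL0.le (by linarith)
    have h8 : (L * (1 / 40 - e)) ^ 2 ≤ ∏ i, NC D l (1 / 40) (b i) := by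
      rw [Fin.prod_univ_two, sq]
      exact mul_le_mul (hN _) (hN _) h0 (h0.trans (hN _))
    refine le_trans ?_ (mul_le_mul_of_nonneg_right h8 (sum_nonneg fun m _ =>
      mul_nonneg (mul_nonneg (wg_nonneg hψ l m) (g3_nonneg _)) (sq_nonneg _)))
    refine le_trans ?_ (mul_le_mul_of_nonneg_left h7 (sq_nonneg _))
    have h9 : (1 / 40) ^ 2 * Q b - e * (|Q b| + 1) ≤ (1 / 40 - e) ^ 2 * (Q b - e) := by
      have h10 : 0 ≤ e * (1 / 20 - e) := mul_nonneg he0.le (by linarith)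
      have h11 := mul_le_mul_of_nonneg_left (le_abs_self (Q b)) h10
      have h12 : e * (1 / 20 - e) * |Q b| ≤ e * 1 * |Q b| := by gcongr; linarith
      have h13 : (1 / 40 - e) ^ 2 ≤ 1 := by nlinarith
      nlinarith
    calc _ ≤ scale D l 3 * ((1 / 40 - e) ^ 2 * (Q b - e)) :=
          mul_le_mul_of_nonneg_left h9 (Co.scale_nonneg D hl.le 3)
      _ = _ := by rw [hsc]; simp only [Q]; ring
  have h14 := sum_le_sum h6
  rw [← mul_sum, sum_sub_distrib, ← mul_sum _ Q, ← mul_sum _ (fun b => |Q b| + 1)] at h14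
  have h15 : ∑ b ∈ univ.filter good, Q b
      = I * (1 / 40) * ∑ x ∈ fib, qhat (fun a => (Fv a x.1 x.2 : ℝ)) := by
    rw [← sum_good (fun x y => qhat (fun a => (Fv a x y : ℝ))), mul_sum]
  have h16 : e * ∑ b ∈ univ.filter good, (|Q b| + 1) ≤ ε / 2 := by
    have e1 : ∑ b ∈ univ.filter good, (|Q b| + 1) ≤ K :=
      sum_le_sum_of_subset_of_nonneg (filter_subset _ _) fun _ _ _ => by positivity
    have e2 : e ≤ ε / (2 * (K + 1)) := min_le_right _ _
    rw [le_div_iff₀ (by positivity)] at e2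
    nlinarith
  rw [h15] at h14
  have h17 := mul_le_mul_of_nonneg_left h16 (Co.scale_nonneg D hl.le 3)
  rw [Fintype.card_fin] at h5
  refine le_trans ?_ (h5.trans ?_)
  · rw [le_sub_iff_add_le]
    refine le_trans ?_ (h14.trans (le_of_eq (by congr)))
    change _ + ε / 2 * scale D l 3 ≤ _
    nlinarith
  refine le_trans (le_of_eq (sum_congr rfl fun m hm => ?_)) (sum_le_sum_of_subset_of_nonneg
    (filter_subset (RS η l) _) fun m _ _ =>
      mul_nonneg (wg_nonneg hψ l m) (mul_nonneg (g3_nonneg _) (sq_nonneg _)))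
  have hsq := (mem_filter.1 hm).2.1
  rw [← (ArithmeticFunction.cardDistinctFactors_eq_cardFactors_iff_squarefree hsq.ne_zero).2 hsq,
    ArithmeticFunction.cardDistinctFactors_apply, ← List.card_toFinset, mul_assoc]
  rfl

end Pool.Agent.P.MP_dddec0_nt.T223
end

-- part Pool.Agent.P.MP_dddec0_nt.Main223
section

namespace Pool.Agent.P.MP_dddec0_nt.T223
open Finset Real Filter Pool.Agent.Lib.Tup

attribute [local irreducible] Fv fib

noncomputable def tent (s : ℝ) : ℝ := max 0 (1 / 4000 - |s - 16003 / 4000|)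

theorem bump_tent : Bump tent (8001 / 2000) (4001 / 1000) where
  lo := by norm_num
  le := by norm_num
  hi := by norm_num
  nonneg s := le_max_left _ _
  le_one s := max_le zero_le_one (by linarith [abs_nonneg (s - 16003 / 4000)])
  lip s t := by
    unfold tent
    rw [max_comm 0, max_comm 0]
    refine (abs_max_sub_max_le_abs _ _ _).trans ?_
    have := abs_abs_sub_abs_le_abs_sub (t - 16003 / 4000) (s - 16003 / 4000)
    rw [show 1 / 4000 - |s - 16003 / 4000| - (1 / 4000 - |t - 16003 / 4000|)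
      = |t - 16003 / 4000| - |s - 16003 / 4000| by ring]
    rw [show t - 16003 / 4000 - (s - 16003 / 4000) = -(s - t) by ring, abs_neg] at this
    exact this
  supp s hs := by
    have h : 0 < 1 / 4000 - |s - 16003 / 4000| := by
      by_contra h
      exact hs (max_eq_left (not_lt.1 h))
    have := abs_lt.1 (show |s - 16003 / 4000| < 1 / 4000 by linarith)
    constructor <;> linarith [this.1, this.2]

theorem int_tent_pos : 0 < ∫ s in (8001 / 2000 : ℝ)..(4001 / 1000), tent s := by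
  refine intervalIntegral.intervalIntegral_pos_of_pos_on
    (Continuous.intervalIntegrable (by unfold tent; fun_prop) _ _) (fun s hs => ?_) (by norm_num)
  refine lt_max_of_lt_right (sub_pos.2 (abs_lt.2 ⟨?_, ?_⟩)) <;> linarith [hs.1, hs.2]

theorem sum_split (i : Fin 3) (Y : Fin 3 → ℕ → ℝ) :
    ∑ a : Fin 3 → Fin 43, (Fv (a 0) (a 1) (a 2) : ℝ) * ∏ j, Y j (a j)
      = ∑ x : Fin 43, ∑ b : Fin 2 → Fin 43, (Fv x (b 0) (b 1) : ℝ) *
        (Y i x * ∏ j, Y (i.succAbove j) (b j)) := by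
  rw [← (Fin.insertNthEquiv (fun _ => Fin 43) i).sum_comp, Fintype.sum_prod_type]
  refine sum_congr rfl fun x _ => sum_congr rfl fun b _ => ?_
  rw [Fin.prod_univ_succAbove _ i]
  simp only [Fin.insertNthEquiv_apply, Fin.insertNth_apply_same, Fin.insertNth_apply_succAbove]
  congr 2
  fin_cases i
  · rfl
  · exact Fv_swap12 _ _ _
  · exact Fv_swap13 _ _ _

theorem sum_cube (t : ℕ → ℕ → ℕ → ℝ) : ∑ a : Fin 3 → Fin 43, t (a 0) (a 1) (a 2)
    = ∑ a ∈ range 43, ∑ b ∈ range 43, ∑ c ∈ range 43, t a b c := by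
  rw [← (Fin.insertNthEquiv (fun _ : Fin 3 => Fin 43) 0).sum_comp, Fintype.sum_prod_type,
    ← Fin.sum_univ_eq_sum_range (fun a => ∑ b ∈ range 43, ∑ c ∈ range 43, t a b c)]
  refine sum_congr rfl fun x _ => ?_
  rw [← (finTwoArrowEquiv (Fin 43)).symm.sum_comp, Fintype.sum_prod_type,
    ← Fin.sum_univ_eq_sum_range (fun b => ∑ c ∈ range 43, t x b c)]
  refine sum_congr rfl fun y _ => ?_
  rw [← Fin.sum_univ_eq_sum_range (fun c => t x y c)]
  rfl

theorem main (H : Fin 3 → ℕ) (hH : Function.Injective H)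
    (hadm : ∀ p : ℕ, p.Prime → ∃ r : ℕ, ∀ i, ¬ p ∣ r + H i) :
    {m : ℕ | 2 < ∑ i, g3 (ArithmeticFunction.cardFactors (m + H i))}.Infinite := by
  set I := ∫ s in (8001 / 2000 : ℝ)..(4001 / 1000), tent s with hI
  refine final_step H hH hadm bump_tent (by norm_num) (by norm_num) (n := 43) (h := 1 / 40)
    (by norm_num) (fun a => (Fv (a 0) (a 1) (a 2) : ℝ)) (fun a h => ?_)
    (fun m => g3 (ArithmeticFunction.cardFactors m)) (fun m => g3_nonneg _) (fun m => g3_le_one _)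
    (ρ := 2) (by norm_num)
    (fun _ => I * (1 / 40) ^ 3 * ∑ x ∈ fib, qhat (fun a => (Fv a x.1 x.2 : ℝ)))
    (fun i ε hε => ?_) ?_
  · obtain ⟨h1, h2, h3⟩ := Fv_supp (Nat.cast_ne_zero.1 h)
    have h1' : (a 0 : ℝ) + a 1 ≤ 42 := by exact_mod_cast h1
    have h2' : (a 0 : ℝ) + a 2 ≤ 42 := by exact_mod_cast h2
    have h3' : (a 1 : ℝ) + a 2 ≤ 42 := by exact_mod_cast h3
    rw [Fin.sum_univ_three]
    linarith
  · obtain ⟨D1, h⟩ := coord223 (fun j => (H (i.succAbove j) : ℤ) - H i)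
      (fun j e => Fin.succAbove_ne i j (hH (by exact_mod_cast sub_eq_zero.1 e)))
      (fun j j' e => Fin.succAbove_right_injective (hH (by exact_mod_cast sub_left_injective e)))
      bump_tent (by norm_num) hε
    refine ⟨D1, fun D hD => ?_⟩
    filter_upwards [h D hD] with l hl b hb
    refine (hl b hb).trans (le_of_eq (sum_congr rfl fun m _ => ?_))
    rw [sum_split i fun j a => XC D l (1 / 40) a (m + ((H j : ℤ) - H i))]
    simp only [sub_self, add_zero]
  · have h1 := cert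
    have h2 := mul_lt_mul_of_pos_left h1
      (show 0 < I * (1 / 40) ^ 3 from mul_pos int_tent_pos (by norm_num))
    rw [sum_cube fun a b c => (Fv a b c : ℝ) ^ 2, Fintype.card_fin, sum_const, card_univ,
      Fintype.card_fin, nsmul_eq_mul]
    push_cast
    linarith

theorem of_score {x y z : ℕ} (h : 2 < g3 x + g3 y + g3 z) :
    x ≤ 3 ∧ y ≤ 3 ∧ z ≤ 3 ∧ ((x ≤ 2 ∧ y ≤ 2) ∨ (x ≤ 2 ∧ z ≤ 2) ∨ (y ≤ 2 ∧ z ≤ 2)) := by
  unfold g3 at h
  split_ifs at h <;> first | omega | (exfalso; linarith)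

end Pool.Agent.P.MP_dddec0_nt.T223
end
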