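import Pool.Agent.K.MP_dddec0_nt.C1

namespace Pool.Agent.P.MP_dddec0_nt.L33
open Finset Real Filter Pool.Agent.Lib.Tup

theorem sq_le_add {Y S θ s t : ℝ} (hs : 0 < s) (h : S - Y = θ) (ht : θ ^ 2 ≤ t) :
    Y ^ 2 ≤ (1 + s) * S ^ 2 + (1 + 1 / s) * t := by
  have h1 : 0 ≤ (s * S + θ) ^ 2 / s := by positivity
  have h2 : (s * S + θ) ^ 2 / s = s * S ^ 2 + 2 * S * θ + 1 / s * θ ^ 2 := by field_simp; ring
  have h3 : Y = S - θ := by linarith
  have h4 := mul_le_mul_of_nonneg_left ht (show 0 ≤ 1 + 1 / s by positivity)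
  rw [h3]
  nlinarith

theorem gR_lt {R r : ℕ} (h : ¬ r ≤ R) : gR R r = 0 := if_neg h

open Classical in
theorem pointwise {u v z : ℕ} {Yu Yv Yz Su Sv Sz Tu Tv Tz Θ : ℝ} (hΘ : 0 ≤ Θ) (a1 : 0 ≤ Su)
    (a2 : 0 ≤ Sv) (a3 : 0 ≤ Sz) (a4 : 0 ≤ Tu) (a5 : 0 ≤ Tv) (a6 : 0 ≤ Tz)
    (huv : u.Prime → Yu ≤ Sv + Θ) (huz : u.Prime → Yu ≤ Sz + Θ) (hvu : v.Prime → Yv ≤ Su + Θ)
    (hvz : v.Prime → Yv ≤ Sz + Θ) (hzu : z.Prime → Yz ≤ Su + Θ) (hzv : z.Prime → Yz ≤ Sv + Θ)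
    (h1 : u.Prime → v.Prime → Yu ≤ Tz + Θ) (h2 : v.Prime → z.Prime → Yv ≤ Tu + Θ)
    (h3 : z.Prime → u.Prime → Yz ≤ Tv + Θ) (hno : ¬ Good u v z) :
    (if u.Prime then 1 else 0) * Yu + (if v.Prime then 1 else 0) * Yv
        + (if z.Prime then 1 else 0) * Yz
      ≤ (1 - gR 3 (ArithmeticFunction.cardFactors u)) * Su
        + (1 - gR 3 (ArithmeticFunction.cardFactors v)) * Sv
        + (1 - gR 3 (ArithmeticFunction.cardFactors z)) * Sz
        + (1 - gR 5 (ArithmeticFunction.cardFactors u)) * Tu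
        + (1 - gR 5 (ArithmeticFunction.cardFactors v)) * Tv
        + (1 - gR 5 (ArithmeticFunction.cardFactors z)) * Tz + 2 * Θ := by
  have b : ∀ (R r : ℕ) {S : ℝ}, 0 ≤ S → 0 ≤ (1 - gR R r) * S := fun R r S hS =>
    mul_nonneg (sub_nonneg.2 (gR_le_one R r)) hS
  have b1 := b 3 (ArithmeticFunction.cardFactors u) a1
  have b2 := b 3 (ArithmeticFunction.cardFactors v) a2
  have b3 := b 3 (ArithmeticFunction.cardFactors z) a3
  have b4 := b 5 (ArithmeticFunction.cardFactors u) a4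
  have b5 := b 5 (ArithmeticFunction.cardFactors v) a5
  have b6 := b 5 (ArithmeticFunction.cardFactors z) a6
  have one : ∀ {p : ℕ}, p.Prime → ArithmeticFunction.cardFactors p = 1 := fun hp =>
    ArithmeticFunction.cardFactors_apply_prime hp
  simp only [Good, Pat, not_or, not_and] at hno
  obtain ⟨n1, n2, n3, n4, n5, n6⟩ := hno
  by_cases pu : u.Prime <;> by_cases pv : v.Prime <;> by_cases pz : z.Prime <;>
    simp only [pu, pv, pz, if_true, if_false, one_mul, zero_mul, add_zero, zero_add]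
  · exact absurd ((one pz).le.trans (by norm_num)) ((n1 pu).2 pv)
  · have c5 := (n1 pu).2 pv
    rw [gR_lt c5] at b6 ⊢
    rw [gR_lt (R := 3) (r := ArithmeticFunction.cardFactors z) (by omega)] at b3 ⊢
    linarith [h1 pu pv, hvz pv]
  · have c5 := (n5 pz).2 pu
    rw [gR_lt c5] at b5 ⊢
    rw [gR_lt (R := 3) (r := ArithmeticFunction.cardFactors v) (by omega)] at b2 ⊢
    linarith [h3 pz pu, huv pu]
  · by_cases c : ArithmeticFunction.cardFactors v ≤ 3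
    · rw [gR_lt ((n1 pu).1 c)] at b3 ⊢
      linarith [huz pu]
    · rw [gR_lt c] at b2 ⊢
      linarith [huv pu]
  · have c5 := (n4 pv).2 pz
    rw [gR_lt c5] at b4 ⊢
    rw [gR_lt (R := 3) (r := ArithmeticFunction.cardFactors u) (by omega)] at b1 ⊢
    linarith [h2 pv pz, hzu pz]
  · by_cases c : ArithmeticFunction.cardFactors u ≤ 3
    · rw [gR_lt ((n3 pv).1 c)] at b3 ⊢
      linarith [hvz pv]
    · rw [gR_lt c] at b1 ⊢
      linarith [hvu pv]
  · by_cases c : ArithmeticFunction.cardFactors u ≤ 3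
    · rw [gR_lt ((n5 pz).1 c)] at b2 ⊢
      linarith [hzv pz]
    · rw [gR_lt c] at b1 ⊢
      linarith [hzu pz]
  · linarith

theorem cost3 {ψ : ℝ → ℝ} {s0 s1 : ℝ} (hψ : Bump ψ s0 s1) (h4 : 4 < s0) (h41 : s1 ≤ 41 / 10)
    {x y z : ℕ} (hxy : x ≠ y) (hxz : x ≠ z) (hyz : y ≠ z) {n R : ℕ} (hR : 1 ≤ R) {h : ℝ}
    (hh : 0 < h) (hn : n * h ≤ 1) (F : ℕ → ℕ → ℕ → ℝ) (hF : Sup h F)
    (hF' : ∀ a b c : ℕ, F a b c ≠ 0 → ((a : ℝ) + b + 2) * h ≤ 1) (Q : ℕ → ℕ → ℝ)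
    (hQ : ∀ a b, FibGe ψ s0 s1 n h R (F a b) (Q a b)) {ε : ℝ} (hε : 0 < ε) :
    ∃ D1 : ℕ, ∀ D ≥ D1, ∀ᶠ l : ℝ in atTop, ∀ b : ℕ, Nat.Coprime (b + z) (primorial D) →
      ∑ m ∈ cls l (primorial D) b, wg ψ l m * ((1 - gR R (ArithmeticFunction.cardFactors (m + z))) *
          S3 D l h n F (m + x) (m + y) (m + z) ^ 2)
        ≤ scale D l 3 * ((∫ s in s0..s1, ψ s) * (h ^ 3 * sq3 n F
          - h ^ 2 * ∑ a ∈ range n, ∑ b ∈ range n, Q a b) + ε) := by
  have hxy' : (x : ℤ) ≠ y := by exact_mod_cast hxy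
  have hxz' : (x : ℤ) ≠ z := by exact_mod_cast hxz
  have hyz' : (y : ℤ) ≠ z := by exact_mod_cast hyz
  obtain ⟨D1, H1⟩ := total3 hψ hxy' hxz' hyz' n hh F hF (half_pos hε)
  obtain ⟨D2, H2⟩ := shift3 hψ h4 h41 hxy hxz hyz n hh F hF
    (fun m => gR R (ArithmeticFunction.cardFactors m)) (fun m => gR_nonneg _ _)
    (fun m => gR_le_one _ _) _ (fun e he => coord_fib hψ h4 h41 (sub_ne_zero.2 hxz')
      (sub_ne_zero.2 hyz') (fun e => hxy' (sub_left_injective e)) hR hh hn F hF hF' Q hQ he)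
    (half_pos hε)
  refine ⟨max D1 D2, fun D hD => ?_⟩
  filter_upwards [H1 D (le_of_max_le_left hD), H2 D (le_of_max_le_right hD)] with l h1 h2 b hb
  have h3 := h1 b
  have h5 := h2 b hb
  simp only [sub_mul, one_mul, mul_sub (wg ψ l _), sum_sub_distrib]
  linarith

open Classical in
theorem gain3 {ψ : ℝ → ℝ} {s0 s1 : ℝ} (hψ : Bump ψ s0 s1) (h4 : 4 < s0) (h41 : s1 ≤ 41 / 10)
    {x y z : ℕ} (hxy : x ≠ y) (hxz : x ≠ z) (hyz : y ≠ z) {n E : ℕ} (hn0 : 0 < n) {h : ℝ}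
    (hh : 0 < h) (hn : n * h ≤ 1) (hE : ((n : ℝ) + E + 1) * h ≤ 3 / 2) (T : ℕ → ℕ → ℝ)
    (hT : ∀ a b, T a b ≠ 0 → a + b + 2 ≤ n + E) {ε : ℝ} (hε : 0 < ε) :
    ∃ D1 : ℕ, ∀ D ≥ D1, ∀ᶠ l : ℝ in atTop, ∀ b : ℕ, Nat.Coprime (b + z) (primorial D) →
      scale D l 3 * ((∫ s in s0..s1, ψ s) / s1 * h ^ 4 * (∑ a ∈ range n, ∑ b ∈ range n,
          if a + b + 2 + E ≤ n then T a b ^ 2 else 0) - ε)
        ≤ ∑ m ∈ cls l (primorial D) b, wg ψ l m * ((if (m + z).Prime then 1 else 0) *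
          S3 D l h n (F0 T) (m + x) (m + y) (m + z) ^ 2) := by
  have hxy' : (x : ℤ) ≠ y := by exact_mod_cast hxy
  have hxz' : (x : ℤ) ≠ z := by exact_mod_cast hxz
  have hyz' : (y : ℤ) ≠ z := by exact_mod_cast hyz
  refine shift3 hψ h4 h41 hxy hxz hyz n hh (F0 T) (fun a b c hne => ?_)
    (fun m => if m.Prime then 1 else 0) (fun m => by split_ifs <;> norm_num)
    (fun m => by split_ifs <;> norm_num) _ (fun e he => main3 hψ h4 h41 (sub_ne_zero.2 hxz')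
      (sub_ne_zero.2 hyz') (fun e => hxy' (sub_left_injective e)) hn0 hh hn hE T hT he) hε
  unfold F0 at hne
  split_ifs at hne with hc
  · have h1 : (a : ℝ) + b + 2 ≤ n + E := by exact_mod_cast hT a b hne
    subst hc
    push_cast
    nlinarith
  · exact absurd rfl hne

theorem final {x y z : ℕ} (hxy : x ≠ y) (hxz : x ≠ z) (hyz : y ≠ z)
    (hadm : ∀ p : ℕ, p.Prime → ∃ r : ℕ, ¬ p ∣ r + x ∧ ¬ p ∣ r + y ∧ ¬ p ∣ r + z)
    {ψ : ℝ → ℝ} {s0 s1 : ℝ} (hψ : Bump ψ s0 s1) (h4 : 4 < s0) (h41 : s1 ≤ 41 / 10)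
    (hI : 0 < ∫ s in s0..s1, ψ s) {n E : ℕ} (hn0 : 0 < n) {h : ℝ} (hh : 0 < h) (hn : n * h ≤ 1)
    (hh3 : h ≤ 1 / 3) (hE : ((n : ℝ) + E + 1) * h ≤ 3 / 2) (F F' : ℕ → ℕ → ℕ → ℝ) (T : ℕ → ℕ → ℝ)
    (hF : Sup h F) (hF2 : ∀ a b c : ℕ, F a b c ≠ 0 → ((a : ℝ) + b + 2) * h ≤ 1)
    (hF' : Sup h F') (hF2' : ∀ a b c : ℕ, F' a b c ≠ 0 → ((a : ℝ) + b + 2) * h ≤ 1)
    (hs : ∀ a b c, F a b c = F b a c) (hTs : ∀ b c, T b c = T c b)
    (hT : ∀ a b, T a b ≠ 0 → a + b + 2 ≤ n + E)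
    (hm : ∀ b < n, ∀ c < n, ∑ a ∈ range n, F a b c = T b c)
    (hm' : ∀ c < n, ∑ a ∈ range n, ∑ b ∈ range n, F' a b c = ∑ b ∈ range n, T b c)
    (Q Q' : ℕ → ℕ → ℝ) (hQ : ∀ a b, FibGe ψ s0 s1 n h 3 (F a b) (Q a b))
    (hQ' : ∀ a b, FibGe ψ s0 s1 n h 5 (F' a b) (Q' a b))
    (hc : s1 * (h ^ 3 * (sq3 n F + sq3 n F') - h ^ 2 * (∑ a ∈ range n, ∑ b ∈ range n, Q a b
        + ∑ a ∈ range n, ∑ b ∈ range n, Q' a b))
      < h ^ 4 * ∑ a ∈ range n, ∑ b ∈ range n, if a + b + 2 + E ≤ n then T a b ^ 2 else 0) :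
    {m : ℕ | Good (m + x) (m + y) (m + z)}.Infinite := by
  classical
  set I := ∫ s in s0..s1, ψ s with hIdef
  set TT := ∑ a ∈ range n, ∑ b ∈ range n, if a + b + 2 + E ≤ n then T a b ^ 2 else 0 with hTT
  set Γ := I * (h ^ 3 * sq3 n F - h ^ 2 * ∑ a ∈ range n, ∑ b ∈ range n, Q a b) with hΓ
  set Γ' := I * (h ^ 3 * sq3 n F' - h ^ 2 * ∑ a ∈ range n, ∑ b ∈ range n, Q' a b) with hΓ'
  set Λ := I / s1 * h ^ 4 * TT with hΛ
  have hs1 : 0 < s1 := by linarith [hψ.le]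
  have hδ : 0 < Λ - (Γ + Γ') := by
    have h1 := mul_lt_mul_of_pos_left hc (div_pos hI hs1)
    rw [← mul_assoc, div_mul_cancel₀ _ hs1.ne'] at h1
    rw [hΛ, hΓ, hΓ']
    linarith
  set δ := Λ - (Γ + Γ') with hδ'
  set s := min 1 (δ / (4 * (|Γ + Γ'| + 1))) with hsdef
  have hs0 : 0 < s := lt_min one_pos (by positivity)
  have hs1' : s ≤ 1 := min_le_left _ _
  have hs2 : 0 ≤ 1 + 1 / s := by positivity
  have hs3 : 0 ≤ 1 + s := by positivity
  have hsG : s * (Γ + Γ') ≤ δ / 4 := by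
    have e2 : s ≤ δ / (4 * (|Γ + Γ'| + 1)) := min_le_right _ _
    rw [le_div_iff₀ (by positivity)] at e2
    linarith only [e2, hs0, mul_le_mul_of_nonneg_left (le_abs_self (Γ + Γ')) hs0.le]
  have hxy' : (x : ℤ) ≠ y := by exact_mod_cast hxy
  have hxz' : (x : ℤ) ≠ z := by exact_mod_cast hxz
  have hyz' : (y : ℤ) ≠ z := by exact_mod_cast hyz
  have hε : 0 < δ / 20 := by positivity
  obtain ⟨C1, c1, B1, S1⟩ := small3 hψ hxy' hxz' hyz' n hh
  obtain ⟨C2, c2, B2, S2⟩ := small3 hψ hxz' hxy' hyz'.symm n hh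
  obtain ⟨C3, c3, B3, S3'⟩ := small3 hψ hyz' hxy'.symm hxz'.symm n hh
  obtain ⟨C4, c4, B4, S4⟩ := small3 hψ hxy'.symm hyz' hxz' n hh
  obtain ⟨C5, c5, B5, S5⟩ := small3 hψ hxz'.symm hyz'.symm hxy' n hh
  obtain ⟨C6, c6, B6, S6⟩ := small3 hψ hyz'.symm hxz'.symm hxy'.symm n hh
  set C := 2 * C1 + C2 + 2 * C3 + C4 + 2 * C5 + C6 with hC
  have hC0 : 0 ≤ C := by positivity
  set e := min 1 (δ / (2 * (1 + 1 / s) * (C + 1))) with he
  have he0 : 0 < e := lt_min one_pos (by positivity)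
  have heC : 2 * ((1 + 1 / s) * (C * e ^ 2)) ≤ δ := by
    have e1 : e ≤ 1 := min_le_left _ _
    have e2 : e ≤ δ / (2 * (1 + 1 / s) * (C + 1)) := min_le_right _ _
    rw [le_div_iff₀ (by positivity)] at e2
    have e3 : C * e ^ 2 ≤ (C + 1) * e := by
      linarith only [he0, mul_le_mul_of_nonneg_left e1 (mul_nonneg hC0 he0.le)]
    linarith only [e2, mul_le_mul_of_nonneg_left e3 hs2]
  obtain ⟨A1, G1⟩ := gain3 hψ h4 h41 hyz hxy.symm hxz.symm hn0 hh hn hE T hT hε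
  obtain ⟨A2, G2⟩ := gain3 hψ h4 h41 hxz.symm hyz.symm hxy hn0 hh hn hE T hT hε
  obtain ⟨A3, G3⟩ := gain3 hψ h4 h41 hxy hxz hyz hn0 hh hn hE T hT hε
  obtain ⟨A4, K1⟩ := cost3 hψ h4 h41 hyz hxy.symm hxz.symm (by norm_num) hh hn F hF hF2 Q hQ hε
  obtain ⟨A5, K2⟩ := cost3 hψ h4 h41 hxz.symm hyz.symm hxy (by norm_num) hh hn F hF hF2 Q hQ hε
  obtain ⟨A6, K3⟩ := cost3 hψ h4 h41 hxy hxz hyz (by norm_num) hh hn F hF hF2 Q hQ hε
  obtain ⟨A7, K4⟩ := cost3 hψ h4 h41 hyz hxy.symm hxz.symm (by norm_num) hh hn F' hF' hF2' Q' hQ' hε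
  obtain ⟨A8, K5⟩ := cost3 hψ h4 h41 hxz.symm hyz.symm hxy (by norm_num) hh hn F' hF' hF2' Q' hQ' hε
  obtain ⟨A9, K6⟩ := cost3 hψ h4 h41 hxy hxz hyz (by norm_num) hh hn F' hF' hF2' Q' hQ' hε
  obtain ⟨A10, E1⟩ := err1 hn0 hh hn F hF T hm he0
  obtain ⟨A11, E2⟩ := err2 hn0 hh hn hh3 F' T hm' he0
  obtain ⟨D, hD⟩ : ∃ D : ℕ, D = B1 + B2 + B3 + B4 + B5 + B6 + A1 + A2 + A3 + A4 + A5 + A6 + A7
    + A8 + A9 + A10 + A11 := ⟨_, rfl⟩
  obtain ⟨b, hb⟩ := exists_class ![x, y, z] (fun p hp => by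
    obtain ⟨r, h1, h2, h3⟩ := hadm p hp
    exact ⟨r, fun i => by fin_cases i <;> assumption⟩) D
  have hbx : Nat.Coprime (b + x) (primorial D) := hb 0
  have hby : Nat.Coprime (b + y) (primorial D) := hb 1
  have hbz : Nat.Coprime (b + z) (primorial D) := hb 2
  refine Set.infinite_of_forall_exists_gt fun N => ?_
  by_contra hno
  push Not at hno
  suffices hf : ∀ᶠ l : ℝ in atTop, False from hf.exists.elim fun _ h => h
  filter_upwards [S1 D (by omega), S2 D (by omega), S3' D (by omega), S4 D (by omega),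
    S5 D (by omega), S6 D (by omega), G1 D (by omega), G2 D (by omega), G3 D (by omega),
    K1 D (by omega), K2 D (by omega), K3 D (by omega), K4 D (by omega), K5 D (by omega),
    K6 D (by omega), E1 D (by omega), E2 D (by omega), one_le_scale D 3, eventually_gt_atTop 0,
    eventually_gt_atTop (log (N + 1))]
    with l t1 t2 t3 t4 t5 t6 g1 g2 g3 k1 k2 k3 k4 k5 k6 ⟨d, d1, d2, d3⟩ ⟨d', d1', d2', d3'⟩ hsc
      hl hN
  have hF0 : ∀ a b c, F0 T a b c = F0 T b a c := fun a b c => by unfold F0; rw [hTs]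
  let θ : ℕ → ℝ := fun m => S3 D l h n d (m + x) (m + y) (m + z) ^ 2
    + S3 D l h n d (m + x) (m + z) (m + y) ^ 2 + S3 D l h n d (m + y) (m + z) (m + x) ^ 2
    + S3 D l h n d (m + y) (m + x) (m + z) ^ 2 + S3 D l h n d (m + z) (m + x) (m + y) ^ 2
    + S3 D l h n d (m + z) (m + y) (m + x) ^ 2 + S3 D l h n d' (m + x) (m + y) (m + z) ^ 2
    + S3 D l h n d' (m + y) (m + z) (m + x) ^ 2 + S3 D l h n d' (m + z) (m + x) (m + y) ^ 2
  have hθ : ∑ m ∈ cls l (primorial D) b, wg ψ l m * θ m ≤ C * e ^ 2 * scale D l 3 := by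
    simp only [θ, mul_add (wg ψ l _), sum_add_distrib]
    have u1 := t1 b d e d1 d2
    have u2 := t2 b d e d1 d2
    have u3 := t3 b d e d1 d2
    have u4 := t4 b d e d1 d2
    have u5 := t5 b d e d1 d2
    have u6 := t6 b d e d1 d2
    have u7 := t1 b d' e d1' d2'
    have u8 := t3 b d' e d1' d2'
    have u9 := t5 b d' e d1' d2'
    rw [hC]
    linarith only [u1, u2, u3, u4, u5, u6, u7, u8, u9]
  have hpt : ∀ m ∈ cls l (primorial D) b,
      wg ψ l m * ((if (m + x).Prime then 1 else 0) * S3 D l h n (F0 T) (m + y) (m + z) (m + x) ^ 2)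
      + wg ψ l m * ((if (m + y).Prime then 1 else 0) * S3 D l h n (F0 T) (m + z) (m + x) (m + y) ^ 2)
      + wg ψ l m * ((if (m + z).Prime then 1 else 0) * S3 D l h n (F0 T) (m + x) (m + y) (m + z) ^ 2)
      ≤ (1 + s) * (wg ψ l m * ((1 - gR 3 (ArithmeticFunction.cardFactors (m + x))) *
            S3 D l h n F (m + y) (m + z) (m + x) ^ 2)
          + wg ψ l m * ((1 - gR 3 (ArithmeticFunction.cardFactors (m + y))) *
            S3 D l h n F (m + z) (m + x) (m + y) ^ 2)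
          + wg ψ l m * ((1 - gR 3 (ArithmeticFunction.cardFactors (m + z))) *
            S3 D l h n F (m + x) (m + y) (m + z) ^ 2)
          + wg ψ l m * ((1 - gR 5 (ArithmeticFunction.cardFactors (m + x))) *
            S3 D l h n F' (m + y) (m + z) (m + x) ^ 2)
          + wg ψ l m * ((1 - gR 5 (ArithmeticFunction.cardFactors (m + y))) *
            S3 D l h n F' (m + z) (m + x) (m + y) ^ 2)
          + wg ψ l m * ((1 - gR 5 (ArithmeticFunction.cardFactors (m + z))) *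
            S3 D l h n F' (m + x) (m + y) (m + z) ^ 2))
        + 2 * ((1 + 1 / s) * (wg ψ l m * θ m)) := by
    intro m _
    by_cases hw : wg ψ l m = 0
    · simp [hw]
    have hlo : s0 * l ≤ log m := not_lt.1 fun hlt => hw (wg_zero_lo hψ hl hlt)
    have hm0 : (0 : ℝ) < m := by
      rcases Nat.eq_zero_or_pos m with rfl | h0
      · rw [Nat.cast_zero, log_zero] at hlo
        linarith only [hlo, mul_pos (show 0 < s0 by linarith only [h4]) hl]
      · exact_mod_cast h0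
    have hlog : ∀ t : ℕ, 2 * l ≤ log ((m + t : ℕ) : ℝ) := fun t => by
      have : log m ≤ log ((m + t : ℕ) : ℝ) :=
        log_le_log hm0 (by exact_mod_cast Nat.le_add_right m t)
      linarith only [this, hlo, hl, mul_lt_mul_of_pos_right h4 hl]
    have hbad : ¬ Good (m + x) (m + y) (m + z) := fun hg => by
      have c1 : m ≤ N := hno m hg
      have c2 : log m ≤ log (N + 1) :=
        log_le_log hm0 (by exact_mod_cast c1.trans (Nat.le_succ N))
      linarith only [c2, hN, hlo, hl, mul_lt_mul_of_pos_right h4 hl]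
    have f1 : ∀ (t : ℕ) (v w : ℤ), (m + t).Prime → S3 D l h n F (m + t) v w
        - S3 D l h n (F0 T) v w (m + t) = S3 D l h n d (m + t) v w := fun t v w hp => by
      have := d3 (m + t) v w hp (hlog t)
      rwa [Nat.cast_add] at this
    have f2 : ∀ (t t' : ℕ) (w : ℤ), (m + t).Prime → (m + t').Prime →
        S3 D l h n F' (m + t) (m + t') w - S3 D l h n (F0 T) (m + t') w (m + t)
          = S3 D l h n d' (m + t) (m + t') w := fun t t' w hp hp' => by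
      have := d3' (m + t) (m + t') w hp (hlog t) hp' (hlog t')
      rwa [Nat.cast_add, Nat.cast_add] at this
    have f3 : ∀ (t : ℕ) (v w : ℤ), (m + t).Prime → S3 D l h n F v (m + t) w
        - S3 D l h n (F0 T) w v (m + t) = S3 D l h n d (m + t) v w := fun t v w hp => by
      rw [S3_swap D l h n hs v, S3_swap D l h n hF0 w]
      exact f1 t v w hp
    have q1 := sq_nonneg (S3 D l h n d (m + x) (m + y) (m + z))
    have q2 := sq_nonneg (S3 D l h n d (m + x) (m + z) (m + y))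
    have q3 := sq_nonneg (S3 D l h n d (m + y) (m + z) (m + x))
    have q4 := sq_nonneg (S3 D l h n d (m + y) (m + x) (m + z))
    have q5 := sq_nonneg (S3 D l h n d (m + z) (m + x) (m + y))
    have q6 := sq_nonneg (S3 D l h n d (m + z) (m + y) (m + x))
    have q7 := sq_nonneg (S3 D l h n d' (m + x) (m + y) (m + z))
    have q8 := sq_nonneg (S3 D l h n d' (m + y) (m + z) (m + x))
    have q9 := sq_nonneg (S3 D l h n d' (m + z) (m + x) (m + y))
    have hp := pointwise (Θ := (1 + 1 / s) * θ m)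
      (Yu := S3 D l h n (F0 T) (m + y) (m + z) (m + x) ^ 2)
      (Yv := S3 D l h n (F0 T) (m + z) (m + x) (m + y) ^ 2)
      (Yz := S3 D l h n (F0 T) (m + x) (m + y) (m + z) ^ 2)
      (Su := (1 + s) * S3 D l h n F (m + y) (m + z) (m + x) ^ 2)
      (Sv := (1 + s) * S3 D l h n F (m + z) (m + x) (m + y) ^ 2)
      (Sz := (1 + s) * S3 D l h n F (m + x) (m + y) (m + z) ^ 2)
      (Tu := (1 + s) * S3 D l h n F' (m + y) (m + z) (m + x) ^ 2)
      (Tv := (1 + s) * S3 D l h n F' (m + z) (m + x) (m + y) ^ 2)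
      (Tz := (1 + s) * S3 D l h n F' (m + x) (m + y) (m + z) ^ 2)
      (mul_nonneg hs2 (by simp only [θ]; linarith only [q1, q2, q3, q4, q5, q6, q7, q8, q9]))
      (mul_nonneg hs3 (sq_nonneg _)) (mul_nonneg hs3 (sq_nonneg _)) (mul_nonneg hs3 (sq_nonneg _))
      (mul_nonneg hs3 (sq_nonneg _)) (mul_nonneg hs3 (sq_nonneg _)) (mul_nonneg hs3 (sq_nonneg _))
      (fun hp => sq_le_add hs0 (f3 x _ _ hp)
        (by simp only [θ]; linarith only [q1, q2, q3, q4, q5, q6, q7, q8, q9]))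
      (fun hp => sq_le_add hs0 (f1 x _ _ hp)
        (by simp only [θ]; linarith only [q1, q2, q3, q4, q5, q6, q7, q8, q9]))
      (fun hp => sq_le_add hs0 (f1 y _ _ hp)
        (by simp only [θ]; linarith only [q1, q2, q3, q4, q5, q6, q7, q8, q9]))
      (fun hp => sq_le_add hs0 (f3 y _ _ hp)
        (by simp only [θ]; linarith only [q1, q2, q3, q4, q5, q6, q7, q8, q9]))
      (fun hp => sq_le_add hs0 (f3 z _ _ hp)
        (by simp only [θ]; linarith only [q1, q2, q3, q4, q5, q6, q7, q8, q9]))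
      (fun hp => sq_le_add hs0 (f1 z _ _ hp)
        (by simp only [θ]; linarith only [q1, q2, q3, q4, q5, q6, q7, q8, q9]))
      (fun hp hp' => sq_le_add hs0 (f2 x y _ hp hp')
        (by simp only [θ]; linarith only [q1, q2, q3, q4, q5, q6, q7, q8, q9]))
      (fun hp hp' => sq_le_add hs0 (f2 y z _ hp hp')
        (by simp only [θ]; linarith only [q1, q2, q3, q4, q5, q6, q7, q8, q9]))
      (fun hp hp' => sq_le_add hs0 (f2 z x _ hp hp')
        (by simp only [θ]; linarith only [q1, q2, q3, q4, q5, q6, q7, q8, q9])) hbad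
    linarith only [mul_le_mul_of_nonneg_left hp (wg_nonneg hψ l m)]
  have hsum := sum_le_sum hpt
  simp only [sum_add_distrib, ← mul_sum] at hsum
  have v1 := mul_le_mul_of_nonneg_left (add_le_add (add_le_add (add_le_add (add_le_add (add_le_add
    (k1 b hbx) (k2 b hby)) (k3 b hbz)) (k4 b hbx)) (k5 b hby)) (k6 b hbz))
    hs3
  have v2 := mul_le_mul_of_nonneg_left hθ hs2
  have v3 := mul_le_mul_of_nonneg_left heC (show 0 ≤ scale D l 3 by linarith)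
  have v4 : scale D l 3 * (3 * (Λ - δ / 20))
      ≤ scale D l 3 * ((1 + s) * (3 * (Γ + Γ' + 2 * (δ / 20))) + δ) := by
    linarith only [g1 b hbx, g2 b hby, g3 b hbz, hsum, v1, v2, v3]
  have v5 := le_of_mul_le_mul_left v4 (by linarith only [hsc])
  linarith only [v5, hsG, hδ', hδ, mul_le_mul_of_nonneg_right hs1' hε.le]

end Pool.Agent.P.MP_dddec0_nt.L33
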