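import Pool.Agent.K.MP_dddec0_nt.C4
import Pool.Agent.K.MP_dddec0_nt.C1
import Pool.Agent.K.MP_dddec0_nt.C3

-- part Pool.Agent.P.MP_dddec0_nt.L33CertA
section

namespace Pool.Agent.P.MP_dddec0_nt.L33
open Finset Real

theorem sT_eq (n : ℕ) (f : ℕ → ℕ) : sT n f = ∑ i ∈ range n, f i := by
  induction n with
  | zero => rfl
  | succ n ih => rw [sum_range_succ, ← ih]; rfl

theorem force_eq (x : ℕ) (f : ℕ → ℕ) : force x f = f x := by cases x <;> rfl

theorem allTo_iff (n : ℕ) (p : ℕ → Bool) : allTo n p = true ↔ ∀ i < n, p i = true := by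
  induction n with
  | zero => exact ⟨fun _ i hi => absurd hi (Nat.not_lt_zero i), fun _ => rfl⟩
  | succ n ih =>
    have e : allTo (n + 1) p = cond (allTo n p) (p n) false := rfl
    rw [e, Nat.forall_lt_succ_right, ← ih]
    cases allTo n p <;> simp

theorem dg_eq (x w i : ℕ) : dg x w i = x / 2 ^ (w * i) % 2 ^ w := by
  rw [← Nat.shiftRight_eq_div_pow]
  rfl

theorem d8_lt (x i : ℕ) : d8 x i < 256 := Nat.mod_lt _ (by norm_num)

def blk (σ : ℕ) : ℕ := if σ ≤ 39 then 0 else if σ ≤ 49 then 1 else 2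

noncomputable section

/-- The first lift. -/
def Fr (a b c : ℕ) : ℝ := if a < 60 ∧ b < 60 ∧ c < 60 then (raw a b c : ℝ) - 21 else 0

def Tr (b c : ℕ) : ℝ := ∑ a ∈ range 60, Fr a b c

def Gr (s c : ℕ) : ℝ := (psi s c : ℝ) / 820

/-- The second lift. -/
def Fr' (a b c : ℕ) : ℝ := if a + b ≤ 58 then Gr (blk (a + b)) c else 0

end

theorem certA_idx (a b : ℕ) : idx a b = idx b a := by
  simp only [idx, min_comm a b, max_comm a b, add_comm a b]

theorem certA_kS {x c : ℕ} (hx : x < 901) (h : lenX x ≤ c) (hc : c < 60) :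
    d8 (tcol c) x = 21 := by
  have g := (allTo_iff _ _).1 ((allTo_iff _ _).1 kS x hx) (59 - c) (by omega)
  rw [force_eq, show 59 - (59 - c) = c by omega] at g
  exact Nat.eq_of_beq_eq_true g

theorem certA_kx {x : ℕ} (hx : x < 900) :
    idx (xa x) (xb x) = x ∧ xa x ≤ xb x ∧ xa x + xb x ≤ 58 :=
  of_decide_eq_true ((allTo_iff _ _).1 kx x hx)

theorem certA_ky {a b : ℕ} (h : a + b ≤ 58) :
    idx a b < 900 ∧ xa (idx a b) = min a b ∧ xb (idx a b) = max a b :=
  of_decide_eq_true ((allTo_iff _ _).1 ((allTo_iff _ _).1 ky a (by omega)) b (by omega))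

theorem Fr_symm (a b c : ℕ) : Fr a b c = Fr b a c := by
  simp only [Fr, raw, certA_idx a b, and_left_comm]

/-- Hint: `kS`. -/
theorem col_last {x : ℕ} (hx : x < 900) : d8 (tcol 59) x = 21 := by
  refine certA_kS (by omega) ?_ (by omega)
  unfold lenX
  split_ifs
  exact min_le_left _ _

/-- Hint: `kx`. -/
theorem Fr_x {x c : ℕ} (hx : x < 900) (hc : c < 60) :
    Fr (xa x) (xb x) c = (d8 (tcol c) x : ℝ) - 21 := by
  obtain ⟨h1, h2, h3⟩ := certA_kx hx
  rw [Fr, if_pos ⟨by omega, by omega, hc⟩, raw, h1]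

/-- Hint: `kS`, `ky`. -/
theorem Fr_supp {a b c : ℕ} (h : Fr a b c ≠ 0) : a + b ≤ 58 ∧ a + b + c ≤ 97 := by
  unfold Fr at h
  split_ifs at h with h1
  swap
  · exact absurd rfl h
  have h2 : ¬ (idx a b < 901 ∧ lenX (idx a b) ≤ c) := fun g => h (by
    rw [raw, certA_kS g.1 g.2 h1.2.2]
    norm_num)
  by_cases hab : a + b ≤ 58
  · obtain ⟨g1, g2, g3⟩ := certA_ky hab
    rw [lenX, if_pos g1, g2, g3] at h2
    omega
  · rw [idx, if_neg hab] at h2
    exact absurd ⟨by norm_num, Nat.zero_le c⟩ h2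

theorem certA_Tr {b c : ℕ} (hb : b < 60) (hc : c < 60) : Tr b c = (tN b c : ℝ) - 1260 := by
  have e : ∀ a ∈ range 60, Fr a b c = (raw a b c : ℝ) - 21 := fun a ha =>
    if_pos ⟨mem_range.1 ha, hb, hc⟩
  rw [Tr, tN, sT_eq, sum_congr rfl e, sum_sub_distrib]
  push_cast
  norm_num

theorem certA_Tr0 {b c : ℕ} (h : ¬ (b < 60 ∧ c < 60)) : Tr b c = 0 :=
  sum_eq_zero fun _ _ => if_neg fun g => h g.2

theorem certA_kT : chkT = true ∧ chkU = true ∧ 20300422825 ≤ TTn := by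
  have h := kT
  rw [Bool.and_eq_true, Bool.and_eq_true, Nat.ble_eq] at h
  exact ⟨h.1.1, h.1.2, h.2⟩

theorem certA_kT' {b c : ℕ} (hb : b < 60) (hc : c < 60) :
    tN b c = tN c b ∧ (b + c ≤ 74 ∨ tN b c = 1260) := by
  have h := (allTo_iff _ _).1 ((allTo_iff _ _).1 certA_kT.1 b hb) c hc
  rwa [Bool.and_eq_true, Bool.or_eq_true, beq_iff_eq, beq_iff_eq, decide_eq_true_eq] at h

/-- Hint: `kT`; for `b, c < 60`, `Tr b c = tN b c - 1260`, otherwise `Tr b c = 0`. -/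
theorem Tr_symm (b c : ℕ) : Tr b c = Tr c b := by
  by_cases h : b < 60 ∧ c < 60
  · rw [certA_Tr h.1 h.2, certA_Tr h.2 h.1, (certA_kT' h.1 h.2).1]
  · rw [certA_Tr0 h, certA_Tr0 fun g => h g.symm]

theorem Tr_supp (a b : ℕ) (h : Tr a b ≠ 0) : a + b + 2 ≤ 60 + 16 := by
  by_cases g : a < 60 ∧ b < 60
  · rcases (certA_kT' g.1 g.2).2 with g1 | g1
    · omega
    · rw [certA_Tr g.1 g.2, g1] at h
      exact absurd (by norm_num) h
  · exact absurd (certA_Tr0 g) h

theorem certA_psi {s n c : ℕ} (h : tp s < 2 ^ (20 * n)) (hc : Gr s c ≠ 0) : c < n := by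
  by_contra g
  refine hc ?_
  rw [Gr, psi, dg_eq, Nat.div_eq_of_lt (h.trans_le (Nat.pow_le_pow_right (by norm_num) (by omega))),
    Nat.zero_mod, Nat.cast_zero, zero_div]

/-- Hint: `ktp`, `dg_eq`. -/
theorem Fr'_supp {a b c : ℕ} (h : Fr' a b c ≠ 0) : a + b ≤ 58 ∧ a + b + c ≤ 97 := by
  unfold Fr' at h
  split_ifs at h with h1
  swap
  · exact absurd rfl h
  refine ⟨h1, ?_⟩
  unfold blk at h
  split_ifs at h with h2 h3
  · have := certA_psi ktp.1 h
    omega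
  · have := certA_psi ktp.2.1 h
    omega
  · have := certA_psi ktp.2.2 h
    omega

theorem certA_cnt : ∀ s < 3, (∑ a ∈ range 60, ∑ b ∈ range 60,
    if a + b ≤ 58 ∧ blk (a + b) = s then 1 else 0) = mu s := by
  decide +kernel

/-- Hint: write `Φ (blk σ) = ∑ s < 3, if blk σ = s then Φ s else 0` and count by
`decide +kernel`. -/
theorem sum_blk (Φ : ℕ → ℝ) :
    ∑ a ∈ range 60, ∑ b ∈ range 60, (if a + b ≤ 58 then Φ (blk (a + b)) else 0)
      = 820 * Φ 0 + 455 * Φ 1 + 495 * Φ 2 := by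
  have e : ∀ a b : ℕ, (if a + b ≤ 58 then Φ (blk (a + b)) else 0) = ∑ s ∈ range 3,
      ((if a + b ≤ 58 ∧ blk (a + b) = s then 1 else 0 : ℕ) : ℝ) * Φ s := by
    intro a b
    by_cases h : a + b ≤ 58
    · have h3 : blk (a + b) < 3 := by
        unfold blk
        split_ifs <;> simp
      simp [h, sum_ite_eq, h3]
    · simp [h]
  have e2 : ∀ s ∈ range 3, ∑ a ∈ range 60, ∑ b ∈ range 60,
      ((if a + b ≤ 58 ∧ blk (a + b) = s then 1 else 0 : ℕ) : ℝ) * Φ s = (mu s : ℝ) * Φ s := by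
    intro s hs
    rw [← certA_cnt s (mem_range.1 hs), Nat.cast_sum, sum_mul]
    refine sum_congr rfl fun a _ => ?_
    rw [Nat.cast_sum, sum_mul]
  rw [sum_congr rfl fun a _ => (sum_congr rfl fun b _ => e a b).trans sum_comm, sum_comm,
    sum_congr rfl e2]
  simp [sum_range_succ, mu]

theorem marg' (c : ℕ) (hc : c < 60) :
    ∑ a ∈ range 60, ∑ b ∈ range 60, Fr' a b c = ∑ b ∈ range 60, Tr b c := by
  have h := (allTo_iff _ _).1 certA_kT.2.1 c hc
  rw [beq_iff_eq, sT_eq] at h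
  have h' := congrArg (Nat.cast : ℕ → ℝ) h
  rw [sum_congr rfl fun b hb => certA_Tr (mem_range.1 hb) hc, sum_sub_distrib, ← Nat.cast_sum]
  refine (sum_blk fun s => Gr s c).trans ?_
  unfold Gr
  generalize ∑ b ∈ range 60, tN b c = T at h' ⊢
  generalize psi 0 c = p0 at h' ⊢
  generalize psi 1 c = p1 at h' ⊢
  generalize psi 2 c = p2 at h' ⊢
  push_cast at h'
  rw [sum_const, card_range, nsmul_eq_mul]
  push_cast
  linarith

theorem TT_ge : (20300422825 : ℝ) ≤ ∑ a ∈ range 60, ∑ b ∈ range 60,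
    if a + b + 2 + 16 ≤ 60 then Tr a b ^ 2 else 0 := by
  have h : ((20300422825 : ℕ) : ℝ) ≤ TTn := Nat.cast_le.2 certA_kT.2.2
  rw [TTn, sT_eq, Nat.cast_sum, Nat.cast_ofNat] at h
  refine h.trans (sum_le_sum fun a ha => ?_)
  rw [sT_eq, Nat.cast_sum]
  refine sum_le_sum fun b hb => ?_
  split_ifs
  · rw [certA_Tr (mem_range.1 ha) (mem_range.1 hb)]
    generalize tN a b = t
    rcases le_total 1260 t with g | g
    · rw [Nat.cast_pow, Nat.cast_sub g, Nat.cast_ofNat]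
    · rw [Nat.sub_eq_zero_of_le g, zero_pow two_ne_zero, Nat.cast_zero]
      exact sq_nonneg _
  · exact Nat.cast_zero.le

theorem sq3_Fr' : sq3 60 Fr' ≤ 396180585762560 / 820 ^ 2 := by
  have h : (sqP : ℝ) ≤ (396180585762560 : ℕ) := Nat.cast_le.2 (Nat.ble_eq ▸ kP)
  have e : ∀ a b : ℕ, ∑ c ∈ range 60, Fr' a b c ^ 2 = if a + b ≤ 58 then
      ((∑ c ∈ range 60, psi (blk (a + b)) c ^ 2 : ℕ) : ℝ) / 820 ^ 2 else 0 := by
    intro a b
    unfold Fr'
    split_ifs
    · rw [Nat.cast_sum, sum_div]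
      exact sum_congr rfl fun c _ => by rw [Gr, div_pow, Nat.cast_pow]
    · simp
  rw [sq3, sum_congr rfl fun a _ => sum_congr rfl fun b _ => e a b,
    sum_blk fun s => ((∑ c ∈ range 60, psi s c ^ 2 : ℕ) : ℝ) / 820 ^ 2]
  rw [sqP, sT_eq, sum_range_succ, sum_range_succ, sum_range_one, sT_eq, sT_eq, sT_eq] at h
  generalize ∑ c ∈ range 60, psi 0 c ^ 2 = p0 at h ⊢
  generalize ∑ c ∈ range 60, psi 1 c ^ 2 = p1 at h ⊢
  generalize ∑ c ∈ range 60, psi 2 c ^ 2 = p2 at h ⊢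
  have m0 : mu 0 = 820 := rfl
  have m1 : mu 1 = 455 := rfl
  have m2 : mu 2 = 495 := rfl
  rw [m0, m1, m2] at h
  push_cast at h
  linarith

/-- Hint: fibre the pairs with `a + b ≤ 58` over `x = idx a b` (`sum_fiberwise_of_maps_to`, `kx`,
`ky`): the fibre is `{(xa x, xb x), (xb x, xa x)}`. -/
theorem sum_fold (Φ : ℕ → ℕ → ℝ) (hΦ : ∀ a b, Φ a b = Φ b a) :
    ∑ a ∈ range 60, ∑ b ∈ range 60, (if a + b ≤ 58 then Φ a b else 0)
      = ∑ x ∈ range 900, (wx x : ℝ) * Φ (xa x) (xb x) := by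
  generalize hn : 60 = n
  generalize hN : 900 = N
  have hm : ∀ p ∈ (range n ×ˢ range n).filter fun p : ℕ × ℕ => p.1 + p.2 ≤ 58,
      idx p.1 p.2 ∈ range N := fun p hp =>
    mem_range.2 ((certA_ky (mem_filter.1 hp).2).1.trans_eq hN)
  rw [← sum_product', ← sum_filter, ← sum_fiberwise_of_maps_to hm]
  refine sum_congr rfl fun x hx => ?_
  obtain ⟨h1, h2, h3⟩ := certA_kx ((mem_range.1 hx).trans_eq hN.symm)
  have e : ((range n ×ˢ range n).filter fun p : ℕ × ℕ => p.1 + p.2 ≤ 58).filter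
      (fun p => idx p.1 p.2 = x) = {(xa x, xb x), (xb x, xa x)} := by
    ext ⟨a, b⟩
    simp only [mem_filter, mem_product, mem_range, mem_insert, mem_singleton, Prod.mk.injEq]
    constructor
    · rintro ⟨⟨-, g⟩, rfl⟩
      obtain ⟨-, g2, g3⟩ := certA_ky g
      omega
    · rintro (⟨rfl, rfl⟩ | ⟨rfl, rfl⟩)
      · exact ⟨by omega, h1⟩
      · exact ⟨by omega, (certA_idx _ _).trans h1⟩
  rw [e, wx]
  split_ifs with g
  · rw [← g, pair_eq_singleton, sum_singleton, Nat.cast_one, one_mul]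
  · rw [sum_pair fun g' => g (congrArg Prod.fst g'), hΦ (xb x), Nat.cast_ofNat, two_mul]

end Pool.Agent.P.MP_dddec0_nt.L33
end

-- part Pool.Agent.P.MP_dddec0_nt.L33CertC
section

namespace Pool.Agent.P.MP_dddec0_nt.L33
open Finset Real

/-- `X` packs `wx * v` forwards and `Y` packs `v` backwards. -/
def Rep (X Y : ℕ) (v : ℕ → ℕ) : Prop :=
  X = ∑ x ∈ range 900, wx x * v x * 2 ^ (64 * x) ∧ Y = ∑ x ∈ range 900, v (899 - x) * 2 ^ (64 * x)

attribute [local irreducible] tcol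

theorem cc_block (f : ℕ → ℕ) (m n : ℕ) :
    ∑ x ∈ range (m * n), f x = ∑ q ∈ range n, ∑ t ∈ range m, f (m * q + t) := by
  induction n with
  | zero => simp
  | succ n ih => rw [Nat.mul_succ, sum_range_add, ih, sum_range_succ]

theorem cc_lt {B : ℕ} (g : ℕ → ℕ) (n : ℕ) (hg : ∀ i < n, g i < B) :
    ∑ i ∈ range n, g i * B ^ i < B ^ n := by
  induction n with
  | zero => simp
  | succ n ih =>
    have h1 := ih fun i hi => hg i (by omega)
    have h2 := Nat.mul_le_mul_right (B ^ n) (Nat.succ_le_of_lt (hg n (by omega)))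
    rw [sum_range_succ, pow_succ]
    rw [Nat.succ_mul] at h2
    nlinarith

theorem cc_mul (B : ℕ) (a b : ℕ → ℕ) (n : ℕ) :
    ∃ R, (∑ i ∈ range n, a i * B ^ i) * ∑ j ∈ range n, b j * B ^ j =
      ∑ s ∈ range n, (∑ i ∈ range (s + 1), a i * b (s - i)) * B ^ s + B ^ n * R := by
  refine ⟨∑ i ∈ range n, ∑ j ∈ range i, a i * b (n - i + j) * B ^ j, ?_⟩
  have e : ∑ s ∈ range n, (∑ i ∈ range (s + 1), a i * b (s - i)) * B ^ s =
      ∑ i ∈ range n, ∑ j ∈ range (n - i), a i * b j * B ^ (i + j) := by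
    rw [← sum_range_diag_flip n (fun i j => a i * b j * B ^ (i + j))]
    refine sum_congr rfl fun s _ => ?_
    rw [sum_mul]
    refine sum_congr rfl fun i hi => ?_
    rw [Nat.add_sub_cancel' (Nat.lt_succ_iff.1 (mem_range.1 hi))]
  rw [e, sum_mul, mul_sum, ← sum_add_distrib]
  refine sum_congr rfl fun i hi => ?_
  obtain ⟨k, rfl⟩ := Nat.exists_eq_add_of_le' (mem_range.1 hi).le
  rw [Nat.add_sub_cancel, sum_range_add, mul_add, mul_sum, mul_sum, mul_sum]
  congr 1 <;> exact sum_congr rfl fun j _ => by ring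

theorem cc_digit {B : ℕ} (a b : ℕ → ℕ) (n : ℕ)
    (h : ∀ s < n + 1, ∑ i ∈ range (s + 1), a i * b (s - i) < B) :
    ((∑ i ∈ range (n + 1), a i * B ^ i) * ∑ j ∈ range (n + 1), b j * B ^ j) / B ^ n % B =
      ∑ i ∈ range (n + 1), a i * b (n - i) := by
  obtain ⟨R, hR⟩ := cc_mul B a b (n + 1)
  have hn := h n n.lt_succ_self
  have hB : 0 < B := lt_of_le_of_lt (Nat.zero_le _) hn
  have h1 := cc_lt (fun s => ∑ i ∈ range (s + 1), a i * b (s - i)) n fun s hs => h s (by omega)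
  rw [hR, sum_range_succ _ n, pow_succ, add_assoc, mul_comm _ (B ^ n), mul_assoc, ← mul_add,
    Nat.add_mul_div_left _ _ (pow_pos hB n), Nat.div_eq_of_lt h1, zero_add,
    Nat.add_mul_mod_self_left, Nat.mod_eq_of_lt hn]

theorem pack_eq (v : ℕ → ℕ) : pack v = ∑ x ∈ range 900, v x * 2 ^ (64 * x) := by
  rw [pack, sT_eq]
  refine Eq.trans ?_ (cc_block (fun x => v x * 2 ^ (64 * x)) 60 15).symm
  refine sum_congr rfl fun q _ => ?_
  rw [sT_eq, Nat.shiftLeft_eq', Nat.shiftLeft_eq, sum_mul]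
  refine sum_congr rfl fun t _ => ?_
  rw [Nat.shiftLeft_eq', Nat.shiftLeft_eq, Nat.add_eq, Nat.mul_eq, Nat.mul_eq, Nat.mul_eq, mul_assoc,
    ← pow_add]
  congr 2
  omega

theorem Rep.add {X Y X' Y' : ℕ} {v v' : ℕ → ℕ} (h : Rep X Y v) (h' : Rep X' Y' v') :
    Rep (X + X') (Y + Y') (fun x => v x + v' x) := by
  rw [h.1, h.2, h'.1, h'.2, ← sum_add_distrib, ← sum_add_distrib]
  exact ⟨sum_congr rfl fun x _ => by rw [← add_mul, ← mul_add],
    sum_congr rfl fun x _ => by rw [← add_mul]⟩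

theorem Rep.mul {X Y : ℕ} {v : ℕ → ℕ} (c : ℕ) (h : Rep X Y v) :
    Rep (c * X) (c * Y) (fun x => c * v x) := by
  rw [h.1, h.2, mul_sum, mul_sum]
  exact ⟨sum_congr rfl fun x _ => by rw [← mul_assoc, mul_left_comm],
    sum_congr rfl fun x _ => by rw [← mul_assoc]⟩

theorem Rep.sum {X Y : ℕ → ℕ} {v : ℕ → ℕ → ℕ} (h : ∀ j, Rep (X j) (Y j) (v j)) (n : ℕ) :
    Rep (∑ j ∈ range n, X j) (∑ j ∈ range n, Y j) (fun x => ∑ j ∈ range n, v j x) := by
  induction n with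
  | zero => exact ⟨by simp, by simp⟩
  | succ n ih =>
    simp only [sum_range_succ]
    exact ih.add (h n)

theorem rep_col (c : ℕ) : Rep (fw c) (rv c) (fun x => d8 (tcol c) x) := by
  constructor
  · rw [fw, pack_eq]
    exact sum_congr rfl fun x _ => by rw [force_eq, Nat.mul_eq]
  · rw [rv, pack_eq]
    exact sum_congr rfl fun x _ => by rw [Nat.sub_eq]

/-- Hint: the product is `∑ k < 1799, (∑ x + y = k, ..) * 2 ^ (64 k)` with coefficients below
`900 * 2 * 10 ^ 12 < 2 ^ 64`; see `pk_mul` in `Pack.lean` and `digit_eq` in `CertB.lean` of this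
folder (copy what is needed, do not import them). -/
theorem ip_eq {X Y X' Y' : ℕ} {v v' : ℕ → ℕ} (h : Rep X Y v) (h' : Rep X' Y' v')
    (hv : ∀ x < 900, v x ≤ 10 ^ 6) (hv' : ∀ x < 900, v' x ≤ 10 ^ 6) :
    ip X Y' = ∑ x ∈ range 900, wx x * v x * v' x := by
  have key := cc_digit (B := 2 ^ 64) (fun x => wx x * v x) (fun x => v' (899 - x)) 899
    fun s hs => by
      refine lt_of_le_of_lt (sum_le_card_nsmul _ _ (2 * 10 ^ 6 * 10 ^ 6) fun i hi => ?_) ?_
      · have hw : wx i ≤ 2 := by unfold wx; split_ifs <;> omega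
        have hi' := mem_range.1 hi
        exact Nat.mul_le_mul (Nat.mul_le_mul hw (hv i (by omega))) (hv' _ (by omega))
      · rw [card_range, smul_eq_mul]
        omega
  rw [ip, dg_eq, Nat.mul_eq, h.1, h'.2]
  simp only [pow_mul 2 64]
  refine key.trans (sum_congr rfl fun x hx => ?_)
  have := mem_range.1 hx
  rw [show 899 - (899 - x) = x by omega]

theorem zz_eq {X Y X' Y' : ℕ} {v v' : ℕ → ℕ} (h : Rep X Y v) (h' : Rep X' Y' v')
    (hv : ∀ x < 900, v x ≤ 10 ^ 6) (hv' : ∀ x < 900, v' x ≤ 10 ^ 6) :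
    (zz X Y X' Y' : ℝ) = ∑ x ∈ range 900, (wx x : ℝ) * ((v x : ℝ) - v' x) ^ 2 := by
  have e : ((ip X Y + ip X' Y' : ℕ) : ℝ) - (2 * ip X Y' : ℕ) =
      ∑ x ∈ range 900, (wx x : ℝ) * ((v x : ℝ) - v' x) ^ 2 := by
    rw [ip_eq h h hv hv, ip_eq h' h' hv' hv', ip_eq h h' hv hv']
    push_cast
    rw [mul_sum, ← sum_add_distrib, ← sum_sub_distrib]
    exact sum_congr rfl fun x _ => by ring
  have h0 : (0 : ℝ) ≤ ∑ x ∈ range 900, (wx x : ℝ) * ((v x : ℝ) - v' x) ^ 2 :=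
    sum_nonneg fun x _ => mul_nonneg (Nat.cast_nonneg _) (sq_nonneg _)
  rw [← e] at h0 ⊢
  rw [zz, Nat.sub_eq, Nat.add_eq, Nat.mul_eq, Nat.cast_sub (Nat.cast_le.1 (sub_nonneg.1 h0))]

/-- Padded tail sums of the fibre number `x`. -/
def tau (o x : ℕ) : ℕ := ∑ j ∈ range (60 - o), d8 (tcol (59 - j)) x + min o 60 * d8 (tcol 59) x

theorem rep_tl (o : ℕ) : Rep (tl fw o) (tl rv o) (tau o) := by
  have e : ∀ v : ℕ → ℕ, tl v o = ∑ j ∈ range (60 - o), v (59 - j) + min o 60 * v 59 := fun v => by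
    rw [tl, force_eq, sT_eq]
    exact congrArg (· + _) (sum_congr rfl fun j _ => force_eq _ _)
  rw [e, e]
  exact (Rep.sum (fun j => rep_col (59 - j)) _).add ((rep_col 59).mul _)

theorem tau_le (o x : ℕ) : tau o x ≤ 15300 := by
  have h1 := sum_le_card_nsmul (range (60 - o)) (fun j => d8 (tcol (59 - j)) x) 255
    fun j _ => Nat.le_of_lt_succ (d8_lt _ _)
  have h2 := Nat.mul_le_mul_left (min o 60) (Nat.le_of_lt_succ (d8_lt (tcol 59) x))
  rw [card_range, smul_eq_mul] at h1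
  unfold tau
  omega

noncomputable def Pt (f : ℕ → ℝ) (o : ℕ) : ℝ := ∑ c ∈ range 60, if o ≤ c then f c else 0

/-- Hint: `Fr_x`, `col_last`. -/
theorem tau_eq (o : ℕ) {x : ℕ} (hx : x < 900) :
    (tau o x : ℝ) = Pt (Fr (xa x) (xb x)) o + 1260 := by
  have e : Pt (Fr (xa x) (xb x)) o = ∑ j ∈ range (60 - o), ((d8 (tcol (59 - j)) x : ℝ) - 21) := by
    rw [Pt, ← sum_range_reflect, ← sum_filter]
    refine sum_congr ?_ fun j hj => Fr_x hx (by omega)
    ext j
    simp only [mem_filter, mem_range]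
    omega
  have e2 : ((min o 60 : ℕ) : ℝ) + (60 - o : ℕ) = 60 := by
    exact_mod_cast (show min o 60 + (60 - o) = 60 by omega)
  rw [e, tau, col_last hx, sum_sub_distrib, sum_const, card_range, nsmul_eq_mul, Nat.cast_add,
    Nat.cast_sum, Nat.cast_mul, Nat.cast_ofNat]
  linarith

/-- Hint: `Fr_supp`, `sum_fold`, `zz_eq`, `rep_col`, `Fr_x`, `col_last`, `kF`. -/
theorem sq3_Fr : sq3 60 Fr ≤ 568091613 := by
  have e1 : sq3 60 Fr = ∑ a ∈ range 60, ∑ b ∈ range 60,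
      if a + b ≤ 58 then ∑ c ∈ range 60, Fr a b c ^ 2 else 0 := by
    refine sum_congr rfl fun a _ => sum_congr rfl fun b _ => ?_
    split_ifs with h
    · rfl
    · refine sum_eq_zero fun c _ => ?_
      by_contra hc
      exact h (Fr_supp fun h0 => hc (by rw [h0]; norm_num)).1
  have hd : ∀ c, ∀ x < 900, d8 (tcol c) x ≤ 10 ^ 6 := fun c x _ =>
    (d8_lt _ _).le.trans (by norm_num)
  have e2 : (sqFn : ℝ) = ∑ x ∈ range 900, (wx x : ℝ) * ∑ c ∈ range 60, Fr (xa x) (xb x) c ^ 2 := by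
    rw [sqFn, sT_eq, Nat.cast_sum,
      sum_congr rfl fun c _ => zz_eq (rep_col c) (rep_col 59) (hd c) (hd 59), sum_comm]
    refine sum_congr rfl fun x hx => ?_
    rw [mul_sum]
    refine sum_congr rfl fun c hc => ?_
    rw [Fr_x (mem_range.1 hx) (mem_range.1 hc), col_last (mem_range.1 hx), Nat.cast_ofNat]
  rw [e1, sum_fold (fun a b => ∑ c ∈ range 60, Fr a b c ^ 2)
    fun a b => sum_congr rfl fun c _ => by rw [Fr_symm], ← e2]
  exact_mod_cast Nat.le_of_ble_eq_true kF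

end Pool.Agent.P.MP_dddec0_nt.L33
end

-- part Pool.Agent.P.MP_dddec0_nt.L33Avg
section

namespace Pool.Agent.P.MP_dddec0_nt.L33
open Finset Real Filter Pool.Agent.Lib.Tup

noncomputable def Avg_pw (j : ℕ) (c : ℝ) : ℝ := (max c 0) ^ (j + 1) / (j + 1).factorial

noncomputable def Avg_dI (w : ℝ) (g : ℝ → ℝ) : ℕ → ℝ → ℝ
  | 0, c => g c
  | i + 1, c => Avg_dI w g i c - Avg_dI w g i (c - w)

theorem Avg_dI_realize : True := by have := @Avg_dI.eq_def; trivial

theorem Avg_pw_cont (j : ℕ) : Continuous (Avg_pw j) := by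
  unfold Avg_pw
  fun_prop

theorem Avg_dI_cont (w : ℝ) {g : ℝ → ℝ} (hg : Continuous g) (i : ℕ) :
    Continuous (Avg_dI w g i) := by
  induction i with
  | zero => exact hg
  | succ i ih => exact ih.sub (ih.comp (continuous_id.sub continuous_const))

theorem Avg_pow_deriv (j : ℕ) (c : ℝ) :
    HasDerivAt (fun x : ℝ => (max x 0) ^ (j + 2)) (((j + 2 : ℕ) : ℝ) * (max c 0) ^ (j + 1)) c := by
  rcases lt_trichotomy c 0 with hc | hc | hc
  · rw [max_eq_right hc.le, zero_pow (Nat.succ_ne_zero j), mul_zero]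
    refine (hasDerivAt_const c (0 : ℝ)).congr_of_eventuallyEq ?_
    filter_upwards [Iio_mem_nhds hc] with x hx
    rw [max_eq_right (le_of_lt hx), zero_pow (Nat.succ_ne_zero (j + 1))]
  · subst hc
    have h1 : HasDerivWithinAt (fun x : ℝ => (max x 0) ^ (j + 2))
        (((j + 2 : ℕ) : ℝ) * (max (0 : ℝ) 0) ^ (j + 1)) (Set.Iic 0) 0 := by
      rw [max_self, zero_pow (Nat.succ_ne_zero j), mul_zero]
      refine (hasDerivWithinAt_const (0 : ℝ) (Set.Iic 0) (0 : ℝ)).congr ?_ ?_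
      · intro x hx
        rw [max_eq_right (Set.mem_Iic.1 hx), zero_pow (Nat.succ_ne_zero (j + 1))]
      · rw [max_self, zero_pow (Nat.succ_ne_zero (j + 1))]
    have h2 : HasDerivWithinAt (fun x : ℝ => (max x 0) ^ (j + 2))
        (((j + 2 : ℕ) : ℝ) * (max (0 : ℝ) 0) ^ (j + 1)) (Set.Ici 0) 0 := by
      rw [max_self]
      refine (hasDerivAt_pow (j + 2) (0 : ℝ)).hasDerivWithinAt.congr ?_ ?_
      · intro x hx
        rw [max_eq_left (Set.mem_Ici.1 hx)]
      · rw [max_self]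
    have h3 := h1.union h2
    rwa [Set.Iic_union_Ici, hasDerivWithinAt_univ] at h3
  · rw [max_eq_left hc.le]
    refine (hasDerivAt_pow (j + 2) c).congr_of_eventuallyEq ?_
    filter_upwards [Ioi_mem_nhds hc] with x hx
    rw [max_eq_left (le_of_lt hx)]

theorem Avg_pw_deriv (j : ℕ) (c : ℝ) : HasDerivAt (Avg_pw (j + 1)) (Avg_pw j c) c := by
  have h := (Avg_pow_deriv j c).div_const ((j + 1 + 1).factorial : ℝ)
  have e : ((j + 2 : ℕ) : ℝ) * (max c 0) ^ (j + 1) / ((j + 1 + 1).factorial : ℝ)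
      = Avg_pw j c := by
    unfold Avg_pw
    rw [Nat.factorial_succ (j + 1)]
    have : ((j + 1).factorial : ℝ) ≠ 0 := by positivity
    push_cast
    field_simp
    ring
  rw [e] at h
  exact h

theorem Avg_int_pw (w : ℝ) (j : ℕ) (c : ℝ) :
    ∫ t in (0 : ℝ)..w, Avg_pw j (c - t) = Avg_pw (j + 1) c - Avg_pw (j + 1) (c - w) := by
  have hd : ∀ t ∈ Set.uIcc (0 : ℝ) w,
      HasDerivAt (fun t => -Avg_pw (j + 1) (c - t)) (Avg_pw j (c - t)) t := by
    intro t _
    have h1 : HasDerivAt (fun t : ℝ => c - t) (-1) t := by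
      simpa using (hasDerivAt_id t).const_sub c
    have h2 := ((Avg_pw_deriv j (c - t)).comp t h1).neg
    rw [mul_neg, mul_one, neg_neg] at h2
    exact h2
  rw [intervalIntegral.integral_eq_sub_of_hasDerivAt hd
    (((Avg_pw_cont j).comp (continuous_const.sub continuous_id)).intervalIntegrable _ _)]
  simp only [sub_zero]
  ring

theorem Avg_dI_ii (w : ℝ) (j i : ℕ) (c : ℝ) :
    IntervalIntegrable (fun t => Avg_dI w (Avg_pw j) i (c - t)) MeasureTheory.volume 0 w :=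
  ((Avg_dI_cont w (Avg_pw_cont j) i).comp (continuous_const.sub continuous_id)).intervalIntegrable
    _ _

theorem Avg_int_dI (w : ℝ) (j i : ℕ) (c : ℝ) :
    ∫ t in (0 : ℝ)..w, Avg_dI w (Avg_pw j) i (c - t) = Avg_dI w (Avg_pw (j + 1)) (i + 1) c := by
  induction i generalizing c with
  | zero => exact Avg_int_pw w j c
  | succ i ih =>
    have e : ∀ t, Avg_dI w (Avg_pw j) (i + 1) (c - t)
        = Avg_dI w (Avg_pw j) i (c - t) - Avg_dI w (Avg_pw j) i (c - w - t) := by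
      intro t
      rw [sub_right_comm c w t]
      rfl
    simp only [e]
    rw [intervalIntegral.integral_sub (Avg_dI_ii w j i c) (Avg_dI_ii w j i (c - w)), ih, ih]
    rfl

theorem Avg_iter (w h : ℝ) (n : ℕ) (f : ℕ → ℝ) (j : ℕ) (v : ℝ) :
    (avg w)^[j] (Rf h n f) v = (∑ a ∈ range n, f a *
      (Avg_dI w (Avg_pw j) j ((a + 1) * h - v) - Avg_dI w (Avg_pw j) j (a * h - v))) / w ^ j := by
  induction j generalizing v with
  | zero => simp [Rf, rho, Avg_dI, Avg_pw]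
  | succ j ih =>
    rw [Function.iterate_succ_apply']
    unfold avg
    have e : ∀ t, (avg w)^[j] (Rf h n f) (v + t) = (∑ a ∈ range n, f a *
        (Avg_dI w (Avg_pw j) j ((a + 1) * h - v - t)
          - Avg_dI w (Avg_pw j) j (a * h - v - t))) / w ^ j := by
      intro t
      rw [ih]
      simp only [sub_add_eq_sub_sub]
    change (∫ t in (0 : ℝ)..w, (avg w)^[j] (Rf h n f) (v + t)) / w = _
    simp only [e]
    rw [intervalIntegral.integral_div, intervalIntegral.integral_finsetSum, div_div, pow_succ]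
    · congr 1
      refine sum_congr rfl fun a _ => ?_
      rw [intervalIntegral.integral_const_mul,
        intervalIntegral.integral_sub (Avg_dI_ii w j j _) (Avg_dI_ii w j j _), Avg_int_dI,
        Avg_int_dI]
    · intro a _
      exact ((Avg_dI_ii w j j _).sub (Avg_dI_ii w j j _)).const_mul _

theorem Avg_dZ {h : ℝ} (hh : 0 < h) (r j i : ℕ) (c : ℤ) :
    Avg_dI (r * h) (Avg_pw j) i (c * h)
      = h ^ (j + 1) * (dZ r (j + 1) i c : ℝ) / (j + 1).factorial := by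
  induction i generalizing c with
  | zero =>
    have e : max ((c : ℝ) * h) 0 = h * ((c.toNat : ℤ) : ℝ) := by
      rcases le_total 0 c with hc | hc
      · rw [Int.toNat_of_nonneg hc, max_eq_left (mul_nonneg (by exact_mod_cast hc) hh.le),
          mul_comm]
      · rw [Int.toNat_eq_zero.2 hc,
          max_eq_right (mul_nonpos_of_nonpos_of_nonneg (by exact_mod_cast hc) hh.le)]
        simp
    simp only [Avg_dI, Avg_pw, dZ]
    rw [e, mul_pow]
    push_cast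
    rfl
  | succ i ih =>
    have e : (c : ℝ) * h - r * h = ((c - r : ℤ) : ℝ) * h := by
      push_cast
      ring
    simp only [Avg_dI, dZ]
    rw [e, ih, ih]
    push_cast
    ring

/-- Hint: `pw j c = (max c 0) ^ (j + 1) / (j + 1)!`, `dI w 0 g = g`,
`dI w (i + 1) g c = dI w i g c - dI w i g (c - w)`. Show
`∫ t in 0..w, pw j (c - t) = pw (j + 1) c - pw (j + 1) (c - w)` (right derivatives,
`intervalIntegral.integral_eq_sub_of_hasDeriv_right`, or cases), then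
`∫ t in 0..w, dI w i (pw j) (c - t) = dI w (i + 1) (pw (j + 1)) c`, then by induction on `j`
`(avg w)^[j] (Rf h n f) v = ∑ a, f a * (dI w j (pw j) ((a+1) h - v) - dI w j (pw j) (a h - v)) / w ^ j`,
and `dI (r h) i (pw j) (c h) = h ^ (j + 1) * dZ r (j + 1) i c / (j + 1)!` for an integer `c`. -/
theorem avg_Rf {h : ℝ} (hh : 0 < h) {r : ℕ} (hr : 0 < r) (n : ℕ) (f : ℕ → ℝ) (j o : ℕ) :
    (avg (r * h))^[j] (Rf h n f) (o * (r * h))
      = h * (∑ a ∈ range n, f a * (cz r j ((a : ℤ) - r * o) : ℝ))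
        / ((j + 1).factorial * (r : ℝ) ^ j) := by
  rw [Avg_iter]
  have hr' : (r : ℝ) ≠ 0 := by positivity
  have hf : ((j + 1).factorial : ℝ) ≠ 0 := by positivity
  have e : ∀ a ∈ range n, f a * (Avg_dI (r * h) (Avg_pw j) j ((a + 1) * h - o * (r * h))
      - Avg_dI (r * h) (Avg_pw j) j (a * h - o * (r * h)))
      = (h ^ (j + 1) / (j + 1).factorial) * (f a * (cz r j ((a : ℤ) - r * o) : ℝ)) := by
    intro a _
    have e1 : ((a : ℝ) + 1) * h - o * (r * h) = (((a : ℤ) - r * o + 1 : ℤ) : ℝ) * h := by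
      push_cast
      ring
    have e2 : (a : ℝ) * h - o * (r * h) = (((a : ℤ) - r * o : ℤ) : ℝ) * h := by
      push_cast
      ring
    rw [e1, e2, Avg_dZ hh, Avg_dZ hh, cz]
    push_cast
    ring
  rw [sum_congr rfl e, ← mul_sum, mul_pow]
  field_simp
  ring

end Pool.Agent.P.MP_dddec0_nt.L33
end

-- part Pool.Agent.P.MP_dddec0_nt.L33CertC2
section

namespace Pool.Agent.P.MP_dddec0_nt.L33
open Finset Real

theorem C2_cz (c : ℤ) : cz 1 0 c = (if 0 ≤ c then 1 else 0) ∧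
    cz 1 1 c = (if 0 ≤ c then 1 else 0) + (if 1 ≤ c then 1 else 0) ∧
    cz 1 2 c = (if 0 ≤ c then 1 else 0) + 4 * (if 1 ≤ c then 1 else 0)
      + (if 2 ≤ c then 1 else 0) := by
  simp only [cz, dZ, Nat.cast_one, Int.toNat_eq_max, add_sub_cancel_right]
  rcases lt_or_ge c 0 with h | h
  · rw [max_eq_right (by omega : c + 1 ≤ 0), max_eq_right h.le, max_eq_right (by omega : c - 1 ≤ 0),
      max_eq_right (by omega : c - 1 - 1 ≤ 0), if_neg (by omega), if_neg (by omega),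
      if_neg (by omega)]
    norm_num
  rcases lt_or_ge c 2 with h' | h'
  · interval_cases c <;> decide
  · rw [max_eq_left (by omega : 0 ≤ c + 1), max_eq_left h, max_eq_left (by omega : 0 ≤ c - 1),
      max_eq_left (by omega : 0 ≤ c - 1 - 1), if_pos h, if_pos (by omega), if_pos h']
    refine ⟨by ring, by ring, by ring⟩

theorem C2_Pt (f : ℕ → ℝ) (o i : ℕ) :
    ∑ a ∈ range 60, f a * ((if (i : ℤ) ≤ (a : ℤ) - (1 : ℕ) * o then 1 else 0 : ℤ) : ℝ)
      = Pt f (o + i) := by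
  refine sum_congr rfl fun a _ => ?_
  by_cases h : o + i ≤ a
  · rw [if_pos h, if_pos (by omega), Int.cast_one, mul_one]
  · rw [if_neg h, if_neg (by omega), Int.cast_zero, mul_zero]

/-- Hint: `avg_Rf` with `r = 1`; for an integer `c`, `cz 1 0 c = [0 ≤ c]`,
`cz 1 1 c = [0 ≤ c] + [1 ≤ c]`, `cz 1 2 c = [0 ≤ c] + 4 [1 ≤ c] + [2 ≤ c]`. -/
theorem avg_Pt (f : ℕ → ℝ) (o : ℕ) :
    (avg (1 / 60))^[0] (Rf (1 / 60) 60 f) (o * (1 / 60)) = Pt f o / 60 ∧
    (avg (1 / 60))^[1] (Rf (1 / 60) 60 f) (o * (1 / 60)) = (Pt f o + Pt f (o + 1)) / 120 ∧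
    (avg (1 / 60))^[2] (Rf (1 / 60) 60 f) (o * (1 / 60))
      = (Pt f o + 4 * Pt f (o + 1) + Pt f (o + 2)) / 360 := by
  have h := fun j => avg_Rf (h := 1 / 60) (by norm_num) one_pos 60 f j o
  have e : ((1 : ℕ) : ℝ) * (1 / 60) = 1 / 60 := by norm_num
  rw [e] at h
  have p0 : _ = Pt f o := C2_Pt f o 0
  have p1 := C2_Pt f o 1
  have p2 := C2_Pt f o 2
  rw [h, h, h, ← p0, ← p1, ← p2, ← sum_add_distrib, mul_sum _ _ (4 : ℝ), ← sum_add_distrib,
    ← sum_add_distrib]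
  refine ⟨?_, ?_, ?_⟩
  · rw [sum_congr rfl fun a _ => by rw [(C2_cz _).1]]
    norm_num [Nat.factorial]
    ring
  · rw [sum_congr rfl fun a _ => by rw [(C2_cz _).2.1, Int.cast_add, mul_add]]
    norm_num [Nat.factorial]
    ring
  · rw [sum_congr rfl fun a _ => by
      rw [(C2_cz _).2.2, Int.cast_add, Int.cast_add, Int.cast_mul, mul_add, mul_add,
        mul_left_comm]]
    norm_num [Nat.factorial]
    ring

theorem C2_Lf1 (f : ℕ → ℝ) (a : ℕ) : 360 * Lf (1 / (60 : ℕ)) [a] (Rf (1 / 60) 60 f) 0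
    = 6 * Pt f 0 - 3 * (Pt f a + Pt f (a + 1)) := by
  have h := Lf_eq (1 / 60) (Rf_cont (1 / 60) 60 f) [a] 0 0
  simp only [ellR, zero_add, (avg_Pt f _).1, (avg_Pt f _).2.1] at h
  rw [Function.iterate_zero_apply, Nat.cast_zero, zero_mul] at h
  rw [Nat.cast_ofNat, h]
  ring

theorem C2_Lf2 (f : ℕ → ℝ) (a b : ℕ) : 360 * Lf (1 / (60 : ℕ)) [a, b] (Rf (1 / 60) 60 f) 0
    = 6 * Pt f 0 + (Pt f (a + b) + 4 * Pt f (a + b + 1) + Pt f (a + b + 2))
      - (3 * (Pt f a + Pt f (a + 1)) + 3 * (Pt f b + Pt f (b + 1))) := by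
  have h := Lf_eq (1 / 60) (Rf_cont (1 / 60) 60 f) [a, b] 0 0
  simp only [ellR, zero_add, Nat.reduceAdd, (avg_Pt f _).1, (avg_Pt f _).2.1,
    (avg_Pt f _).2.2] at h
  rw [Function.iterate_zero_apply, Nat.cast_zero, zero_mul] at h
  rw [Nat.cast_ofNat, h]
  ring

attribute [local irreducible] fw rv tl tcol cM c0 zz tau

theorem C2_rep1 (a : ℕ) : Rep (e1 fw a) (e1 rv a) (fun x => 3 * (tau a x + tau (a + 1) x)) := by
  rw [e1, e1, force_eq, force_eq, force_eq, force_eq]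
  exact ((rep_tl a).add (rep_tl (a + 1))).mul 3

theorem C2_rep2 (o : ℕ) : Rep (e02 fw o) (e02 rv o)
    (fun x => 6 * tau 0 x + (tau o x + 4 * tau (o + 1) x + tau (o + 2) x)) := by
  rw [e02, e02, force_eq, force_eq, force_eq, force_eq, force_eq, force_eq]
  exact ((rep_tl 0).mul 6).add (((rep_tl o).add ((rep_tl (o + 1)).mul 4)).add (rep_tl (o + 2)))

theorem C2_q0 : (q30 : ℝ) / (2 ^ 160 * 60) ≤ ∑ x ∈ range 900,
    (wx x : ℝ) * (Rf (1 / 60) 60 (Fr (xa x) (xb x)) 0 ^ 2 * Wt (40001 / 10000) 3 0) := by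
  rw [q30, Nat.cast_mul, zz_eq (rep_tl 0) (rep_tl 60)
    (fun x _ => (tau_le _ x).trans (by norm_num)) (fun x _ => (tau_le _ x).trans (by norm_num)),
    mul_sum, sum_div]
  refine sum_le_sum fun x hx => ?_
  have h0 := (avg_Pt (Fr (xa x) (xb x)) 0).1
  rw [Function.iterate_zero_apply, Nat.cast_zero, zero_mul] at h0
  have h1 : Pt (Fr (xa x) (xb x)) 60 = 0 :=
    sum_eq_zero fun c hc => if_neg (not_le.2 (mem_range.1 hc))
  have h2 := q0_ge (R := 3) (D := 1) le_rfl one_pos (L := Pt (Fr (xa x) (xb x)) 0)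
    (h0.trans (by rw [Nat.cast_one, mul_one]))
  rw [tau_eq 0 (mem_range.1 hx), tau_eq 60 (mem_range.1 hx), h1, zero_add, add_sub_cancel_right,
    mul_left_comm, mul_div_assoc]
  exact mul_le_mul_of_nonneg_left h2 (Nat.cast_nonneg _)

theorem C2_qk (J k : ℕ) (hk : 1 ≤ k) :
    SL 60 k (fun as => (cM J 60 k 1 6 as.sum (momN as).1 (momN as).2.1 (momN as).2.2 : ℝ) *
      ∑ x ∈ range 900, (wx x : ℝ) *
        (360 * Lf (1 / (60 : ℕ)) as (Rf (1 / 60) 60 (Fr (xa x) (xb x))) 0) ^ 2) / (2 ^ 160 * 60)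
      ≤ ∑ x ∈ range 900, (wx x : ℝ) * QK J 60 k (Rf (1 / 60) 60 (Fr (xa x) (xb x))) :=
  qk_ge (r := 1) (D := 6) rfl hk (by norm_num) (range 900) (fun x => (wx x : ℝ))
    (fun _ _ => Nat.cast_nonneg _) (fun x => Rf (1 / 60) 60 (Fr (xa x) (xb x)))
    (fun x as => 360 * Lf (1 / (60 : ℕ)) as (Rf (1 / 60) 60 (Fr (xa x) (xb x))) 0)
    (fun x _ as _ _ => by rw [show (60 : ℝ) * (6 : ℕ) = 360 by norm_num]; ring) _
    (fun _ _ _ => le_rfl)

theorem C2_q1 : (q31 : ℝ) / (2 ^ 160 * 60)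
    ≤ ∑ x ∈ range 900, (wx x : ℝ) * QK 2 60 1 (Rf (1 / 60) 60 (Fr (xa x) (xb x))) := by
  refine le_of_eq_of_le (congrArg (· / _) ?_) (C2_qk 2 1 le_rfl)
  rw [q31, sT_eq, Nat.cast_sum, SL]
  refine sum_congr rfl fun a _ => ?_
  rw [SL, Nat.cast_mul, zz_eq ((rep_tl 0).mul 6) (C2_rep1 a)
    (fun x _ => by have := tau_le 0 x; omega)
    (fun x _ => by have := tau_le a x; have := tau_le (a + 1) x; omega)]
  simp only [momN, List.sum_cons, List.sum_nil, add_zero, one_mul, zero_mul, mul_zero, zero_add]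
  refine congrArg _ (sum_congr rfl fun x hx => ?_)
  rw [C2_Lf1]
  push_cast
  rw [tau_eq _ (mem_range.1 hx), tau_eq _ (mem_range.1 hx), tau_eq _ (mem_range.1 hx)]
  ring

theorem C2_q2 : (q32 : ℝ) / (2 ^ 160 * 60)
    ≤ ∑ x ∈ range 900, (wx x : ℝ) * QK 1 60 2 (Rf (1 / 60) 60 (Fr (xa x) (xb x))) := by
  refine le_of_eq_of_le (congrArg (· / _) ?_) (C2_qk 1 2 one_le_two)
  rw [q32, sT_eq, Nat.cast_sum, SL]
  refine sum_congr rfl fun a _ => ?_
  rw [sT_eq, Nat.cast_sum, SL]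
  refine sum_congr rfl fun b _ => ?_
  rw [SL, force_eq, Nat.mul_eq, Nat.add_eq, Nat.add_eq, Nat.add_eq, Nat.cast_mul,
    zz_eq (C2_rep2 (a + b)) ((C2_rep1 a).add (C2_rep1 b))
    (fun x _ => by
      have := tau_le 0 x; have := tau_le (a + b) x; have := tau_le (a + b + 1) x
      have := tau_le (a + b + 2) x; omega)
    (fun x _ => by
      have := tau_le a x; have := tau_le (a + 1) x; have := tau_le b x; have := tau_le (b + 1) x
      omega)]
  simp only [momN, List.sum_cons, List.sum_nil, add_zero, one_mul, zero_mul, mul_zero, zero_add]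
  rw [show u1 b * u1 a = u1 a * u1 b by ring,
    show u2 b * u1 a + u1 b * u2 a = u2 a * u1 b + u1 a * u2 b by ring,
    show u3 b * u1 a + 2 * u2 b * u2 a + u1 b * u3 a
      = u3 a * u1 b + 2 * u2 a * u2 b + u1 a * u3 b by ring]
  refine congrArg _ (sum_congr rfl fun x hx => ?_)
  rw [C2_Lf2]
  push_cast
  simp only [tau_eq _ (mem_range.1 hx)]
  ring

/-- Hint: drop the pairs with `58 < a + b` (`QQ_nonneg`), `sum_fold`, `QQ_three`; `q0_ge` with
`D = 1`, `L = Pt f 0` (`Pt f 60 = 0`); `qk_ge` with `s = range 900`, `μ = wx`, `D = 6`, `r = 1`,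
`L x as = 360 * Lf (1 / 60) as g 0`, evaluated by `Lf_eq` (`j = o = 0`) and `avg_Pt`; `zz_eq`,
`rep_tl`, `Rep.add`, `Rep.mul`, `tau_eq`, `tau_le`, `k3`. Mark `fw rv tl tcol` as locally
irreducible. -/
theorem q3_le : (487381914 : ℝ) / 60
    ≤ ∑ a ∈ range 60, ∑ b ∈ range 60, QQ 3 2 (Rf (1 / 60) 60 (Fr a b)) := by
  have h1 := sum_fold (fun a b => QQ 3 2 (Rf (1 / 60) 60 (Fr a b)))
    (fun a b => by rw [show Fr a b = Fr b a from funext (Fr_symm a b)])
  have h2 : ∑ a ∈ range 60, ∑ b ∈ range 60,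
      (if a + b ≤ 58 then QQ 3 2 (Rf (1 / 60) 60 (Fr a b)) else 0)
      ≤ ∑ a ∈ range 60, ∑ b ∈ range 60, QQ 3 2 (Rf (1 / 60) 60 (Fr a b)) :=
    sum_le_sum fun a _ => sum_le_sum fun b _ => by
      split_ifs
      exacts [le_rfl, QQ_nonneg _ _ _]
  refine le_trans ?_ (h1.symm.trans_le h2)
  rw [sum_congr rfl fun x _ => by rw [QQ_three, mul_add, mul_add], sum_add_distrib,
    sum_add_distrib]
  refine le_trans ?_ (add_le_add (add_le_add C2_q0 C2_q1) C2_q2)
  have h3 := Nat.le_of_ble_eq_true k3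
  generalize q30 = A, q31 = B, q32 = C at h3 ⊢
  have h4 : (487381914 : ℝ) * 2 ^ 160 ≤ A + B + C := by exact_mod_cast h3
  rw [← add_div, ← add_div, div_le_div_iff₀ (by norm_num) (by positivity)]
  linarith

end Pool.Agent.P.MP_dddec0_nt.L33
end

-- part Pool.Agent.P.MP_dddec0_nt.L33CertE
section

namespace Pool.Agent.P.MP_dddec0_nt.L33
open Finset Real

theorem ce_succ (X w i : ℕ) : dg X w (i + 1) = dg (X / 2 ^ w) w i := by
  rw [dg_eq, dg_eq, Nat.div_div_eq_div_mul, ← pow_add, mul_add, mul_one, add_comm]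

theorem ce_zero (X w : ℕ) : dg X w 0 = X % 2 ^ w := by
  rw [dg_eq, mul_zero, pow_zero, Nat.div_one]

theorem dg_add {X Y w : ℕ} (h : ∀ i, dg X w i + dg Y w i < 2 ^ w) (i : ℕ) :
    dg (X + Y) w i = dg X w i + dg Y w i := by
  induction i generalizing X Y with
  | zero =>
    have h0 := h 0
    simp only [ce_zero] at h0 ⊢
    exact Nat.add_mod_of_add_mod_lt h0
  | succ i ih =>
    have h0 := h 0
    simp only [ce_zero] at h0
    simp only [ce_succ]
    rw [Nat.add_div_eq_of_add_mod_lt h0]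
    exact ih fun t => by simpa only [ce_succ] using h (t + 1)

theorem dg_shift (X w c i : ℕ) : dg (Nat.shiftRight X (w * c)) w i = dg X w (i + c) := by
  have e : Nat.shiftRight X (w * c) = X / 2 ^ (w * c) := Nat.shiftRight_eq_div_pow _ _
  rw [e, dg_eq, dg_eq, Nat.div_div_eq_div_mul, ← pow_add, mul_add, add_comm]

/-- Digits of a packed sum. -/
theorem dg_sum {w n : ℕ} (d : ℕ → ℕ) (hd : ∀ i < n, d i < 2 ^ w) (i : ℕ) :
    dg (∑ j ∈ range n, d j * 2 ^ (w * j)) w i = if i < n then d i else 0 := by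
  induction n generalizing d i with
  | zero => simp [dg_eq]
  | succ n ih =>
    have e : ∑ j ∈ range (n + 1), d j * 2 ^ (w * j)
        = d 0 + 2 ^ w * ∑ j ∈ range n, d (j + 1) * 2 ^ (w * j) := by
      rw [sum_range_succ', mul_sum, add_comm, mul_zero, pow_zero, mul_one]
      congr 1
      exact sum_congr rfl fun j _ => by ring
    have h0 := hd 0 n.succ_pos
    rw [e]
    cases i with
    | zero => rw [ce_zero, Nat.add_mul_mod_self_left, Nat.mod_eq_of_lt h0, if_pos n.succ_pos]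
    | succ i =>
      rw [ce_succ, Nat.add_mul_div_left _ _ (Nat.two_pow_pos w), Nat.div_eq_of_lt h0, zero_add,
        ih (fun j => d (j + 1)) fun j hj => hd (j + 1) (Nat.succ_lt_succ hj)]
      simp only [Nat.add_lt_add_iff_right]

def updL : List ℕ → (ℕ → ℕ) → (ℕ → ℕ) → ℕ → ℕ
  | [], P, _ => P
  | a :: as, P, N => updL as (upd P N a) (upd N P a)

theorem ce_lp (m : ℕ) (fin : ℕ → ℕ → ℕ → ℕ → ℕ → ℕ → ℕ) (k σ M0 M1 M2 : ℕ) (P N : ℕ → ℕ) :
    lp m fin (k + 1) σ M0 M1 M2 P N = sT m fun a => force (σ + a) fun σ' =>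
      lp m fin k σ' (M0 * u1 a) (M1 * u1 a + M0 * u2 a) (M2 * u1 a + 2 * M1 * u2 a + M0 * u3 a)
        (upd P N a) (upd N P a) := rfl

/-- Hint: induction on `k` generalizing `σ M0 M1 M2 P N`. -/
theorem lp_eq (m : ℕ) (fin : ℕ → ℕ → ℕ → ℕ → ℕ → ℕ → ℕ) (k σ M0 M1 M2 : ℕ) (P N : ℕ → ℕ) :
    (lp m fin k σ M0 M1 M2 P N : ℝ) = SL m k (fun as => (fin (σ + as.sum) (M0 * (momN as).1)
      (M1 * (momN as).1 + M0 * (momN as).2.1)
      (M2 * (momN as).1 + 2 * M1 * (momN as).2.1 + M0 * (momN as).2.2)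
      (updL as P N 0) (updL as N P 0) : ℝ)) := by
  induction k generalizing σ M0 M1 M2 P N with
  | zero =>
    simp only [SL, momN, updL, List.sum_nil, add_zero, mul_one, mul_zero]
    rfl
  | succ k ih =>
    rw [ce_lp, sT_eq, Nat.cast_sum, SL]
    refine sum_congr rfl fun a _ => ?_
    rw [force_eq, ih]
    congr 1
    funext as
    simp only [momN, updL, List.sum_cons]
    congr 2 <;> ring

theorem ce_congr {E E' : ℕ → ℕ → ℝ} (as : List ℕ) (j o : ℕ)
    (h : ∀ j' ≤ j + as.length, ∀ o', E j' o' = E' j' o') : ellR E as j o = ellR E' as j o := by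
  induction as generalizing j o with
  | nil => exact h j le_rfl o
  | cons a as ih =>
    rw [List.length_cons] at h
    simp only [ellR]
    rw [ih j o fun j' hj => h j' (by omega), ih (j + 1) (o + a) fun j' hj => h j' (by omega)]

theorem ce_sub (E : ℕ → ℕ → ℝ) (a : ℕ) (as : List ℕ) (j o : ℕ) :
    ellR (fun j o => E j o - E (j + 1) (o + a)) as j o
      = ellR E as j o - ellR E as (j + 1) (o + a) := by
  induction as generalizing j o with
  | nil => rfl
  | cons b as ih =>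
    simp only [ellR]
    rw [ih, ih, add_right_comm o b a]
    ring

theorem ce_upd {P N : ℕ → ℕ} {B j : ℕ} (a : ℕ) (hB : 2 * B < 2 ^ 64)
    (h1 : ∀ i, dg (P j) 64 i ≤ B) (h2 : ∀ i, dg (N (j + 1)) 64 i ≤ B) (i : ℕ) :
    dg (upd P N a j) 64 i = dg (P j) 64 i + dg (N (j + 1)) 64 (i + 3 * a) := by
  have e : upd P N a j = P j + Nat.shiftRight (N (j + 1)) (64 * (3 * a)) := by
    rw [← mul_assoc]
    rfl
  rw [e, dg_add, dg_shift]
  intro t
  rw [dg_shift]
  have := h1 t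
  have := h2 (t + 3 * a)
  omega

/-- Hint: induction on `as` generalizing `P N B`; `dg_add`, `dg_shift` (`192 a = 64 (3 a)`), and
`ellR (fun j o => E j o - E (j + 1) (o + a)) as j o = ellR E as j o - ellR E as (j + 1) (o + a)`;
`ellR E as j o` only depends on the values `E j'` with `j' ≤ j + as.length`. -/
theorem updL_dg (as : List ℕ) (P N : ℕ → ℕ) (B j o s : ℕ) (hB : 2 ^ as.length * B < 2 ^ 64)
    (h : ∀ j' ≤ j + as.length, ∀ i, dg (P j') 64 i ≤ B ∧ dg (N j') 64 i ≤ B) :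
    (dg (updL as P N j) 64 (3 * o + s) : ℝ) - dg (updL as N P j) 64 (3 * o + s)
      = ellR (fun j o => (dg (P j) 64 (3 * o + s) : ℝ) - dg (N j) 64 (3 * o + s)) as j o := by
  induction as generalizing P N B with
  | nil => rfl
  | cons a as ih =>
    rw [List.length_cons] at h hB
    have hB1 : 2 ^ as.length * (2 * B) < 2 ^ 64 := by rwa [← mul_assoc, ← pow_succ]
    have hB2 : 2 * B < 2 ^ 64 :=
      lt_of_le_of_lt (Nat.le_mul_of_pos_left _ (Nat.two_pow_pos _)) hB1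
    have hP : ∀ j' ≤ j + as.length, ∀ i, dg (upd P N a j') 64 i
        = dg (P j') 64 i + dg (N (j' + 1)) 64 (i + 3 * a) := fun j' hj =>
      ce_upd a hB2 (fun t => (h j' (by omega) t).1) fun t => (h (j' + 1) (by omega) t).2
    have hN : ∀ j' ≤ j + as.length, ∀ i, dg (upd N P a j') 64 i
        = dg (N j') 64 i + dg (P (j' + 1)) 64 (i + 3 * a) := fun j' hj =>
      ce_upd a hB2 (fun t => (h j' (by omega) t).2) fun t => (h (j' + 1) (by omega) t).1
    simp only [updL, ellR]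
    rw [ih (upd P N a) (upd N P a) (2 * B) hB1, ← ce_sub]
    · refine ce_congr as j o fun j' hj o' => ?_
      rw [hP j' hj, hN j' hj, show 3 * (o' + a) + s = 3 * o' + s + 3 * a by ring]
      push_cast
      ring
    · intro j' hj i
      rw [hP j' hj, hN j' hj]
      have h1 := h j' (by omega) i
      have h2 := h (j' + 1) (by omega) (i + 3 * a)
      omega

theorem ce_dsq (x y : ℕ) : (dsq x y : ℝ) = ((x : ℝ) - y) ^ 2 := by
  have e : dsq x y = (x - y + (y - x)) ^ 2 := rfl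
  rw [e]
  rcases le_total x y with h | h
  · rw [Nat.sub_eq_zero_of_le h, zero_add, Nat.cast_pow, Nat.cast_sub h]
    ring
  · rw [Nat.sub_eq_zero_of_le h, add_zero, Nat.cast_pow, Nat.cast_sub h]

theorem zP_eq (p q : ℕ) : (zP p q : ℝ) = 820 * ((dg p 64 0 : ℝ) - dg q 64 0) ^ 2
    + 455 * ((dg p 64 1 : ℝ) - dg q 64 1) ^ 2 + 495 * ((dg p 64 2 : ℝ) - dg q 64 2) ^ 2 := by
  have e : zP p q = 820 * dsq (dg p 64 0) (dg q 64 0) + 455 * dsq (dg p 64 1) (dg q 64 1)
      + 495 * dsq (dg p 64 2) (dg q 64 2) := rfl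
  rw [e]
  push_cast
  rw [ce_dsq, ce_dsq, ce_dsq]

theorem ce_row (e : ℕ → ℕ → ℕ) (m : ℕ) :
    ∑ o ∈ range m, (e o 0 + e o 1 * 2 ^ 64 + e o 2 * 2 ^ 128) * 2 ^ (192 * o)
      = ∑ i ∈ range (3 * m), e (i / 3) (i % 3) * 2 ^ (64 * i) := by
  induction m with
  | zero => rfl
  | succ m ih =>
    rw [sum_range_succ, ih, show 3 * (m + 1) = 3 * m + 1 + 1 + 1 by ring, sum_range_succ,
      sum_range_succ, sum_range_succ, show 3 * m / 3 = m by omega, show 3 * m % 3 = 0 by omega,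
      show (3 * m + 1) / 3 = m by omega, show (3 * m + 1) % 3 = 1 by omega,
      show (3 * m + 1 + 1) / 3 = m by omega, show (3 * m + 1 + 1) % 3 = 2 by omega,
      show 64 * (3 * m) = 192 * m by ring, show 64 * (3 * m + 1) = 64 + 192 * m by ring,
      show 64 * (3 * m + 1 + 1) = 128 + 192 * m by ring, pow_add, pow_add]
    generalize (2 : ℕ) ^ 64 = A
    generalize (2 : ℕ) ^ 128 = C
    ring

/-- Hint: regroup as one sum over `i < 3 m` in base `2 ^ 64`, `dg_sum`. -/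
theorem eRow_dg {m r k j : ℕ} (h : ∀ o < m, ∀ s < 3, eS r k j o s ≤ 2 ^ 50) (o : ℕ) {s : ℕ}
    (hs : s < 3) : dg (eRow m r k j) 64 (3 * o + s) = if o < m then eS r k j o s else 0 := by
  rw [eRow, sT_eq]
  generalize eS r k j = e at h ⊢
  rw [ce_row, dg_sum (fun i => e (i / 3) (i % 3)) fun i hi =>
    lt_of_le_of_lt (h _ (by omega) _ (by omega)) (by norm_num),
    show (3 * o + s) / 3 = o by omega, show (3 * o + s) % 3 = s by omega]
  exact if_congr (by omega) rfl rfl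

end Pool.Agent.P.MP_dddec0_nt.L33
end
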