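import Mathlib
import Pool.Agent.Lib.Tup.Maynard

-- part Pool.Agent.P.MP_dddec0_nt.Pack
section

/-! Kronecker packing of sequences of naturals into one big natural number. -/

open Finset

namespace BGap

/-- `∑ s < n, l s * 2 ^ (sl * s)`. -/
def pk (sl : ℕ) (l : ℕ → ℕ) (n : ℕ) : ℕ := ∑ s ∈ range n, l s * 2 ^ (sl * s)

theorem pk_add (sl : ℕ) (l : ℕ → ℕ) (a b : ℕ) :
    pk sl l (a + b) = pk sl l a + 2 ^ (sl * a) * pk sl (fun s => l (a + s)) b := by
  unfold pk
  rw [sum_range_add, mul_sum]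
  congr 1
  refine sum_congr rfl fun s _ => ?_
  rw [mul_add, pow_add]; ring

theorem pk_succ' (sl : ℕ) (l : ℕ → ℕ) (n : ℕ) :
    pk sl l (n + 1) = l 0 + 2 ^ sl * pk sl (fun s => l (s + 1)) n := by
  rw [add_comm n 1, pk_add]
  simp [pk, add_comm]

theorem pk_congr {sl : ℕ} {l l' : ℕ → ℕ} {n : ℕ} (h : ∀ s < n, l s = l' s) :
    pk sl l n = pk sl l' n :=
  sum_congr rfl fun s hs => by rw [h s (mem_range.1 hs)]

theorem pk_lt {sl : ℕ} {l : ℕ → ℕ} {n : ℕ} (h : ∀ s < n, l s < 2 ^ sl) :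
    pk sl l n < 2 ^ (sl * n) := by
  induction n with
  | zero => simp [pk]
  | succ n ih =>
    have h1 := ih fun s hs => h s (by omega)
    have h2 := h n (by omega)
    have h3 : pk sl l (n + 1) = pk sl l n + l n * 2 ^ (sl * n) := by
      unfold pk; rw [sum_range_succ]
    rw [h3, mul_add, mul_one, pow_add]
    have : (l n + 1) * 2 ^ (sl * n) ≤ 2 ^ sl * 2 ^ (sl * n) := Nat.mul_le_mul_right _ h2
    nlinarith

theorem pk_low {sl : ℕ} {l : ℕ → ℕ} {a : ℕ} (b : ℕ) (h : ∀ s < a, l s < 2 ^ sl) :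
    pk sl l (a + b) &&& (1 <<< (sl * a) - 1) = pk sl l a := by
  rw [Nat.one_shiftLeft, Nat.and_two_pow_sub_one_eq_mod, pk_add, Nat.add_mul_mod_self_left,
    Nat.mod_eq_of_lt (pk_lt h)]

theorem pk_high {sl : ℕ} {l : ℕ → ℕ} {a : ℕ} (b : ℕ) (h : ∀ s < a, l s < 2 ^ sl) :
    pk sl l (a + b) >>> (sl * a) = pk sl (fun s => l (a + s)) b := by
  rw [Nat.shiftRight_eq_div_pow, pk_add, Nat.add_mul_div_left _ _ (by positivity),
    Nat.div_eq_of_lt (pk_lt h), zero_add]

theorem pk_modEq (sl : ℕ) (l : ℕ → ℕ) (n : ℕ) :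
    pk sl l n ≡ ∑ s ∈ range n, l s [MOD 2 ^ sl - 1] := by
  have h1 : 2 ^ sl ≡ 1 [MOD 2 ^ sl - 1] :=
    ((Nat.modEq_iff_dvd' Nat.one_le_two_pow).2 dvd_rfl).symm
  induction n with
  | zero => simp [pk, Nat.ModEq]
  | succ n ih =>
    unfold pk at ih ⊢
    rw [sum_range_succ, sum_range_succ]
    refine ih.add ?_
    have := (h1.pow n).mul_left (l n)
    rwa [one_pow, mul_one, ← pow_mul] at this

theorem pk_mod {sl : ℕ} {l : ℕ → ℕ} {n : ℕ} (h : ∑ s ∈ range n, l s < 2 ^ sl - 1) :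
    pk sl l n % (1 <<< sl - 1) = ∑ s ∈ range n, l s := by
  rw [Nat.one_shiftLeft, pk_modEq sl l n, Nat.mod_eq_of_lt h]

theorem pk_const_mul (sl c : ℕ) (l : ℕ → ℕ) (n : ℕ) :
    c * pk sl l n = pk sl (fun s => c * l s) n := by
  unfold pk; rw [mul_sum]; exact sum_congr rfl fun s _ => by ring

/-- The number whose `n` digits are all `1`. -/
def ones (sl n : ℕ) : ℕ := (1 <<< (sl * n) - 1) / (1 <<< sl - 1)

theorem ones_eq {sl : ℕ} (hsl : 1 ≤ sl) (n : ℕ) : ones sl n = pk sl (fun _ => 1) n := by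
  have h2 : 2 ≤ 2 ^ sl := by
    calc 2 = 2 ^ 1 := rfl
      _ ≤ 2 ^ sl := Nat.pow_le_pow_right (by norm_num) hsl
  unfold ones pk
  simp only [Nat.one_shiftLeft, one_mul, pow_mul]
  exact (Nat.geomSum_eq h2 n).symm

/-- Cauchy product. -/
def conv {R : Type*} [CommSemiring R] (a b : ℕ → R) (s : ℕ) : R :=
  ∑ i ∈ range (s + 1), a i * b (s - i)

theorem sum_conv {R : Type*} [CommSemiring R] (a b f : ℕ → R) (n : ℕ) :
    ∑ s ∈ range n, conv a b s * f s =
      ∑ i ∈ range n, ∑ j ∈ range (n - i), a i * b j * f (i + j) := by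
  rw [← sum_range_diag_flip n (fun i j => a i * b j * f (i + j))]
  refine sum_congr rfl fun s _ => ?_
  unfold conv
  rw [sum_mul]
  refine sum_congr rfl fun i hi => ?_
  rw [Nat.add_sub_cancel' (Nat.lt_succ_iff.1 (mem_range.1 hi))]

theorem pk_mul (sl : ℕ) (a b : ℕ → ℕ) (n : ℕ) :
    ∃ R, pk sl a n * pk sl b n = pk sl (conv a b) n + 2 ^ (sl * n) * R := by
  refine ⟨∑ i ∈ range n, ∑ j ∈ range i, a i * b (n - i + j) * 2 ^ (sl * j), ?_⟩
  unfold pk
  rw [sum_conv, sum_mul, mul_sum, ← sum_add_distrib]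
  refine sum_congr rfl fun i hi => ?_
  have hi' : n = n - i + i := by have := mem_range.1 hi; omega
  conv_lhs => rw [hi', sum_range_add]
  rw [mul_add, mul_sum, mul_sum, mul_sum]
  congr 1
  · exact sum_congr rfl fun j _ => by rw [mul_add, pow_add]; ring
  · refine sum_congr rfl fun j _ => ?_
    have : sl * n + sl * j = sl * i + sl * (n - i + j) := by
      conv_lhs => rw [hi']
      ring
    calc a i * 2 ^ (sl * i) * (b (n - i + j) * 2 ^ (sl * (n - i + j)))
        = a i * b (n - i + j) * 2 ^ (sl * i + sl * (n - i + j)) := by rw [pow_add]; ring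
      _ = _ := by rw [← this, pow_add]; ring

theorem shift_mask {sl w : ℕ} (hw : w ≤ sl) (n : ℕ) : ∀ (d : ℕ → ℕ) (R : ℕ),
    (∀ s < n, d s < 2 ^ sl) →
    ((pk sl d n + 2 ^ (sl * n) * R) >>> w) &&& pk sl (fun _ => 2 ^ (sl - w) - 1) n =
      pk sl (fun s => d s / 2 ^ w) n := by
  induction n with
  | zero => intro d R _; simp [pk]
  | succ n ih =>
    intro d R hd
    have h0 := hd 0 (by omega)
    have ih' := ih (fun s => d (s + 1)) R fun s hs => hd (s + 1) (by omega)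
    set Z' := pk sl (fun s => d (s + 1)) n + 2 ^ (sl * n) * R with hZ'
    have hsl : 2 ^ sl = 2 ^ w * 2 ^ (sl - w) := by rw [← pow_add]; congr 1; omega
    have hZ : pk sl d (n + 1) + 2 ^ (sl * (n + 1)) * R = d 0 + 2 ^ sl * Z' := by
      rw [pk_succ', hZ', mul_add sl n 1, pow_add]; ring
    have hd0 : d 0 / 2 ^ w < 2 ^ (sl - w) := by
      rw [Nat.div_lt_iff_lt_mul (by positivity), mul_comm, ← hsl]; exact h0
    have hS : (d 0 + 2 ^ sl * Z') >>> w = d 0 / 2 ^ w + 2 ^ (sl - w) * Z' := by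
      rw [Nat.shiftRight_eq_div_pow, hsl, mul_assoc, Nat.add_mul_div_left _ _ (by positivity)]
    have hm : 2 ^ (sl - w) - 1 < 2 ^ sl := by
      have : 2 ^ (sl - w) ≤ 2 ^ sl := Nat.pow_le_pow_right (by norm_num) (by omega)
      have : 0 < 2 ^ (sl - w) := by positivity
      omega
    rw [hZ, hS, pk_succ', pk_succ', ← ih']
    set A := d 0 / 2 ^ w + 2 ^ (sl - w) * Z' with hA
    set Mk := pk sl (fun _ => 2 ^ (sl - w) - 1) n
    have e1 : (A &&& (2 ^ (sl - w) - 1 + 2 ^ sl * Mk)) / 2 ^ sl = Z' >>> w &&& Mk := by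
      rw [Nat.and_div_two_pow, Nat.add_mul_div_left _ _ (by positivity), Nat.div_eq_of_lt hm,
        zero_add, Nat.shiftRight_eq_div_pow]
      congr 1
      rw [hsl, mul_comm (2 ^ w), ← Nat.div_div_eq_div_mul, hA,
        Nat.add_mul_div_left _ _ (by positivity), Nat.div_eq_of_lt hd0, zero_add]
    have e2 : (A &&& (2 ^ (sl - w) - 1 + 2 ^ sl * Mk)) % 2 ^ sl = d 0 / 2 ^ w := by
      rw [Nat.and_mod_two_pow, Nat.add_mul_mod_self_left, Nat.mod_eq_of_lt hm,
        Nat.and_two_pow_sub_one_eq_mod,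
        Nat.mod_mod_of_dvd _ (Nat.pow_dvd_pow 2 (Nat.sub_le sl w)), hA,
        Nat.add_mul_mod_self_left, Nat.mod_eq_of_lt hd0]
    rw [← e1, ← e2, Nat.mod_add_div]

/-- Product of two packed sequences, truncated to the slots of `mask`, every slot divided
by `2 ^ w`. -/
def step (w mask X Y : ℕ) : ℕ := ((X * Y) >>> w) &&& mask

theorem step_pk {sl w : ℕ} (hw : w ≤ sl) (n : ℕ) (a b : ℕ → ℕ)
    (h : ∀ s < n, conv a b s < 2 ^ sl) :
    step w (pk sl (fun _ => 2 ^ (sl - w) - 1) n) (pk sl a n) (pk sl b n) =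
      pk sl (fun s => conv a b s / 2 ^ w) n := by
  obtain ⟨R, hR⟩ := pk_mul sl a b n
  unfold step
  rw [hR, shift_mask hw n _ R h]

/-- Binary trees describing step functions. -/
inductive Tr : Type
  | leaf (c : ℕ) : Tr
  | node (l r : Tr) : Tr

/-- Value at `s` of the step function on `[0, n)` described by a tree. -/
def Tr.val : Tr → ℕ → ℕ → ℕ
  | .leaf c, _, _ => c
  | .node l r, n, s => if s < n / 2 then l.val (n / 2) s else r.val (n - n / 2) (s - n / 2)

noncomputable def Tr.mx (t : Tr) : ℕ :=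
  Tr.rec (motive := fun _ => ℕ) (fun c => c) (fun _ _ a b => max a b) t

noncomputable def Tr.sq (t : Tr) : Tr :=
  Tr.rec (motive := fun _ => Tr) (fun c => .leaf (c * c)) (fun _ _ a b => .node a b) t

theorem Tr.val_le_mx (t : Tr) : ∀ n s, t.val n s ≤ t.mx := by
  induction t with
  | leaf c => intro n s; exact le_rfl
  | node l r ihl ihr =>
    intro n s
    change (if s < n / 2 then _ else _) ≤ max l.mx r.mx
    split_ifs
    · exact (ihl _ _).trans (le_max_left _ _)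
    · exact (ihr _ _).trans (le_max_right _ _)

theorem Tr.val_sq (t : Tr) : ∀ n s, t.sq.val n s = t.val n s * t.val n s := by
  induction t with
  | leaf c => intro n s; rfl
  | node l r ihl ihr =>
    intro n s
    change (if s < n / 2 then l.sq.val _ _ else r.sq.val _ _) =
      (if s < n / 2 then _ else _) * (if s < n / 2 then _ else _)
    split_ifs
    · exact ihl _ _
    · exact ihr _ _

/-- Multiply the slots of a packed sequence by a step function. -/
noncomputable def scale (sl : ℕ) (t : Tr) : ℕ → ℕ → ℕ :=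
  Tr.rec (motive := fun _ => ℕ → ℕ → ℕ) (fun c _ X => c * X)
    (fun _ _ fl fr n X => fl (n / 2) (X &&& (1 <<< (sl * (n / 2)) - 1)) +
      (fr (n - n / 2) (X >>> (sl * (n / 2)))) <<< (sl * (n / 2))) t

/-- Sum of the slots of a packed sequence weighted by a step function. -/
noncomputable def ws (sl : ℕ) (t : Tr) : ℕ → ℕ → ℕ :=
  Tr.rec (motive := fun _ => ℕ → ℕ → ℕ) (fun c _ X => c * (X % (1 <<< sl - 1)))
    (fun _ _ fl fr n X => fl (n / 2) (X &&& (1 <<< (sl * (n / 2)) - 1)) +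
      fr (n - n / 2) (X >>> (sl * (n / 2)))) t

theorem scale_pk (sl : ℕ) (t : Tr) : ∀ (n : ℕ) (l : ℕ → ℕ), (∀ s < n, l s < 2 ^ sl) →
    scale sl t n (pk sl l n) = pk sl (fun s => t.val n s * l s) n := by
  induction t with
  | leaf c => intro n l _; exact pk_const_mul sl c l n
  | node a b iha ihb =>
    intro n l h
    have hn : n = n / 2 + (n - n / 2) := by omega
    have h1 : ∀ s < n / 2, l s < 2 ^ sl := fun s hs => h s (by omega)
    have e1 := pk_low (n - n / 2) h1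
    have e2 := pk_high (n - n / 2) h1
    rw [← hn] at e1 e2
    change scale sl a (n / 2) (pk sl l n &&& (1 <<< (sl * (n / 2)) - 1)) +
      (scale sl b (n - n / 2) (pk sl l n >>> (sl * (n / 2)))) <<< (sl * (n / 2)) = _
    rw [e1, e2, iha _ _ h1, ihb _ _ fun s hs => h _ (by omega), Nat.shiftLeft_eq]
    have e3 := pk_add sl (fun s => (Tr.node a b).val n s * l s) (n / 2) (n - n / 2)
    rw [← hn] at e3
    rw [e3, mul_comm (2 ^ _)]
    congr 1
    · exact pk_congr fun s hs => by simp only [Tr.val, if_pos hs]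
    · congr 1
      refine pk_congr fun s _ => ?_
      simp only [Tr.val]
      rw [if_neg (by omega), Nat.add_sub_cancel_left]

theorem ws_pk (sl : ℕ) (t : Tr) : ∀ (n : ℕ) (l : ℕ → ℕ), ∑ s ∈ range n, l s < 2 ^ sl - 1 →
    ws sl t n (pk sl l n) = ∑ s ∈ range n, t.val n s * l s := by
  induction t with
  | leaf c =>
    intro n l h
    change c * (pk sl l n % (1 <<< sl - 1)) = _
    rw [pk_mod h, mul_sum]; rfl
  | node a b iha ihb =>
    intro n l h
    have hn : n = n / 2 + (n - n / 2) := by omega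
    have h1 : ∀ s < n / 2, l s < 2 ^ sl := fun s hs => by
      have := single_le_sum (f := l) (s := range n) (fun _ _ => Nat.zero_le _)
        (mem_range.2 (show s < n by omega))
      omega
    have e1 := pk_low (n - n / 2) h1
    have e2 := pk_high (n - n / 2) h1
    rw [← hn] at e1 e2
    have e4 := sum_range_add l (n / 2) (n - n / 2)
    have e3 := sum_range_add (fun s => (Tr.node a b).val n s * l s) (n / 2) (n - n / 2)
    rw [← hn] at e3 e4
    change ws sl a (n / 2) (pk sl l n &&& (1 <<< (sl * (n / 2)) - 1)) +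
      ws sl b (n - n / 2) (pk sl l n >>> (sl * (n / 2))) = _
    rw [e1, e2, iha _ _ (by omega), ihb _ _ (by omega), e3]
    congr 1
    · exact sum_congr rfl fun s hs => by simp only [Tr.val, if_pos (mem_range.1 hs)]
    · refine sum_congr rfl fun s _ => ?_
      simp only [Tr.val]
      rw [if_neg (by omega), Nat.add_sub_cancel_left]

end BGap
end

-- part Pool.Agent.P.MP_dddec0_nt.Cert
section

/-! A verified checker for the Maynard functional of a product type step function. -/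

open Finset

namespace BGap

theorem sum_conv_le {a b : ℕ → ℝ} {n : ℕ} (ha : ∀ s < n, 0 ≤ a s) (hb : ∀ s < n, 0 ≤ b s) :
    ∑ s ∈ range n, conv a b s ≤ (∑ s ∈ range n, a s) * ∑ s ∈ range n, b s := by
  have h := sum_conv a b (fun _ => 1) n
  simp only [mul_one] at h
  rw [h, sum_mul]
  refine sum_le_sum fun i hi => ?_
  rw [← mul_sum]
  refine mul_le_mul_of_nonneg_left ?_ (ha i (mem_range.1 hi))
  exact sum_le_sum_of_subset_of_nonneg (range_subset_range.2 (Nat.sub_le _ _))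
    fun j hj _ => hb j (mem_range.1 hj)

theorem cast_conv (a b : ℕ → ℕ) (s : ℕ) :
    ((conv a b s : ℕ) : ℝ) = conv (fun i => (a i : ℝ)) (fun i => (b i : ℝ)) s := by
  simp [conv]

theorem sum_conv_le_nat (a b : ℕ → ℕ) (n : ℕ) :
    ∑ s ∈ range n, conv a b s ≤ (∑ s ∈ range n, a s) * ∑ s ∈ range n, b s := by
  have := sum_conv_le (a := fun i => (a i : ℝ)) (b := fun i => (b i : ℝ)) (n := n)
    (fun _ _ => Nat.cast_nonneg _) (fun _ _ => Nat.cast_nonneg _)
  simp only [← cast_conv] at this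
  exact_mod_cast this

theorem conv_mono {a b a' b' : ℕ → ℝ} {n s : ℕ} (hs : s < n) (h0 : ∀ s < n, 0 ≤ a s)
    (h0' : ∀ s < n, 0 ≤ b s) (ha : ∀ s < n, a s ≤ a' s) (hb : ∀ s < n, b s ≤ b' s) :
    conv a b s ≤ conv a' b' s := by
  refine sum_le_sum fun i hi => ?_
  have hi' := mem_range.1 hi
  exact mul_le_mul (ha i (by omega)) (hb _ (by omega)) (h0' _ (by omega))
    ((h0 i (by omega)).trans (ha i (by omega)))

/-- `X` packs lower approximations of `2 ^ w * Pc j s` with a controlled total defect. -/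
def Rep (sl w n : ℕ) (Pc : ℕ → ℕ → ℝ) (j X : ℕ) : Prop :=
  ∃ l : ℕ → ℕ, X = pk sl l n ∧ (∀ s < n, (l s : ℝ) ≤ 2 ^ w * Pc j s) ∧
    2 ^ w * ∑ s ∈ range n, Pc j s ≤ ∑ s ∈ range n, (l s : ℝ) + ((j : ℝ) - 1) * n ∧
    ∑ s ∈ range n, Pc j s ≤ 1

theorem sum_le_of_rep {w n : ℕ} {l : ℕ → ℕ} {P : ℕ → ℝ}
    (h1 : ∀ s < n, (l s : ℝ) ≤ 2 ^ w * P s) (h3 : ∑ s ∈ range n, P s ≤ 1) :
    ∑ s ∈ range n, l s ≤ 2 ^ w := by
  have h : ∑ s ∈ range n, (l s : ℝ) ≤ 2 ^ w := by
    calc ∑ s ∈ range n, (l s : ℝ) ≤ ∑ s ∈ range n, 2 ^ w * P s :=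
          sum_le_sum fun s hs => h1 s (mem_range.1 hs)
      _ = 2 ^ w * ∑ s ∈ range n, P s := by rw [mul_sum]
      _ ≤ 2 ^ w * 1 := by gcongr
      _ = _ := mul_one _
  exact_mod_cast h

theorem Rep.step {sl w n : ℕ} (hw : 2 * w + 1 ≤ sl) {Pc : ℕ → ℕ → ℝ}
    (hPc : ∀ i j s, Pc (i + j) s = conv (Pc i) (Pc j) s) {i j X Y : ℕ}
    (hX : Rep sl w n Pc i X) (hY : Rep sl w n Pc j Y) :
    Rep sl w n Pc (i + j) (BGap.step w (pk sl (fun _ => 2 ^ (sl - w) - 1) n) X Y) := by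
  obtain ⟨a, rfl, ha1, ha2, ha3⟩ := hX
  obtain ⟨b, rfl, hb1, hb2, hb3⟩ := hY
  have hW : (0 : ℝ) < 2 ^ w := by positivity
  have sa := sum_le_of_rep ha1 ha3
  have sb := sum_le_of_rep hb1 hb3
  have hlt : ∀ s < n, conv a b s < 2 ^ sl := by
    intro s hs
    calc conv a b s ≤ ∑ s ∈ range n, conv a b s :=
          single_le_sum (f := conv a b) (fun _ _ => Nat.zero_le _) (mem_range.2 hs)
      _ ≤ 2 ^ w * 2 ^ w := (sum_conv_le_nat a b n).trans (Nat.mul_le_mul sa sb)
      _ = 2 ^ (2 * w) := by ring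
      _ < 2 ^ sl := Nat.pow_lt_pow_right (by norm_num) (by omega)
  have pa : ∀ s < n, 0 ≤ Pc i s := fun s hs =>
    (mul_nonneg_iff_of_pos_left hW).1 ((Nat.cast_nonneg _).trans (ha1 s hs))
  have pb : ∀ s < n, 0 ≤ Pc j s := fun s hs =>
    (mul_nonneg_iff_of_pos_left hW).1 ((Nat.cast_nonneg _).trans (hb1 s hs))
  have hsc : ∀ s, conv (fun s => 2 ^ w * Pc i s) (fun s => 2 ^ w * Pc j s) s =
      2 ^ w * (2 ^ w * Pc (i + j) s) := by
    intro s
    rw [hPc]
    simp only [conv, mul_sum]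
    exact sum_congr rfl fun _ _ => by ring
  refine ⟨_, step_pk (by omega) n a b hlt, fun s hs => ?_, ?_, ?_⟩
  · have h1 : ((conv a b s / 2 ^ w : ℕ) : ℝ) ≤ (conv a b s : ℕ) / ((2 ^ w : ℕ) : ℝ) :=
      Nat.cast_div_le
    have h2 := conv_mono hs (fun _ _ => Nat.cast_nonneg _) (fun _ _ => Nat.cast_nonneg _) ha1 hb1
    rw [← cast_conv, hsc] at h2
    refine h1.trans ?_
    push_cast
    rw [div_le_iff₀ hW]
    linarith
  · have h1 : ∀ s, ((conv a b s : ℕ) : ℝ) ≤ 2 ^ w * (((conv a b s / 2 ^ w : ℕ) : ℝ) + 1) := by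
      intro s
      have := Nat.lt_mul_div_succ (conv a b s) (show 0 < 2 ^ w by positivity)
      exact_mod_cast this.le
    have h2 : ∀ s, 2 ^ w * (2 ^ w * Pc (i + j) s) = ((conv a b s : ℕ) : ℝ) +
        (conv (fun s => 2 ^ w * Pc i s - a s) (fun s => 2 ^ w * Pc j s) s +
          conv (fun s => (a s : ℝ)) (fun s => 2 ^ w * Pc j s - b s) s) := by
      intro s
      rw [← hsc, cast_conv]
      simp only [conv, ← sum_add_distrib]
      exact sum_congr rfl fun _ _ => by ring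
    have h3 := sum_conv_le (a := fun s => 2 ^ w * Pc i s - a s) (b := fun s => 2 ^ w * Pc j s)
      (n := n) (fun s hs => sub_nonneg.2 (ha1 s hs)) (fun s hs => mul_nonneg hW.le (pb s hs))
    have h4 := sum_conv_le (a := fun s => (a s : ℝ)) (b := fun s => 2 ^ w * Pc j s - b s)
      (n := n) (fun _ _ => Nat.cast_nonneg _) (fun s hs => sub_nonneg.2 (hb1 s hs))
    rw [sum_sub_distrib, ← mul_sum, ← mul_sum] at h3
    rw [sum_sub_distrib, ← mul_sum] at h4
    have sa' : ∑ s ∈ range n, (a s : ℝ) ≤ 2 ^ w := by exact_mod_cast sa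
    have da : 0 ≤ 2 ^ w * ∑ s ∈ range n, Pc i s - ∑ s ∈ range n, (a s : ℝ) := by
      rw [mul_sum, ← sum_sub_distrib]
      exact sum_nonneg fun s hs => sub_nonneg.2 (ha1 s (mem_range.1 hs))
    have db : 0 ≤ 2 ^ w * ∑ s ∈ range n, Pc j s - ∑ s ∈ range n, (b s : ℝ) := by
      rw [mul_sum, ← sum_sub_distrib]
      exact sum_nonneg fun s hs => sub_nonneg.2 (hb1 s (mem_range.1 hs))
    have h5 : (2 ^ w * ∑ s ∈ range n, Pc i s - ∑ s ∈ range n, (a s : ℝ)) *
        (2 ^ w * ∑ s ∈ range n, Pc j s) ≤ ((i : ℝ) - 1) * n * 2 ^ w := by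
      have e1 : (2 : ℝ) ^ w * ∑ s ∈ range n, Pc j s ≤ 2 ^ w := by
        calc (2 : ℝ) ^ w * ∑ s ∈ range n, Pc j s ≤ 2 ^ w * 1 := by gcongr
          _ = _ := mul_one _
      have e0 : 0 ≤ (2 : ℝ) ^ w * ∑ s ∈ range n, Pc j s :=
        mul_nonneg hW.le (sum_nonneg fun s hs => pb s (mem_range.1 hs))
      exact mul_le_mul (by linarith) e1 e0 (by linarith)
    have h6 : (∑ s ∈ range n, (a s : ℝ)) *
        (2 ^ w * ∑ s ∈ range n, Pc j s - ∑ s ∈ range n, (b s : ℝ)) ≤
        2 ^ w * (((j : ℝ) - 1) * n) := mul_le_mul sa' (by linarith) db hW.le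
    have h7 : 2 ^ w * (2 ^ w * ∑ s ∈ range n, Pc (i + j) s) ≤
        2 ^ w * (∑ s ∈ range n, ((conv a b s / 2 ^ w : ℕ) : ℝ) + n) +
          (((i : ℝ) - 1) * n * 2 ^ w + 2 ^ w * (((j : ℝ) - 1) * n)) := by
      rw [mul_sum, mul_sum, sum_congr rfl fun s _ => h2 s, sum_add_distrib, sum_add_distrib]
      refine add_le_add ?_ (add_le_add (h3.trans h5) (h4.trans h6))
      refine (sum_le_sum fun s _ => h1 s).trans (le_of_eq ?_)
      rw [← mul_sum, sum_add_distrib]
      simp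
    refine le_of_mul_le_mul_left ?_ hW
    push_cast at h7 ⊢
    linarith
  · rw [sum_congr rfl fun s _ => hPc i j s]
    refine (sum_conv_le pa pb).trans ?_
    exact mul_le_one₀ ha3 (sum_nonneg fun s hs => pb s (mem_range.1 hs)) hb3

/-- Binary powering along a list of bits. -/
noncomputable def pw (w mask P : ℕ) (bs : List Bool) : ℕ → ℕ :=
  List.rec (motive := fun _ => ℕ → ℕ) (fun acc => acc)
    (fun b _ ih acc => Bool.rec (motive := fun _ => ℕ) (ih (step w mask acc acc))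
      (ih (step w mask (step w mask acc acc) P)) b) bs

/-- The exponent reached by `pw`. -/
def ex : List Bool → ℕ → ℕ
  | [], j => j
  | false :: bs, j => ex bs (j + j)
  | true :: bs, j => ex bs (j + j + 1)

theorem Rep.pw {sl w n : ℕ} (hw : 2 * w + 1 ≤ sl) {Pc : ℕ → ℕ → ℝ}
    (hPc : ∀ i j s, Pc (i + j) s = conv (Pc i) (Pc j) s) {P : ℕ} (hP : Rep sl w n Pc 1 P)
    (bs : List Bool) : ∀ {j X : ℕ}, Rep sl w n Pc j X →
    Rep sl w n Pc (ex bs j) (BGap.pw w (pk sl (fun _ => 2 ^ (sl - w) - 1) n) P bs X) := by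
  induction bs with
  | nil => intro j X h; exact h
  | cons b bs ih =>
    intro j X h
    cases b
    · exact ih (h.step hw hPc h)
    · exact ih ((h.step hw hPc h).step hw hPc hP)

/-- The checker. -/
noncomputable def check (sl w n e K : ℕ) (bs : List Bool) (tg th tb : Tr) : Bool :=
  let o := ones sl n
  let G := scale sl tg n o
  let P := scale sl tg.sq n o
  let mask := (2 ^ (sl - w) - 1) * o
  let L1 := pw w mask P bs P
  Nat.beq (ex bs 1) K && Nat.ble (2 * w + 1) sl && Nat.ble 1 w &&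
  Nat.blt (n * tg.sq.mx) (2 ^ sl - 1) && Nat.ble (P % (1 <<< sl - 1)) (2 ^ w) &&
  Nat.blt (tb.mx * 2 ^ w * (G % (1 <<< sl - 1) + 1)) (2 ^ sl - 1) &&
  Nat.blt (8 * (n + K - 1) * 2 ^ w * (ws sl th.sq n (step w mask L1 P) + th.mx * th.mx * (K * n)) +
      (K + 1) * (2 ^ e * 2 ^ e * ws sl tb.sq n L1))
    ((K + 1) * (2 * 2 ^ e * ws sl th n (step 0 ((2 ^ (sl - 0) - 1) * o) (scale sl tb n L1) G)))

open Polynomial in
/-- Generating polynomial of the squared cell values. -/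
noncomputable def gen (g : ℕ → ℕ) (n : ℕ) : ℝ[X] :=
  ∑ s ∈ range n, monomial s ((g s : ℝ) ^ 2)

theorem check_sound {sl w n e K : ℕ} {bs : List Bool} {tg th tb : Tr}
    (h : check sl w n e K bs tg th tb = true) :
    8 * ((n + K - 1 : ℕ) : ℝ) *
        ∑ s ∈ range n, (gen (tg.val n) n ^ (K + 1)).coeff s * (th.val n s : ℝ) ^ 2 <
      ((K : ℝ) + 1) * ∑ s ∈ range n, (gen (tg.val n) n ^ K).coeff s *
        (∑ j ∈ range (n - s), (tg.val n j : ℝ) * th.val n (s + j)) ^ 2 := by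
  simp only [check, Bool.and_eq_true, Nat.beq_eq, Nat.ble_eq, Nat.blt_eq] at h
  obtain ⟨⟨⟨⟨⟨⟨hK, hw⟩, hw1⟩, hn⟩, hS⟩, hG⟩, hfin⟩ := h
  have hsl : 1 ≤ sl := by omega
  have hB1 : 1 < 2 ^ sl := Nat.one_lt_two_pow (by omega)
  have hwB : 2 ^ w < 2 ^ sl - 1 := by
    have h1 : 2 ^ (w + 2) ≤ 2 ^ sl := Nat.pow_le_pow_right (by norm_num) (by omega)
    have h2 : 0 < 2 ^ w := by positivity
    rw [pow_add] at h1
    omega
  set g := tg.val n with hg
  set η := th.val n with hη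
  set β := tb.val n with hβ
  rw [ones_eq hsl] at hS hG hfin
  rw [scale_pk sl _ n _ fun _ _ => hB1] at hS hG
  rw [scale_pk sl tg.sq n _ fun _ _ => hB1, scale_pk sl tg n _ fun _ _ => hB1, pk_const_mul,
    pk_const_mul] at hfin
  simp only [mul_one, Tr.val_sq, ← hg] at hS hG hfin
  have hs1 : ∑ s ∈ range n, g s * g s < 2 ^ sl - 1 := by
    refine lt_of_le_of_lt ?_ hn
    have := sum_le_card_nsmul (range n) (fun s => g s * g s) tg.sq.mx fun s _ => by
      rw [hg, ← Tr.val_sq]; exact Tr.val_le_mx _ _ _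
    simpa using this
  rw [pk_mod hs1] at hS
  have hs2 : ∑ s ∈ range n, g s < 2 ^ sl - 1 :=
    lt_of_le_of_lt (sum_le_sum fun s _ => Nat.le_mul_self _) hs1
  rw [pk_mod hs2] at hG
  have hW : (0 : ℝ) < 2 ^ w := by positivity
  set Pc : ℕ → ℕ → ℝ := fun j s => (gen g n ^ j).coeff s / (2 ^ w) ^ j with hPcdef
  have hPc : ∀ i j s, Pc (i + j) s = conv (Pc i) (Pc j) s := by
    intro i j s
    simp only [hPcdef, conv, pow_add, Polynomial.coeff_mul]
    rw [Finset.Nat.sum_antidiagonal_eq_sum_range_succ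
      (fun a b => (gen g n ^ i).coeff a * (gen g n ^ j).coeff b), sum_div]
    exact sum_congr rfl fun _ _ => by rw [div_mul_div_comm]
  have hP1 : ∀ s < n, 2 ^ w * Pc 1 s = ((g s * g s : ℕ) : ℝ) := by
    intro s hs
    simp only [hPcdef, pow_one, gen, Polynomial.finsetSum_coeff, Polynomial.coeff_monomial]
    rw [sum_ite_eq', if_pos (mem_range.2 hs)]
    push_cast
    field_simp
  have hP : Rep sl w n Pc 1 (pk sl (fun s => g s * g s) n) := by
    have e1 : 2 ^ w * ∑ s ∈ range n, Pc 1 s = ∑ s ∈ range n, ((g s * g s : ℕ) : ℝ) := by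
      rw [mul_sum]; exact sum_congr rfl fun s hs => hP1 s (mem_range.1 hs)
    refine ⟨_, rfl, fun s hs => (hP1 s hs).ge, by rw [e1]; simp, ?_⟩
    refine le_of_mul_le_mul_left ?_ hW
    rw [e1, mul_one]
    exact_mod_cast hS
  have hL1 := Rep.pw hw hPc hP bs hP
  have hL0 := hL1.step hw hPc hP
  rw [hK] at hL1 hL0
  obtain ⟨l0, e0, a1, a2, a3⟩ := hL0
  rw [e0] at hfin
  obtain ⟨l1, e1, b1, -, b3⟩ := hL1
  rw [e1] at hfin
  have s0 := sum_le_of_rep a1 a3
  have s1 := sum_le_of_rep b1 b3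
  have d1 : ∀ s < n, l1 s < 2 ^ sl := fun s hs => by
    have := single_le_sum (f := l1) (s := range n) (fun _ _ => Nat.zero_le _) (mem_range.2 hs)
    omega
  have s2 : ∑ s ∈ range n, conv (fun s => β s * l1 s) g s < 2 ^ sl - 1 := by
    refine lt_of_le_of_lt ((sum_conv_le_nat _ _ n).trans ?_) hG
    refine Nat.mul_le_mul ?_ (Nat.le_succ _)
    calc ∑ s ∈ range n, β s * l1 s ≤ ∑ s ∈ range n, tb.mx * l1 s :=
          sum_le_sum fun s _ => Nat.mul_le_mul_right _ (Tr.val_le_mx _ _ _)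
      _ ≤ tb.mx * 2 ^ w := by rw [← mul_sum]; exact Nat.mul_le_mul_left _ s1
  have d2 : ∀ s < n, conv (fun s => β s * l1 s) g s < 2 ^ sl := fun s hs => by
    have := single_le_sum (f := conv (fun s => β s * l1 s) g) (s := range n)
      (fun _ _ => Nat.zero_le _) (mem_range.2 hs)
    omega
  rw [scale_pk sl tb n l1 d1, step_pk (Nat.zero_le _) n _ _ d2] at hfin
  simp only [pow_zero, Nat.div_one] at hfin
  rw [ws_pk sl _ n l0 (by omega), ws_pk sl _ n l1 (by omega), ws_pk sl th n _ s2] at hfin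
  simp only [Tr.val_sq, ← hη, ← hβ] at hfin
  set Gs : ℕ → ℝ := fun s => ∑ j ∈ range (n - s), (g j : ℝ) * η (s + j) with hGs
  have hA : ((∑ s ∈ range n, η s * conv (fun s => β s * l1 s) g s : ℕ) : ℝ) =
      ∑ s ∈ range n, (β s : ℝ) * l1 s * Gs s := by
    have := sum_conv (fun s => β s * l1 s) g η n
    rw [sum_congr rfl fun s _ => mul_comm (η s) _, this]
    push_cast
    refine sum_congr rfl fun s _ => ?_
    rw [hGs, mul_sum]
    exact sum_congr rfl fun _ _ => by ring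
  have hI : 2 ^ w * ∑ s ∈ range n, Pc (K + 1) s * (η s : ℝ) ^ 2 ≤
      ((∑ s ∈ range n, η s * η s * l0 s + th.mx * th.mx * (K * n) : ℕ) : ℝ) := by
    have h1 : ∀ s ∈ range n, 2 ^ w * (Pc (K + 1) s * (η s : ℝ) ^ 2) ≤
        (η s : ℝ) * η s * l0 s + (th.mx : ℝ) * th.mx * (2 ^ w * Pc (K + 1) s - l0 s) := by
      intro s hs
      have h2 := sub_nonneg.2 (a1 s (mem_range.1 hs))
      have h3 : (η s : ℝ) ≤ th.mx := by exact_mod_cast Tr.val_le_mx th n s
      have h4 : (η s : ℝ) * η s ≤ th.mx * th.mx :=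
        mul_le_mul h3 h3 (Nat.cast_nonneg _) (Nat.cast_nonneg _)
      nlinarith [mul_le_mul_of_nonneg_right h4 h2]
    rw [mul_sum]
    refine (sum_le_sum h1).trans ?_
    rw [sum_add_distrib, ← mul_sum, sum_sub_distrib, ← mul_sum]
    push_cast at a2 ⊢
    gcongr
    linarith
  have hJ : 2 * 2 ^ e * (∑ s ∈ range n, (β s : ℝ) * l1 s * Gs s) -
      2 ^ e * 2 ^ e * ((∑ s ∈ range n, β s * β s * l1 s : ℕ) : ℝ) ≤
      2 ^ w * ∑ s ∈ range n, Pc K s * Gs s ^ 2 := by
    push_cast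
    rw [mul_sum, mul_sum, mul_sum, ← sum_sub_distrib]
    refine sum_le_sum fun s hs => ?_
    have h1 := mul_le_mul_of_nonneg_right (b1 s (mem_range.1 hs)) (sq_nonneg (Gs s))
    have h2 := mul_nonneg (Nat.cast_nonneg (α := ℝ) (l1 s)) (sq_nonneg (Gs s - 2 ^ e * β s))
    nlinarith
  have hfin' : 8 * ((n + K - 1 : ℕ) : ℝ) * 2 ^ w *
      ((∑ s ∈ range n, η s * η s * l0 s + th.mx * th.mx * (K * n) : ℕ) : ℝ) +
      ((K : ℝ) + 1) * (2 ^ e * 2 ^ e * ((∑ s ∈ range n, β s * β s * l1 s : ℕ) : ℝ)) <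
      ((K : ℝ) + 1) * (2 * 2 ^ e *
        ((∑ s ∈ range n, η s * conv (fun s => β s * l1 s) g s : ℕ) : ℝ)) := by
    exact_mod_cast hfin
  rw [hA] at hfin'
  have key : 8 * ((n + K - 1 : ℕ) : ℝ) * 2 ^ w * ∑ s ∈ range n, Pc (K + 1) s * (η s : ℝ) ^ 2 <
      ((K : ℝ) + 1) * ∑ s ∈ range n, Pc K s * Gs s ^ 2 := by
    refine lt_of_mul_lt_mul_left ?_ hW.le
    have h1 := mul_le_mul_of_nonneg_left hI
      (show (0 : ℝ) ≤ 8 * ((n + K - 1 : ℕ) : ℝ) * 2 ^ w by positivity)
    have h2 := mul_le_mul_of_nonneg_left hJ (show (0 : ℝ) ≤ (K : ℝ) + 1 by positivity)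
    nlinarith
  have hWK : (0 : ℝ) < (2 ^ w) ^ K := by positivity
  have f1 : ∑ s ∈ range n, (gen g n ^ (K + 1)).coeff s * (η s : ℝ) ^ 2 =
      (2 ^ w) ^ K * (2 ^ w * ∑ s ∈ range n, Pc (K + 1) s * (η s : ℝ) ^ 2) := by
    rw [mul_sum, mul_sum]
    refine sum_congr rfl fun s _ => ?_
    simp only [hPcdef]
    field_simp
    ring
  have f2 : ∑ s ∈ range n, (gen g n ^ K).coeff s * Gs s ^ 2 =
      (2 ^ w) ^ K * ∑ s ∈ range n, Pc K s * Gs s ^ 2 := by
    rw [mul_sum]
    refine sum_congr rfl fun s _ => ?_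
    simp only [hPcdef]
    field_simp
  change _ < _ * ∑ s ∈ range n, (gen g n ^ K).coeff s * Gs s ^ 2
  rw [f1, f2]
  nlinarith [mul_lt_mul_of_pos_left key hWK]

end BGap
end

-- part Pool.Agent.P.MP_dddec0_nt.Bridge
section

/-! From the checker to three primes in a translate of an admissible tuple. -/

open Finset

namespace BGap

theorem sum_pi_eq {ι : Type*} [Fintype ι] [DecidableEq ι] (g : ℕ → ℕ) (n : ℕ) (φ : ℕ → ℝ)
    (hφ : ∀ s, n ≤ s → φ s = 0) :
    ∑ a : ι → Fin n, (∏ i, (g (a i) : ℝ)) ^ 2 * φ (∑ i, (a i : ℕ)) =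
      ∑ s ∈ range n, (gen g n ^ Fintype.card ι).coeff s * φ s := by
  have h1 : gen g n ^ Fintype.card ι =
      ∑ a : ι → Fin n, Polynomial.monomial (∑ i, (a i : ℕ)) ((∏ i, (g (a i) : ℝ)) ^ 2) := by
    have h2 : gen g n = ∑ x : Fin n, Polynomial.monomial (x : ℕ) ((g x : ℝ) ^ 2) := by
      unfold gen
      rw [← Fin.sum_univ_eq_sum_range (fun s => Polynomial.monomial s ((g s : ℝ) ^ 2))]
    rw [← card_univ, ← prod_const, h2, prod_univ_sum, Fintype.piFinset_univ]
    refine sum_congr rfl fun a _ => ?_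
    simp only [← Polynomial.C_mul_X_pow_eq_monomial]
    rw [prod_mul_distrib, prod_pow_eq_pow_sum, ← map_prod, prod_pow]
  rw [h1]
  simp only [Polynomial.finsetSum_coeff, Polynomial.coeff_monomial, sum_mul]
  rw [sum_comm]
  refine sum_congr rfl fun a _ => ?_
  simp only [ite_mul, zero_mul]
  rw [sum_ite_eq]
  split_ifs with h
  · rfl
  · rw [hφ _ (by simpa using h), mul_zero]

open Classical in
theorem three_primes_of_check {sl w n e K : ℕ} {bs : List Bool} {tg th tb : Tr}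
    (h : check sl w n e K bs tg th tb = true) (hn : 2 ≤ n) (hK : 2 ≤ K)
    (H : Fin (K + 1) → ℕ) (hH : Function.Injective H)
    (hadm : ∀ p : ℕ, p.Prime → ∃ r : ℕ, ∀ i, ¬ p ∣ r + H i) :
    {m : ℕ | (2 : ℝ) < ((univ.filter (fun i => (m + H i).Prime)).card : ℝ)}.Infinite := by
  have hc := check_sound h
  set g := tg.val n
  set M : ℕ := n + K - 1 with hM
  have hMr : (M : ℝ) = n + K - 1 := by
    rw [hM, Nat.cast_sub (by omega)]; push_cast; ring
  have hn' : (2 : ℝ) ≤ n := by exact_mod_cast hn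
  have hK' : (2 : ℝ) ≤ K := by exact_mod_cast hK
  have hM0 : (0 : ℝ) < M := by rw [hMr]; linarith
  set η : ℕ → ℝ := fun u => if u < n then (th.val n u : ℝ) else 0 with hη
  set F : (Fin (K + 1) → Fin n) → ℝ := fun a => (∏ i, (g (a i) : ℝ)) * η (∑ i, (a i : ℕ))
    with hF
  have hsupp : ∀ a, F a ≠ 0 → ∑ i, ((a i : ℕ) : ℝ) ≤ n - 1 := by
    intro a ha
    have h1 : ∑ i, (a i : ℕ) < n := by
      by_contra hcon
      apply ha
      simp only [hF, hη, if_neg hcon, mul_zero]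
    have h2 : ((∑ i, (a i : ℕ) + 1 : ℕ) : ℝ) ≤ n := by exact_mod_cast h1
    push_cast at h2
    linarith
  refine Pool.Agent.Lib.Tup.maynard H hH hadm (h := 1 / M) (by positivity) F ?_ ?_
    (by norm_num) ?_
  · intro a ha
    rw [← sum_mul, sum_add_distrib, mul_one_div, div_le_iff₀ hM0]
    have := hsupp a ha
    simp only [sum_const, card_univ, Fintype.card_fin, nsmul_eq_mul, mul_one]
    push_cast
    linarith
  · intro a ha i
    rw [← sum_mul, sum_add_distrib, mul_one_div, div_le_iff₀ hM0]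
    have h1 := hsupp a ha
    have h2 : ∑ j ∈ univ.erase i, ((a j : ℕ) : ℝ) ≤ ∑ j, ((a j : ℕ) : ℝ) :=
      sum_le_sum_of_subset_of_nonneg (erase_subset _ _) fun _ _ _ => Nat.cast_nonneg _
    simp only [sum_const, card_erase_of_mem (mem_univ i), card_univ, Fintype.card_fin,
      nsmul_eq_mul, mul_one, Nat.add_sub_cancel]
    linarith
  · have e1 : ∑ a, F a ^ 2 =
        ∑ s ∈ range n, (gen g n ^ (K + 1)).coeff s * (th.val n s : ℝ) ^ 2 := by
      have := sum_pi_eq (ι := Fin (K + 1)) g n (fun u => η u ^ 2) fun s hs => by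
        simp only [hη, if_neg (not_lt.2 hs)]; ring
      rw [Fintype.card_fin] at this
      simp only [hF, mul_pow]
      rw [this]
      exact sum_congr rfl fun s hs => by simp only [hη, if_pos (mem_range.1 hs)]
    set G : ℕ → ℝ := fun s => ∑ j ∈ range (n - s), (g j : ℝ) * th.val n (s + j) with hG
    have e2 : ∀ i : Fin (K + 1), ∑ b : {j // j ≠ i} → Fin n,
        (∑ a : Fin n, F ((Equiv.piSplitAt i (fun _ => Fin n)).symm (a, b))) ^ 2 =
        ∑ s ∈ range n, (gen g n ^ K).coeff s * G s ^ 2 := by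
      intro i
      have hcard : Fintype.card {j // j ≠ i} = K := by simp
      have := sum_pi_eq (ι := {j // j ≠ i}) g n (fun u => G u ^ 2) fun s hs => by
        simp only [hG, Nat.sub_eq_zero_of_le hs, range_zero, sum_empty]; ring
      rw [hcard] at this
      rw [← this]
      refine sum_congr rfl fun b _ => ?_
      rw [← mul_pow]
      congr 1
      have e3 : ∀ a : Fin n, F ((Equiv.piSplitAt i (fun _ => Fin n)).symm (a, b)) =
          (∏ j, (g (b j) : ℝ)) * ((g a : ℝ) * η (∑ j, (b j : ℕ) + a)) := by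
        intro a
        simp only [hF]
        rw [Fintype.prod_eq_mul_prod_subtype_ne _ i, Fintype.sum_eq_add_sum_subtype_ne _ i]
        have e4 : ∀ j : {j // j ≠ i},
            (Equiv.piSplitAt i (fun _ => Fin n)).symm (a, b) j = b j := by
          intro j
          simp [Equiv.piSplitAt, j.2]
        have e5 : (Equiv.piSplitAt i (fun _ => Fin n)).symm (a, b) i = a := by
          simp [Equiv.piSplitAt]
        simp only [e4, e5]
        rw [add_comm (a : ℕ)]
        ring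
      simp only [e3]
      rw [← mul_sum]
      congr 1
      set s := ∑ j, (b j : ℕ)
      rw [Fin.sum_univ_eq_sum_range (fun a => (g a : ℝ) * η (s + a)) n, hG]
      symm
      refine sum_subset_zero_on_sdiff (range_subset_range.2 (Nat.sub_le _ _)) ?_ ?_
      · intro x hx
        have hx' : ¬ s + x < n := by
          simp only [mem_sdiff, mem_range] at hx
          omega
        simp only [hη, if_neg hx', mul_zero]
      · intro x hx
        have hx' : s + x < n := by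
          have := mem_range.1 hx
          omega
        simp only [hη, if_pos hx']
    rw [e1, sum_congr rfl fun i _ => e2 i, sum_const, card_univ, Fintype.card_fin, nsmul_eq_mul,
      one_div_mul_eq_div, lt_div_iff₀ hM0]
    push_cast
    linarith

open Classical in
theorem nth_le_of_tuple {ι : Type*} [Fintype ι] {H : ι → ℕ} (hH : Function.Injective H) {D : ℕ}
    (hD : ∀ i, H i ≤ D)
    (h : {m : ℕ | (2 : ℝ) < ((univ.filter (fun i => (m + H i).Prime)).card : ℝ)}.Infinite) :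
    Set.Infinite {n : ℕ | Nat.nth Nat.Prime (n + 2) ≤ Nat.nth Nat.Prime n + D} := by
  refine Set.infinite_of_forall_exists_gt fun B => ?_
  obtain ⟨m, hm, hB⟩ := h.exists_gt (Nat.nth Nat.Prime B)
  have hm' : 2 < (univ.filter (fun i => (m + H i).Prime)).card := by
    have : (2 : ℝ) < ((univ.filter (fun i => (m + H i).Prime)).card : ℝ) := hm
    exact_mod_cast this
  set S := (univ.filter (fun i => (m + H i).Prime)).image (fun i => m + H i) with hS
  have hcard : 2 < S.card := by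
    rw [hS, card_image_of_injective _ fun i j hij => hH (Nat.add_left_cancel hij)]
    exact hm'
  have hmem : ∀ x ∈ S, x.Prime ∧ m ≤ x ∧ x ≤ m + D := by
    intro x hx
    obtain ⟨i, hi, rfl⟩ := mem_image.1 hx
    exact ⟨(mem_filter.1 hi).2, Nat.le_add_right _ _, Nat.add_le_add_left (hD i) m⟩
  obtain ⟨p, q, r, hp, hq, hr, hpq, hqr⟩ : ∃ p q r, p ∈ S ∧ q ∈ S ∧ r ∈ S ∧ p < q ∧ q < r :=
    ⟨S.orderEmbOfCardLe (k := 3) hcard 0, S.orderEmbOfCardLe (k := 3) hcard 1,
      S.orderEmbOfCardLe (k := 3) hcard 2, orderEmbOfCardLe_mem _ _ _, orderEmbOfCardLe_mem _ _ _,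
      orderEmbOfCardLe_mem _ _ _, (S.orderEmbOfCardLe (k := 3) hcard).strictMono (by decide),
      (S.orderEmbOfCardLe (k := 3) hcard).strictMono (by decide)⟩
  obtain ⟨pp, p1, -⟩ := hmem p hp
  obtain ⟨pq, -, -⟩ := hmem q hq
  obtain ⟨pr, -, r2⟩ := hmem r hr
  have hmono := Nat.nth_monotone Nat.infinite_setOfPred_prime
  have c1 := Nat.count_strict_mono (p := Nat.Prime) pp hpq
  have c2 := Nat.count_strict_mono (p := Nat.Prime) pq hqr
  refine ⟨Nat.count Nat.Prime p, ?_, ?_⟩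
  · have h1 := hmono (show Nat.count Nat.Prime p + 2 ≤ Nat.count Nat.Prime r by omega)
    rw [Nat.nth_count pr] at h1
    change Nat.nth Nat.Prime (Nat.count Nat.Prime p + 2) ≤
      Nat.nth Nat.Prime (Nat.count Nat.Prime p) + D
    rw [Nat.nth_count pp]
    exact h1.trans (r2.trans (Nat.add_le_add_right p1 _))
  · by_contra hcon
    have h1 := hmono (not_lt.1 hcon)
    rw [Nat.nth_count pp] at h1
    exact absurd (hB.trans_le (p1.trans h1)) (lt_irrefl _)

end BGap
end
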