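import Pool.Agent.K.MP_dddec0_nt.C8

/-! The numerical certificate. -/

namespace BGap
open Tr

set_option maxRecDepth 100000

/-- Cell values of the one dimensional factor. -/
def tg : Tr :=
  (node (node (node (node (node (node (node (node (node (node (node (node (node (node (node (node
  (node (node (node (node (node (leaf 5452292) (leaf 5380787)) (node (leaf 5311133)
  (leaf 5243259))) (node (node (leaf 5177098) (leaf 5112585)) (node (leaf 5049661)
  (leaf 4988267)))) (node (node (node (leaf 4928348) (leaf 4869851)) (node (leaf 4812727)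
  (leaf 4756927))) (node (node (leaf 4702407) (leaf 4649122)) (node (leaf 4597031)
  (leaf 4546094))))) (node (node (node (node (leaf 4496274) (leaf 4447534)) (node (leaf 4399839)
  (leaf 4353156))) (node (node (leaf 4307454) (leaf 4262701)) (node (leaf 4218869)
  (leaf 4175929)))) (node (node (node (leaf 4133854) (leaf 4092618)) (node (leaf 4052197)
  (leaf 4012567))) (node (node (leaf 3973704) (leaf 3935587)) (node (leaf 3898195)
  (leaf 3861506)))))) (node (node (node (node (node (leaf 3825501) (leaf 3790161)) (node
  (leaf 3755469) (leaf 3721406))) (node (node (leaf 3687955) (leaf 3655100)) (node (leaf 3622825)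
  (leaf 3591116)))) (node (node (node (leaf 3559956) (leaf 3529333)) (node (leaf 3499232)
  (leaf 3469640))) (node (node (leaf 3440545) (leaf 3411933)) (node (leaf 3383794)
  (leaf 3356114))))) (node (node (node (node (leaf 3328884) (leaf 3302092)) (node (leaf 3275728)
  (leaf 3249782))) (node (node (leaf 3224243) (leaf 3199103)) (leaf 3162119))) (node (node
  (leaf 3114117) (leaf 3067551)) (node (leaf 3022357) (leaf 2978475)))))) (node (node (node (node
  (node (leaf 2935849) (leaf 2894426)) (node (leaf 2854156) (leaf 2814991))) (node (node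
  (leaf 2776886) (leaf 2739799)) (node (leaf 2703690) (leaf 2668520)))) (node (node (node
  (leaf 2634253) (leaf 2600855)) (node (leaf 2568294) (leaf 2536538))) (node (node (leaf 2505557)
  (leaf 2475324)) (node (leaf 2445812) (leaf 2416995))))) (node (node (node (node (leaf 2388850)
  (leaf 2361352)) (node (leaf 2334480) (leaf 2308213))) (node (node (leaf 2282531) (leaf 2257414))
  (node (leaf 2232843) (leaf 2208802)))) (node (node (node (leaf 2185273) (leaf 2162239)) (node
  (leaf 2139687) (leaf 2117600))) (node (node (leaf 2095964) (leaf 2074766)) (node (leaf 2053992)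
  (leaf 2033630))))))) (node (node (node (node (node (node (leaf 2013668) (leaf 1994094)) (node
  (leaf 1974897) (leaf 1956066))) (node (node (leaf 1937591) (leaf 1919462)) (node (leaf 1901668)
  (leaf 1884202)))) (node (node (node (leaf 1867053) (leaf 1850214)) (node (leaf 1833676)
  (leaf 1817430))) (node (node (leaf 1801471) (leaf 1785789)) (node (leaf 1770377)
  (leaf 1755230))))) (node (node (node (node (leaf 1740339) (leaf 1725699)) (node (leaf 1711303)
  (leaf 1697145))) (node (node (leaf 1683220) (leaf 1669521)) (node (leaf 1656044)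
  (leaf 1642782)))) (node (node (node (leaf 1629731) (leaf 1616886)) (node (leaf 1604242)
  (leaf 1591794))) (node (leaf 1573480) (leaf 1549707))))) (node (node (node (node (leaf 1526641)
  (leaf 1504253)) (node (leaf 1482511) (leaf 1461389))) (node (node (leaf 1440860) (leaf 1420900))
  (node (leaf 1401485) (leaf 1382594)))) (node (node (node (leaf 1364206) (leaf 1346300)) (node
  (leaf 1328858) (leaf 1311862))) (node (node (leaf 1295296) (leaf 1279142)) (node (leaf 1263387)
  (leaf 1248015))))))) (node (node (node (node (node (node (leaf 1233012) (leaf 1218366)) (node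
  (leaf 1204064) (leaf 1190094))) (node (node (leaf 1176444) (leaf 1163104)) (node (leaf 1150063)
  (leaf 1137311)))) (node (node (node (leaf 1124839) (leaf 1112637)) (node (leaf 1100697)
  (leaf 1089011))) (node (node (leaf 1077570) (leaf 1066367)) (node (leaf 1055395)
  (leaf 1044646))))) (node (node (node (node (leaf 1034114) (leaf 1023792)) (node (leaf 1013675)
  (leaf 1003755))) (node (node (leaf 994027) (leaf 984487)) (node (leaf 975127) (leaf 965944))))
  (node (node (node (leaf 956933) (leaf 948087)) (node (leaf 939404) (leaf 930879))) (node (node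
  (leaf 922507) (leaf 914284)) (node (leaf 906206) (leaf 898270)))))) (node (node (node (node
  (node (leaf 890472) (leaf 882808)) (node (leaf 875274) (leaf 867868))) (node (node (leaf 860587)
  (leaf 853426)) (node (leaf 846384) (leaf 839457)))) (node (node (node (leaf 832643)
  (leaf 825938)) (node (leaf 819341) (leaf 812847))) (node (node (leaf 806457) (leaf 800165))
  (leaf 790910)))) (node (node (node (leaf 778898) (leaf 767246)) (node (leaf 755937)
  (leaf 744956))) (node (node (leaf 734290) (leaf 723925)) (node (leaf 713849) (leaf 704049)))))))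
  (node (node (node (node (node (node (leaf 694515) (leaf 685235)) (node (leaf 676201)
  (leaf 667401))) (node (node (leaf 658827) (leaf 650471)) (node (leaf 642324) (leaf 634379))))
  (node (node (node (leaf 626628) (leaf 619064)) (node (leaf 611680) (leaf 604471))) (node (node
  (leaf 597429) (leaf 590550)) (node (leaf 583827) (leaf 577256))))) (node (node (node (node
  (leaf 570831) (leaf 564547)) (node (leaf 558400) (leaf 552386))) (node (node (leaf 546500)
  (leaf 540738)) (node (leaf 535096) (leaf 529570)))) (node (node (node (leaf 524158)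
  (leaf 518855)) (node (leaf 513658) (leaf 508565))) (node (node (leaf 503571) (leaf 498675))
  (node (leaf 493873) (leaf 489162)))))) (node (node (node (node (node (leaf 484540)
  (leaf 480005)) (node (leaf 475554) (leaf 471185))) (node (node (leaf 466896) (leaf 462683))
  (node (leaf 458547) (leaf 454483)))) (node (node (node (leaf 450491) (leaf 446568)) (node
  (leaf 442713) (leaf 438924))) (node (node (leaf 435200) (leaf 431538)) (node (leaf 427937)
  (leaf 424396))))) (node (node (node (node (leaf 420913) (leaf 417486)) (node (leaf 414115)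
  (leaf 410798))) (node (node (leaf 407534) (leaf 404321)) (node (leaf 401158) (leaf 398045))))
  (node (node (leaf 393464) (leaf 387518)) (node (leaf 381749) (leaf 376149))))))) (node (node
  (node (node (node (node (leaf 370711) (leaf 365428)) (node (leaf 360294) (leaf 355302))) (node
  (node (leaf 350446) (leaf 345721)) (node (leaf 341122) (leaf 336644)))) (node (node (node
  (leaf 332281) (leaf 328031)) (node (leaf 323887) (leaf 319848))) (node (node (leaf 315907)
  (leaf 312063)) (node (leaf 308311) (leaf 304648))))) (node (node (node (node (leaf 301071)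
  (leaf 297577)) (node (leaf 294163) (leaf 290827))) (node (node (leaf 287566) (leaf 284377))
  (node (leaf 281257) (leaf 278206)))) (node (node (node (leaf 275220) (leaf 272298)) (node
  (leaf 269436) (leaf 266635))) (node (node (leaf 263891) (leaf 261203)) (node (leaf 258569)
  (leaf 255988)))))) (node (node (node (node (node (leaf 253457) (leaf 250977)) (node
  (leaf 248544) (leaf 246158))) (node (node (leaf 243818) (leaf 241521)) (node (leaf 239268)
  (leaf 237056)))) (node (node (node (leaf 234884) (leaf 232752)) (node (leaf 230659)
  (leaf 228602))) (node (node (leaf 226582) (leaf 224598)) (node (leaf 222648) (leaf 220731)))))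
  (node (node (node (node (leaf 218847) (leaf 216995)) (node (leaf 215175) (leaf 213384))) (node
  (node (leaf 211623) (leaf 209891)) (node (leaf 208187) (leaf 206510)))) (node (node (node
  (leaf 204860) (leaf 203237)) (node (leaf 201639) (leaf 200065))) (node (leaf 197751)
  (leaf 194747))))))) (node (node (node (node (node (node (leaf 191834) (leaf 189006)) (node
  (leaf 186260) (leaf 183593))) (node (node (leaf 181001) (leaf 178481)) (node (leaf 176031)
  (leaf 173647)))) (node (node (node (leaf 171326) (leaf 169067)) (node (leaf 166867)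
  (leaf 164723))) (node (node (leaf 162634) (leaf 160596)) (node (leaf 158610) (leaf 156672)))))
  (node (node (node (node (leaf 154780) (leaf 152934)) (node (leaf 151131) (leaf 149371))) (node
  (node (leaf 147650) (leaf 145969)) (node (leaf 144326) (leaf 142720)))) (node (node (node
  (leaf 141149) (leaf 139612)) (node (leaf 138108) (leaf 136636))) (node (node (leaf 135195)
  (leaf 133784)) (node (leaf 132403) (leaf 131050)))))) (node (node (node (node (node
  (leaf 129724) (leaf 128424)) (node (leaf 127151) (leaf 125902))) (node (node (leaf 124678)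
  (leaf 123477)) (node (leaf 122299) (leaf 121144)))) (node (node (node (leaf 120010)
  (leaf 118897)) (node (leaf 117804) (leaf 116732))) (node (node (leaf 115679) (leaf 114644))
  (node (leaf 113628) (leaf 112630))))) (node (node (node (node (leaf 111649) (leaf 110685)) (node
  (leaf 109738) (leaf 108807))) (node (node (leaf 107891) (leaf 106991)) (node (leaf 106105)
  (leaf 105235)))) (node (node (node (leaf 104378) (leaf 103535)) (node (leaf 102706)
  (leaf 101889))) (node (node (leaf 101086) (leaf 100295)) (leaf 99132))))))) (node (node (node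
  (node (node (node (leaf 97622) (leaf 96158)) (node (leaf 94737) (leaf 93357))) (node (node
  (leaf 92017) (leaf 90715)) (node (leaf 89450) (leaf 88219)))) (node (node (node (leaf 87021)
  (leaf 85856)) (node (leaf 84721) (leaf 83616))) (node (node (leaf 82539) (leaf 81490)) (node
  (leaf 80467) (leaf 79470))))) (node (node (node (node (leaf 78497) (leaf 77547)) (node
  (leaf 76620) (leaf 75715))) (node (node (leaf 74831) (leaf 73968)) (node (leaf 73124)
  (leaf 72300)))) (node (node (node (leaf 71493) (leaf 70705)) (node (leaf 69933) (leaf 69179)))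
  (node (node (leaf 68440) (leaf 67717)) (node (leaf 67009) (leaf 66316)))))) (node (node (node
  (node (node (leaf 65637) (leaf 64972)) (node (leaf 64320) (leaf 63681))) (node (node
  (leaf 63055) (leaf 62441)) (node (leaf 61838) (leaf 61247)))) (node (node (node (leaf 60668)
  (leaf 60099)) (node (leaf 59541) (leaf 58993))) (node (node (leaf 58455) (leaf 57927)) (node
  (leaf 57408) (leaf 56899))))) (node (node (node (node (leaf 56398) (leaf 55906)) (node
  (leaf 55423) (leaf 54948))) (node (node (leaf 54481) (leaf 54022)) (node (leaf 53570)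
  (leaf 53126)))) (node (node (node (leaf 52690) (leaf 52260)) (node (leaf 51838) (leaf 51422)))
  (node (node (leaf 51013) (leaf 50610)) (node (leaf 50213) (leaf 49823)))))))) (node (node (node
  (node (node (node (leaf 49249) (leaf 48504)) (node (leaf 47781) (leaf 47079))) (node (node
  (leaf 46397) (leaf 45735)) (node (leaf 45092) (leaf 44466)))) (node (node (node (leaf 43858)
  (leaf 43266)) (node (leaf 42690) (leaf 42129))) (node (node (leaf 41582) (leaf 41050)) (node
  (leaf 40530) (leaf 40024))))) (node (node (node (node (leaf 39531) (leaf 39049)) (node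
  (leaf 38579) (leaf 38120))) (node (node (leaf 37672) (leaf 37235)) (node (leaf 36807)
  (leaf 36389)))) (node (node (node (leaf 35981) (leaf 35581)) (node (leaf 35191) (leaf 34809)))
  (node (node (leaf 34435) (leaf 34069)) (node (leaf 33710) (leaf 33359)))))) (node (node (node
  (node (node (leaf 33016) (leaf 32679)) (node (leaf 32349) (leaf 32026))) (node (node
  (leaf 31709) (leaf 31399)) (node (leaf 31094) (leaf 30795)))) (node (node (node (leaf 30502)
  (leaf 30215)) (node (leaf 29933) (leaf 29656))) (node (node (leaf 29384) (leaf 29117)) (node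
  (leaf 28855) (leaf 28597))))) (node (node (node (node (leaf 28344) (leaf 28096)) (node
  (leaf 27852) (leaf 27612))) (node (node (leaf 27376) (leaf 27144)) (node (leaf 26916)
  (leaf 26692)))) (node (node (node (leaf 26472) (leaf 26255)) (node (leaf 26041) (leaf 25832)))
  (node (node (leaf 25625) (leaf 25422)) (node (leaf 25222) (leaf 25025)))))))) (node (node (node
  (node (node (node (leaf 24735) (leaf 24359)) (node (leaf 23995) (leaf 23641))) (node (node
  (leaf 23297) (leaf 22963)) (node (leaf 22639) (leaf 22323)))) (node (node (node (leaf 22017)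
  (leaf 21718)) (node (leaf 21428) (leaf 21145))) (node (node (leaf 20870) (leaf 20602)) (node
  (leaf 20340) (leaf 20085))))) (node (node (node (node (leaf 19837) (leaf 19594)) (node
  (leaf 19357) (leaf 19126))) (node (node (leaf 18901) (leaf 18680)) (node (leaf 18465)
  (leaf 18255)))) (node (node (node (leaf 18049) (leaf 17848)) (node (leaf 17652) (leaf 17459)))
  (node (node (leaf 17271) (leaf 17087)) (node (leaf 16907) (leaf 16730)))))) (node (node (node
  (node (node (leaf 16557) (leaf 16388)) (node (leaf 16222) (leaf 16060))) (node (node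
  (leaf 15900) (leaf 15744)) (node (leaf 15591) (leaf 15441)))) (node (node (node (leaf 15293)
  (leaf 15149)) (node (leaf 15007) (leaf 14868))) (node (node (leaf 14731) (leaf 14597)) (node
  (leaf 14465) (leaf 14336))))) (node (node (node (node (leaf 14209) (leaf 14084)) (node
  (leaf 13961) (leaf 13840))) (node (node (leaf 13722) (leaf 13605)) (node (leaf 13491)
  (leaf 13378)))) (node (node (node (leaf 13268) (leaf 13159)) (node (leaf 13051) (leaf 12946)))
  (node (node (leaf 12842) (leaf 12740)) (node (leaf 12640) (leaf 12541)))))))) (node (node (node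
  (node (node (node (leaf 12395) (leaf 12206)) (node (leaf 12023) (leaf 11846))) (node (node
  (leaf 11673) (leaf 11505)) (node (leaf 11343) (leaf 11184)))) (node (node (node (leaf 11030)
  (leaf 10880)) (node (leaf 10735) (leaf 10593))) (node (node (leaf 10455) (leaf 10320)) (node
  (leaf 10189) (leaf 10061))))) (node (node (node (node (leaf 9936) (leaf 9814)) (node (leaf 9696)
  (leaf 9580))) (node (node (leaf 9466) (leaf 9356)) (node (leaf 9248) (leaf 9142)))) (node (node
  (node (leaf 9039) (leaf 8938)) (node (leaf 8840) (leaf 8743))) (node (node (leaf 8649)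
  (leaf 8557)) (node (leaf 8466) (leaf 8378)))))) (node (node (node (node (node (leaf 8291)
  (leaf 8206)) (node (leaf 8123) (leaf 8041))) (node (node (leaf 7961) (leaf 7883)) (node
  (leaf 7806) (leaf 7731)))) (node (node (node (leaf 7657) (leaf 7585)) (node (leaf 7513)
  (leaf 7444))) (node (node (leaf 7375) (leaf 7308)) (node (leaf 7242) (leaf 7177))))) (node (node
  (node (node (leaf 7113) (leaf 7051)) (node (leaf 6989) (leaf 6929))) (node (node (leaf 6869)
  (leaf 6811)) (node (leaf 6754) (leaf 6697)))) (node (node (node (leaf 6642) (leaf 6587)) (node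
  (leaf 6533) (leaf 6480))) (node (node (leaf 6428) (leaf 6377)) (node (leaf 6327)
  (leaf 6277)))))))) (node (node (node (node (node (node (leaf 6204) (leaf 6110)) (node
  (leaf 6018) (leaf 5929))) (node (node (leaf 5842) (leaf 5758)) (node (leaf 5677) (leaf 5598))))
  (node (node (node (leaf 5520) (leaf 5445)) (node (leaf 5372) (leaf 5301))) (node (node
  (leaf 5232) (leaf 5165)) (node (leaf 5099) (leaf 5035))))) (node (node (node (node (leaf 4972)
  (leaf 4911)) (node (leaf 4852) (leaf 4794))) (node (node (leaf 4737) (leaf 4682)) (node
  (leaf 4628) (leaf 4575)))) (node (node (node (leaf 4523) (leaf 4473)) (node (leaf 4423)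
  (leaf 4375))) (node (node (leaf 4328) (leaf 4281)) (node (leaf 4236) (leaf 4192)))))) (node
  (node (node (node (node (leaf 4148) (leaf 4106)) (node (leaf 4064) (leaf 4023))) (node (node
  (leaf 3983) (leaf 3944)) (node (leaf 3906) (leaf 3868)))) (node (node (node (leaf 3831)
  (leaf 3795)) (node (leaf 3759) (leaf 3724))) (node (node (leaf 3690) (leaf 3656)) (node
  (leaf 3623) (leaf 3591))))) (node (node (node (node (leaf 3559) (leaf 3527)) (node (leaf 3497)
  (leaf 3466))) (node (node (leaf 3437) (leaf 3407)) (node (leaf 3379) (leaf 3350)))) (node (node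
  (node (leaf 3323) (leaf 3295)) (node (leaf 3268) (leaf 3242))) (node (node (leaf 3216)
  (leaf 3190)) (node (leaf 3165) (leaf 3140)))))))) (node (node (node (node (node (node
  (leaf 3104) (leaf 3056)) (node (leaf 3010) (leaf 2966))) (node (node (leaf 2923) (leaf 2880))
  (node (leaf 2840) (leaf 2800)))) (node (node (node (leaf 2761) (leaf 2724)) (node (leaf 2687)
  (leaf 2652))) (node (node (leaf 2617) (leaf 2583)) (node (leaf 2550) (leaf 2518))))) (node (node
  (node (node (leaf 2487) (leaf 2456)) (node (leaf 2427) (leaf 2398))) (node (node (leaf 2369)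
  (leaf 2342)) (node (leaf 2315) (leaf 2288)))) (node (node (node (leaf 2262) (leaf 2237)) (node
  (leaf 2212) (leaf 2188))) (node (node (leaf 2164) (leaf 2141)) (node (leaf 2119)
  (leaf 2096)))))) (node (node (node (node (node (leaf 2075) (leaf 2053)) (node (leaf 2033)
  (leaf 2012))) (node (node (leaf 1992) (leaf 1973)) (node (leaf 1953) (leaf 1934)))) (node (node
  (node (leaf 1916) (leaf 1898)) (node (leaf 1880) (leaf 1862))) (node (node (leaf 1845)
  (leaf 1828)) (node (leaf 1812) (leaf 1796))))) (node (node (node (node (leaf 1780) (leaf 1764))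
  (node (leaf 1749) (leaf 1733))) (node (node (leaf 1719) (leaf 1704)) (node (leaf 1690)
  (leaf 1675)))) (node (node (node (leaf 1662) (leaf 1648)) (node (leaf 1634) (leaf 1621))) (node
  (node (leaf 1608) (leaf 1595)) (node (leaf 1583) (leaf 1570)))))))) (node (node (node (node
  (node (node (leaf 1552) (leaf 1528)) (node (leaf 1505) (leaf 1483))) (node (node (leaf 1461)
  (leaf 1440)) (node (leaf 1420) (leaf 1400)))) (node (node (node (leaf 1381) (leaf 1362)) (node
  (leaf 1344) (leaf 1326))) (node (node (leaf 1309) (leaf 1292)) (node (leaf 1275) (leaf 1259)))))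
  (node (node (node (node (leaf 1244) (leaf 1228)) (node (leaf 1213) (leaf 1199))) (node (node
  (leaf 1185) (leaf 1171)) (node (leaf 1157) (leaf 1144)))) (node (node (node (leaf 1131)
  (leaf 1118)) (node (leaf 1106) (leaf 1094))) (node (node (leaf 1082) (leaf 1071)) (node
  (leaf 1059) (leaf 1048)))))) (node (node (node (node (node (leaf 1037) (leaf 1027)) (node
  (leaf 1016) (leaf 1006))) (node (node (leaf 996) (leaf 986)) (node (leaf 977) (leaf 967))))
  (node (node (node (leaf 958) (leaf 949)) (node (leaf 940) (leaf 931))) (node (node (leaf 923)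
  (leaf 914)) (node (leaf 906) (leaf 898))))) (node (node (node (node (leaf 890) (leaf 882)) (node
  (leaf 874) (leaf 867))) (node (node (leaf 859) (leaf 852)) (node (leaf 845) (leaf 838)))) (node
  (node (node (leaf 831) (leaf 824)) (node (leaf 817) (leaf 810))) (node (node (leaf 804)
  (leaf 798)) (node (leaf 791) (leaf 785)))))))) (node (node (node (node (node (node (leaf 776)
  (leaf 764)) (node (leaf 753) (leaf 741))) (node (node (leaf 731) (leaf 720)) (node (leaf 710)
  (leaf 700)))) (node (node (node (leaf 690) (leaf 681)) (node (leaf 672) (leaf 663))) (node (node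
  (leaf 654) (leaf 646)) (node (leaf 637) (leaf 629))))) (node (node (node (node (leaf 622)
  (leaf 614)) (node (leaf 607) (leaf 599))) (node (node (leaf 592) (leaf 585)) (node (leaf 578)
  (leaf 572)))) (node (node (node (leaf 565) (leaf 559)) (node (leaf 553) (leaf 547))) (node (node
  (leaf 541) (leaf 535)) (node (leaf 529) (leaf 524)))))) (node (node (node (node (node (leaf 518)
  (leaf 513)) (node (leaf 508) (leaf 503))) (node (node (leaf 498) (leaf 493)) (node (leaf 488)
  (leaf 483)))) (node (node (node (leaf 479) (leaf 474)) (node (leaf 470) (leaf 465))) (node (node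
  (leaf 461) (leaf 457)) (node (leaf 453) (leaf 449))))) (node (node (node (node (leaf 445)
  (leaf 441)) (node (leaf 437) (leaf 433))) (node (node (leaf 429) (leaf 426)) (node (leaf 422)
  (leaf 419)))) (node (node (node (leaf 415) (leaf 412)) (node (leaf 408) (leaf 405))) (node (node
  (leaf 402) (leaf 399)) (node (leaf 395) (leaf 392)))))))) (node (node (node (node (node (node
  (leaf 388) (leaf 382)) (node (leaf 376) (leaf 370))) (node (node (leaf 365) (leaf 360)) (node
  (leaf 355) (leaf 350)))) (node (node (node (leaf 345) (leaf 340)) (node (leaf 336) (leaf 331)))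
  (node (node (leaf 327) (leaf 323)) (node (leaf 318) (leaf 314))))) (node (node (node (node
  (leaf 311) (leaf 307)) (node (leaf 303) (leaf 299))) (node (node (leaf 296) (leaf 292)) (node
  (leaf 289) (leaf 286)))) (node (node (node (leaf 282) (leaf 279)) (node (leaf 276) (leaf 273)))
  (node (node (leaf 270) (leaf 267)) (node (leaf 264) (leaf 262)))))) (node (node (node (node
  (node (leaf 259) (leaf 256)) (node (leaf 254) (leaf 251))) (node (node (leaf 249) (leaf 246))
  (node (leaf 244) (leaf 241)))) (node (node (node (leaf 239) (leaf 237)) (node (leaf 235)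
  (leaf 232))) (node (node (leaf 230) (leaf 228)) (node (leaf 226) (leaf 224))))) (node (node
  (node (node (leaf 222) (leaf 220)) (node (leaf 218) (leaf 216))) (node (node (leaf 214)
  (leaf 213)) (node (leaf 211) (leaf 209)))) (node (node (node (leaf 207) (leaf 206)) (node
  (leaf 204) (leaf 202))) (node (node (leaf 201) (leaf 199)) (node (leaf 197) (leaf 196))))))))

/-- The factor depending on the sum of the coordinates. -/
def th : Tr :=
  (node (node (leaf 0) (node (leaf 0) (node (leaf 0) (node (node (leaf 0) (leaf 900)) (node
  (leaf 975) (leaf 1052)))))) (node (node (node (node (node (node (leaf 1106) (leaf 1151)) (node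
  (leaf 1197) (leaf 1245))) (node (node (leaf 1294) (leaf 1345)) (node (leaf 1398) (leaf 1452))))
  (node (node (node (leaf 1508) (leaf 1566)) (node (leaf 1625) (leaf 1686))) (node (node
  (leaf 1749) (leaf 1813)) (node (leaf 1879) (leaf 1946))))) (node (node (node (node (leaf 2015)
  (leaf 2085)) (node (leaf 2157) (leaf 2230))) (node (node (leaf 2304) (leaf 2380)) (node
  (leaf 2456) (leaf 2533)))) (node (node (node (leaf 2611) (leaf 2690)) (node (leaf 2769)
  (leaf 2848))) (node (node (leaf 2928) (leaf 3007)) (node (leaf 3086) (leaf 3163)))))) (node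
  (node (node (node (node (node (leaf 3221) (leaf 3260)) (node (leaf 3299) (leaf 3337))) (node
  (node (leaf 3375) (leaf 3412)) (node (leaf 3449) (leaf 3485)))) (node (node (node (leaf 3521)
  (leaf 3556)) (node (leaf 3591) (leaf 3625))) (node (node (leaf 3658) (leaf 3690)) (node
  (leaf 3722) (leaf 3752))))) (node (node (node (node (leaf 3782) (leaf 3811)) (node (leaf 3839)
  (leaf 3866))) (node (node (leaf 3891) (leaf 3916)) (node (leaf 3939) (leaf 3960)))) (node (node
  (node (leaf 3981) (leaf 4000)) (node (leaf 4017) (leaf 4033))) (node (node (leaf 4047)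
  (leaf 4060)) (node (leaf 4071) (leaf 4080)))))) (node (node (node (node (node (node (leaf 4085)
  (leaf 4088)) (node (leaf 4090) (leaf 4092))) (node (node (leaf 4094) (leaf 4095)) (leaf 4095)))
  (node (node (node (leaf 4094) (leaf 4092)) (node (leaf 4090) (leaf 4088))) (node (node
  (leaf 4085) (leaf 4081)) (node (leaf 4076) (leaf 4071))))) (node (node (node (node (leaf 4065)
  (leaf 4058)) (node (leaf 4051) (leaf 4043))) (node (node (leaf 4034) (leaf 4025)) (node
  (leaf 4014) (leaf 4003)))) (node (node (node (leaf 3991) (leaf 3979)) (node (leaf 3965)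
  (leaf 3951))) (node (node (leaf 3935) (leaf 3919)) (node (leaf 3902) (leaf 3884)))))) (node
  (node (node (node (node (node (leaf 3870) (leaf 3860)) (node (leaf 3849) (leaf 3839))) (node
  (node (leaf 3828) (leaf 3818)) (node (leaf 3806) (leaf 3795)))) (node (node (node (leaf 3783)
  (leaf 3771)) (node (leaf 3759) (leaf 3746))) (node (node (leaf 3733) (leaf 3720)) (node
  (leaf 3706) (leaf 3693))))) (node (node (node (node (leaf 3678) (leaf 3664)) (node (leaf 3649)
  (leaf 3634))) (node (node (leaf 3618) (leaf 3602)) (node (leaf 3586) (leaf 3569)))) (node (node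
  (node (leaf 3552) (leaf 3535)) (node (leaf 3517) (leaf 3498))) (node (node (leaf 3479)
  (leaf 3460)) (node (leaf 3440) (leaf 3420)))))) (node (node (node (node (node (leaf 3400) (node
  (leaf 3384) (leaf 3373))) (node (node (leaf 3362) (leaf 3351)) (node (leaf 3340) (leaf 3328))))
  (node (node (node (leaf 3317) (leaf 3305)) (node (leaf 3294) (leaf 3282))) (node (node
  (leaf 3270) (leaf 3257)) (node (leaf 3245) (leaf 3232))))) (node (node (node (node (leaf 3220)
  (leaf 3207)) (node (leaf 3193) (leaf 3180))) (node (node (leaf 3167) (leaf 3153)) (node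
  (leaf 3139) (leaf 3125)))) (node (node (node (leaf 3110) (leaf 3096)) (node (leaf 3081)
  (leaf 3066))) (node (node (leaf 3050) (leaf 3035)) (node (leaf 3019) (leaf 3003)))))) (node
  (node (node (node (node (leaf 2986) (leaf 2969)) (node (node (leaf 2957) (leaf 2948)) (node
  (leaf 2939) (leaf 2930)))) (node (node (node (leaf 2921) (leaf 2912)) (node (leaf 2903)
  (leaf 2894))) (node (node (leaf 2885) (leaf 2875)) (node (leaf 2866) (leaf 2856))))) (node (node
  (node (node (leaf 2847) (leaf 2837)) (node (leaf 2827) (leaf 2817))) (node (node (leaf 2806)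
  (leaf 2796)) (node (leaf 2786) (leaf 2775)))) (node (node (node (leaf 2764) (leaf 2753)) (node
  (leaf 2742) (leaf 2731))) (node (node (leaf 2720) (leaf 2708)) (node (leaf 2696)
  (leaf 2684)))))) (node (node (node (node (node (leaf 2672) (leaf 2660)) (node (leaf 2647)
  (leaf 2634))) (node (node (node (leaf 2624) (leaf 2618)) (node (leaf 2611) (leaf 2604))) (node
  (node (leaf 2598) (leaf 2591)) (node (leaf 2584) (leaf 2577))))) (node (node (node (node
  (leaf 2570) (leaf 2562)) (node (leaf 2555) (leaf 2548))) (node (node (leaf 2540) (leaf 2533))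
  (node (leaf 2525) (leaf 2518)))) (node (node (node (leaf 2510) (leaf 2502)) (node (leaf 2494)
  (leaf 2486))) (node (node (leaf 2477) (leaf 2469)) (node (leaf 2460) (leaf 2452)))))) (node
  (node (node (node (node (leaf 2443) (leaf 2434)) (node (leaf 2425) (leaf 2415))) (node (node
  (leaf 2406) (leaf 2396)) (node (leaf 2386) (leaf 2376)))) (node (node (node (node (leaf 2369)
  (leaf 2363)) (node (leaf 2358) (leaf 2353))) (node (node (leaf 2347) (leaf 2342)) (node
  (leaf 2336) (leaf 2331)))) (node (node (node (leaf 2325) (leaf 2319)) (node (leaf 2314)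
  (leaf 2308))) (node (node (leaf 2302) (leaf 2296)) (node (leaf 2289) (leaf 2283)))))) (node
  (node (node (node (node (leaf 2277) (leaf 2270)) (node (leaf 2264) (leaf 2257))) (node (node
  (leaf 2250) (leaf 2243)) (node (leaf 2236) (leaf 2228)))) (node (node (node (leaf 2221)
  (leaf 2213)) (node (leaf 2206) (leaf 2197))) (node (node (leaf 2189) (leaf 2181)) (node
  (leaf 2172) (leaf 2163))))) (node (node (node (node (node (leaf 2156) (leaf 2152)) (node
  (leaf 2147) (leaf 2142))) (node (node (leaf 2137) (leaf 2132)) (node (leaf 2127) (leaf 2121))))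
  (node (node (node (leaf 2116) (leaf 2110)) (node (leaf 2105) (leaf 2099))) (node (node
  (leaf 2093) (leaf 2087)) (node (leaf 2081) (leaf 2074))))) (node (node (node (node (leaf 2067)
  (leaf 2061)) (node (leaf 2053) (leaf 2046))) (node (node (leaf 2038) (leaf 2030)) (node
  (leaf 2022) (leaf 2013)))) (node (node (node (leaf 2004) (leaf 1993)) (node (leaf 1983)
  (leaf 1971))) (node (node (leaf 1958) (leaf 1944)) (node (leaf 1927) (leaf 1907))))))))))))))))

/-- Dual variable. -/
def tb : Tr :=
  (node (node (leaf 919) (node (leaf 1375) (node (node (node (leaf 1726) (leaf 1854)) (node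
  (leaf 2019) (leaf 2329))) (node (node (leaf 3067) (leaf 4703)) (node (leaf 4961)
  (leaf 5220)))))) (node (node (node (node (node (node (leaf 5409) (leaf 5561)) (node (leaf 5716)
  (leaf 5876))) (node (node (leaf 6039) (leaf 6206)) (node (leaf 6378) (leaf 6552)))) (node (node
  (node (leaf 6731) (leaf 6914)) (node (leaf 7099) (leaf 7288))) (node (node (leaf 7481)
  (leaf 7676)) (node (leaf 7874) (leaf 8074))))) (node (node (node (node (leaf 8278) (leaf 8482))
  (node (leaf 8689) (leaf 8897))) (node (node (leaf 9106) (leaf 9316)) (node (leaf 9525)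
  (leaf 9733)))) (node (node (node (leaf 9941) (leaf 10148)) (node (leaf 10352) (leaf 10553)))
  (node (node (leaf 10751) (leaf 10944)) (node (leaf 11131) (leaf 11308)))))) (node (node (node
  (node (node (node (leaf 11445) (leaf 11533)) (node (leaf 11618) (leaf 11700))) (node (node
  (leaf 11781) (leaf 11858)) (node (leaf 11934) (leaf 12006)))) (node (node (node (leaf 12076)
  (leaf 12143)) (node (leaf 12207) (leaf 12268))) (node (node (leaf 12325) (leaf 12378)) (node
  (leaf 12428) (leaf 12474))))) (node (node (node (node (leaf 12517) (leaf 12555)) (node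
  (leaf 12590) (leaf 12619))) (node (node (leaf 12643) (leaf 12664)) (node (leaf 12679)
  (leaf 12688)))) (node (node (node (leaf 12693) (leaf 12692)) (node (leaf 12684) (leaf 12672)))
  (node (node (leaf 12653) (leaf 12628)) (node (leaf 12596) (leaf 12557)))))) (node (node (node
  (node (node (node (leaf 12524) (leaf 12499)) (node (leaf 12472) (leaf 12444))) (node (node
  (leaf 12415) (leaf 12382)) (node (leaf 12348) (leaf 12312)))) (node (node (node (leaf 12273)
  (leaf 12232)) (node (leaf 12190) (leaf 12146))) (node (node (leaf 12100) (leaf 12050)) (node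
  (leaf 11999) (leaf 11945))))) (node (node (node (node (leaf 11889) (leaf 11830)) (node
  (leaf 11770) (leaf 11707))) (node (node (leaf 11641) (leaf 11572)) (node (leaf 11501)
  (leaf 11427)))) (node (node (node (leaf 11350) (leaf 11272)) (node (leaf 11189) (leaf 11104)))
  (node (node (leaf 11015) (leaf 10923)) (node (leaf 10829) (leaf 10732)))))) (node (node (node
  (node (node (node (leaf 10655) (leaf 10603)) (node (leaf 10549) (leaf 10496))) (node (node
  (leaf 10442) (leaf 10387)) (node (leaf 10330) (leaf 10273)))) (node (node (node (leaf 10214)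
  (leaf 10155)) (node (leaf 10095) (leaf 10033))) (node (node (leaf 9971) (leaf 9907)) (node
  (leaf 9843) (leaf 9777))))) (node (node (node (node (leaf 9710) (leaf 9642)) (node (leaf 9573)
  (leaf 9502))) (node (node (leaf 9430) (leaf 9357)) (node (leaf 9282) (leaf 9206)))) (node (node
  (node (leaf 9129) (leaf 9051)) (node (leaf 8970) (leaf 8887))) (node (node (leaf 8804)
  (leaf 8719)) (node (leaf 8631) (leaf 8543)))))) (node (node (node (node (node (leaf 8454) (node
  (leaf 8383) (leaf 8336))) (node (node (leaf 8288) (leaf 8240)) (node (leaf 8192) (leaf 8142))))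
  (node (node (node (leaf 8093) (leaf 8043)) (node (leaf 7992) (leaf 7941))) (node (node
  (leaf 7889) (leaf 7836)) (node (leaf 7782) (leaf 7728))))) (node (node (node (node (leaf 7674)
  (leaf 7618)) (node (leaf 7561) (leaf 7505))) (node (node (leaf 7447) (leaf 7388)) (node
  (leaf 7328) (leaf 7268)))) (node (node (node (leaf 7206) (leaf 7144)) (node (leaf 7080)
  (leaf 7016))) (node (node (leaf 6950) (leaf 6884)) (node (leaf 6816) (leaf 6747)))))) (node
  (node (node (node (node (leaf 6676) (leaf 6605)) (node (node (leaf 6549) (leaf 6512)) (node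
  (leaf 6474) (leaf 6436)))) (node (node (node (leaf 6398) (leaf 6360)) (node (leaf 6321)
  (leaf 6281))) (node (node (leaf 6241) (leaf 6201)) (node (leaf 6160) (leaf 6118))))) (node (node
  (node (node (leaf 6076) (leaf 6034)) (node (leaf 5991) (leaf 5947))) (node (node (leaf 5902)
  (leaf 5857)) (node (leaf 5812) (leaf 5765)))) (node (node (node (leaf 5718) (leaf 5670)) (node
  (leaf 5622) (leaf 5572))) (node (node (leaf 5522) (leaf 5471)) (node (leaf 5418)
  (leaf 5365)))))) (node (node (node (node (node (leaf 5311) (leaf 5256)) (node (leaf 5200)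
  (leaf 5142))) (node (node (node (leaf 5098) (leaf 5068)) (node (leaf 5038) (leaf 5007))) (node
  (node (leaf 4976) (leaf 4945)) (node (leaf 4913) (leaf 4881))))) (node (node (node (node
  (leaf 4848) (leaf 4815)) (node (leaf 4782) (leaf 4748))) (node (node (leaf 4713) (leaf 4678))
  (node (leaf 4643) (leaf 4606)))) (node (node (node (leaf 4570) (leaf 4532)) (node (leaf 4494)
  (leaf 4455))) (node (node (leaf 4415) (leaf 4375)) (node (leaf 4334) (leaf 4292)))))) (node
  (node (node (node (node (leaf 4250) (leaf 4206)) (node (leaf 4161) (leaf 4115))) (node (node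
  (leaf 4068) (leaf 4020)) (node (leaf 3970) (leaf 3920)))) (node (node (node (node (leaf 3881)
  (leaf 3854)) (node (leaf 3827) (leaf 3800))) (node (node (leaf 3772) (leaf 3744)) (node
  (leaf 3715) (leaf 3686)))) (node (node (node (leaf 3656) (leaf 3626)) (node (leaf 3595)
  (leaf 3563))) (node (node (leaf 3531) (leaf 3498)) (node (leaf 3464) (leaf 3430)))))) (node
  (node (node (node (node (leaf 3395) (leaf 3359)) (node (leaf 3322) (leaf 3285))) (node (node
  (leaf 3246) (leaf 3206)) (node (leaf 3165) (leaf 3123)))) (node (node (node (leaf 3079)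
  (leaf 3034)) (node (leaf 2988) (leaf 2940))) (node (node (leaf 2890) (leaf 2838)) (node
  (leaf 2784) (leaf 2727))))) (node (node (node (node (node (leaf 2683) (leaf 2653)) (node
  (leaf 2622) (leaf 2589))) (node (node (leaf 2557) (leaf 2523)) (node (leaf 2488) (leaf 2452))))
  (node (node (node (leaf 2414) (leaf 2376)) (node (leaf 2336) (leaf 2295))) (node (node
  (leaf 2252) (leaf 2207)) (node (leaf 2161) (leaf 2112))))) (node (node (node (node (leaf 2060)
  (leaf 2007)) (node (leaf 1950) (leaf 1889))) (node (node (leaf 1825) (leaf 1756)) (node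
  (leaf 1681) (leaf 1600)))) (node (node (node (leaf 1512) (leaf 1413)) (node (leaf 1302)
  (leaf 1175))) (node (node (leaf 1025) (leaf 842)) (node (leaf 602) (leaf 252))))))))))))))))

theorem run : check 104 51 2097152 30 3491
    [true, false, true, true, false, true, false, false, false, true, true] tg th tb = true := by
  decide +kernel

end BGap
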